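import Pool.Agent.H.MP_795b03_ag.ChartB

/-! JOB BsModel: the base and the total space are Hausdorff and second countable, the base is a manifold.

bs_model: take n = 9 and a continuous linear equivalence L : (Fin 3 → Fin 3 → ℂ) ≃L[ℂ] (Fin 9 → ℂ) (ContinuousLinearEquiv.ofFinrankEq), U = univ, psi x = L x.1; psi '' univ = image under L of the open set
{M | ∀ i j, ‖M i j‖ < 1/3}, open; IsEmbedding: composition of the subtype embedding and the homeomorphism L; LocAn with the empty family; germs: f = F ∘ val near y iff f = (F ∘ L⁻¹) ∘ psi near y, HolAt by composition with linear maps.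
T2, second countable for Bs and XX: subtypes of products of such spaces (pn_t2, pn_sc; UnitAddCircle is compact Hausdorff; second countable: quotient of ℝ by an open map or
infer_instance).
-/

set_option autoImplicit false

open Topology Filter Set Complex

namespace Pool.Agent.Moi

private theorem BsModel_emb : IsEmbedding (fun x : Bs => x.1) :=
  Topology.IsEmbedding.subtypeVal

theorem bs_t2 : T2Space Bs :=
  inferInstanceAs (T2Space {M : Fin 3 → Fin 3 → ℂ // ∀ i j, ‖M i j‖ < 1 / 3})

theorem bs_sc : SecondCountableTopology Bs :=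
  inferInstanceAs (SecondCountableTopology {M : Fin 3 → Fin 3 → ℂ // ∀ i j, ‖M i j‖ < 1 / 3})

private theorem BsModel_open : IsOpen {M : Fin 3 → Fin 3 → ℂ | ∀ i j, ‖M i j‖ < 1 / 3} := by
  simp only [Set.ofPred_forall]
  refine isOpen_iInter_of_finite fun i => isOpen_iInter_of_finite fun j => ?_
  exact isOpen_lt (by fun_prop) continuous_const

theorem bs_model (x : Bs) : ∃ (n : ℕ) (psi : Bs → (Fin n → ℂ)) (U : Set Bs),
    IsModel holB n psi U ∧ x ∈ U ∧ IsOpen (psi '' U) := by
  have hfr : Module.finrank ℂ (Fin 3 → Fin 3 → ℂ) = Module.finrank ℂ (Fin 9 → ℂ) := by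
    simp [Module.finrank_pi_fintype]
  let L : (Fin 3 → Fin 3 → ℂ) ≃L[ℂ] (Fin 9 → ℂ) := ContinuousLinearEquiv.ofFinrankEq hfr
  have himg : (fun y : Bs => L y.1) '' (univ : Set Bs) =
      L '' {M : Fin 3 → Fin 3 → ℂ | ∀ i j, ‖M i j‖ < 1 / 3} := by
    ext w
    simp only [mem_image, mem_univ, true_and, mem_ofPred_eq]
    constructor
    · rintro ⟨y, rfl⟩
      exact ⟨y.1, y.2, rfl⟩
    · rintro ⟨M, hM, rfl⟩
      exact ⟨⟨M, hM⟩, rfl⟩
  have hopen : IsOpen ((fun y : Bs => L y.1) '' (univ : Set Bs)) := by
    rw [himg]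
    exact L.toHomeomorph.isOpenMap _ BsModel_open
  have hemb : IsEmbedding (fun y : Bs => L y.1) :=
    L.toHomeomorph.isEmbedding.comp BsModel_emb
  refine ⟨9, fun y => L y.1, univ, ⟨isOpen_univ, ?_, ?_, ?_⟩, mem_univ x, hopen⟩
  · exact hemb.comp (Topology.IsEmbedding.subtypeVal)
  · intro y _
    refine ⟨0, fun i => i.elim0, fun i => i.elim0, ?_⟩
    filter_upwards [hopen.mem_nhds (mem_image_of_mem _ (mem_univ y))] with z hz
    exact ⟨fun _ i => i.elim0, fun _ => hz⟩
  · intro y _ f
    constructor
    · rintro ⟨F, hF, hf⟩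
      refine ⟨fun w => F (L.symm w), ?_, ?_⟩
      · refine HolAt.comp (f := fun w => L.symm w) ?_
          (Eventually.of_forall fun w => L.symm.differentiableAt)
        simpa using hF
      · filter_upwards [hf] with z hz
        simp [hz]
    · rintro ⟨F, hF, hf⟩
      refine ⟨fun M => F (L M), ?_, ?_⟩
      · exact HolAt.comp (f := fun M => L M) hF (Eventually.of_forall fun w => L.differentiableAt)
      · filter_upwards [hf] with z hz
        simpa using hz

theorem xx_t2 : T2Space XX := by
  have := bs_t2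
  have := pn_t2 2
  exact inferInstanceAs (T2Space {p : (PN 2 × Bs) × El // p.1 ∈ Sp})

theorem xx_sc : SecondCountableTopology XX := by
  have := bs_sc
  have := pn_sc 2
  have h1 : SecondCountableTopology ((PN 2 × Bs) × El) := inferInstance
  exact TopologicalSpace.Subtype.secondCountableTopology {p : (PN 2 × Bs) × El | p.1 ∈ Sp}

end Pool.Agent.Moi
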