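import Pool.Agent.H.MP_795b03_ag.LocA

/-! JOB LocM: the projection pr and the multiplicities.

pr facts: pr is a continuous additive homomorphism ℂ → El = UnitAddCircle × UnitAddCircle, surjective, pr z = pr w iff z - w = m + n I with integers m, n
(AddCircle: (x : UnitAddCircle) = y iff x - y is an integer: AddCircle.coe_eq_coe_iff_of_mem_Ico or QuotientAddGroup.eq / AddCircle.coe_eq_zero_iff).
pr_locInj: pr is injective on ball z (1/2), and a local homeomorphism: pr_local: if q is near pr z then there is a unique z' near z with pr z' = q; stated as: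
for every neighbourhood W of z, pr '' W is a neighbourhood of pr z (quotient maps of groups are open: QuotientAddGroup.isOpenMap_coe; product of open maps and
the homeomorphism ℂ ≃ ℝ × ℝ).
mlt_eq: let phi, psi be two lifts at p = (u,x).  Near p, phi q ∈ Y_q, so phi q = c(q) • psi q, c(q) ≠ 0; with k such that psi p k ≠ 0, c = phi_k/psi_k near p is
holomorphic and nonvanishing.  So z ↦ phi (u,z) i equals c(u,z) * psi (u,z) i near x and the analytic orders agree (order of a product, order of a nonvanishing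
function is 0).  Apply with psi = Classical.choose.
mlt_per: if phi is a lift at (u, x + l) then q ↦ phi (q.1, q.2 + l) is a lift at (u, x) by h.per (V open), l = m + n I; conversely too; if there is no lift
at one there is none at the other and both values are 0.
mE_pr: pr (sec (pr x)) = pr x (surjectivity, Classical.epsilon_spec), so sec (pr x) = x + m + n I.
-/

set_option autoImplicit false

open Topology Filter Set Complex Metric

namespace Pool.Agent.Moi

theorem continuous_pr : Continuous pr :=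
  ((AddCircle.continuous_mk' (1 : ℝ)).comp Complex.continuous_re).prodMk
    ((AddCircle.continuous_mk' (1 : ℝ)).comp Complex.continuous_im)

theorem pr_add (z w : ℂ) : pr (z + w) = pr z + pr w := by
  simp only [pr, Complex.add_re, Complex.add_im, AddCircle.coe_add, Prod.mk_add_mk]

theorem pr_sub (z w : ℂ) : pr (z - w) = pr z - pr w := by
  simp only [pr, Complex.sub_re, Complex.sub_im, AddCircle.coe_sub, Prod.mk_sub_mk]

theorem pr_zero : pr 0 = 0 := by
  simp only [pr, Complex.zero_re, Complex.zero_im, AddCircle.coe_zero]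
  rfl

theorem pr_nsmul (n : ℕ) (z : ℂ) : pr ((n : ℂ) * z) = n • pr z := by
  induction n with
  | zero => simp [pr_zero]
  | succ k ih => rw [succ_nsmul, ← ih, ← pr_add]; push_cast; ring_nf

theorem pr_sum {ι : Type} (s : Finset ι) (f : ι → ℂ) : pr (∑ i ∈ s, f i) = ∑ i ∈ s, pr (f i) := by
  classical
  induction s using Finset.induction_on with
  | empty => simp [pr_zero]
  | insert a s ha ih => rw [Finset.sum_insert ha, Finset.sum_insert ha, pr_add, ih]

theorem pr_surjective : Function.Surjective pr := by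
  rintro ⟨a, b⟩
  obtain ⟨x, rfl⟩ := QuotientAddGroup.mk_surjective a
  obtain ⟨y, rfl⟩ := QuotientAddGroup.mk_surjective b
  exact ⟨⟨x, y⟩, rfl⟩

private theorem LocM_coe_eq (x y : ℝ) : (x : UnitAddCircle) = (y : UnitAddCircle) ↔ ∃ n : ℤ, x = y + n := by
  constructor
  · intro h
    have h1 : ((x - y : ℝ) : UnitAddCircle) = 0 := by
      rw [AddCircle.coe_sub, h, sub_self]
    obtain ⟨n, hn⟩ := (AddCircle.coe_eq_zero_iff (1 : ℝ)).1 h1
    refine ⟨n, ?_⟩
    have : (n : ℝ) = x - y := by simpa using hn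
    linarith
  · rintro ⟨n, rfl⟩
    have h1 : ((n : ℝ) : UnitAddCircle) = 0 :=
      (AddCircle.coe_eq_zero_iff (1 : ℝ)).2 ⟨n, by simp⟩
    rw [AddCircle.coe_add, h1, add_zero]

theorem pr_eq_iff (z w : ℂ) : pr z = pr w ↔ ∃ m n : ℤ, z = w + (m : ℂ) + (n : ℂ) * I := by
  rw [pr, pr, Prod.mk.injEq, LocM_coe_eq, LocM_coe_eq]
  constructor
  · rintro ⟨⟨m, hm⟩, ⟨n, hn⟩⟩
    refine ⟨m, n, ?_⟩
    apply Complex.ext
    · simp [hm]
    · simp [hn]
  · rintro ⟨m, n, rfl⟩
    exact ⟨⟨m, by simp⟩, ⟨n, by simp⟩⟩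

theorem pr_sec (q : El) : pr (sec q) = q :=
  Classical.epsilon_spec (p := fun z => pr z = q) (pr_surjective q)

theorem pr_injOn (z : ℂ) : InjOn pr (ball z (1 / 2)) := by
  intro a ha b hb hab
  obtain ⟨m, n, hmn⟩ := (pr_eq_iff a b).1 hab
  have hd : ‖a - b‖ < 1 := by
    have h1 : dist a z < 1 / 2 := ha
    have h2 : dist b z < 1 / 2 := hb
    have h3 : dist a b ≤ dist a z + dist b z := dist_triangle_right a b z
    rw [← dist_eq_norm]
    linarith
  have hab' : a - b = (m : ℂ) + (n : ℂ) * I := by rw [hmn]; ring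
  have hre : |(m : ℝ)| < 1 := by
    have h1 := Complex.abs_re_le_norm (a - b)
    rw [hab'] at h1
    have h2 : ((m : ℂ) + (n : ℂ) * I).re = (m : ℝ) := by simp
    rw [h2, ← hab'] at h1
    linarith
  have him : |(n : ℝ)| < 1 := by
    have h1 := Complex.abs_im_le_norm (a - b)
    rw [hab'] at h1
    have h2 : ((m : ℂ) + (n : ℂ) * I).im = (n : ℝ) := by simp
    rw [h2, ← hab'] at h1
    linarith
  have hm0 : m = 0 := by
    have : |m| < 1 := by exact_mod_cast hre
    exact Int.abs_lt_one_iff.1 this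
  have hn0 : n = 0 := by
    have : |n| < 1 := by exact_mod_cast him
    exact Int.abs_lt_one_iff.1 this
  rw [hm0, hn0] at hmn
  simpa using hmn

private theorem LocM_isOpenMap_pr : IsOpenMap pr := by
  have h1 : IsOpenMap (fun x : ℝ => (x : UnitAddCircle)) := QuotientAddGroup.isOpenMap_coe
  have h2 : IsOpenMap (Prod.map (fun x : ℝ => (x : UnitAddCircle)) (fun x : ℝ => (x : UnitAddCircle))) :=
    h1.prodMap h1
  have h3 : IsOpenMap (Complex.equivRealProdCLM : ℂ → ℝ × ℝ) :=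
    Complex.equivRealProdCLM.toHomeomorph.isOpenMap
  exact h2.comp h3

theorem pr_nhds (z : ℂ) {W : Set ℂ} (hW : W ∈ 𝓝 z) : pr '' W ∈ 𝓝 (pr z) :=
  LocM_isOpenMap_pr.image_mem_nhds hW

/-- distance in `El` is at most the distance in `ℂ` -/
theorem dist_pr_le (z w : ℂ) : dist (pr z) (pr w) ≤ dist z w := by
  rw [dist_eq_norm, dist_eq_norm, ← pr_sub]
  rw [pr, Prod.norm_def]
  apply max_le
  · refine le_trans ?_ (Complex.abs_re_le_norm (z - w))
    exact QuotientAddGroup.norm_mk_le_norm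
  · refine le_trans ?_ (Complex.abs_im_le_norm (z - w))
    exact QuotientAddGroup.norm_mk_le_norm

private theorem LocM_exists_small (q : UnitAddCircle) : ∃ r : ℝ, (r : UnitAddCircle) = q ∧ |r| = ‖q‖ := by
  obtain ⟨x, rfl⟩ := QuotientAddGroup.mk_surjective q
  refine ⟨x - round x, ?_, ?_⟩
  · apply (LocM_coe_eq _ _).2
    exact ⟨- round x, by push_cast; ring⟩
  · exact (UnitAddCircle.norm_eq (x := x)).symm

/-- every `q` near `pr z` has a lift at distance at most `2 * dist` from `z` -/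
theorem exists_pr_close (z : ℂ) (q : El) : ∃ w : ℂ, pr w = q ∧ dist w z ≤ 2 * dist q (pr z) := by
  obtain ⟨r, hr, hr'⟩ := LocM_exists_small (q - pr z).1
  obtain ⟨s, hs, hs'⟩ := LocM_exists_small (q - pr z).2
  refine ⟨z + ⟨r, s⟩, ?_, ?_⟩
  · rw [pr_add]
    have : pr ⟨r, s⟩ = q - pr z := by
      rw [pr, hr, hs]
    rw [this]; abel
  · rw [dist_eq_norm, dist_eq_norm]
    have h1 : ‖(z + ⟨r, s⟩ - z : ℂ)‖ ≤ |r| + |s| := by
      have h2 : (z + ⟨r, s⟩ - z : ℂ) = ⟨r, s⟩ := by ring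
      rw [h2]
      exact Complex.norm_le_abs_re_add_abs_im ⟨r, s⟩
    have h3 : |r| ≤ ‖q - pr z‖ := by rw [hr']; exact norm_fst_le _
    have h4 : |s| ≤ ‖q - pr z‖ := by rw [hs']; exact norm_snd_le _
    linarith

variable {E : Type} [NormedAddCommGroup E] [NormedSpace ℂ E] [FiniteDimensional ℂ E] {N : ℕ}
  {V : Set E} {Y : Set (E × ℂ × (Fin (N + 1) → ℂ))} {B : Set (E × ℂ)} {i0 : Fin (N + 1)}

omit [FiniteDimensional ℂ E] in
private theorem LocM_line {F : E × ℂ → ℂ} {u : E} {x : ℂ} (h : HolAt F (u, x)) :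
    AnalyticAt ℂ (fun z => F (u, z)) x := by
  rw [Complex.analyticAt_iff_eventually_differentiableAt]
  exact HolAt.comp (f := fun z : ℂ => (u, z)) h
    (Eventually.of_forall fun s => by fun_prop)

omit [FiniteDimensional ℂ E] in
private theorem LocM_order_eq {i : Fin (N + 1)} {u : E} {x : ℂ} {phi psi : E × ℂ → Fin (N + 1) → ℂ}
    (hphi : LiftOf Y (u, x) phi) (hpsi : LiftOf Y (u, x) psi) :
    analyticOrderAt (fun z => phi (u, z) i) x = analyticOrderAt (fun z => psi (u, z) i) x := by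
  obtain ⟨h1, h2, h3⟩ := hphi
  obtain ⟨g1, g2, g3⟩ := hpsi
  obtain ⟨k, hk⟩ : ∃ k, psi (u, x) k ≠ 0 := by
    by_contra hcon
    push Not at hcon
    exact g2 (funext hcon)
  obtain ⟨l, hl⟩ : ∃ l, phi (u, x) l ≠ 0 := by
    by_contra hcon
    push Not at hcon
    exact h2 (funext hcon)
  have e1 : ∀ᶠ q in 𝓝 (u, x), phi q l ≠ 0 := (h1 l).continuousAt.eventually_ne hl
  have e2 : ∀ᶠ q in 𝓝 (u, x), psi q k ≠ 0 := (g1 k).continuousAt.eventually_ne hk
  have e3 : ∀ᶠ q in 𝓝 (u, x), ∃ c : ℂ, c ≠ 0 ∧ phi q = c • psi q := by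
    filter_upwards [e1, h3, g3] with q q1 q2 q3
    have hne : phi q ≠ 0 := fun h => q1 (by rw [h]; rfl)
    exact (q3 (phi q) hne).1 ((q2 (phi q) hne).2 ⟨1, one_ne_zero, (one_smul ℂ _).symm⟩)
  have e4 : ∀ᶠ q in 𝓝 (u, x), phi q k ≠ 0 ∧ phi q i = (phi q k / psi q k) * psi q i := by
    filter_upwards [e2, e3] with q q1 ⟨c, hc, q2⟩
    have e : ∀ j, phi q j = c * psi q j := fun j => by rw [q2]; rfl
    refine ⟨by rw [e k]; exact mul_ne_zero hc q1, ?_⟩
    rw [e k, e i, mul_div_assoc, div_self q1, mul_one]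
  have hcont : Tendsto (fun z : ℂ => (u, z)) (𝓝 x) (𝓝 (u, x)) :=
    (Continuous.prodMk continuous_const continuous_id).continuousAt
  have e5 := hcont.eventually e4
  have a1 : AnalyticAt ℂ (fun z => phi (u, z) k / psi (u, z) k) x :=
    (LocM_line (F := fun q => phi q k) (h1 k)).div (LocM_line (F := fun q => psi q k) (g1 k)) hk
  have a2 : AnalyticAt ℂ (fun z => psi (u, z) i) x := LocM_line (F := fun q => psi q i) (g1 i)
  have e6 : (fun z => phi (u, z) i) =ᶠ[𝓝 x]
      ((fun z => phi (u, z) k / psi (u, z) k) * (fun z => psi (u, z) i)) := by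
    filter_upwards [e5] with z hz
    exact hz.2
  rw [analyticOrderAt_congr e6, analyticOrderAt_mul a1 a2]
  have a3 : analyticOrderAt (fun z => phi (u, z) k / psi (u, z) k) x = 0 := by
    rw [a1.analyticOrderAt_eq_zero]
    exact div_ne_zero e4.self_of_nhds.1 hk
  rw [a3, zero_add]

theorem mlt_eq {i : Fin (N + 1)} {u : E} {x : ℂ} {phi : E × ℂ → Fin (N + 1) → ℂ}
    (hphi : LiftOf Y (u, x) phi) :
    mlt Y i u x = analyticOrderNatAt (fun z => phi (u, z) i) x := by
  have hL : IsLift Y (u, x) := ⟨phi, hphi⟩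
  rw [mlt, dif_pos hL, analyticOrderNatAt, analyticOrderNatAt,
    LocM_order_eq (Classical.choose_spec hL) hphi]

omit [FiniteDimensional ℂ E] in
private theorem LocM_lift_shift (h : LD V Y B i0) {u : E} (hu : u ∈ V) (x : ℂ) (m n : ℤ)
    {phi : E × ℂ → Fin (N + 1) → ℂ} (hphi : LiftOf Y (u, x + (m : ℂ) + (n : ℂ) * I) phi) :
    LiftOf Y (u, x) (fun q => phi (q.1, q.2 + (m : ℂ) + (n : ℂ) * I)) := by
  obtain ⟨h1, h2, h3⟩ := hphi
  have hc : Continuous (fun q : E × ℂ => (q.1, q.2 + (m : ℂ) + (n : ℂ) * I)) := by fun_prop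
  refine ⟨fun i => ?_, h2, ?_⟩
  · exact HolAt.comp (f := fun q : E × ℂ => (q.1, q.2 + (m : ℂ) + (n : ℂ) * I))
      (F := fun q => phi q i) (h1 i) (Eventually.of_forall fun s => by fun_prop)
  · have hV : ∀ᶠ q : E × ℂ in 𝓝 (u, x), q.1 ∈ V :=
      (continuous_fst.continuousAt (x := ((u, x) : E × ℂ))).eventually (h.isOpen.mem_nhds hu)
    have h4 : Tendsto (fun q : E × ℂ => (q.1, q.2 + (m : ℂ) + (n : ℂ) * I)) (𝓝 (u, x))
        (𝓝 (u, x + (m : ℂ) + (n : ℂ) * I)) := hc.continuousAt (x := ((u, x) : E × ℂ))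
    filter_upwards [h4.eventually h3, hV] with q q1 q2 w hw
    rw [← q1 w hw]
    exact (h.per q.1 q2 q.2 w hw m n).symm

theorem LD.mlt_per (h : LD V Y B i0) (i : Fin (N + 1)) {u : E} (hu : u ∈ V) (x : ℂ) (m n : ℤ) :
    mlt Y i u (x + (m : ℂ) + (n : ℂ) * I) = mlt Y i u x := by
  by_cases hL : IsLift Y (u, x + (m : ℂ) + (n : ℂ) * I)
  · obtain ⟨phi, hphi⟩ := hL
    rw [mlt_eq hphi, mlt_eq (LocM_lift_shift h hu x m n hphi)]
    have hg : AnalyticAt ℂ (fun z : ℂ => z + (m : ℂ) + (n : ℂ) * I) x := by fun_prop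
    have hg' : deriv (fun z : ℂ => z + (m : ℂ) + (n : ℂ) * I) x ≠ 0 := by
      have : HasDerivAt (fun z : ℂ => z + (m : ℂ) + (n : ℂ) * I) 1 x :=
        ((hasDerivAt_id x).add_const (m : ℂ)).add_const ((n : ℂ) * I)
      rw [this.deriv]
      exact one_ne_zero
    have := analyticOrderAt_comp_of_deriv_ne_zero (f := fun z => phi (u, z) i) hg hg'
    rw [analyticOrderNatAt, analyticOrderNatAt, ← this]
    rfl
  · have hL' : ¬ IsLift Y (u, x) := by
      rintro ⟨phi, hphi⟩
      apply hL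
      have hx : x = (x + (m : ℂ) + (n : ℂ) * I) + ((-m : ℤ) : ℂ) + ((-n : ℤ) : ℂ) * I := by
        push_cast; ring
      rw [hx] at hphi
      exact ⟨_, LocM_lift_shift h hu _ (-m) (-n) hphi⟩
    rw [mlt, mlt, dif_neg hL, dif_neg hL']

theorem LD.mE_pr (h : LD V Y B i0) (i : Fin (N + 1)) {u : E} (hu : u ∈ V) (x : ℂ) :
    mE Y i u (pr x) = mlt Y i u x := by
  obtain ⟨m, n, hmn⟩ := (pr_eq_iff (sec (pr x)) x).1 (pr_sec (pr x))
  rw [mE, hmn, h.mlt_per i hu]

theorem LD.Hs_per (h : LD V Y B i0) (i : Fin (N + 1)) {u : E} (hu : u ∈ V) (x : ℂ) (m n : ℤ) :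
    (u, x + (m : ℂ) + (n : ℂ) * I) ∈ Hs Y i ↔ (u, x) ∈ Hs Y i := by
  constructor
  · rintro ⟨w, h1, h2, h3⟩
    exact ⟨w, h1, h2, (h.per u hu x w h1 m n).1 h3⟩
  · rintro ⟨w, h1, h2, h3⟩
    exact ⟨w, h1, h2, (h.per u hu x w h1 m n).2 h3⟩

end Pool.Agent.Moi
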