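import Pool.Agent.H.MP_795b03_ag.Tht
import Pool.Agent.H.MP_795b03_ag.LocM

/-! JOB ChartA: the inverse of the charts of Sp.

cOf k v M = ![v (k+1)/v k, v (k+2)/v k, M (k+1) k, M (k+2) k].
cOf_spec: v' = (v k)⁻¹ • v satisfies Eqs (Eqs.smul), v' k = 1, so M i j = M i k * v' j (first equations with index k), i.e. with l_i = M i k the matrix is l_i v'_j, and the last
equation reads v'_{k+1} v'_{k+2} = l_k + l_{k+1} v'_{k+1}^4 + l_{k+2} v'_{k+2}^4 (the product v0 v1 v2 contains all three indices k, k+1, k+2); so l = lk k c.  (fin_cases k.)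
cOf_chart: direct computation.
not_all_eq: if ‖v 0‖ = ‖v 1‖ = ‖v 2‖ =: r > 0 then r^3 = ‖∑ M i i v i ^ 3‖ ≤ ∑ ‖M i i‖ r^3 < r^3.
isOpen_Dk: Mk k is a polynomial map, finitely many strict inequalities.
-/

set_option autoImplicit false

open Topology Filter Set Complex

namespace Pool.Agent.Moi

/-- inverse of the chart `k` -/
noncomputable def cOf (k : Fin 3) (v : Fin 3 → ℂ) (M : Fin 3 → Fin 3 → ℂ) : Fin 4 → ℂ :=
  ![v (k + 1) / v k, v (k + 2) / v k, M (k + 1) k, M (k + 2) k]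

private theorem chartA_vk {v : Fin 3 → ℂ} {M : Fin 3 → Fin 3 → ℂ} (k : Fin 3) (hk : v k ≠ 0) :
    vk k (cOf k v M) = (v k)⁻¹ • v := by
  funext i
  fin_cases k <;> fin_cases i <;> simp [vk, cOf] at hk ⊢ <;> field_simp

private theorem chartA_lk {v : Fin 3 → ℂ} {M : Fin 3 → Fin 3 → ℂ} (h : Eqs v M) (k : Fin 3)
    (hk : v k ≠ 0) (i : Fin 3) : lk k (cOf k v M) i = M i k := by
  obtain ⟨h1, h2⟩ := h
  rw [Fin.sum_univ_three] at h2
  fin_cases k
  · have e1 := h1 1 1 0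
    have e2 := h1 2 2 0
    fin_cases i <;> simp [lk, cOf] at hk ⊢
    field_simp
    linear_combination (v 0) * h2 + (v 1) ^ 3 * e1 + (v 2) ^ 3 * e2
  · have e1 := h1 0 0 1
    have e2 := h1 2 2 1
    fin_cases i <;> simp [lk, cOf] at hk ⊢
    field_simp
    linear_combination (v 1) * h2 + (v 0) ^ 3 * e1 + (v 2) ^ 3 * e2
  · have e1 := h1 0 0 2
    have e2 := h1 1 1 2
    fin_cases i <;> simp [lk, cOf] at hk ⊢
    field_simp
    linear_combination (v 2) * h2 + (v 0) ^ 3 * e1 + (v 1) ^ 3 * e2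

theorem cOf_spec {k : Fin 3} {v : Fin 3 → ℂ} {M : Fin 3 → Fin 3 → ℂ} (h : Eqs v M) (hk : v k ≠ 0) :
    vk k (cOf k v M) = (v k)⁻¹ • v ∧ Mk k (cOf k v M) = M := by
  refine ⟨chartA_vk k hk, ?_⟩
  funext i j
  rw [Mk, chartA_lk h k hk i, chartA_vk k hk, Pi.smul_apply, smul_eq_mul]
  have := h.1 i j k
  field_simp
  linear_combination -this

theorem cOf_chart (k : Fin 3) (c : Fin 4 → ℂ) : cOf k (vk k c) (Mk k c) = c := by
  funext i
  fin_cases k <;> fin_cases i <;> simp [cOf, vk, Mk, lk]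

theorem not_all_eq {v : Fin 3 → ℂ} {M : Fin 3 → Fin 3 → ℂ} (hv : v ≠ 0) (h : Eqs v M)
    (hM : ∀ i j, ‖M i j‖ < 1 / 3) : ¬ (‖v 0‖ = ‖v 1‖ ∧ ‖v 1‖ = ‖v 2‖) := by
  rintro ⟨h01, h12⟩
  have hr : 0 < ‖v 2‖ := by
    by_contra hcon
    have h2 : ‖v 2‖ = 0 := le_antisymm (not_lt.1 hcon) (norm_nonneg _)
    apply hv
    funext i
    have h1 : ‖v 1‖ = 0 := h12.trans h2
    have h0 : ‖v 0‖ = 0 := h01.trans h1
    fin_cases i
    · exact norm_eq_zero.1 h0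
    · exact norm_eq_zero.1 h1
    · exact norm_eq_zero.1 h2
  have h2 := congrArg norm h.2
  rw [Fin.sum_univ_three, norm_mul, norm_mul, h01, h12] at h2
  have h3 : ‖M 0 0 * v 0 ^ 3 + M 1 1 * v 1 ^ 3 + M 2 2 * v 2 ^ 3‖
      ≤ ‖M 0 0‖ * ‖v 2‖ ^ 3 + ‖M 1 1‖ * ‖v 2‖ ^ 3 + ‖M 2 2‖ * ‖v 2‖ ^ 3 := by
    refine (norm_add₃_le).trans ?_
    rw [norm_mul, norm_mul, norm_mul, norm_pow, norm_pow, norm_pow, h01, h12]
  have hp : 0 < ‖v 2‖ ^ 3 := by positivity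
  have m0 := mul_lt_mul_of_pos_right (hM 0 0) hp
  have m1 := mul_lt_mul_of_pos_right (hM 1 1) hp
  have m2 := mul_lt_mul_of_pos_right (hM 2 2) hp
  have : ‖v 2‖ * ‖v 2‖ * ‖v 2‖ = ‖v 2‖ ^ 3 := by ring
  linarith

theorem isOpen_Dk (k : Fin 3) : IsOpen (Dk k) := by
  have hrw : Dk k = ⋂ i : Fin 3, ⋂ j : Fin 3, {c | ‖Mk k c i j‖ < 1 / 3} := by
    ext c; simp [Dk]
  rw [hrw]
  refine isOpen_iInter_of_finite fun i => isOpen_iInter_of_finite fun j => ?_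
  refine isOpen_lt ?_ continuous_const
  refine Continuous.norm ?_
  have h1 : Continuous fun c : Fin 4 → ℂ => lk k c i := by
    unfold lk
    split_ifs <;> fun_prop
  have h2 : Continuous fun c : Fin 4 → ℂ => vk k c j := by
    unfold vk
    split_ifs <;> fun_prop
  exact h1.mul h2

end Pool.Agent.Moi
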