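import Pool.Agent.H.MP_795b03_ag.ChartA

/-! JOB ChartC: the transition maps between the parametrizations, explicit form.

chi (k,j) (b,z) = (([vk k b], Mk k b), pr (z - tht j (vk k b) √2)) on DD (k,j).
Let i = (k,j), i' = (k',j').  The hypothesis hb says [vk k c] = [vk k' c'] and Mk k c = Mk k' c'.  So vk k c = a • vk k' c' with a ≠ 0 (toP_eq_iff), in particular (vk k c) k' = a ≠ 0.
tau b := cOf k' (vk k b) (Mk k b).  tau c = c' (cOf_spec, cOf_chart: cOf k' is invariant under scaling of v).  tau is rational in b with denominators (vk k b) k' ≠ 0, so differentiable near c.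
For b near c: b ∈ Dk k, vk k b ∈ Om j, (vk k b) k' ≠ 0, vk k' (tau b) = ((vk k b) k')⁻¹ • vk k b (cOf_spec with Eqs_chart), Mk k' (tau b) = Mk k b; so tau b ∈ Dk k', and vk k' (tau b) ∈ Om j' (open, Om_smul; at b = c it is c').
n: vk k c ∈ Om j ∩ Om j' (Om_smul); tht_diff gives an integer n with tht j' (vk k b) - tht j (vk k b) = n near c, and tht j' (vk k' (tau b)) = tht j' (vk k b) (tht_smul).
Finally chi i' (tau b, z + n √2) = (([vk k b], Mk k b), pr (z + n √2 - tht j' (vk k' (tau b)) √2)) = (.., pr (z - tht j (vk k b) √2)) = chi i (b,z).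
-/

set_option autoImplicit false

open Topology Filter Set Complex

namespace Pool.Agent.Moi

theorem ChartC_chi {i : Fin 3 × Bool} {b : Fin 4 → ℂ} (h : b ∈ Dk i.1) (z : ℂ) :
    chi i (b, z) = ⟨((toP (N := 2) (vk i.1 b), ⟨Mk i.1 b, h⟩),
      pr (z - (tht i.2 (vk i.1 b) * Real.sqrt 2 : ℝ))), eqs_chart i.1 b h⟩ := dif_pos h

theorem ChartC_vk_diff (k i : Fin 3) : Differentiable ℂ (fun b : Fin 4 → ℂ => vk k b i) := by
  unfold vk
  by_cases h1 : i = k
  · simp only [h1, if_true]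
    exact differentiable_const _
  · by_cases h2 : i = k + 1
    · simp only [h2, if_true]
      split_ifs
      · exact differentiable_const _
      · fun_prop
    · simp only [h1, h2, if_false]
      fun_prop

theorem ChartC_vk_cont (k : Fin 3) : Continuous (vk k) :=
  continuous_pi fun i => (ChartC_vk_diff k i).continuous

theorem ChartC_lk_diff (k i : Fin 3) : Differentiable ℂ (fun b : Fin 4 → ℂ => lk k b i) := by
  unfold lk
  by_cases h1 : i = k
  · simp only [h1, if_true]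
    fun_prop
  · by_cases h2 : i = k + 1
    · simp only [h2, if_true]
      split_ifs <;> fun_prop
    · simp only [h1, h2, if_false]
      fun_prop

theorem ChartC_Mk_diff (k i j : Fin 3) : Differentiable ℂ (fun b : Fin 4 → ℂ => Mk k b i j) :=
  (ChartC_lk_diff k i).mul (ChartC_vk_diff k j)

theorem ChartC_cOf_smul (k : Fin 3) (v : Fin 3 → ℂ) (M : Fin 3 → Fin 3 → ℂ) {a : ℂ} (ha : a ≠ 0) :
    cOf k (a • v) M = cOf k v M := by
  unfold cOf
  simp only [Pi.smul_apply, smul_eq_mul, mul_div_mul_left _ _ ha]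

theorem ChartC_cOf_diff (k k' : Fin 3) {b : Fin 4 → ℂ} (h : vk k b k' ≠ 0) :
    DifferentiableAt ℂ (fun b => cOf k' (vk k b) (Mk k b)) b := by
  have hdiv : ∀ j, DifferentiableAt ℂ (fun b : Fin 4 → ℂ => vk k b j / vk k b k') b := by
    intro j
    simp only [div_eq_mul_inv]
    exact ((ChartC_vk_diff k j) b).mul (((ChartC_vk_diff k k') b).inv h)
  rw [differentiableAt_pi]
  intro j
  fin_cases j
  · exact hdiv _
  · exact hdiv _
  · exact (ChartC_Mk_diff k _ _) b
  · exact (ChartC_Mk_diff k _ _) b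

/-- the transition maps, more precisely -/
theorem chi_trans {i i' : Fin 3 × Bool} {c c' : Fin 4 → ℂ} (hc : (c, (0 : ℂ)) ∈ DD i)
    (hc' : (c', (0 : ℂ)) ∈ DD i')
    (hb : (chi i (c, 0)).1.1 = (chi i' (c', 0)).1.1) :
    ∃ (τ : (Fin 4 → ℂ) → (Fin 4 → ℂ)) (n : ℤ), τ c = c' ∧ (∀ᶠ b in 𝓝 c, DifferentiableAt ℂ τ b) ∧
      (∀ᶠ b in 𝓝 c, tht i'.2 (vk i'.1 (τ b)) - tht i.2 (vk i.1 b) = n) ∧
      ∀ᶠ b in 𝓝 c, ∀ z : ℂ, chi i (b, z) = chi i' (τ b, z + (n : ℂ) * (Real.sqrt 2 : ℝ)) := by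
  obtain ⟨k, j⟩ := i
  obtain ⟨k', j'⟩ := i'
  have hcD : c ∈ Dk k := hc.1
  have hcO : vk k c ∈ Om j := hc.2
  have hcD' : c' ∈ Dk k' := hc'.1
  have hcO' : vk k' c' ∈ Om j' := hc'.2
  rw [ChartC_chi (i := (k, j)) hcD, ChartC_chi (i := (k', j')) hcD'] at hb
  have hb1 : toP (N := 2) (vk k c) = toP (vk k' c') := congrArg Prod.fst hb
  have hb2 : Mk k c = Mk k' c' := congrArg (fun q : PN 2 × Bs => q.2.1) hb
  obtain ⟨a, ha, hva⟩ := (toP_eq_iff (N := 2) (vk_ne_zero k' c') (vk_ne_zero k c)).1 hb1.symm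
  have hak : vk k c k' = a := by
    rw [hva, Pi.smul_apply, smul_eq_mul, vk_self, mul_one]
  have hne : ∀ᶠ b in 𝓝 c, vk k b k' ≠ 0 :=
    ((ChartC_vk_diff k k').continuous.continuousAt).eventually_ne (by rw [hak]; exact ha)
  have hO2 : vk k c ∈ Om j' := by
    rw [hva]
    exact (Om_smul ha).2 hcO'
  obtain ⟨n, hn⟩ := tht_diff hO2 hcO
  have hn' : ∀ᶠ b in 𝓝 c, tht j' (vk k b) - tht j (vk k b) = n :=
    (ChartC_vk_cont k).continuousAt.eventually hn
  have hn2 : ∀ᶠ b in 𝓝 c, tht j' (vk k' (cOf k' (vk k b) (Mk k b))) - tht j (vk k b) = n := by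
    filter_upwards [hn', hne] with b h1 h2
    rw [(cOf_spec (Eqs_chart k b) h2).1, tht_smul j' _ (inv_ne_zero h2)]
    exact h1
  refine ⟨fun b => cOf k' (vk k b) (Mk k b), n, ?_, ?_, hn2, ?_⟩
  · show cOf k' (vk k c) (Mk k c) = c'
    rw [hva, hb2, ChartC_cOf_smul _ _ _ ha, cOf_chart]
  · filter_upwards [hne] with b h2
    exact ChartC_cOf_diff k k' h2
  · filter_upwards [hn2, hne, (isOpen_Dk k).mem_nhds hcD] with b h1 h2 h3 z
    obtain ⟨e1, e2⟩ := cOf_spec (Eqs_chart k b) h2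
    have h4 : cOf k' (vk k b) (Mk k b) ∈ Dk k' := by
      intro p q
      rw [e2]
      exact h3 p q
    rw [ChartC_chi (i := (k, j)) h3, ChartC_chi (i := (k', j')) h4]
    have hP : toP (N := 2) (vk k b) = toP (vk k' (cOf k' (vk k b) (Mk k b))) := by
      rw [e1, toP_smul (vk_ne_zero k b) (inv_ne_zero h2)]
    have hpr : z - (tht j (vk k b) * Real.sqrt 2 : ℝ) = z + (n : ℂ) * (Real.sqrt 2 : ℝ) -
        (tht j' (vk k' (cOf k' (vk k b) (Mk k b))) * Real.sqrt 2 : ℝ) := by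
      have h5 : tht j' (vk k' (cOf k' (vk k b) (Mk k b))) = n + tht j (vk k b) := by linarith
      rw [h5]
      push_cast
      ring
    refine Subtype.ext (Prod.ext (Prod.ext hP (Subtype.ext e2.symm)) ?_)
    exact congrArg pr hpr

end Pool.Agent.Moi
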