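import Pool.Agent.H.MP_795b03_ag.ChartA
import Pool.Agent.H.MP_795b03_ag.ChartC

/-! JOB ChartB: the parametrizations chi form a compatible system of charts (ChartSys DD chi).

Notation: chi (k,j) (c,z) = (([vk k c], Mk k c), pr (z - tht j (vk k c) √2)) on DD (k,j).
 isOpen: Dk k is open, Om j is open, vk continuous.
 cont: toP continuous at vk ≠ 0 (continuousAt_toP), tht j continuous at points of Om j (tht_continuousAt), pr continuous; on the open set DD the first branch of the definition of chi applies.  XX and Bs carry the subspace topologies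
 (Topology.IsEmbedding.subtypeVal / IsInducing.continuousAt_iff).
 opn: let e = (c,z) ∈ DD (k,j), W a neighbourhood.  For a point p' = ((l', M'), q') of XX near chi (k,j) e: write l' = toP v' with v' near vk k c (toP_nhds), v' k ≠ 0; c' = cOf k v' M' is near c and (cOf_spec) the base point of chi (k,j)(c', z') is
 (l', M') for every z'; choose z' near z with pr z' = q' + pr (tht j (vk k c') √2) (exists_pr_close, continuity).  So p' ∈ chi '' W.
 inj: on W = (any set) × ball z (1/4) intersected with DD: chi (k,j)(c,z) = chi (k,j)(c',z') gives toP (vk k c) = toP (vk k c'), hence vk k c = vk k c' (toP_eq_iff, coordinate k is 1), c0, c1 agree; Mk k c = Mk k c' gives c2, c3 (M (k+1) k, M (k+2) k; or cOf_chart);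
 then pr z = pr z' and pr_injOn.
 surj: p = ((l,M),q): l = toP v, v k ≠ 0 for some k, c = cOf k v M; some j with vk k c ∈ Om j by not_all_eq and Om_cover; z with pr z = q + pr (tht √2).
 trans: e = (c,z) ∈ DD (k,j), e' = (c',z') ∈ DD (k',j'), same image: vk k c = a • vk k' c', so (vk k c) k' ≠ 0.  tau (c1,z1) = (cOf k' (vk k c1) (Mk k c1), z1 + m + n I + N √2) with constants: by tht_diff and tht_smul the difference
 tht j' (vk k' (cOf k' ..)) - tht j (vk k c1) = tht j' (vk k c1) - tht j (vk k c1) is an integer constant N near c; m + n I = z' - z - N √2 is in the lattice because the images agree (pr_eq_iff).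
 tau is holomorphic near e (rational with nonzero denominators) and chi (k,j) = chi (k',j') ∘ tau near e.
Module ChartC (independent job) proves a variant of trans; you may put common lemmas here.
-/

set_option autoImplicit false

open Topology Filter Set Complex

namespace Pool.Agent.Moi

private theorem ChartB_isOpen (i : Fin 3 × Bool) : IsOpen (DD i) := by
  have h1 : IsOpen {e : (Fin 4 → ℂ) × ℂ | e.1 ∈ Dk i.1} := (isOpen_Dk i.1).preimage continuous_fst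
  have h2 : IsOpen {e : (Fin 4 → ℂ) × ℂ | vk i.1 e.1 ∈ Om i.2} :=
    (isOpen_Om i.2).preimage ((ChartC_vk_cont i.1).comp continuous_fst)
  exact h1.inter h2

private theorem ChartB_Mk_cont (k : Fin 3) : Continuous (Mk k) :=
  continuous_pi fun i => continuous_pi fun j => (ChartC_Mk_diff k i j).continuous

/-- the fibre coordinate of the parametrization -/
private noncomputable def ChartB_arg (i : Fin 3 × Bool) (e : (Fin 4 → ℂ) × ℂ) : ℂ :=
  e.2 - (tht i.2 (vk i.1 e.1) * Real.sqrt 2 : ℝ)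

private theorem ChartB_arg_cont {i : Fin 3 × Bool} {e : (Fin 4 → ℂ) × ℂ} (he : e ∈ DD i) :
    ContinuousAt (ChartB_arg i) e := by
  have h1 : ContinuousAt (fun e : (Fin 4 → ℂ) × ℂ => tht i.2 (vk i.1 e.1)) e :=
    ContinuousAt.comp (f := fun e : (Fin 4 → ℂ) × ℂ => vk i.1 e.1) (g := tht i.2)
      (tht_continuousAt he.2) ((ChartC_vk_cont i.1).comp continuous_fst).continuousAt
  have h2 : ContinuousAt (fun e : (Fin 4 → ℂ) × ℂ =>
      ((tht i.2 (vk i.1 e.1) * Real.sqrt 2 : ℝ) : ℂ)) e :=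
    Complex.continuous_ofReal.continuousAt.comp (h1.mul continuousAt_const)
  exact continuousAt_snd.sub h2

private theorem ChartB_cont (i : Fin 3 × Bool) {e : (Fin 4 → ℂ) × ℂ} (he : e ∈ DD i) :
    ContinuousAt (chi i) e := by
  have hind : Topology.IsInducing (fun p : XX => (p.1 : (PN 2 × Bs) × El)) := ⟨rfl⟩
  refine hind.continuousAt_iff.2 ?_
  have hev : ∀ᶠ b in 𝓝 e, b ∈ DD i := (ChartB_isOpen i).mem_nhds he
  have h1 : ContinuousAt (fun b : (Fin 4 → ℂ) × ℂ => toP (N := 2) (vk i.1 b.1)) e :=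
    ContinuousAt.comp (f := fun b : (Fin 4 → ℂ) × ℂ => vk i.1 b.1) (g := toP (N := 2))
      (continuousAt_toP (vk_ne_zero _ _)) ((ChartC_vk_cont i.1).comp continuous_fst).continuousAt
  have h2 : ContinuousAt (fun b : (Fin 4 → ℂ) × ℂ => (chi i b).1.1.2) e := by
    have hind2 : Topology.IsInducing (fun M : Bs => (M.1 : Fin 3 → Fin 3 → ℂ)) := ⟨rfl⟩
    refine hind2.continuousAt_iff.2 ?_
    have h3 : ContinuousAt (fun b : (Fin 4 → ℂ) × ℂ => Mk i.1 b.1) e :=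
      ((ChartB_Mk_cont i.1).comp continuous_fst).continuousAt
    refine h3.congr ?_
    filter_upwards [hev] with b hb
    obtain ⟨b1, b2⟩ := b
    show Mk i.1 b1 = ((chi i (b1, b2)).1.1.2).1
    rw [ChartC_chi hb.1]
  have h4 : ContinuousAt (fun b : (Fin 4 → ℂ) × ℂ => pr (ChartB_arg i b)) e :=
    continuous_pr.continuousAt.comp (ChartB_arg_cont he)
  have h5 : ContinuousAt (fun b : (Fin 4 → ℂ) × ℂ =>
      ((toP (N := 2) (vk i.1 b.1), (chi i b).1.1.2), pr (ChartB_arg i b))) e :=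
    (h1.prodMk h2).prodMk h4
  refine h5.congr ?_
  filter_upwards [hev] with b hb
  obtain ⟨b1, b2⟩ := b
  show ((toP (N := 2) (vk i.1 b1), (chi i (b1, b2)).1.1.2), pr (ChartB_arg i (b1, b2))) =
    (chi i (b1, b2)).1
  rw [ChartC_chi hb.1]
  rfl

private theorem ChartB_cOf_cont {k : Fin 3} {v : Fin 3 → ℂ} {M : Fin 3 → Fin 3 → ℂ} (hv : v k ≠ 0) :
    ContinuousAt (fun q : (Fin 3 → ℂ) × (Fin 3 → Fin 3 → ℂ) => cOf k q.1 q.2) (v, M) := by
  have hdiv : ∀ j, ContinuousAt (fun q : (Fin 3 → ℂ) × (Fin 3 → Fin 3 → ℂ) => q.1 j / q.1 k)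
      (v, M) := by
    intro j
    refine ContinuousAt.div ?_ ?_ hv
    · fun_prop
    · fun_prop
  have hM : ∀ i j, ContinuousAt (fun q : (Fin 3 → ℂ) × (Fin 3 → Fin 3 → ℂ) => q.2 i j)
      (v, M) := by
    intro i j
    fun_prop
  rw [continuousAt_pi]
  intro j
  fin_cases j
  · exact hdiv _
  · exact hdiv _
  · exact hM _ _
  · exact hM _ _

private theorem ChartB_opn (i : Fin 3 × Bool) {e : (Fin 4 → ℂ) × ℂ} (he : e ∈ DD i)
    {W : Set ((Fin 4 → ℂ) × ℂ)} (hW : W ∈ 𝓝 e) : chi i '' W ∈ 𝓝 (chi i e) := by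
  obtain ⟨k, j⟩ := i
  obtain ⟨c, z⟩ := e
  have hcD : c ∈ Dk k := he.1
  have hcO : vk k c ∈ Om j := he.2
  obtain ⟨Wc, hWc, Wz, hWz, hsub⟩ := mem_nhds_prod_iff.1 hW
  obtain ⟨ε, hε, hball⟩ := Metric.mem_nhds_iff.1 hWz
  have ht : ContinuousAt (fun b : Fin 4 → ℂ => tht j (vk k b) * Real.sqrt 2) c :=
    (ContinuousAt.comp (f := vk k) (g := tht j) (tht_continuousAt hcO)
      (ChartC_vk_cont k).continuousAt).mul continuousAt_const
  have h1 : ∀ᶠ b in 𝓝 c, b ∈ Wc ∧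
      dist (tht j (vk k b) * Real.sqrt 2) (tht j (vk k c) * Real.sqrt 2) < ε / 4 :=
    (eventually_mem_set.2 hWc).and (Metric.tendsto_nhds.1 ht _ (by positivity))
  have hck : vk k c k ≠ 0 := by rw [vk_self]; exact one_ne_zero
  have h2 : ContinuousAt (fun q : (Fin 3 → ℂ) × (Fin 3 → Fin 3 → ℂ) => cOf k q.1 q.2)
      (vk k c, Mk k c) := ChartB_cOf_cont hck
  have h3 : ∀ᶠ q : (Fin 3 → ℂ) × (Fin 3 → Fin 3 → ℂ) in 𝓝 (vk k c, Mk k c),
      (cOf k q.1 q.2 ∈ Wc ∧ dist (tht j (vk k (cOf k q.1 q.2)) * Real.sqrt 2)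
        (tht j (vk k c) * Real.sqrt 2) < ε / 4) := by
    have h1' : ∀ᶠ b in 𝓝 (cOf k (vk k c) (Mk k c)), b ∈ Wc ∧
        dist (tht j (vk k b) * Real.sqrt 2) (tht j (vk k c) * Real.sqrt 2) < ε / 4 := by
      rw [cOf_chart]
      exact h1
    exact h2.eventually h1'
  have h4 : ∀ᶠ q : (Fin 3 → ℂ) × (Fin 3 → Fin 3 → ℂ) in 𝓝 (vk k c, Mk k c), q.1 k ≠ 0 := by
    have h5 : ContinuousAt (fun q : (Fin 3 → ℂ) × (Fin 3 → Fin 3 → ℂ) => q.1 k)
        (vk k c, Mk k c) := by fun_prop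
    exact h5.eventually_ne hck
  obtain ⟨V1, hV1, V2, hV2, hV⟩ := mem_nhds_prod_iff.1 (h3.and h4)
  have hind : Topology.IsInducing (fun p : XX => (p.1 : (PN 2 × Bs) × El)) := ⟨rfl⟩
  have hind2 : Topology.IsInducing (fun M : Bs => (M.1 : Fin 3 → Fin 3 → ℂ)) := ⟨rfl⟩
  rw [hind.nhds_eq_comap, Filter.mem_comap]
  set z0 : ℂ := z - (tht j (vk k c) * Real.sqrt 2 : ℝ) with hz0
  let x0 : Bs := ⟨Mk k c, hcD⟩
  have hM : {M : Bs | M.1 ∈ V2} ∈ 𝓝 x0 := hind2.continuous.continuousAt.preimage_mem_nhds hV2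
  refine ⟨((toP (N := 2) '' V1) ×ˢ {M : Bs | M.1 ∈ V2}) ×ˢ Metric.ball (pr z0) (ε / 4), ?_, ?_⟩
  · rw [ChartC_chi (i := (k, j)) hcD]
    exact prod_mem_nhds (prod_mem_nhds (toP_nhds (vk_ne_zero k c) hV1) hM)
      (Metric.ball_mem_nhds _ (by positivity))
  · rintro ⟨⟨⟨l', M'⟩, q'⟩, hp⟩ ⟨⟨⟨v', hv', hl'⟩, hM'⟩, hq'⟩
    have hl'' : toP (N := 2) v' = l' := hl'
    obtain ⟨⟨hb1, hb2⟩, hb3⟩ := hV (show (v', M'.1) ∈ V1 ×ˢ V2 from ⟨hv', hM'⟩)
    have hb3' : v' k ≠ 0 := hb3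
    have hv0 : v' ≠ 0 := by
      intro h
      exact hb3' (by rw [h]; rfl)
    have hE : Eqs v' M'.1 := hp v' hv0 hl''
    obtain ⟨e1, e2⟩ := cOf_spec hE hb3'
    set b : Fin 4 → ℂ := cOf k v' M'.1 with hb
    have hbD : b ∈ Dk k := by
      intro p q
      rw [e2]
      exact M'.2 p q
    obtain ⟨w, hw1, hw2⟩ := exists_pr_close z0 q'
    have hw3 : dist w z0 < ε / 2 := by
      have : dist q' (pr z0) < ε / 4 := hq'
      linarith
    refine ⟨(b, w + (tht j (vk k b) * Real.sqrt 2 : ℝ)), hsub ⟨hb1, hball ?_⟩, ?_⟩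
    · rw [Metric.mem_ball, dist_eq_norm]
      have h5 : w + (tht j (vk k b) * Real.sqrt 2 : ℝ) - z =
          (w - z0) + ((tht j (vk k b) * Real.sqrt 2 - tht j (vk k c) * Real.sqrt 2 : ℝ) : ℂ) := by
        rw [hz0]
        push_cast
        ring
      have h6 : ‖((tht j (vk k b) * Real.sqrt 2 - tht j (vk k c) * Real.sqrt 2 : ℝ) : ℂ)‖ < ε / 4 := by
        rw [Complex.norm_real]
        rw [← dist_eq_norm]
        exact hb2
      have h7 : ‖w - z0‖ < ε / 2 := by rw [← dist_eq_norm]; exact hw3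
      rw [h5]
      calc ‖(w - z0) + ((tht j (vk k b) * Real.sqrt 2 - tht j (vk k c) * Real.sqrt 2 : ℝ) : ℂ)‖
          ≤ _ := norm_add_le _ _
        _ < ε := by linarith
    · rw [ChartC_chi (i := (k, j)) hbD]
      have hP : toP (N := 2) (vk k b) = l' := by
        rw [e1, toP_smul hv0 (inv_ne_zero hb3'), hl'']
      refine Subtype.ext (Prod.ext (Prod.ext hP (Subtype.ext e2)) ?_)
      show pr (w + (tht j (vk k b) * Real.sqrt 2 : ℝ) - (tht j (vk k b) * Real.sqrt 2 : ℝ)) = q'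
      rw [add_sub_cancel_right]
      exact hw1

private theorem ChartB_inj (i : Fin 3 × Bool) {e : (Fin 4 → ℂ) × ℂ} (he : e ∈ DD i) :
    ∃ W ∈ 𝓝 e, InjOn (chi i) W := by
  obtain ⟨k, j⟩ := i
  obtain ⟨c, z⟩ := e
  have hcD : c ∈ Dk k := he.1
  refine ⟨Dk k ×ˢ Metric.ball z (1 / 2), prod_mem_nhds ((isOpen_Dk k).mem_nhds hcD)
    (Metric.ball_mem_nhds _ (by norm_num)), ?_⟩
  rintro ⟨b, w⟩ ⟨hb, hw⟩ ⟨b', w'⟩ ⟨hb', hw'⟩ heq
  have hb2 : b ∈ Dk k := hb
  have hb2' : b' ∈ Dk k := hb'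
  rw [ChartC_chi (i := (k, j)) hb2, ChartC_chi (i := (k, j)) hb2'] at heq
  have h0 := congrArg (fun p : XX => p.1) heq
  have h1 : toP (N := 2) (vk k b) = toP (vk k b') := congrArg (fun p => p.1.1) h0
  have h2 : Mk k b = Mk k b' := congrArg (fun p : (PN 2 × Bs) × El => p.1.2.1) h0
  have h3 : pr (w - (tht j (vk k b) * Real.sqrt 2 : ℝ)) =
    pr (w' - (tht j (vk k b') * Real.sqrt 2 : ℝ)) := congrArg (fun p => p.2) h0
  obtain ⟨a, ha, hva⟩ := (toP_eq_iff (N := 2) (vk_ne_zero k b) (vk_ne_zero k b')).1 h1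
  have ha1 : a = 1 := by
    have h4 := congrFun hva k
    rw [Pi.smul_apply, vk_self, vk_self, smul_eq_mul, mul_one] at h4
    exact h4.symm
  rw [ha1, one_smul] at hva
  have hbb : b = b' := by
    rw [← cOf_chart k b, ← cOf_chart k b', hva, h2]
  rw [hbb, pr_sub, pr_sub, sub_left_inj] at h3
  have hww : w = w' := pr_injOn z hw hw' h3
  rw [hbb, hww]

private theorem ChartB_surj (x : XX) : ∃ i, ∃ e ∈ DD i, chi i e = x := by
  obtain ⟨⟨⟨l, M⟩, q⟩, hp⟩ := x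
  obtain ⟨v, hv, hl⟩ := toP_surj l
  obtain ⟨k, hk⟩ : ∃ k, v k ≠ 0 := by
    by_contra h
    push Not at h
    exact hv (funext h)
  have hE : Eqs v M.1 := hp v hv hl
  obtain ⟨e1, e2⟩ := cOf_spec hE hk
  set b : Fin 4 → ℂ := cOf k v M.1 with hb
  have hbD : b ∈ Dk k := by
    intro p q
    rw [e2]
    exact M.2 p q
  obtain ⟨j, hj⟩ : ∃ j : Bool, vk k b ∈ Om j := by
    rcases Om_cover (not_all_eq (vk_ne_zero k b) (Eqs_chart k b) hbD) with h | h
    · exact ⟨true, h⟩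
    · exact ⟨false, h⟩
  obtain ⟨w, hw⟩ := pr_surjective q
  refine ⟨(k, j), (b, w + (tht j (vk k b) * Real.sqrt 2 : ℝ)), ⟨hbD, hj⟩, ?_⟩
  rw [ChartC_chi (i := (k, j)) hbD]
  have hP : toP (N := 2) (vk k b) = l := by
    rw [e1, toP_smul hv (inv_ne_zero hk), hl]
  refine Subtype.ext (Prod.ext (Prod.ext hP (Subtype.ext e2)) ?_)
  show pr (w + (tht j (vk k b) * Real.sqrt 2 : ℝ) - (tht j (vk k b) * Real.sqrt 2 : ℝ)) = q
  rw [add_sub_cancel_right]
  exact hw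

private theorem ChartB_per (i : Fin 3 × Bool) (b : Fin 4 → ℂ) (w : ℂ) (m n : ℤ) :
    chi i (b, w + (m : ℂ) + (n : ℂ) * I) = chi i (b, w) := by
  by_cases h : b ∈ Dk i.1
  · rw [ChartC_chi h, ChartC_chi h]
    refine Subtype.ext (Prod.ext rfl ?_)
    show pr (w + (m : ℂ) + (n : ℂ) * I - (tht i.2 (vk i.1 b) * Real.sqrt 2 : ℝ)) =
      pr (w - (tht i.2 (vk i.1 b) * Real.sqrt 2 : ℝ))
    rw [pr_eq_iff]
    exact ⟨m, n, by ring⟩
  · unfold chi
    rw [dif_neg h, dif_neg h]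

private theorem ChartB_trans {i j : Fin 3 × Bool} {e e' : (Fin 4 → ℂ) × ℂ} (he : e ∈ DD i)
    (he' : e' ∈ DD j) (h : chi i e = chi j e') :
    ∃ tau : (Fin 4 → ℂ) × ℂ → (Fin 4 → ℂ) × ℂ, tau e = e' ∧
      (∀ᶠ z in 𝓝 e, DifferentiableAt ℂ tau z) ∧ ∀ᶠ z in 𝓝 e, chi i z = chi j (tau z) := by
  obtain ⟨c, z⟩ := e
  obtain ⟨c', z'⟩ := e'
  have hc : c ∈ Dk i.1 := he.1
  have hc' : c' ∈ Dk j.1 := he'.1
  have hb : (chi i (c, 0)).1.1 = (chi j (c', 0)).1.1 := by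
    have h1 := congrArg (fun p : XX => p.1.1) h
    simp only [ChartC_chi hc, ChartC_chi hc'] at h1 ⊢
    exact h1
  obtain ⟨τ, n, hτc, hτd, -, hτ⟩ := chi_trans (c := c) (c' := c') ⟨he.1, he.2⟩ ⟨he'.1, he'.2⟩ hb
  have h1 : chi j (c', z') = chi j (c', z + (n : ℂ) * (Real.sqrt 2 : ℝ)) := by
    rw [← h, hτ.self_of_nhds z, hτc]
  rw [ChartC_chi hc', ChartC_chi hc'] at h1
  have h2 : pr (z' - (tht j.2 (vk j.1 c') * Real.sqrt 2 : ℝ)) =
      pr (z + (n : ℂ) * (Real.sqrt 2 : ℝ) - (tht j.2 (vk j.1 c') * Real.sqrt 2 : ℝ)) :=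
    congrArg (fun p : XX => p.1.2) h1
  rw [pr_sub, pr_sub, sub_left_inj, pr_eq_iff] at h2
  obtain ⟨m1, m2, hz'⟩ := h2
  refine ⟨fun q => (τ q.1, q.2 + (n : ℂ) * (Real.sqrt 2 : ℝ) + (m1 : ℂ) + (m2 : ℂ) * I), ?_, ?_, ?_⟩
  · exact Prod.ext hτc hz'.symm
  · have h3 : ∀ᶠ q : (Fin 4 → ℂ) × ℂ in 𝓝 (c, z), DifferentiableAt ℂ τ q.1 :=
      continuousAt_fst.eventually hτd
    filter_upwards [h3] with q hq
    have h4 : DifferentiableAt ℂ (fun q : (Fin 4 → ℂ) × ℂ => τ q.1) q :=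
      DifferentiableAt.comp q hq differentiableAt_fst
    have h5 : DifferentiableAt ℂ (fun q : (Fin 4 → ℂ) × ℂ =>
        q.2 + (n : ℂ) * (Real.sqrt 2 : ℝ) + (m1 : ℂ) + (m2 : ℂ) * I) q := by fun_prop
    exact h4.prodMk h5
  · have h3 : ∀ᶠ q : (Fin 4 → ℂ) × ℂ in 𝓝 (c, z),
        ∀ w : ℂ, chi i (q.1, w) = chi j (τ q.1, w + (n : ℂ) * (Real.sqrt 2 : ℝ)) :=
      (continuous_fst.tendsto ((c, z) : (Fin 4 → ℂ) × ℂ)).eventually
        (p := fun b => ∀ w : ℂ, chi i (b, w) = chi j (τ b, w + (n : ℂ) * (Real.sqrt 2 : ℝ))) hτ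
    filter_upwards [h3] with q hq
    rw [ChartB_per]
    exact hq q.2

theorem chartSys : ChartSys DD chi where
  isOpen := ChartB_isOpen
  cont := fun i _ he => ChartB_cont i he
  opn := fun i _ he _ hW => ChartB_opn i he hW
  inj := fun i _ he => ChartB_inj i he
  surj := ChartB_surj
  trans := fun _ _ _ _ he he' h => ChartB_trans he he' h

end Pool.Agent.Moi
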