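import Pool.Agent.H.MP_795b03_ag.HolBasic

/-! JOB ChartModel: a space with compatible holomorphic parametrizations is a complex manifold.

Setting: parametrizations chi i : E → X defined on open sets D i of a finite dimensional complex
space E, continuous, open and locally injective there, covering X, with holomorphic transitions.
holCh x f :<-> for some (equivalently every) i, e with chi i e = x: f ∘ chi i is holomorphic at e.

Proofs. holCh_iff: independence: if chi i e = chi j e' take the transition tau from (j,e') to (i,e): chi j z = chi i (tau z) near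
e', tau e' = e; then f ∘ chi j = (f ∘ chi i) ∘ tau near e', holomorphic by HolAt.comp.
chart_model: x = chi i e.  Choose a linear equivalence L : E ≃L[ℂ] (Fin n → ℂ), n = finrank.  Choose an open W ∋ e inside D i with
chi i injective on W (hinj) and put U = chi i '' W: open by hopen (chi i maps neighbourhoods of points of
W to neighbourhoods).  psi := L ∘ (inverse of chi i on W) on U, extended arbitrarily.  psi restricted to U is continuous because chi i is
open on W, injective, and its inverse on psi '' U = L '' W is the continuous map chi i ∘ L⁻¹; so it is an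
embedding.  psi '' U = L '' W is open, so LocAn with the empty family (m = 0).  germs: for y = chi i z, z in W:
holCh y f iff f ∘ chi i holomorphic at z iff F := f ∘ chi i ∘ L⁻¹ is holomorphic at psi y, and f = F ∘ psi on U;
conversely f = F ∘ psi near y gives f ∘ chi i = F ∘ L near z.
-/

set_option autoImplicit false

open Topology Filter Set Complex Metric

namespace Pool.Agent.Moi

/-- holomorphic germs defined by parametrizations -/
def holCh {X ι E : Type} [TopologicalSpace X] [NormedAddCommGroup E] [NormedSpace ℂ E]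
    (D : ι → Set E) (chi : ι → E → X) (x : X) (f : X → ℂ) : Prop :=
  ∃ i, ∃ e ∈ D i, chi i e = x ∧ HolAt (fun z => f (chi i z)) e

/-- compatible parametrizations -/
structure ChartSys {X ι E : Type} [TopologicalSpace X] [NormedAddCommGroup E] [NormedSpace ℂ E]
    (D : ι → Set E) (chi : ι → E → X) : Prop where
  isOpen : ∀ i, IsOpen (D i)
  cont : ∀ i, ∀ e ∈ D i, ContinuousAt (chi i) e
  opn : ∀ i, ∀ e ∈ D i, ∀ W ∈ 𝓝 e, chi i '' W ∈ 𝓝 (chi i e)
  inj : ∀ i, ∀ e ∈ D i, ∃ W ∈ 𝓝 e, InjOn (chi i) W
  surj : ∀ x, ∃ i, ∃ e ∈ D i, chi i e = x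
  trans : ∀ i j e e', e ∈ D i → e' ∈ D j → chi i e = chi j e' →
    ∃ tau : E → E, tau e = e' ∧ (∀ᶠ z in 𝓝 e, DifferentiableAt ℂ tau z) ∧
      ∀ᶠ z in 𝓝 e, chi i z = chi j (tau z)

variable {X ι E : Type} [TopologicalSpace X] [NormedAddCommGroup E] [NormedSpace ℂ E]
  [FiniteDimensional ℂ E] {D : ι → Set E} {chi : ι → E → X}

theorem holCh_iff (h : ChartSys D chi) {i : ι} {e : E} (he : e ∈ D i) (f : X → ℂ) :
    holCh D chi (chi i e) f ↔ HolAt (fun z => f (chi i z)) e := by
  constructor
  · rintro ⟨j, e', he', hx, hf⟩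
    obtain ⟨tau, ht, htd, hte⟩ := h.trans i j e e' he he' hx.symm
    have h1 : HolAt (fun z => f (chi j (tau z))) e :=
      HolAt.comp (f := tau) (F := fun z => f (chi j z)) (by rw [ht]; exact hf) htd
    refine h1.congr ?_
    filter_upwards [hte] with z hz
    rw [hz]
  · intro hf
    exact ⟨i, e, he, rfl, hf⟩

theorem chart_model [T2Space X] (h : ChartSys D chi) (x : X) :
    ∃ (n : ℕ) (psi : X → (Fin n → ℂ)) (U : Set X), IsModel (holCh D chi) n psi U ∧ x ∈ U ∧
      IsOpen (psi '' U) := by
  obtain ⟨i, e, he, rfl⟩ := h.surj x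
  obtain ⟨W0, hW0, hinj0⟩ := h.inj i e he
  obtain ⟨W, hWsub, hWo, heW⟩ := _root_.mem_nhds_iff.1 (Filter.inter_mem hW0 ((h.isOpen i).mem_nhds he))
  have hinj : InjOn (chi i) W := hinj0.mono fun z hz => (hWsub hz).1
  have hWD : W ⊆ D i := fun z hz => (hWsub hz).2
  have L : E ≃L[ℂ] (Fin (Module.finrank ℂ E) → ℂ) := ContinuousLinearEquiv.ofFinrankEq (by simp)
  haveI : Nonempty E := ⟨e⟩
  set inv : X → E := Function.invFunOn (chi i) W with hinvdef
  have hinv : ∀ z ∈ W, inv (chi i z) = z := fun z hz => hinj.leftInvOn_invFunOn hz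
  set psi : X → (Fin (Module.finrank ℂ E) → ℂ) := fun y => L (inv y) with hpsi
  have hpsiW : ∀ z ∈ W, psi (chi i z) = L z := fun z hz => by rw [hpsi]; simp only; rw [hinv z hz]
  have himg : psi '' (chi i '' W) = L '' W := by
    rw [image_image]
    exact image_congr hpsiW
  have hLo : ∀ O : Set E, IsOpen O → IsOpen (L '' O) := fun O hO =>
    L.toHomeomorph.isOpenMap O hO
  have hUo : IsOpen (chi i '' W) := by
    rw [isOpen_iff_mem_nhds]
    rintro _ ⟨z, hz, rfl⟩
    exact h.opn i z (hWD hz) W (hWo.mem_nhds hz)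
  have hpo : IsOpen (psi '' (chi i '' W)) := by rw [himg]; exact hLo W hWo
  have hpc : ∀ z ∈ W, ContinuousAt psi (chi i z) := by
    intro z hz N hN
    rw [hpsiW z hz] at hN
    have h1 : L ⁻¹' N ∩ W ∈ 𝓝 z :=
      Filter.inter_mem (L.continuous.continuousAt hN) (hWo.mem_nhds hz)
    refine Filter.mem_map.2 (mem_of_superset (h.opn i z (hWD hz) _ h1) ?_)
    rintro _ ⟨z', ⟨hz'N, hz'W⟩, rfl⟩
    change psi (chi i z') ∈ N
    rw [hpsiW z' hz'W]
    exact hz'N
  refine ⟨Module.finrank ℂ E, psi, chi i '' W, ⟨hUo, ?_, ?_, ?_⟩, ⟨e, heW, rfl⟩, hpo⟩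
  · refine (IsOpenEmbedding.of_continuous_injective_isOpenMap ?_ ?_ ?_).isEmbedding
    · rw [continuous_iff_continuousAt]
      rintro ⟨_, z, hz, rfl⟩
      exact ContinuousAt.comp (g := psi) (hpc z hz) continuousAt_subtype_val
    · rintro ⟨_, z, hz, rfl⟩ ⟨_, z', hz', rfl⟩ heq
      simp only [Set.domRestrict_apply] at heq
      rw [hpsiW z hz, hpsiW z' hz'] at heq
      have h2 := L.injective heq
      subst h2
      rfl
    · intro O hO
      obtain ⟨O', hO', rfl⟩ := isOpen_induced_iff.1 hO
      have h3 : (Set.domRestrict (chi i '' W) psi) '' (Subtype.val ⁻¹' O') =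
          L '' (W ∩ chi i ⁻¹' O') := by
        ext v
        constructor
        · rintro ⟨⟨_, z, hz, rfl⟩, hy, rfl⟩
          exact ⟨z, ⟨hz, hy⟩, (hpsiW z hz).symm⟩
        · rintro ⟨z, ⟨hz, hy⟩, rfl⟩
          exact ⟨⟨chi i z, z, hz, rfl⟩, hy, hpsiW z hz⟩
      rw [h3]
      refine hLo _ ?_
      rw [isOpen_iff_mem_nhds]
      rintro z ⟨hz, hzO⟩
      exact Filter.inter_mem (hWo.mem_nhds hz) (h.cont i z (hWD hz) (hO'.mem_nhds hzO))
  · intro y hy
    refine ⟨0, fun k => k.elim0, fun k => k.elim0, ?_⟩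
    filter_upwards [hpo.mem_nhds (mem_image_of_mem psi hy)] with v hv
    exact ⟨fun _ k => k.elim0, fun _ => hv⟩
  · rintro _ ⟨z, hz, rfl⟩ f
    rw [holCh_iff h (hWD hz) f]
    constructor
    · intro hf
      refine ⟨fun v => f (chi i (L.symm v)), ?_, ?_⟩
      · refine HolAt.comp (F := fun z => f (chi i z)) (f := fun v => L.symm v) ?_
          (Eventually.of_forall fun v => L.symm.differentiableAt)
        rw [hpsiW z hz, L.symm_apply_apply]
        exact hf
      · filter_upwards [hUo.mem_nhds (mem_image_of_mem (chi i) hz)] with y hy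
        obtain ⟨z', hz', rfl⟩ := hy
        simp only [Function.comp_apply]
        rw [hpsiW z' hz', L.symm_apply_apply]
    · rintro ⟨F, hF, hf⟩
      rw [hpsiW z hz] at hF
      have h1 : HolAt (fun z => F (L z)) z :=
        HolAt.comp (F := F) (f := fun z => L z) hF (Eventually.of_forall fun v => L.differentiableAt)
      refine h1.congr ?_
      filter_upwards [(h.cont i z (hWD hz)).eventually hf, hWo.mem_nhds hz] with z' h2 h3
      rw [h2, Function.comp_apply, hpsiW z' h3]

end Pool.Agent.Moi
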