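import Pool.Agent.H.MP_795b03_ag.GX

/-! JOB ChiInv: local inverses of the parametrizations; functions on parametrized subsets.

chi_val: unfold chi, dif_pos.
chi_base_inj: toP (vk k c) = toP (vk k c') gives vk k c' = a • vk k c (toP_eq_iff), coordinate k gives a = 1; then c = cOf k (vk k c) (Mk k c) = c' (cOf_chart).
chi_inv: chartSys.inj gives a neighbourhood on which chi i is injective; W0 = an open set containing e inside it, inside DD i (open) and inside W; chi i '' W0 is open by chartSys.opn at every point of W0; inv = Function.invFunOn (chi i) W0; for w in W0 and F holomorphic at w: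
y ↦ F (inv y) composed with chi i is F near w, so it is hol by hol_chi.
mero_param: let W0, inv be as in chi_inv at e = kap w0.  P y = p (rho (inv y)), Q y = q (rho (inv y)): hol by chi_inv and HolAt.comp (rho differentiable).  On Z near x every point is y = chi i (kap w) with w near w0 (hop; kap w in W0 by continuity of kap), so P y = p w, Q y = q w; this gives the last property.
Density: w in closure {q ≠ 0}: points w' → w with q w' ≠ 0 and chi i (kap w') ∈ Z (w' near w0 too), they converge to y and Q = q w' ≠ 0 there.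
algIndep_param: if Q ≠ 0 and Z ⊆ closure (Z ∩ {eval = 0}), then for a in the product of the S i and y as given the function y' ↦ eval (f y') Q is continuous within Z at y (polynomial expression: MvPolynomial.continuous_eval), and y is in the closure of Z ∩ {eval = 0}, so the value eval a Q is 0.
So Q vanishes on a product of infinite sets, Q = 0 (MvPolynomial.funext_set or similar).
cwa_param: kap '' (preimage of V) ⊆ f ⁻¹ V.
-/

set_option autoImplicit false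

open Topology Filter Set Complex

namespace Pool.Agent.Moi

theorem chi_val {i : Fin 3 × Bool} {c : Fin 4 → ℂ} (h : c ∈ Dk i.1) (z : ℂ) :
    (chi i (c, z)).1 = ((toP (N := 2) (vk i.1 c), (⟨Mk i.1 c, h⟩ : Bs)),
      pr (z - (tht i.2 (vk i.1 c) * Real.sqrt 2 : ℝ))) :=
  congrArg (fun p : XX => p.1) (ChartC_chi h z)

theorem chi_base_inj {i : Fin 3 × Bool} {c c' : Fin 4 → ℂ} {z z' : ℂ} (h : c ∈ Dk i.1)
    (h' : c' ∈ Dk i.1) (heq : (chi i (c, z)).1.1 = (chi i (c', z')).1.1) : c = c' := by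
  have heq' : ((toP (N := 2) (vk i.1 c), (⟨Mk i.1 c, h⟩ : Bs)) : PN 2 × Bs) =
      (toP (N := 2) (vk i.1 c'), ⟨Mk i.1 c', h'⟩) := by
    have h1 : (chi i (c, z)).1.1 = (toP (N := 2) (vk i.1 c), (⟨Mk i.1 c, h⟩ : Bs)) :=
      congrArg Prod.fst (chi_val h z)
    have h2 : (chi i (c', z')).1.1 = (toP (N := 2) (vk i.1 c'), (⟨Mk i.1 c', h'⟩ : Bs)) :=
      congrArg Prod.fst (chi_val h' z')
    exact h1.symm.trans (heq.trans h2)
  have h1 : toP (N := 2) (vk i.1 c) = toP (vk i.1 c') := congrArg Prod.fst heq'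
  have h2 : Mk i.1 c = Mk i.1 c' := congrArg (fun q : PN 2 × Bs => q.2.1) heq'
  obtain ⟨a, ha, hva⟩ := (toP_eq_iff (N := 2) (vk_ne_zero i.1 c) (vk_ne_zero i.1 c')).1 h1
  have ha1 : a = 1 := by
    have h4 := congrFun hva i.1
    rw [Pi.smul_apply, vk_self, vk_self, smul_eq_mul, mul_one] at h4
    exact h4.symm
  rw [ha1, one_smul] at hva
  rw [← cOf_chart i.1 c, ← cOf_chart i.1 c', hva, h2]

theorem chi_inv {i : Fin 3 × Bool} {e : (Fin 4 → ℂ) × ℂ} (he : e ∈ DD i)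
    {W : Set ((Fin 4 → ℂ) × ℂ)} (hW : W ∈ 𝓝 e) :
    ∃ (W₀ : Set ((Fin 4 → ℂ) × ℂ)) (inv : XX → (Fin 4 → ℂ) × ℂ),
      IsOpen W₀ ∧ e ∈ W₀ ∧ W₀ ⊆ DD i ∧ W₀ ⊆ W ∧ IsOpen (chi i '' W₀) ∧ InjOn (chi i) W₀ ∧
      (∀ w ∈ W₀, inv (chi i w) = w) ∧
      ∀ w ∈ W₀, ∀ F : (Fin 4 → ℂ) × ℂ → ℂ, HolAt F w → hol (chi i w) (fun y => F (inv y)) := by
  obtain ⟨V, hV, hinj⟩ := chartSys.inj i e he
  have hN : V ∩ W ∩ DD i ∈ 𝓝 e :=
    inter_mem (inter_mem hV hW) ((chartSys.isOpen i).mem_nhds he)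
  obtain ⟨W₀, hsub, hop, heW⟩ := mem_nhds_iff.1 hN
  have hDD : W₀ ⊆ DD i := fun w hw => (hsub hw).2
  have hinj' : InjOn (chi i) W₀ := hinj.mono fun w hw => (hsub hw).1.1
  have hinv : ∀ w ∈ W₀, Function.invFunOn (chi i) W₀ (chi i w) = w := fun w hw =>
    hinj'.leftInvOn_invFunOn hw
  refine ⟨W₀, Function.invFunOn (chi i) W₀, hop, heW, hDD, fun w hw => (hsub hw).1.2, ?_, hinj',
    hinv, ?_⟩
  · rw [isOpen_iff_mem_nhds]
    rintro _ ⟨w, hw, rfl⟩
    exact chartSys.opn i w (hDD hw) W₀ (hop.mem_nhds hw)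
  · intro w hw F hF
    rw [hol_chi (hDD hw)]
    refine hF.congr ?_
    filter_upwards [hop.mem_nhds hw] with z hz
    rw [hinv z hz]

theorem mero_param {n : ℕ} {Z : Set XX} {f : XX → ℂ} {i : Fin 3 × Bool}
    {kap : (Fin n → ℂ) → (Fin 4 → ℂ) × ℂ} {rho : (Fin 4 → ℂ) × ℂ → (Fin n → ℂ)} {w₀ : Fin n → ℂ}
    (he : kap w₀ ∈ DD i) (hk : Continuous kap) (hr : Differentiable ℂ rho)
    (hrk : ∀ w, rho (kap w) = w) (hZ : ∀ᶠ w in 𝓝 w₀, chi i (kap w) ∈ Z)
    (hop : ∀ W ∈ 𝓝 w₀, (fun w => chi i (kap w)) '' W ∈ 𝓝[Z] (chi i (kap w₀)))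
    {p q : (Fin n → ℂ) → ℂ} (hp : HolAt p w₀) (hq : HolAt q w₀)
    (hd : ∀ᶠ w in 𝓝 w₀, w ∈ closure {w | q w ≠ 0})
    (hf : ∀ᶠ w in 𝓝 w₀, q w ≠ 0 → f (chi i (kap w)) = p w / q w) :
    ∃ P Q : XX → ℂ, hol (chi i (kap w₀)) P ∧ hol (chi i (kap w₀)) Q ∧
      (∀ᶠ y in 𝓝 (chi i (kap w₀)), y ∈ Z → y ∈ closure (Z ∩ {y | Q y ≠ 0})) ∧
      ∀ᶠ y in 𝓝 (chi i (kap w₀)), y ∈ Z → Q y ≠ 0 → f y = P y / Q y := by
  obtain ⟨W₀, inv, hop0, heW, hDD, -, -, -, hinv, hhol⟩ := chi_inv he (W := univ) univ_mem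
  have hpq : ∀ g : (Fin n → ℂ) → ℂ, HolAt g w₀ → hol (chi i (kap w₀)) (fun y => g (rho (inv y))) := by
    intro g hg
    refine hhol (kap w₀) heW (fun z => g (rho z)) ?_
    refine HolAt.comp (F := g) (f := rho) ?_ (Eventually.of_forall fun z => hr z)
    rw [hrk]
    exact hg
  have hkW : ∀ᶠ w in 𝓝 w₀, kap w ∈ W₀ := hk.continuousAt.eventually (hop0.mem_nhds heW)
  have hA : {w | kap w ∈ W₀ ∧ chi i (kap w) ∈ Z ∧ w ∈ closure {w | q w ≠ 0} ∧
      (q w ≠ 0 → f (chi i (kap w)) = p w / q w)} ∈ 𝓝 w₀ := by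
    filter_upwards [hkW, hZ, hd, hf] with w h1 h2 h3 h4
    exact ⟨h1, h2, h3, h4⟩
  obtain ⟨A, hAsub, hAo, hw₀⟩ := mem_nhds_iff.1 hA
  have hev : ∀ᶠ y in 𝓝 (chi i (kap w₀)), y ∈ Z → ∃ w ∈ A, chi i (kap w) = y :=
    eventually_nhdsWithin_iff.1 (hop A (hAo.mem_nhds hw₀))
  refine ⟨fun y => p (rho (inv y)), fun y => q (rho (inv y)), hpq p hp, hpq q hq, ?_, ?_⟩
  · filter_upwards [hev] with y hy hyZ
    obtain ⟨w, hw, rfl⟩ := hy hyZ
    have h1 := hAsub hw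
    have hc : ContinuousAt (fun w => chi i (kap w)) w :=
      ContinuousAt.comp (f := kap) (g := chi i) (chartSys.cont i _ (hDD h1.1)) hk.continuousAt
    have hcl : w ∈ closure ({w | q w ≠ 0} ∩ A) := by
      rw [inter_comm]
      exact hAo.inter_closure ⟨hw, h1.2.2.1⟩
    refine hc.continuousWithinAt.mem_closure hcl ?_
    rintro w' ⟨hw'1, hw'2⟩
    have h2 := hAsub hw'2
    refine ⟨h2.2.1, ?_⟩
    show q (rho (inv (chi i (kap w')))) ≠ 0
    rw [hinv _ h2.1, hrk]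
    exact hw'1
  · filter_upwards [hev] with y hy hyZ hQ
    obtain ⟨w, hw, rfl⟩ := hy hyZ
    have h1 := hAsub hw
    have hQ' : q (rho (inv (chi i (kap w)))) ≠ 0 := hQ
    show f (chi i (kap w)) = p (rho (inv (chi i (kap w)))) / q (rho (inv (chi i (kap w))))
    rw [hinv _ h1.1, hrk] at hQ' ⊢
    exact h1.2.2.2 hQ'

theorem algIndep_param {n : ℕ} {Z : Set XX} {f : Fin n → XX → ℂ} (S : Fin n → Set ℂ)
    (hS : ∀ i, (S i).Infinite)
    (h : ∀ a : Fin n → ℂ, (∀ i, a i ∈ S i) →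
      ∃ y ∈ Z, (∀ i, f i y = a i) ∧ ∀ i, ContinuousWithinAt (f i) Z y) : AlgIndep Z f := by
  intro Q hQ hcl
  apply hQ
  refine MvPolynomial.funext_set S hS fun a ha => ?_
  rw [map_zero]
  obtain ⟨y, hy, hfa, hfc⟩ := h a fun i => ha i (mem_univ i)
  set B : Set XX := Z ∩ {y | MvPolynomial.eval (fun i => f i y) Q = 0} with hB
  have h1 : ContinuousWithinAt (fun y' => (fun i => f i y' : Fin n → ℂ)) B y :=
    (continuousWithinAt_pi.2 hfc).mono inter_subset_left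
  have h2 : ContinuousWithinAt (fun y' => MvPolynomial.eval (fun i => f i y') Q) B y :=
    (MvPolynomial.continuous_eval Q).continuousAt.comp_continuousWithinAt h1
  have h3 : MvPolynomial.eval (fun i => f i y) Q ∈ closure ({0} : Set ℂ) :=
    h2.mem_closure (hcl hy) fun y' hy' => hy'.2
  rw [closure_singleton] at h3
  have h4 : (fun i => f i y) = a := funext hfa
  rw [h4] at h3
  exact h3

theorem cwa_param {n : ℕ} {Z : Set XX} {f : XX → ℂ} {kap : (Fin n → ℂ) → XX} {w₀ : Fin n → ℂ}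
    (hop : ∀ W ∈ 𝓝 w₀, kap '' W ∈ 𝓝[Z] (kap w₀)) (hf : ContinuousAt (fun w => f (kap w)) w₀) :
    ContinuousWithinAt f Z (kap w₀) := by
  intro V hV
  have h1 : kap '' ((fun w => f (kap w)) ⁻¹' V) ∈ 𝓝[Z] (kap w₀) := hop _ (hf hV)
  refine mem_map.2 (mem_of_superset h1 ?_)
  rintro _ ⟨w, hw, rfl⟩
  exact hw

end Pool.Agent.Moi
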