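import Pool.Agent.H.MP_795b03_ag.Loc
import Pool.Agent.H.MP_3a36cd_an.SCV1

/-! JOB HolBasic: basic facts on holomorphic germs in several variables.

HolAt F a means: F is complex differentiable on a neighbourhood of a.  Useful library files (may be
imported): Pool.Agent.H.MP_3a36cd_an.SCV1 (scv_of_lines, scv_identity, scv_contDiffOn),
Pool.Agent.H.MP_ceb9a9.Scv3 (OkaP.osgood), Pool.Agent.H.MP_ceb9a9.Scv4 (OkaP.differentiableOn_integral).

Proofs.  Algebraic closure properties: from the corresponding facts on DifferentiableAt and filter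
upwards.  HolAt.line: s ↦ F (a + s • e) is differentiable near t, and Mathlib gives analyticity in one
variable (DifferentiableOn.analyticAt).  hol_identity: for x in U look at s ↦ F (a + s • (x - a)) on the
open convex set of complex s with a + s • (x-a) in U (it contains [0,1]); it vanishes near 0, hence
identically (AnalyticOnNhd.eqOn_zero_of_preconnected_of_eventuallyEq_zero), take s = 1.
exists_dir: choose a ball around a on which F is holomorphic; in every smaller ball there is z with
F z ≠ 0; e := z - a; s ↦ F (a + s • e) is analytic on a neighbourhood of the closed unit disc and nonzero at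
s = 1, so it cannot vanish near 0.  one_var_dich: identity principle in one variable.
-/

set_option autoImplicit false

open Topology Filter Set Complex

namespace Pool.Agent.Moi

variable {E : Type} [NormedAddCommGroup E] [NormedSpace ℂ E]
variable {E' : Type} [NormedAddCommGroup E'] [NormedSpace ℂ E']
variable {F G : E → ℂ} {a : E}

theorem HolAt.differentiableAt (h : HolAt F a) : DifferentiableAt ℂ F a := h.self_of_nhds

theorem HolAt.continuousAt (h : HolAt F a) : ContinuousAt F a := h.differentiableAt.continuousAt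

theorem HolAt.eventually (h : HolAt F a) : ∀ᶠ z in 𝓝 a, HolAt F z := eventually_eventually_nhds.2 h

theorem HolAt.congr (h : HolAt F a) (hFG : F =ᶠ[𝓝 a] G) : HolAt G a := by
  have h1 : ∀ᶠ z in 𝓝 a, F =ᶠ[𝓝 z] G := eventually_eventually_nhds.2 hFG
  filter_upwards [h, h1] with z hz hz'
  exact hz.congr_of_eventuallyEq hz'.symm

theorem HolAt.const (c : ℂ) : HolAt (fun _ : E => c) a :=
  Eventually.of_forall fun _ => differentiableAt_const c

theorem HolAt.add (hF : HolAt F a) (hG : HolAt G a) : HolAt (fun z => F z + G z) a := by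
  filter_upwards [hF, hG] with z h1 h2
  exact h1.add h2

theorem HolAt.sub (hF : HolAt F a) (hG : HolAt G a) : HolAt (fun z => F z - G z) a := by
  filter_upwards [hF, hG] with z h1 h2
  exact h1.sub h2

theorem HolAt.mul (hF : HolAt F a) (hG : HolAt G a) : HolAt (fun z => F z * G z) a := by
  filter_upwards [hF, hG] with z h1 h2
  exact h1.mul h2

theorem HolAt.pow (hF : HolAt F a) (n : ℕ) : HolAt (fun z => F z ^ n) a := by
  filter_upwards [hF] with z h1
  exact h1.pow n

theorem HolAt.div (hF : HolAt F a) (hG : HolAt G a) (h0 : G a ≠ 0) :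
    HolAt (fun z => F z / G z) a := by
  filter_upwards [hF, hG, hG.continuousAt.eventually_ne h0] with z h1 h2 h3
  simp only [div_eq_mul_inv]
  exact h1.mul (h2.inv h3)

theorem HolAt.sum {ι : Type} (s : Finset ι) {f : ι → E → ℂ} (h : ∀ i ∈ s, HolAt (f i) a) :
    HolAt (fun z => ∑ i ∈ s, f i z) a := by
  classical
  induction s using Finset.induction_on with
  | empty => simpa using HolAt.const (a := a) (0 : ℂ)
  | insert i s hi ih =>
    have h1 := (h i (Finset.mem_insert_self i s)).add
      (ih fun j hj => h j (Finset.mem_insert_of_mem hj))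
    exact h1.congr (Eventually.of_forall fun z => (Finset.sum_insert (f := fun j => f j z) hi).symm)

theorem HolAt.prod {ι : Type} (s : Finset ι) {f : ι → E → ℂ} (h : ∀ i ∈ s, HolAt (f i) a) :
    HolAt (fun z => ∏ i ∈ s, f i z) a := by
  classical
  induction s using Finset.induction_on with
  | empty => simpa using HolAt.const (a := a) (1 : ℂ)
  | insert i s hi ih =>
    have h1 := (h i (Finset.mem_insert_self i s)).mul
      (ih fun j hj => h j (Finset.mem_insert_of_mem hj))
    exact h1.congr (Eventually.of_forall fun z => (Finset.prod_insert (f := fun j => f j z) hi).symm)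

theorem HolAt.comp {f : E' → E} {b : E'} (h : HolAt F (f b))
    (hf : ∀ᶠ z in 𝓝 b, DifferentiableAt ℂ f z) : HolAt (fun z => F (f z)) b := by
  have hc : ContinuousAt f b := hf.self_of_nhds.continuousAt
  filter_upwards [hf, hc.eventually h] with z h1 h2
  exact h2.comp z h1

/-- restriction to complex lines is analytic -/
theorem HolAt.line {e : E} {t : ℂ} (h : HolAt F (a + t • e)) :
    AnalyticAt ℂ (fun s : ℂ => F (a + s • e)) t := by
  rw [Complex.analyticAt_iff_eventually_differentiableAt]
  exact HolAt.comp (f := fun s : ℂ => a + s • e) h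
    (Eventually.of_forall fun s => by fun_prop)

/-- identity principle on convex open sets -/
theorem hol_identity {U : Set E} (hU : IsOpen U) (hc : Convex ℝ U) (hF : ∀ x ∈ U, HolAt F x)
    (ha : a ∈ U) (h0 : ∀ᶠ z in 𝓝 a, F z = 0) : ∀ x ∈ U, F x = 0 :=
  Pool.Agent.ParLeaf.scv_identity (f := F) (g := fun _ => 0) hU hc
    (fun x hx => (hF x hx).differentiableAt.differentiableWithinAt)
    (differentiableOn_const _) ha h0

/-- a holomorphic germ which is not zero is not zero on arbitrarily short directions; moreover the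
direction `e` can be chosen with `F (a + e) ≠ 0`, and `F` holomorphic at all `a + s e`, `|s| ≤ 2`. -/
theorem exists_dir (hF : HolAt F a) (h0 : ¬ ∀ᶠ z in 𝓝 a, F z = 0) {ε : ℝ} (hε : 0 < ε) :
    ∃ e : E, ‖e‖ < ε ∧ F (a + e) ≠ 0 ∧ (∀ s : ℂ, ‖s‖ ≤ 2 → HolAt F (a + s • e)) ∧
      ¬ ∀ᶠ s in 𝓝 (0 : ℂ), F (a + s • e) = 0 := by
  obtain ⟨ρ, hρ, hb⟩ := Metric.mem_nhds_iff.1 hF.eventually
  have h1 : ∃ᶠ z in 𝓝 a, ¬ F z = 0 := Filter.not_eventually.1 h0
  obtain ⟨z, hz0, hz⟩ := (h1.and_eventually
    (Metric.ball_mem_nhds a (lt_min hε (by positivity : (0 : ℝ) < ρ / 3)))).exists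
  have hze : ‖z - a‖ < ε := by
    rw [dist_eq_norm] at hz
    exact hz.trans_le (min_le_left _ _)
  have hzρ : ‖z - a‖ < ρ / 3 := by
    rw [dist_eq_norm] at hz
    exact hz.trans_le (min_le_right _ _)
  have hol : ∀ s : ℂ, ‖s‖ < 3 → HolAt F (a + s • (z - a)) := by
    intro s hs
    refine hb ?_
    rw [Metric.mem_ball, dist_eq_norm, add_sub_cancel_left, norm_smul]
    have h2 := norm_nonneg (z - a)
    have h3 := norm_nonneg s
    nlinarith
  refine ⟨z - a, hze, by rwa [add_sub_cancel], fun s hs => hol s (by linarith), fun hev => ?_⟩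
  have han : AnalyticOnNhd ℂ (fun s : ℂ => F (a + s • (z - a))) (Metric.ball 0 3) := by
    intro s hs
    exact (hol s (by rwa [Metric.mem_ball, dist_zero_right] at hs)).line
  have h2 := han.eqOn_zero_of_preconnected_of_eventuallyEq_zero
    (convex_ball (0 : ℂ) 3).isPreconnected (Metric.mem_ball_self (by norm_num)) hev
    (show (1 : ℂ) ∈ Metric.ball 0 3 by simp)
  apply hz0
  simpa using h2

/-- one variable: an analytic germ is zero or has no zero on a punctured neighbourhood -/
theorem one_var_dich {f : ℂ → ℂ} {t : ℂ} (hf : HolAt f t) (h0 : ¬ ∀ᶠ s in 𝓝 t, f s = 0) :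
    ∀ᶠ s in 𝓝[≠] t, f s ≠ 0 := by
  have h1 : AnalyticAt ℂ f t := Complex.analyticAt_iff_eventually_differentiableAt.2 hf
  rcases h1.eventually_eq_zero_or_eventually_ne_zero with h | h
  · exact absurd h h0
  · exact h

private theorem HolBasic_of_finite {ι : Type} [Finite ι] {Z : Set E} (G : ι → E → ℂ)
    (hG : ∀ i, HolAt (G i) a) (h : ∀ᶠ z in 𝓝 a, (z ∈ Z ↔ ∀ i, G i z = 0)) : LocAn Z a := by
  obtain ⟨n, ⟨e⟩⟩ := Finite.exists_equiv_fin ι
  refine ⟨n, fun i => G (e.symm i), fun i => hG _, ?_⟩
  filter_upwards [h] with z hz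
  rw [hz]
  exact ⟨fun h' i => h' _, fun h' i => by simpa using h' (e i)⟩

/-- locally analytic sets are closed near the point -/
theorem LocAn.eventually {Z : Set E} (h : LocAn Z a) : ∀ᶠ z in 𝓝 a, LocAn Z z := by
  obtain ⟨m, G, hG, h⟩ := h
  filter_upwards [eventually_all.2 fun i => (hG i).eventually, eventually_eventually_nhds.2 h]
    with z h1 h2
  exact ⟨m, G, h1, h2⟩

theorem LocAn.compl_mem {Z : Set E} (h : LocAn Z a) (ha : a ∉ Z) : ∀ᶠ z in 𝓝 a, z ∉ Z := by
  obtain ⟨m, G, hG, h⟩ := h
  have h1 : ¬ ∀ i, G i a = 0 := fun h' => ha (h.self_of_nhds.2 h')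
  push Not at h1
  obtain ⟨i, hi⟩ := h1
  filter_upwards [h, (hG i).continuousAt.eventually_ne hi] with z h2 h3 h4
  exact h3 (h2.1 h4 i)

theorem LocAn.inter {Z Z' : Set E} (h : LocAn Z a) (h' : LocAn Z' a) : LocAn (Z ∩ Z') a := by
  obtain ⟨m, G, hG, h⟩ := h
  obtain ⟨m', G', hG', h'⟩ := h'
  refine HolBasic_of_finite (Sum.elim G G') ?_ ?_
  · rintro (i | i)
    · exact hG i
    · exact hG' i
  · filter_upwards [h, h'] with z h1 h2
    rw [Set.mem_inter_iff, h1, h2, Sum.forall]
    rfl

theorem LocAn.union {Z Z' : Set E} (h : LocAn Z a) (h' : LocAn Z' a) : LocAn (Z ∪ Z') a := by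
  obtain ⟨m, G, hG, h⟩ := h
  obtain ⟨m', G', hG', h'⟩ := h'
  refine HolBasic_of_finite (fun (p : Fin m × Fin m') z => G p.1 z * G' p.2 z) ?_ ?_
  · intro p
    exact (hG p.1).mul (hG' p.2)
  · filter_upwards [h, h'] with z h1 h2
    rw [Set.mem_union, h1, h2]
    constructor
    · rintro (h3 | h3) p
      · rw [h3 p.1, zero_mul]
      · rw [h3 p.2, mul_zero]
    · intro h3
      by_contra hcon
      push Not at hcon
      obtain ⟨⟨i, hi⟩, ⟨j, hj⟩⟩ := hcon
      exact (mul_ne_zero hi hj) (h3 (i, j))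

theorem LocAn.congr {Z Z' : Set E} (h : LocAn Z a) (h' : ∀ᶠ z in 𝓝 a, (z ∈ Z ↔ z ∈ Z')) :
    LocAn Z' a := by
  obtain ⟨m, G, hG, h⟩ := h
  refine ⟨m, G, hG, ?_⟩
  filter_upwards [h, h'] with z h1 h2
  rw [← h2, h1]

/-- preimages of locally analytic sets under holomorphic maps -/
theorem LocAn.preimage {Z : Set E} {f : E' → E} {b : E'} (h : LocAn Z (f b))
    (hf : ∀ᶠ z in 𝓝 b, DifferentiableAt ℂ f z) : LocAn {z | f z ∈ Z} b := by
  obtain ⟨m, G, hG, h⟩ := h
  refine ⟨m, fun i z => G i (f z), fun i => (hG i).comp hf, ?_⟩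
  have hc : ContinuousAt f b := hf.self_of_nhds.continuousAt
  filter_upwards [hc.eventually h] with z hz
  exact hz

/-- finite intersections -/
theorem LocAn.iInter {ι : Type} [Finite ι] {Z : ι → Set E} (h : ∀ i, LocAn (Z i) a) :
    LocAn {z | ∀ i, z ∈ Z i} a := by
  choose m G hG h using h
  refine HolBasic_of_finite (fun (p : Σ i, Fin (m i)) => G p.1 p.2) (fun p => hG p.1 p.2) ?_
  filter_upwards [eventually_all.2 h] with z hz
  constructor
  · intro h1 p
    exact (hz p.1).1 (h1 p.1) p.2
  · intro h1 i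
    exact (hz i).2 fun j => h1 ⟨i, j⟩

/-- the zero set of a holomorphic function -/
theorem LocAn.zero (hF : HolAt F a) : LocAn {z | F z = 0} a :=
  HolBasic_of_finite (fun _ : Unit => F) (fun _ => hF)
    (Eventually.of_forall fun _ => ⟨fun h _ => h, fun h => h ()⟩)

end Pool.Agent.Moi
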