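import Pool.Agent.H.MP_795b03_ag.Moish
import Pool.Agent.H.MP_795b03_ag.HolBasic

/-! JOB Sp: general facts on complex spaces.

All facts about germs at x follow from a local model (CxSpace.model): hol y f ↔ f = F ∘ psi near y with F holomorphic near psi y.
hol_comp: a_i = A_i ∘ psi, F(a) = (F ∘ A) ∘ psi.  hol_eventually: F is holomorphic near psi y and psi is continuous on U.
HolTo kap e: the map kap : E → X from a normed space pulls back holomorphic germs at kap e to holomorphic germs.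
HolTo.prodMk: holProd germs are F(a,b) with a, b germs on the factors; (F ∘ (a ∘ k1, b ∘ k2)) is holomorphic.
holTo_toP: definition of holP.  IsAnalyticIn.pull: compose the local equations with kap (kap continuous at e).
IsAnalyticIn.union: products of equations (index by Fin m × Fin m', reindexed by an equivalence with Fin (m*m')); inter: both families; clopen sets: if C is
open and O \ C is open then C ⊆ O is analytic in O (at x in C the empty family, at x in O \ C the constant function 1);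
isClosed property: if x ∈ O, x ∉ Z then y ∉ Z for y near x.
-/

set_option autoImplicit false

open Topology Filter Set Complex

namespace Pool.Agent.Moi

private theorem Sp_cont {X : Type} [TopologicalSpace X] {hl : X → (X → ℂ) → Prop} {n : ℕ}
    {psi : X → (Fin n → ℂ)} {U : Set X} (M : IsModel hl n psi U) {y : X} (hy : y ∈ U) :
    ContinuousAt psi y := by
  have h := continuousOn_iff_continuous_domRestrict.2 M.emb.continuous
  exact h.continuousAt (M.isOpen.mem_nhds hy)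

private theorem Sp_diff_pi {E : Type} [NormedAddCommGroup E] [NormedSpace ℂ E] {a : E} {n : ℕ}
    {A : Fin n → E → ℂ} (hA : ∀ i, HolAt (A i) a) :
    ∀ᶠ z in 𝓝 a, DifferentiableAt ℂ (fun z => fun i => A i z) z := by
  filter_upwards [eventually_all.2 hA] with z hz
  exact differentiableAt_pi.2 hz

section
variable {X : Type} [TopologicalSpace X] [CxSpace X] {x : X} {f g : X → ℂ}

theorem hol_congr (h : hol x f) (hfg : f =ᶠ[𝓝 x] g) : hol x g := by
  obtain ⟨n, psi, U, M, hx⟩ := CxSpace.model x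
  obtain ⟨F, hF, hf⟩ := (M.germs x hx f).1 h
  exact (M.germs x hx g).2 ⟨F, hF, hfg.symm.trans hf⟩

theorem hol_continuousAt (h : hol x f) : ContinuousAt f x := by
  obtain ⟨n, psi, U, M, hx⟩ := CxSpace.model x
  obtain ⟨F, hF, hf⟩ := (M.germs x hx f).1 h
  have h1 : ContinuousAt (F ∘ psi) x := ContinuousAt.comp (HolAt.continuousAt hF) (Sp_cont M hx)
  exact h1.congr hf.symm

theorem hol_eventually (h : hol x f) : ∀ᶠ y in 𝓝 x, hol y f := by
  obtain ⟨n, psi, U, M, hx⟩ := CxSpace.model x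
  obtain ⟨F, hF, hf⟩ := (M.germs x hx f).1 h
  have h1 : ∀ᶠ y in 𝓝 x, f =ᶠ[𝓝 y] F ∘ psi := eventually_eventually_nhds.2 hf
  filter_upwards [h1, M.isOpen.mem_nhds hx, (Sp_cont M hx).eventually (HolAt.eventually hF)]
    with y hy1 hy2 hy3
  exact (M.germs y hy2 f).2 ⟨F, hy3, hy1⟩

theorem hol_comp {n : ℕ} {a : Fin n → X → ℂ} (ha : ∀ i, hol x (a i)) {F : (Fin n → ℂ) → ℂ}
    (hF : HolAt F (fun i => a i x)) : hol x (fun y => F (fun i => a i y)) := by
  obtain ⟨m, psi, U, M, hx⟩ := CxSpace.model x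
  have h0 : ∀ i, ∃ A : (Fin m → ℂ) → ℂ, HolAt A (psi x) ∧ a i =ᶠ[𝓝 x] A ∘ psi :=
    fun i => (M.germs x hx (a i)).1 (ha i)
  choose A hA hA' using h0
  have h1 : (fun i => a i x) = fun i => A i (psi x) := by
    funext i
    exact (hA' i).self_of_nhds
  rw [h1] at hF
  refine (M.germs x hx _).2 ⟨fun z => F (fun i => A i z),
    HolAt.comp (f := fun z => fun i => A i z) hF (Sp_diff_pi hA), ?_⟩
  filter_upwards [eventually_all.2 hA'] with y hy
  show F (fun i => a i y) = F (fun i => A i (psi y))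
  congr 1
  funext i
  exact hy i

theorem hol_const (c : ℂ) : hol x (fun _ => c) := by
  obtain ⟨n, psi, U, M, hx⟩ := CxSpace.model x
  exact (M.germs x hx _).2 ⟨fun _ => c, HolAt.const c, EventuallyEq.refl _ _⟩

private theorem Sp_comp1 (hf : hol x f) {F : ℂ → ℂ} (hF : HolAt F (f x)) :
    hol x (fun y => F (f y)) := by
  obtain ⟨n, psi, U, M, hx⟩ := CxSpace.model x
  obtain ⟨A, hA, hA'⟩ := (M.germs x hx f).1 hf
  have h1 : f x = A (psi x) := hA'.self_of_nhds
  rw [h1] at hF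
  refine (M.germs x hx _).2 ⟨fun z => F (A z), HolAt.comp (f := A) hF hA, ?_⟩
  filter_upwards [hA'] with y hy
  show F (f y) = F (A (psi y))
  rw [hy]
  rfl

theorem hol_add (hf : hol x f) (hg : hol x g) : hol x (fun y => f y + g y) := by
  obtain ⟨n, psi, U, M, hx⟩ := CxSpace.model x
  obtain ⟨F, hF, hf⟩ := (M.germs x hx f).1 hf
  obtain ⟨G, hG, hg⟩ := (M.germs x hx g).1 hg
  refine (M.germs x hx _).2 ⟨fun z => F z + G z, HolAt.add hF hG, ?_⟩
  filter_upwards [hf, hg] with y hy1 hy2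
  rw [hy1, hy2]
  rfl

theorem hol_sub (hf : hol x f) (hg : hol x g) : hol x (fun y => f y - g y) := by
  obtain ⟨n, psi, U, M, hx⟩ := CxSpace.model x
  obtain ⟨F, hF, hf⟩ := (M.germs x hx f).1 hf
  obtain ⟨G, hG, hg⟩ := (M.germs x hx g).1 hg
  refine (M.germs x hx _).2 ⟨fun z => F z - G z, HolAt.sub hF hG, ?_⟩
  filter_upwards [hf, hg] with y hy1 hy2
  rw [hy1, hy2]
  rfl

theorem hol_mul (hf : hol x f) (hg : hol x g) : hol x (fun y => f y * g y) := by
  obtain ⟨n, psi, U, M, hx⟩ := CxSpace.model x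
  obtain ⟨F, hF, hf⟩ := (M.germs x hx f).1 hf
  obtain ⟨G, hG, hg⟩ := (M.germs x hx g).1 hg
  refine (M.germs x hx _).2 ⟨fun z => F z * G z, HolAt.mul hF hG, ?_⟩
  filter_upwards [hf, hg] with y hy1 hy2
  rw [hy1, hy2]
  rfl

theorem hol_div (hf : hol x f) (hg : hol x g) (h0 : g x ≠ 0) : hol x (fun y => f y / g y) := by
  obtain ⟨n, psi, U, M, hx⟩ := CxSpace.model x
  obtain ⟨F, hF, hf⟩ := (M.germs x hx f).1 hf
  obtain ⟨G, hG, hg⟩ := (M.germs x hx g).1 hg
  have h1 : G (psi x) ≠ 0 := by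
    rw [hg.self_of_nhds] at h0
    exact h0
  refine (M.germs x hx _).2 ⟨fun z => F z / G z, HolAt.div hF hG h1, ?_⟩
  filter_upwards [hf, hg] with y hy1 hy2
  rw [hy1, hy2]
  rfl

/-- composition with a holomorphic function of one variable -/
theorem hol_comp1 (hf : hol x f) {F : ℂ → ℂ} (hF : HolAt F (f x)) : hol x (fun y => F (f y)) :=
  Sp_comp1 hf hF

variable {O Z Z' : Set X}

theorem IsAnalyticIn.compl_nhds (h : IsAnalyticIn O Z) (hx : x ∈ O) (hxZ : x ∉ Z) :
    ∀ᶠ y in 𝓝 x, y ∉ Z := by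
  obtain ⟨m, G, hG, h⟩ := h.2 x hx
  have h1 : ¬ ∀ i, G i x = 0 := fun h' => hxZ (h.self_of_nhds.2 h')
  push Not at h1
  obtain ⟨i, hi⟩ := h1
  filter_upwards [h, (hol_continuousAt (hG i)).eventually_ne hi] with z h2 h3 h4
  exact h3 (h2.1 h4 i)

private theorem Sp_of_finite {ι : Type} [Finite ι] {Z : Set X} (G : ι → X → ℂ)
    (hG : ∀ i, hol x (G i)) (h : ∀ᶠ z in 𝓝 x, (z ∈ Z ↔ ∀ i, G i z = 0)) :
    ∃ (m : ℕ) (G : Fin m → X → ℂ), (∀ i, hol x (G i)) ∧
      ∀ᶠ y in 𝓝 x, (y ∈ Z ↔ ∀ i, G i y = 0) := by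
  obtain ⟨n, ⟨e⟩⟩ := Finite.exists_equiv_fin ι
  refine ⟨n, fun i => G (e.symm i), fun i => hG _, ?_⟩
  filter_upwards [h] with z hz
  rw [hz]
  exact ⟨fun h' i => h' _, fun h' i => by simpa using h' (e i)⟩

theorem IsAnalyticIn.union (h : IsAnalyticIn O Z) (h' : IsAnalyticIn O Z') :
    IsAnalyticIn O (Z ∪ Z') := by
  refine ⟨union_subset h.1 h'.1, fun x hx => ?_⟩
  obtain ⟨m, G, hG, h⟩ := h.2 x hx
  obtain ⟨m', G', hG', h'⟩ := h'.2 x hx
  refine Sp_of_finite (fun (p : Fin m × Fin m') z => G p.1 z * G' p.2 z) ?_ ?_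
  · intro p
    exact hol_mul (hG p.1) (hG' p.2)
  · filter_upwards [h, h'] with z h1 h2
    rw [Set.mem_union, h1, h2]
    constructor
    · rintro (h3 | h3) p
      · rw [h3 p.1, zero_mul]
      · rw [h3 p.2, mul_zero]
    · intro h3
      by_contra hcon
      push Not at hcon
      obtain ⟨⟨i, hi⟩, ⟨j, hj⟩⟩ := hcon
      exact (mul_ne_zero hi hj) (h3 (i, j))

theorem IsAnalyticIn.inter (h : IsAnalyticIn O Z) (h' : IsAnalyticIn O Z') :
    IsAnalyticIn O (Z ∩ Z') := by
  refine ⟨inter_subset_left.trans h.1, fun x hx => ?_⟩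
  obtain ⟨m, G, hG, h⟩ := h.2 x hx
  obtain ⟨m', G', hG', h'⟩ := h'.2 x hx
  refine Sp_of_finite (Sum.elim G G') ?_ ?_
  · rintro (i | i)
    · exact hG i
    · exact hG' i
  · filter_upwards [h, h'] with z h1 h2
    rw [Set.mem_inter_iff, h1, h2, Sum.forall]
    rfl

theorem isAnalyticIn_clopen {C : Set X} (hCO : C ⊆ O) (hC : IsOpen C) (hC' : IsOpen (O \ C)) :
    IsAnalyticIn O C := by
  refine ⟨hCO, fun x hx => ?_⟩
  by_cases hxC : x ∈ C
  · refine ⟨0, Fin.elim0, fun i => i.elim0, ?_⟩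
    filter_upwards [hC.mem_nhds hxC] with y hy
    exact ⟨fun _ i => i.elim0, fun _ => hy⟩
  · refine ⟨1, fun _ _ => 1, fun _ => hol_const 1, ?_⟩
    filter_upwards [hC'.mem_nhds ⟨hx, hxC⟩] with y hy
    exact ⟨fun h => absurd h hy.2, fun h => absurd (h 0) one_ne_zero⟩

theorem isAnalyticIn_zero (hO : IsOpen O) {n : ℕ} {a : Fin n → X → ℂ}
    (ha : ∀ i, ∀ y ∈ O, hol y (a i)) : IsAnalyticIn O {y | y ∈ O ∧ ∀ i, a i y = 0} := by
  refine ⟨fun y hy => hy.1, fun x hx => ⟨n, a, fun i => ha i x hx, ?_⟩⟩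
  filter_upwards [hO.mem_nhds hx] with y hy
  exact ⟨fun h => h.2, fun h => ⟨hy, h⟩⟩

end

section
variable {E : Type} [NormedAddCommGroup E] [NormedSpace ℂ E]
variable {E' : Type} [NormedAddCommGroup E'] [NormedSpace ℂ E']
variable {X Y : Type} [TopologicalSpace X] [CxSpace X] [TopologicalSpace Y] [CxSpace Y]

/-- `kap` is holomorphic near `e` as a map from a normed space to a complex space -/
def HolTo (kap : E → X) (e : E) : Prop :=
  ContinuousAt kap e ∧ ∀ F : X → ℂ, hol (kap e) F → HolAt (fun z => F (kap z)) e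

theorem HolTo.comp_diff {kap : E → X} {f : E' → E} {b : E'} (h : HolTo kap (f b))
    (hf : ∀ᶠ z in 𝓝 b, DifferentiableAt ℂ f z) : HolTo (fun z => kap (f z)) b := by
  refine ⟨ContinuousAt.comp (g := kap) h.1 hf.self_of_nhds.continuousAt, fun F hF => ?_⟩
  exact HolAt.comp (F := fun z => F (kap z)) (f := f) (h.2 F hF) hf

theorem HolTo.comp {kap : E → X} {g : X → Y} {e : E} (h : HolTo kap e) (hg : IsHolMap g) :
    HolTo (fun z => g (kap z)) e := by
  refine ⟨ContinuousAt.comp (g := g) hg.1.continuousAt h.1, fun F hF => ?_⟩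
  exact h.2 (F ∘ g) (hg.2 (kap e) F hF)

theorem HolTo.prodMk {k1 : E → X} {k2 : E → Y} {e : E} (h1 : HolTo k1 e) (h2 : HolTo k2 e) :
    HolTo (fun z => (k1 z, k2 z)) e := by
  refine ⟨h1.1.prodMk h2.1, fun F hF => ?_⟩
  obtain ⟨n, m, a, b, F', ha, hb, hF', hev⟩ := hF
  have hA : ∀ i, HolAt (fun z => a i (k1 z)) e := fun i => h1.2 (a i) (ha i)
  have hB : ∀ i, HolAt (fun z => b i (k2 z)) e := fun i => h2.2 (b i) (hb i)
  have hd : ∀ᶠ z in 𝓝 e, DifferentiableAt ℂ
      (fun z => ((fun i => a i (k1 z)), (fun i => b i (k2 z)))) z := by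
    filter_upwards [Sp_diff_pi hA, Sp_diff_pi hB] with z hz1 hz2
    exact hz1.prodMk hz2
  have hc := HolAt.comp (F := F')
    (f := fun z => ((fun i => a i (k1 z)), (fun i => b i (k2 z)))) hF' hd
  refine HolAt.congr hc ?_
  have hk : ContinuousAt (fun z => (k1 z, k2 z)) e := h1.1.prodMk h2.1
  filter_upwards [hk.eventually hev] with z hz
  exact hz.symm

theorem holTo_toP {N : ℕ} {v : Fin (N + 1) → ℂ} (hv : v ≠ 0) : HolTo (toP (N := N)) v :=
  ⟨continuousAt_toP hv, fun _ hF => hF v hv rfl⟩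

theorem IsAnalyticIn.pull {O Z : Set X} (h : IsAnalyticIn O Z) {kap : E → X} {e : E}
    (he : kap e ∈ O) (hk : HolTo kap e) : LocAn {z | kap z ∈ Z} e := by
  obtain ⟨m, G, hG, h⟩ := h.2 _ he
  refine ⟨m, fun i z => G i (kap z), fun i => hk.2 _ (hG i), ?_⟩
  filter_upwards [hk.1.eventually h] with z hz
  exact hz

/-- the quotient of two homogeneous coordinates is holomorphic on projective space -/
theorem hol_coord {N : ℕ} {v : Fin (N + 1) → ℂ} (hv : v ≠ 0) {i : Fin (N + 1)} (hi : v i ≠ 0)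
    (j : Fin (N + 1)) : ∃ F : PN N → ℂ, hol (toP v) F ∧
      ∀ w : Fin (N + 1) → ℂ, w i ≠ 0 → F (toP w) = w j / w i := by
  choose rep hrep0 hrep using (toP_surj (N := N))
  have hF : ∀ w : Fin (N + 1) → ℂ, w ≠ 0 → rep (toP w) j / rep (toP w) i = w j / w i := by
    intro w hw
    obtain ⟨c, hc, h⟩ := (toP_eq_iff hw (hrep0 _)).1 (hrep (toP w)).symm
    rw [h]
    simp only [Pi.smul_apply, smul_eq_mul]
    rw [mul_div_mul_left _ _ hc]
  refine ⟨fun l => rep l j / rep l i, ?_, fun w hw => hF w (by rintro rfl; exact hw rfl)⟩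
  intro v' hv' hvv'
  obtain ⟨c, hc, h⟩ := (toP_eq_iff hv hv').1 hvv'.symm
  have hi' : v' i ≠ 0 := by
    rw [h]
    simpa using ⟨hc, hi⟩
  have h1 : HolAt (fun w : Fin (N + 1) → ℂ => w j) v' :=
    Eventually.of_forall fun z => differentiableAt_apply j z
  have h2 : HolAt (fun w : Fin (N + 1) → ℂ => w i) v' :=
    Eventually.of_forall fun z => differentiableAt_apply i z
  refine HolAt.congr (HolAt.div h1 h2 hi') ?_
  have hne : ∀ᶠ w : Fin (N + 1) → ℂ in 𝓝 v', w ≠ 0 := isOpen_ne.mem_nhds hv'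
  filter_upwards [hne] with w hw
  exact (hF w hw).symm

/-- first projection of a product is holomorphic, second too -/
theorem isHolMap_fst : IsHolMap (Prod.fst : X × Y → X) := by
  refine ⟨continuous_fst, fun x F hF => ?_⟩
  refine ⟨1, 0, fun _ => F, Fin.elim0, fun p => p.1 0, fun _ => hF, fun i => i.elim0, ?_, ?_⟩
  · exact Eventually.of_forall fun z => by fun_prop
  · exact EventuallyEq.refl _ _

theorem isHolMap_snd : IsHolMap (Prod.snd : X × Y → Y) := by
  refine ⟨continuous_snd, fun x F hF => ?_⟩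
  refine ⟨0, 1, Fin.elim0, fun _ => F, fun p => p.2 0, fun i => i.elim0, fun _ => hF, ?_, ?_⟩
  · exact Eventually.of_forall fun z => by fun_prop
  · exact EventuallyEq.refl _ _

end

end Pool.Agent.Moi
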