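import Pool.Agent.H.MP_795b03_ag.BsModel
import Pool.Agent.H.MP_795b03_ag.Sp

/-! The base and the total space as complex spaces. -/

set_option autoImplicit false

open Topology Filter Set Complex

namespace Pool.Agent.Moi

instance instCxBs : CxSpace Bs where
  hol := holB
  t2 := bs_t2
  countable := bs_sc
  model := fun x => by
    obtain ⟨n, psi, U, h, hx, _⟩ := bs_model x
    exact ⟨n, psi, U, h, hx⟩

theorem xx_model (x : XX) : ∃ (n : ℕ) (psi : XX → (Fin n → ℂ)) (U : Set XX),
    IsModel (holCh DD chi) n psi U ∧ x ∈ U ∧ IsOpen (psi '' U) := by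
  have := xx_t2
  exact chart_model chartSys x

noncomputable instance instCxXX : CxSpace XX where
  hol := holCh DD chi
  t2 := xx_t2
  countable := xx_sc
  model := fun x => by
    obtain ⟨n, psi, U, h, hx, _⟩ := xx_model x
    exact ⟨n, psi, U, h, hx⟩

theorem bs_smooth : IsSmooth Bs := bs_model

theorem xx_smooth : IsSmooth XX := xx_model

/-- holomorphic germs on `XX` in a chart -/
theorem hol_chi {i : Fin 3 × Bool} {e : (Fin 4 → ℂ) × ℂ} (he : e ∈ DD i) (f : XX → ℂ) :
    hol (chi i e) f ↔ HolAt (fun z => f (chi i z)) e := holCh_iff chartSys he f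

/-- the parametrizations are holomorphic maps to `XX` -/
theorem holTo_chi {i : Fin 3 × Bool} {e : (Fin 4 → ℂ) × ℂ} (he : e ∈ DD i) : HolTo (chi i) e :=
  ⟨chartSys.cont i e he, fun F hF => (hol_chi he F).1 hF⟩

end Pool.Agent.Moi
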