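import Pool.Agent.H.MP_795b03_ag.Irr
import Pool.Agent.H.MP_795b03_ag.ExInst

/-! JOB Comp: connected components of open subsets of XX are irreducible components.

xx_locPar: x = chi i e with e ∈ DD i (chartSys.surj); L : (Fin 5 → ℂ) ≃L[ℂ] (Fin 4 → ℂ) × ℂ; kap = chi i ∘ L at L⁻¹ e: HolTo by holTo_chi on the open set DD i and HolTo.comp_diff; open by chartSys.opn; kap z ∈ O near by continuity; 𝓝[O] x = 𝓝 x as O is open.
xx_locConn: chi i maps small balls around e onto neighbourhoods of x (chartSys.opn) which are connected (continuous image of a ball inside DD i); locallyConnectedSpace_of_connected_bases or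
locallyConnectedSpace_iff_subsets_isOpen_isConnected...: each neighbourhood of x contains a preconnected neighbourhood (enough: locallyConnectedSpace_iff_connected_subsets).
comp_open: C = connectedComponentIn O x₀ is open (IsOpen.connectedComponentIn), and O \ C is open: it is the union of the other components.
comp_irr: C ⊆ O, C is analytic in O (isAnalyticIn_clopen), preconnected, irreducible by irred_of_locPar (LocPar C x from xx_locPar with the open set C).  Maximality: if C ⊆ Z' ⊆ O, Z' irreducible: Z' = (Z' ∩ C) ∪ (Z' ∩ (O \ C)), both analytic in O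
(IsAnalyticIn.inter), so Z' = Z' ∩ C = C, or Z' ⊆ O \ C, impossible since x₀ ∈ C ⊆ Z'.
-/

set_option autoImplicit false

open Topology Filter Set Complex

namespace Pool.Agent.Moi

theorem xx_locPar {O : Set XX} (hO : IsOpen O) {x : XX} (hx : x ∈ O) : LocPar O x := by
  obtain ⟨i, e, he, rfl⟩ := chartSys.surj x
  have L : (Fin 5 → ℂ) ≃L[ℂ] ((Fin 4 → ℂ) × ℂ) := ContinuousLinearEquiv.ofFinrankEq (by simp)
  refine ⟨5, fun z => chi i (L z), L.symm e, by simp, ?_, ?_⟩
  · have h1 : ∀ᶠ b in 𝓝 e, b ∈ DD i := (chartSys.isOpen i).mem_nhds he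
    have h2 : ∀ᶠ b in 𝓝 e, chi i b ∈ O := (chartSys.cont i e he).eventually (hO.mem_nhds hx)
    have h3 : Tendsto L (𝓝 (L.symm e)) (𝓝 e) := by
      have h4 := L.continuous.tendsto (L.symm e)
      rwa [L.apply_symm_apply] at h4
    filter_upwards [h3.eventually (h1.and h2)] with z hz
    exact ⟨HolTo.comp_diff (kap := chi i) (f := fun z => L z) (holTo_chi hz.1)
      (Eventually.of_forall fun _ => L.differentiableAt), hz.2⟩
  · intro W hW
    rw [hO.nhdsWithin_eq hx]
    have h5 : (fun z => chi i (L z)) '' W = chi i '' (L '' W) := by rw [image_image]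
    rw [h5]
    refine chartSys.opn i e he _ ?_
    have h6 := L.toHomeomorph.isOpenMap.image_mem_nhds hW
    have h7 : L.toHomeomorph (L.symm e) = e := L.apply_symm_apply e
    rw [h7] at h6
    exact h6

theorem xx_locConn : LocallyConnectedSpace XX := by
  rw [locallyConnectedSpace_iff_connected_subsets]
  intro x U hU
  obtain ⟨i, e, he, rfl⟩ := chartSys.surj x
  have h1 : DD i ∩ chi i ⁻¹' U ∈ 𝓝 e :=
    Filter.inter_mem ((chartSys.isOpen i).mem_nhds he) (chartSys.cont i e he hU)
  obtain ⟨r, hr, hb⟩ := Metric.mem_nhds_iff.1 h1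
  refine ⟨chi i '' Metric.ball e r, chartSys.opn i e he _ (Metric.ball_mem_nhds e hr), ?_, ?_⟩
  · refine (convex_ball e r).isPreconnected.image _ ?_
    intro z hz
    exact (chartSys.cont i z (hb hz).1).continuousWithinAt
  · rintro _ ⟨z, hz, rfl⟩
    exact (hb hz).2

theorem comp_open {O : Set XX} (hO : IsOpen O) (x₀ : XX) :
    IsOpen (connectedComponentIn O x₀) ∧ IsOpen (O \ connectedComponentIn O x₀) := by
  have := xx_locConn
  refine ⟨hO.connectedComponentIn, ?_⟩
  rw [isOpen_iff_mem_nhds]
  rintro x ⟨hxO, hxC⟩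
  refine mem_of_superset (hO.connectedComponentIn.mem_nhds (mem_connectedComponentIn hxO)) ?_
  intro y hy
  refine ⟨connectedComponentIn_subset O x hy, fun hyC => hxC ?_⟩
  rw [connectedComponentIn_eq hyC, ← connectedComponentIn_eq hy]
  exact mem_connectedComponentIn hxO

theorem comp_irr {O : Set XX} (hO : IsOpen O) {x₀ : XX} (hx : x₀ ∈ O) :
    IsIrrComp O O (connectedComponentIn O x₀) := by
  obtain ⟨h1, h2⟩ := comp_open hO x₀
  have hsub := connectedComponentIn_subset O x₀
  have hxC : x₀ ∈ connectedComponentIn O x₀ := mem_connectedComponentIn hx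
  have han : IsAnalyticIn O (connectedComponentIn O x₀) := isAnalyticIn_clopen hsub h1 h2
  refine ⟨hsub, irred_of_locPar ⟨x₀, hxC⟩ isPreconnected_connectedComponentIn han
    (fun x hxx => xx_locPar h1 hxx), ?_⟩
  intro Z' hZ' hirr hCZ
  have han2 : IsAnalyticIn O (O \ connectedComponentIn O x₀) := by
    refine isAnalyticIn_clopen sdiff_subset h2 ?_
    rw [sdiff_sdiff_cancel_left hsub]
    exact h1
  have hdec : Z' = (Z' ∩ connectedComponentIn O x₀) ∪ (Z' ∩ (O \ connectedComponentIn O x₀)) := by
    rw [← inter_union_distrib_left, union_sdiff_cancel hsub, inter_eq_left.2 hZ']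
  rcases hirr.2.2 _ _ (hirr.2.1.inter han) (hirr.2.1.inter han2) hdec with h | h
  · refine Subset.antisymm ?_ hCZ
    rw [h]
    exact inter_subset_right
  · exfalso
    have h3 : x₀ ∈ Z' := hCZ hxC
    rw [h] at h3
    exact h3.2.2 hxC

end Pool.Agent.Moi
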