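import Pool.Agent.H.MP_795b03_ag.HolBasic

/-! JOB Compl: complements of nowhere dense analytic sets in convex sets are connected, and the
dichotomy for closed subsets of planar domains.

Proofs. planar_dich: let A = set of t in D such that S is eventually contained in a punctured neighbourhood of t
... precisely A = {t in D | ∀ᶠ s in 𝓝[≠] t, s ∈ S}.  A is open in D (if it holds at t on a punctured ball, then it holds at
all points of this ball, also at t).  By hypothesis hacc the complement D \ A = {t in D | ∀ᶠ s in 𝓝[≠] t, s ∉ S}, which is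
open too.  D preconnected: A = ∅ or A = D.  In the first case the second alternative holds; in
the second every t in D is a limit of points of S, hence in S since S is closed in D (hcl).
convex_compl: U convex open, p, q in U \ B; the set D = {s : ℂ | p + s (q - p) ∈ U} is convex and open, contains 0 and 1; S = {s | p + s(q-p) in B} is
closed in D and satisfies the hypotheses of planar_dich because it is the zero set of finitely many
analytic functions near each point (LocAn.preimage, one_var_dich).  0 ∉ S, so S is discrete in D: each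
point of D has a punctured neighbourhood free of S.  D minus S is (pre)connected: (i) general fact: if D is open
convex (or connected) in ℂ and S is closed in D and discrete in D, then D \ S is preconnected; S is countable (discrete subset of a
second countable space) and Mathlib may have: IsOpen.isPathConnected_compl / Set.Countable.isPathConnected_compl; or direct proof: let
D \ S = A1 ∪ A2 be a separation into open sets; put A_i' = A_i ∪ {s ∈ S ∩ D | punctured neighbourhoods of s lie in A_i}: a punctured disc is connected, so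
every s in S belongs to exactly one A_i', the A_i' are open, disjoint and cover D: contradiction.
Then p and q lie in the connected subset {p + s (q-p) | s in D \ S} of U \ B; so U \ B is preconnected.
-/

set_option autoImplicit false

open Topology Filter Set Complex Metric

namespace Pool.Agent.Moi

private theorem Compl_punct_isOpen (u : Set ℂ) : IsOpen {t : ℂ | ∀ᶠ s in 𝓝[≠] t, s ∈ u} := by
  rw [isOpen_iff_mem_nhds]
  intro t ht
  have h1 : ∀ᶠ s in 𝓝[≠] t, ∀ᶠ r in 𝓝 s, r ∈ u := by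
    have h2 := eventually_eventually_nhdsWithin.2 ht
    filter_upwards [h2, self_mem_nhdsWithin] with s hs hst
    rwa [nhdsWithin_eq_nhds.2 (isOpen_compl_singleton.mem_nhds hst)] at hs
  have h3 : ∀ᶠ s in 𝓝 t, s ∈ ({t}ᶜ : Set ℂ) → ∀ᶠ r in 𝓝 s, r ∈ u :=
    eventually_nhdsWithin_iff.1 h1
  filter_upwards [h3] with s hs
  by_cases hst : s = t
  · rw [hst]; exact ht
  · exact (hs hst).filter_mono nhdsWithin_le_nhds

private theorem Compl_punct_ball (t : ℂ) (r : ℝ) : IsPreconnected (ball t r \ {t}) := by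
  have h1 : IsPreconnected (Ioo (0 : ℝ) r ×ˢ (univ : Set ℝ)) :=
    ((convex_Ioo 0 r).prod convex_univ).isPreconnected
  have h2 : Continuous (fun p : ℝ × ℝ => t + (p.1 : ℂ) * Complex.exp (p.2 * I)) := by fun_prop
  have h3 := h1.image _ h2.continuousOn
  convert h3 using 1
  ext z
  simp only [Set.mem_sdiff, mem_ball, mem_singleton_iff, mem_image, mem_prod, mem_Ioo, mem_univ,
    and_true, Prod.exists]
  constructor
  · rintro ⟨h4, h5⟩
    refine ⟨‖z - t‖, arg (z - t), ⟨norm_pos_iff.2 (sub_ne_zero.2 h5), ?_⟩, ?_⟩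
    · rwa [dist_eq_norm] at h4
    · rw [Complex.norm_mul_exp_arg_mul_I]; ring
  · rintro ⟨ρ, θ, ⟨h4, h5⟩, rfl⟩
    constructor
    · rw [dist_eq_norm, add_sub_cancel_left, norm_mul, Complex.norm_exp_ofReal_mul_I, mul_one,
        Complex.norm_real, Real.norm_of_nonneg h4.le]
      exact h5
    · intro h6
      rw [add_eq_left, mul_eq_zero] at h6
      rcases h6 with h6 | h6
      · exact h4.ne' (by exact_mod_cast h6)
      · exact Complex.exp_ne_zero _ h6

theorem planar_dich {D S : Set ℂ} (hD : IsOpen D) (hD' : IsPreconnected D)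
    (hcl : ∀ t ∈ D, t ∉ S → ∀ᶠ s in 𝓝 t, s ∉ S)
    (hacc : ∀ t ∈ D, (∃ᶠ s in 𝓝[≠] t, s ∈ S) → ∀ᶠ s in 𝓝[≠] t, s ∈ S) :
    D ⊆ S ∨ ∀ t ∈ D, ∀ᶠ s in 𝓝[≠] t, s ∉ S := by
  by_cases h : ∀ t ∈ D, ∀ᶠ s in 𝓝[≠] t, s ∉ S
  · exact Or.inr h
  left
  push Not at h
  obtain ⟨t₀, ht₀, h₀⟩ := h
  have h₁ : ∀ᶠ s in 𝓝[≠] t₀, s ∈ S := hacc t₀ ht₀ h₀
  have hcov : D ⊆ {t : ℂ | ∀ᶠ s in 𝓝[≠] t, s ∈ S} ∪ {t : ℂ | ∀ᶠ s in 𝓝[≠] t, s ∈ Sᶜ} := by
    intro t ht
    by_cases h2 : ∃ᶠ s in 𝓝[≠] t, s ∈ S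
    · exact Or.inl (hacc t ht h2)
    · exact Or.inr (Filter.not_frequently.1 h2)
  have hall : ∀ t ∈ D, ∀ᶠ s in 𝓝[≠] t, s ∈ S := by
    by_contra hcon
    push Not at hcon
    obtain ⟨t₁, ht₁, h₂⟩ := hcon
    have h₃ : ∀ᶠ s in 𝓝[≠] t₁, s ∈ Sᶜ := by
      rcases hcov ht₁ with h4 | h4
      · exact absurd h4 (Filter.not_eventually.2 h₂)
      · exact h4
    obtain ⟨t, htD, h5, h6⟩ := hD' _ _ (Compl_punct_isOpen S) (Compl_punct_isOpen Sᶜ) hcov
      ⟨t₀, ht₀, h₁⟩ ⟨t₁, ht₁, h₃⟩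
    have h5' : ∀ᶠ s in 𝓝[≠] t, s ∈ S := h5
    have h6' : ∀ᶠ s in 𝓝[≠] t, s ∈ Sᶜ := h6
    obtain ⟨s, hs, hs'⟩ := (h5'.and h6').exists
    exact hs' hs
  intro t ht
  by_contra htS
  obtain ⟨s, hs, hs'⟩ := ((hall t ht).and ((hcl t ht htS).filter_mono nhdsWithin_le_nhds)).exists
  exact hs' hs

theorem planar_compl {D S : Set ℂ} (hD : IsOpen D) (hD' : IsPreconnected D)
    (hS : ∀ t ∈ D, ∀ᶠ s in 𝓝[≠] t, s ∉ S) : IsPreconnected (D \ S) := by
  intro u v hu hv huv hnu hnv
  by_contra hem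
  have hcov : D ⊆ {t : ℂ | ∀ᶠ s in 𝓝[≠] t, s ∈ u} ∪ {t : ℂ | ∀ᶠ s in 𝓝[≠] t, s ∈ v} := by
    intro t ht
    have h1 : ∀ᶠ s in 𝓝 t, s ∈ ({t}ᶜ : Set ℂ) → s ∉ S := eventually_nhdsWithin_iff.1 (hS t ht)
    obtain ⟨r, hr, hb⟩ := Metric.mem_nhds_iff.1 (h1.and (hD.mem_nhds ht))
    have hsub : ball t r \ {t} ⊆ D \ S := fun s hs => ⟨(hb hs.1).2, (hb hs.1).1 hs.2⟩
    have hpb : ball t r \ {t} ∈ 𝓝[≠] t := by
      rw [sdiff_eq, inter_comm]
      exact inter_mem_nhdsWithin _ (ball_mem_nhds t hr)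
    have hP := Compl_punct_ball t r u v hu hv (hsub.trans huv)
    by_cases hPu : ((ball t r \ {t}) ∩ u).Nonempty
    · left
      by_cases hPv : ((ball t r \ {t}) ∩ v).Nonempty
      · exact absurd ((hP hPu hPv).mono (inter_subset_inter_left _ hsub)) hem
      · refine mem_of_superset hpb fun s hs => ?_
        rcases huv (hsub hs) with h | h
        · exact h
        · exact absurd ⟨s, hs, h⟩ hPv
    · right
      refine mem_of_superset hpb fun s hs => ?_
      rcases huv (hsub hs) with h | h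
      · exact absurd ⟨s, hs, h⟩ hPu
      · exact h
  obtain ⟨x, hx, hxu⟩ := hnu
  obtain ⟨y, hy, hyv⟩ := hnv
  obtain ⟨t, htD, h5, h6⟩ := hD' _ _ (Compl_punct_isOpen u) (Compl_punct_isOpen v) hcov
    ⟨x, hx.1, mem_nhdsWithin_of_mem_nhds (hu.mem_nhds hxu)⟩
    ⟨y, hy.1, mem_nhdsWithin_of_mem_nhds (hv.mem_nhds hyv)⟩
  have h7 : ∀ᶠ s in 𝓝[≠] t, s ∈ D := mem_nhdsWithin_of_mem_nhds (hD.mem_nhds htD)
  have h5' : ∀ᶠ s in 𝓝[≠] t, s ∈ u := h5
  have h6' : ∀ᶠ s in 𝓝[≠] t, s ∈ v := h6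
  obtain ⟨s, ⟨hs1, hs2⟩, hs3, hs4⟩ := ((h5'.and h6').and ((hS t htD).and h7)).exists
  exact hem ⟨s, ⟨hs4, hs3⟩, hs1, hs2⟩

variable {E : Type} [NormedAddCommGroup E] [NormedSpace ℂ E]

theorem convex_compl {U B : Set E} (hU : IsOpen U) (hc : Convex ℝ U) (hB : ∀ x ∈ U, LocAn B x) :
    IsPreconnected (U \ B) := by
  refine isPreconnected_of_forall_pair fun p hp q hq => ?_
  have hcont : Continuous (fun s : ℂ => p + s • (q - p)) := by fun_prop
  set D : Set ℂ := {s : ℂ | p + s • (q - p) ∈ U} with hDdef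
  set S : Set ℂ := {s : ℂ | p + s • (q - p) ∈ B} with hSdef
  have hDo : IsOpen D := hU.preimage hcont
  have hDc : Convex ℝ D := by
    intro s hs t ht a b ha hb hab
    have h1 := hc hs ht ha hb hab
    have h2 : a • (p + s • (q - p)) + b • (p + t • (q - p)) =
        p + (a • s + b • t) • (q - p) := by
      rw [smul_add, smul_add, add_add_add_comm, ← add_smul, hab, one_smul, add_smul,
        smul_assoc, smul_assoc]
    rw [h2] at h1
    exact h1
  have hdiff : ∀ t : ℂ, ∀ᶠ s in 𝓝 t, DifferentiableAt ℂ (fun s : ℂ => p + s • (q - p)) s :=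
    fun t => Eventually.of_forall fun s => by fun_prop
  have hdich : D ⊆ S ∨ ∀ t ∈ D, ∀ᶠ s in 𝓝[≠] t, s ∉ S := by
    refine planar_dich hDo hDc.isPreconnected ?_ ?_
    · intro t ht htS
      exact hcont.continuousAt.eventually ((hB _ ht).compl_mem htS)
    · intro t ht hfr
      obtain ⟨m, G, hG, h⟩ := LocAn.preimage (f := fun s : ℂ => p + s • (q - p)) (hB _ ht)
        (hdiff t)
      have h' : ∀ᶠ s in 𝓝[≠] t, (s ∈ S ↔ ∀ i, G i s = 0) := h.filter_mono nhdsWithin_le_nhds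
      have h0 : ∀ i, ∀ᶠ s in 𝓝 t, G i s = 0 := by
        intro i
        by_contra hne
        have h1 := one_var_dich (hG i) hne
        obtain ⟨s, hs, hs1, hs2⟩ := (hfr.and_eventually (h'.and h1)).exists
        exact hs2 (hs1.1 hs i)
      filter_upwards [h', (eventually_all.2 h0).filter_mono nhdsWithin_le_nhds] with s hs1 hs2
      exact hs1.2 hs2
  have h0D : (0 : ℂ) ∈ D := by simpa [hDdef] using hp.1
  have h0S : (0 : ℂ) ∉ S := by simpa [hSdef] using hp.2
  have h1D : (1 : ℂ) ∈ D := by simpa [hDdef] using hq.1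
  have h1S : (1 : ℂ) ∉ S := by simpa [hSdef] using hq.2
  have hdisc : ∀ t ∈ D, ∀ᶠ s in 𝓝[≠] t, s ∉ S := by
    rcases hdich with h | h
    · exact absurd (h h0D) h0S
    · exact h
  have hpre := (planar_compl hDo hDc.isPreconnected hdisc).image _ hcont.continuousOn
  refine ⟨_, ?_, ?_, ?_, hpre⟩
  · rintro _ ⟨s, hs, rfl⟩
    exact hs
  · exact ⟨0, ⟨h0D, h0S⟩, by simp⟩
  · exact ⟨1, ⟨h1D, h1S⟩, by simp⟩

end Pool.Agent.Moi
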