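import Pool.Agent.H.MP_795b03_ag.HolBasic
import Pool.Agent.H.MP_ceb9a9.Scv4

/-! JOB DivT: dividing a holomorphic germ by a power of the coordinate t.

Proof.  Fix rho > 0 such that G is differentiable on {|t| < rho} × ball p rho (sup norm on the product; an open set).
Pick (t1, w1) in this set with G (t1, w1) ≠ 0 (exists, else G vanishes near (0,p)).  The one variable
function t ↦ G(t, w1) is analytic on |t| < rho and not identically zero, so its order m at t = 0 is finite.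
Induction on m (for all G, p, rho, w1 at once): if G(0, .) is not identically zero near p take k = 0, G' = G.
Otherwise G(0, w) = 0 for all w in ball p rho (identity principle hol_identity for w ↦ G(0,w) on
the ball), and G1(t, w) := G(t, w)/t for t ≠ 0, G1(0, w) := deriv (fun s => G(s, w)) 0.
G1 is holomorphic on {|t| < rho} × ball p rho: for |t| < r < rho, by Cauchy,
G1(t, w) = (2 pi i)⁻¹ ∮_{|s| = r} G(s, w) / (s (s - t)) ds, holomorphic in (t,w) by OkaP.differentiableOn_integral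
(Pool.Agent.H.MP_ceb9a9.Scv4) (or use OkaP.osgood).  The order of G1(., w1) at 0 is m - 1, and G1(t, w) ≠ 0 for
(t,w) near points with G ≠ 0.  Apply induction to G1 and multiply by t.
If m = 0 then G(0, w1) ≠ 0 and the first case applies (G(0, .) vanishing near p would vanish on the
whole ball).
-/

set_option autoImplicit false

open Topology Filter Set Complex Metric

namespace Pool.Agent.Moi

variable {F : Type} [NormedAddCommGroup F] [NormedSpace ℂ F] [FiniteDimensional ℂ F]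

private theorem divT_mem {p : F} {ρ : ℝ} {q : ℂ × F} (hq : q ∈ ball ((0 : ℂ), p) ρ) {s : ℝ}
    (hs : s ∈ Icc (0 : ℝ) 1) : (((s : ℂ) * q.1, q.2) : ℂ × F) ∈ ball ((0 : ℂ), p) ρ := by
  rw [← ball_prod_same] at hq ⊢
  refine ⟨?_, hq.2⟩
  have h1 : ‖q.1‖ < ρ := by simpa using hq.1
  show (s : ℂ) * q.1 ∈ ball (0 : ℂ) ρ
  rw [mem_ball_zero_iff, norm_mul, Complex.norm_real, Real.norm_of_nonneg hs.1]
  calc s * ‖q.1‖ ≤ 1 * ‖q.1‖ := mul_le_mul_of_nonneg_right hs.2 (norm_nonneg _)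
    _ < ρ := by rw [one_mul]; exact h1

/-- division by the first coordinate. -/
private theorem divT_step {G : ℂ × F → ℂ} {p : F} {ρ : ℝ}
    (hG : DifferentiableOn ℂ G (ball ((0 : ℂ), p) ρ)) (h0 : ∀ w ∈ ball p ρ, G (0, w) = 0) :
    ∃ G₁ : ℂ × F → ℂ, DifferentiableOn ℂ G₁ (ball ((0 : ℂ), p) ρ) ∧
      ∀ q ∈ ball ((0 : ℂ), p) ρ, G q = q.1 * G₁ q := by
  have hU : IsOpen (ball ((0 : ℂ), p) ρ) := isOpen_ball
  have hD : DifferentiableOn ℂ (fun q => fderiv ℂ G q (1, 0)) (ball ((0 : ℂ), p) ρ) :=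
    (OkaP.differentiableOn_fderiv hU hG).clm_apply (differentiableOn_const _)
  set D : ℂ × F → ℂ := fun q => fderiv ℂ G q (1, 0) with hDdef
  have hmem : ∀ q ∈ ball ((0 : ℂ), p) ρ, ∀ s ∈ uIcc (0 : ℝ) 1,
      (((s : ℂ) * q.1, q.2) : ℂ × F) ∈ ball ((0 : ℂ), p) ρ := by
    intro q hq s hs
    rw [uIcc_of_le zero_le_one] at hs
    exact divT_mem hq hs
  refine ⟨fun q => ∫ s in (0 : ℝ)..1, D ((s : ℂ) * q.1, q.2), ?_, ?_⟩
  · refine OkaP.differentiableOn_integral (f := fun (q : ℂ × F) (s : ℝ) => D ((s : ℂ) * q.1, q.2))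
      hU ?_ ?_
    · refine ContinuousOn.comp (g := D) (t := ball ((0 : ℂ), p) ρ)
        (f := fun r : (ℂ × F) × ℝ => (((r.2 : ℂ) * r.1.1, r.1.2) : ℂ × F)) hD.continuousOn ?_ ?_
      · fun_prop
      · rintro ⟨q, s⟩ ⟨hq, hs⟩
        exact hmem q hq s hs
    · intro s hs
      refine DifferentiableOn.comp (g := D) (t := ball ((0 : ℂ), p) ρ)
        (f := fun q : ℂ × F => (((s : ℂ) * q.1, q.2) : ℂ × F)) hD ?_ (fun q hq => hmem q hq s hs)
      fun_prop
  · intro q hq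
    have hcont : ContinuousOn (fun s : ℝ => D ((s : ℂ) * q.1, q.2)) (uIcc (0 : ℝ) 1) := by
      refine ContinuousOn.comp (g := D) (t := ball ((0 : ℂ), p) ρ)
        (f := fun s : ℝ => (((s : ℂ) * q.1, q.2) : ℂ × F)) hD.continuousOn ?_ (hmem q hq)
      fun_prop
    have hderiv : ∀ s ∈ uIcc (0 : ℝ) 1, HasDerivAt (fun s : ℝ => G ((s : ℂ) * q.1, q.2))
        (q.1 * D ((s : ℂ) * q.1, q.2)) s := by
      intro s hs
      have h1 : DifferentiableAt ℂ G ((s : ℂ) * q.1, q.2) :=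
        hG.differentiableAt (hU.mem_nhds (hmem q hq s hs))
      have h2 : HasDerivAt (fun z : ℂ => ((z * q.1, q.2) : ℂ × F)) ((q.1, 0) : ℂ × F) (s : ℂ) := by
        have h3 : HasDerivAt (fun z : ℂ => z * q.1) q.1 (s : ℂ) := by
          simpa using (hasDerivAt_id (s : ℂ)).mul_const q.1
        exact h3.prodMk (hasDerivAt_const _ _)
      have h4 : HasDerivAt (fun z : ℂ => G (z * q.1, q.2))
          (fderiv ℂ G ((s : ℂ) * q.1, q.2) (q.1, 0)) (s : ℂ) :=
        HasFDerivAt.comp_hasDerivAt (s : ℂ) h1.hasFDerivAt h2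
      have h5 : fderiv ℂ G ((s : ℂ) * q.1, q.2) (q.1, 0) = q.1 * D ((s : ℂ) * q.1, q.2) := by
        have h6 : ((q.1, 0) : ℂ × F) = q.1 • ((1, 0) : ℂ × F) := by simp
        rw [h6, map_smul, smul_eq_mul]
      rw [h5] at h4
      exact h4.comp_ofReal
    have hint := intervalIntegral.integral_eq_sub_of_hasDerivAt hderiv
      ((continuousOn_const.mul hcont).intervalIntegrable)
    rw [intervalIntegral.integral_const_mul] at hint
    have hq2 : q.2 ∈ ball p ρ := by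
      rw [← ball_prod_same] at hq
      exact hq.2
    simp only [Complex.ofReal_one, one_mul, Complex.ofReal_zero, zero_mul] at hint
    rw [h0 _ hq2, sub_zero] at hint
    rw [hint]

private theorem divT_main {p w₁ : F} {ρ : ℝ} (hρ : 0 < ρ) (hw : w₁ ∈ ball p ρ) (n : ℕ) :
    ∀ (G : ℂ × F → ℂ) (g : ℂ → ℂ), DifferentiableOn ℂ G (ball ((0 : ℂ), p) ρ) →
      AnalyticAt ℂ g 0 → g 0 ≠ 0 → (∀ᶠ t in 𝓝 (0 : ℂ), G (t, w₁) = t ^ n * g t) →
      ∃ (k : ℕ) (G' : ℂ × F → ℂ), HolAt G' (0, p) ∧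
        (∀ᶠ q in 𝓝 ((0 : ℂ), p), G q = q.1 ^ k * G' q) ∧ ¬ ∀ᶠ w in 𝓝 p, G' (0, w) = 0 := by
  have hU : IsOpen (ball ((0 : ℂ), p) ρ) := isOpen_ball
  have hev : ∀ G : ℂ × F → ℂ, DifferentiableOn ℂ G (ball ((0 : ℂ), p) ρ) → HolAt G (0, p) := by
    intro G hG
    filter_upwards [hU.mem_nhds (mem_ball_self hρ)] with z hz
    exact hG.differentiableAt (hU.mem_nhds hz)
  induction n with
  | zero =>
    intro G g hG hg hg0 hGg
    refine ⟨0, G, hev G hG, Eventually.of_forall fun q => by simp, fun hcon => ?_⟩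
    have h1 : ∀ w ∈ ball p ρ, G (0, w) = 0 := by
      refine hol_identity (F := fun w => G (0, w)) isOpen_ball (convex_ball p ρ) (fun x hx => ?_)
        (mem_ball_self hρ) hcon
      have hx0 : ((0 : ℂ), x) ∈ ball ((0 : ℂ), p) ρ := by
        rw [← ball_prod_same]; exact ⟨mem_ball_self hρ, hx⟩
      refine HolAt.comp (F := G) (f := fun w : F => ((0 : ℂ), w)) ?_
        (Eventually.of_forall fun z => by fun_prop)
      filter_upwards [hU.mem_nhds hx0] with z hz
      exact hG.differentiableAt (hU.mem_nhds hz)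
    have h2 := hGg.self_of_nhds
    rw [h1 w₁ hw, pow_zero, one_mul] at h2
    exact hg0 h2.symm
  | succ n ih =>
    intro G g hG hg hg0 hGg
    by_cases hcon : ∀ᶠ w in 𝓝 p, G (0, w) = 0
    · have h1 : ∀ w ∈ ball p ρ, G (0, w) = 0 := by
        refine hol_identity (F := fun w => G (0, w)) isOpen_ball (convex_ball p ρ) (fun x hx => ?_)
          (mem_ball_self hρ) hcon
        have hx0 : ((0 : ℂ), x) ∈ ball ((0 : ℂ), p) ρ := by
          rw [← ball_prod_same]; exact ⟨mem_ball_self hρ, hx⟩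
        refine HolAt.comp (F := G) (f := fun w : F => ((0 : ℂ), w)) ?_
          (Eventually.of_forall fun z => by fun_prop)
        filter_upwards [hU.mem_nhds hx0] with z hz
        exact hG.differentiableAt (hU.mem_nhds hz)
      obtain ⟨G₁, hG₁, hGG⟩ := divT_step hG h1
      have hline : ∀ᶠ t in 𝓝 (0 : ℂ), (t, w₁) ∈ ball ((0 : ℂ), p) ρ := by
        filter_upwards [ball_mem_nhds (0 : ℂ) hρ] with t ht
        rw [← ball_prod_same]; exact ⟨ht, hw⟩
      have hne : ∀ᶠ t in 𝓝[≠] (0 : ℂ), G₁ (t, w₁) = t ^ n * g t := by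
        filter_upwards [hline.filter_mono nhdsWithin_le_nhds, hGg.filter_mono nhdsWithin_le_nhds,
          self_mem_nhdsWithin] with t ht1 ht2 ht3
        have h3 := hGG (t, w₁) ht1
        rw [ht2, pow_succ'] at h3
        have ht4 : t ≠ 0 := ht3
        rw [mul_assoc] at h3
        exact (mul_left_cancel₀ ht4 h3).symm
      have hc1 : ContinuousAt (fun t : ℂ => G₁ (t, w₁)) 0 := by
        have h3 : ContinuousAt G₁ ((0 : ℂ), w₁) :=
          (hG₁.differentiableAt (hU.mem_nhds hline.self_of_nhds)).continuousAt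
        exact ContinuousAt.comp (f := fun t : ℂ => (t, w₁)) (g := G₁) h3 (by fun_prop)
      have hc2 : ContinuousAt (fun t : ℂ => t ^ n * g t) 0 :=
        (continuousAt_id.pow n).mul hg.continuousAt
      have hev1 : ∀ᶠ t in 𝓝 (0 : ℂ), G₁ (t, w₁) = t ^ n * g t :=
        (hc1.eventuallyEq_nhds_iff_eventuallyEq_nhdsNE hc2).1 hne
      obtain ⟨k, G', hG', hk, hk2⟩ := ih G₁ g hG₁ hg hg0 hev1
      refine ⟨k + 1, G', hG', ?_, hk2⟩
      filter_upwards [hk, hU.mem_nhds (mem_ball_self hρ)] with q hq1 hq2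
      rw [hGG q hq2, hq1]
      ring
    · exact ⟨0, G, hev G hG, Eventually.of_forall fun q => by simp, hcon⟩

theorem div_t (G : ℂ × F → ℂ) (p : F) (hG : HolAt G (0, p)) (h0 : ¬ ∀ᶠ q in 𝓝 ((0 : ℂ), p), G q = 0) :
    ∃ (k : ℕ) (G' : ℂ × F → ℂ), HolAt G' (0, p) ∧
      (∀ᶠ q in 𝓝 ((0 : ℂ), p), G q = q.1 ^ k * G' q) ∧ ¬ ∀ᶠ w in 𝓝 p, G' (0, w) = 0 := by
  obtain ⟨ρ, hρ, hball⟩ := Metric.mem_nhds_iff.1 hG
  have hGd : DifferentiableOn ℂ G (ball ((0 : ℂ), p) ρ) :=
    fun z hz => (hball hz : DifferentiableAt ℂ G z).differentiableWithinAt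
  have h1 : ∃ᶠ q in 𝓝 ((0 : ℂ), p), ¬ G q = 0 := Filter.not_eventually.1 h0
  obtain ⟨⟨t₁, w₁⟩, hq, hq2⟩ := (h1.and_eventually (ball_mem_nhds ((0 : ℂ), p) hρ)).exists
  have hq2' : (t₁, w₁) ∈ ball ((0 : ℂ), p) ρ := hq2
  rw [← ball_prod_same] at hq2'
  obtain ⟨ht₁, hw₁⟩ := hq2'
  have han : AnalyticOnNhd ℂ (fun t : ℂ => G (t, w₁)) (ball 0 ρ) := by
    intro t ht
    rw [Complex.analyticAt_iff_eventually_differentiableAt]
    filter_upwards [isOpen_ball.mem_nhds ht] with s hs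
    have h2 : DifferentiableAt ℂ G (s, w₁) := by
      apply hball
      rw [← ball_prod_same]; exact ⟨hs, hw₁⟩
    exact DifferentiableAt.comp (f := fun t : ℂ => (t, w₁)) (g := G) s h2 (by fun_prop)
  have hne : ¬ ∀ᶠ t in 𝓝 (0 : ℂ), G (t, w₁) = 0 := by
    intro hev
    exact hq (han.eqOn_zero_of_preconnected_of_eventuallyEq_zero
      (convex_ball (0 : ℂ) ρ).isPreconnected (mem_ball_self hρ) hev ht₁)
  obtain ⟨n, g, hg, hg0, hgn⟩ :=
    (han 0 (mem_ball_self hρ)).exists_eventuallyEq_pow_smul_nonzero_iff.2 hne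
  refine divT_main hρ hw₁ n G g hGd hg hg0 ?_
  filter_upwards [hgn] with t ht
  rw [ht, sub_zero, smul_eq_mul]

end Pool.Agent.Moi
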