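import Pool.Agent.H.MP_795b03_ag.Elim
import Pool.Agent.H.MP_795b03_ag.DivT

/-! The curve limit lemma.  If an analytic germ Z at (0,p) in ℂ × F contains points with
t ≠ 0 arbitrarily close to (0,p), then for ALL small t ≠ 0 it contains points (t, m) with m close
to p. -/

set_option autoImplicit false

open Topology Filter Set Complex Metric

namespace Pool.Agent.Moi

private theorem curve_aux (n : ℕ) : ∀ (F : Type) [NormedAddCommGroup F] [NormedSpace ℂ F]
    [FiniteDimensional ℂ F], Module.finrank ℂ F = n → ∀ (Z : Set (ℂ × F)) (p : F),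
    LocAn Z (0, p) → (∃ᶠ q in 𝓝 ((0 : ℂ), p), q ∈ Z ∧ q.1 ≠ 0) →
    ∀ P ∈ 𝓝 p, ∀ᶠ t in 𝓝[≠] (0 : ℂ), ∃ m ∈ P, (t, m) ∈ Z := by
  induction n using Nat.strong_induction_on with
  | _ n ih =>
  intro F _ _ _ hn Z p hZ h P hP
  obtain ⟨m, Gs, hGs, hZG⟩ := hZ
  by_cases hall : ∀ i, ∀ᶠ q in 𝓝 ((0 : ℂ), p), Gs i q = 0
  · -- `Z` is a neighbourhood
    have h1 : ∀ᶠ q in 𝓝 ((0 : ℂ), p), q ∈ Z := by
      filter_upwards [hZG, eventually_all.2 hall] with q hq1 hq2
      exact hq1.2 hq2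
    have h2 : ContinuousAt (fun t : ℂ => (t, p)) 0 := by fun_prop
    have h3 : ∀ᶠ t in 𝓝 (0 : ℂ), (t, p) ∈ Z := h2.eventually h1
    filter_upwards [h3.filter_mono nhdsWithin_le_nhds] with t ht
    exact ⟨p, mem_of_mem_nhds hP, ht⟩
  · obtain ⟨i₀, hi₀'⟩ := not_forall.1 hall
    obtain ⟨k, G, hG, hGk, hG0⟩ := div_t (Gs i₀) p (hGs i₀) hi₀'
    -- points of `Z` with `t ≠ 0` are zeros of `G`
    have hzero : ∀ᶠ q in 𝓝 ((0 : ℂ), p), q ∈ Z → q.1 ≠ 0 → G q = 0 := by
      filter_upwards [hZG, hGk] with q hq1 hq2 hqZ hq0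
      have h3 : Gs i₀ q = 0 := hq1.1 hqZ i₀
      rw [hq2] at h3
      exact (mul_eq_zero.1 h3).resolve_left (pow_ne_zero _ hq0)
    have hGp : G (0, p) = 0 := by
      by_contra hcon
      have h1 : ∀ᶠ q in 𝓝 ((0 : ℂ), p), G q ≠ 0 := hG.continuousAt.eventually_ne hcon
      obtain ⟨q, ⟨hq1, hq2⟩, hq3, hq4⟩ := (h.and_eventually (hzero.and h1)).exists
      exact hq4 (hq3 hq1 hq2)
    have hGslice : HolAt (fun w : F => G (0, w)) p := by
      refine HolAt.comp (f := fun w : F => ((0 : ℂ), w)) hG (Eventually.of_forall fun w => ?_)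
      exact (differentiableAt_const _).prodMk differentiableAt_id
    obtain ⟨e, -, -, -, he⟩ := exists_dir hGslice hG0 one_pos
    have he0 : e ≠ 0 := by
      rintro rfl
      apply he
      refine Eventually.of_forall fun s => ?_
      show G (0, p + s • (0 : F)) = 0
      rw [smul_zero, add_zero]
      exact hGp
    obtain ⟨l, hl⟩ := SeparatingDual.exists_eq_one (R := ℂ) he0
    let F' : Submodule ℂ F := LinearMap.ker (l : F →ₗ[ℂ] ℂ)
    have hF'lt : Module.finrank ℂ F' < n := by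
      rw [← hn]
      refine Submodule.finrank_lt ?_
      intro htop
      have : e ∈ F' := by rw [htop]; exact Submodule.mem_top
      have h2 : l e = 0 := this
      rw [hl] at h2
      exact one_ne_zero h2
    -- the chart
    let Ψ : (ℂ × F') × ℂ → ℂ × F := fun x => (x.1.1, p + (x.1.2 : F) + x.2 • e)
    have hΨd : Differentiable ℂ Ψ := by
      have h1 : Differentiable ℂ (fun x : (ℂ × F') × ℂ => (x.1.2 : F)) :=
        F'.subtypeL.differentiable.comp (differentiable_snd.comp differentiable_fst)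
      exact (differentiable_fst.comp differentiable_fst).prodMk
        (((differentiable_const p).add h1).add (differentiable_snd.smul_const e))
    have hΨ0 : Ψ ((0, 0), 0) = (0, p) := by
      simp [Ψ]
    have hcompΨ : ∀ H : ℂ × F → ℂ, HolAt H (0, p) → HolAt (fun x => H (Ψ x)) ((0, 0), 0) := by
      intro H hH
      rw [← hΨ0] at hH
      exact HolAt.comp hH (Eventually.of_forall fun x => hΨd x)
    -- inverse of the chart
    have hker : ∀ x : F, x - l x • e ∈ F' := by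
      intro x
      show l (x - l x • e) = 0
      rw [map_sub, map_smul, hl, smul_eq_mul, mul_one, sub_self]
    let π : ℂ × F → ℂ × F' := fun q => (q.1, ⟨(q.2 - p) - l (q.2 - p) • e, hker _⟩)
    have hπc : Continuous π := by
      refine continuous_fst.prodMk (Continuous.subtype_mk ?_ _)
      have h1 : Continuous (fun q : ℂ × F => q.2 - p) := continuous_snd.sub continuous_const
      exact h1.sub ((l.continuous.comp h1).smul continuous_const)
    have hπ0 : π (0, p) = (0, 0) := by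
      refine Prod.ext rfl (Subtype.ext ?_)
      show (p - p) - l (p - p) • e = 0
      simp
    have hΨπ : ∀ q : ℂ × F, Ψ (π q, l (q.2 - p)) = q := by
      intro q
      refine Prod.ext rfl ?_
      show p + ((q.2 - p) - l (q.2 - p) • e) + l (q.2 - p) • e = q.2
      abel
    -- the good neighbourhood
    have hgood : ∀ᶠ x in 𝓝 (((0, 0), 0) : (ℂ × F') × ℂ),
        (Ψ x ∈ Z ↔ ∀ i, Gs i (Ψ x) = 0) ∧ (Ψ x).2 ∈ P := by
      have hc : ContinuousAt Ψ ((0, 0), 0) := hΨd.continuous.continuousAt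
      have h1 : ∀ᶠ q in 𝓝 ((0 : ℂ), p), (q ∈ Z ↔ ∀ i, Gs i q = 0) ∧ q.2 ∈ P :=
        hZG.and (continuousAt_snd.eventually hP)
      rw [← hΨ0] at h1
      exact hc.eventually h1
    obtain ⟨ε, hε, hball⟩ := Metric.eventually_nhds_iff_ball.1 hgood
    have h0' : (fun x => G (Ψ x)) ((0, 0), 0) = 0 := by
      show G (Ψ ((0, 0), 0)) = 0
      rw [hΨ0]; exact hGp
    have h1' : ¬ ∀ᶠ z in 𝓝 (0 : ℂ), (fun x => G (Ψ x)) (((0, 0) : ℂ × F'), z) = 0 := by
      intro hcon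
      apply he
      filter_upwards [hcon] with z hz
      have h2 : Ψ (((0, 0) : ℂ × F'), z) = (0, p + z • e) := by
        simp [Ψ]
      rw [← h2]
      exact hz
    obtain ⟨r, hr0, hrε, hLoc⟩ := elim (fun x => G (Ψ x)) ((0, 0) : ℂ × F') (hcompΨ G hG) h0' h1' m
      (fun j x => Gs j (Ψ x)) (fun j => hcompΨ _ (hGs j)) ε hε
    -- accumulation
    have hacc : ∃ᶠ u in 𝓝 (((0 : ℂ), (0 : F')) : ℂ × F'),
        u ∈ {u : ℂ × F' | ∃ z ∈ ball (0 : ℂ) r, G (Ψ (u, z)) = 0 ∧ ∀ j, Gs j (Ψ (u, z)) = 0} ∧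
          u.1 ≠ 0 := by
      have ht : Tendsto π (𝓝 ((0 : ℂ), p)) (𝓝 (((0 : ℂ), (0 : F')) : ℂ × F')) := by
        rw [← hπ0]; exact hπc.continuousAt
      refine ht.frequently ?_
      have hs : ∀ᶠ q in 𝓝 ((0 : ℂ), p), l (q.2 - p) ∈ ball (0 : ℂ) r := by
        have hc : ContinuousAt (fun q : ℂ × F => l (q.2 - p)) ((0 : ℂ), p) :=
          (l.continuous.comp (continuous_snd.sub continuous_const)).continuousAt
        have h2 : (fun q : ℂ × F => l (q.2 - p)) ((0 : ℂ), p) = 0 := by simp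
        refine hc.eventually (p := fun z => z ∈ ball (0 : ℂ) r) ?_
        rw [h2]
        exact ball_mem_nhds 0 hr0
      refine (h.and_eventually (hzero.and (hs.and hZG))).mono ?_
      rintro q ⟨⟨hqZ, hq0⟩, hq1, hq2, hq3⟩
      refine ⟨⟨l (q.2 - p), hq2, ?_, fun j => ?_⟩, hq0⟩
      · rw [hΨπ]; exact hq1 hqZ hq0
      · rw [hΨπ]; exact hq3.1 hqZ j
    have hrec := ih _ hF'lt F' rfl _ 0 hLoc hacc (ball 0 ε) (ball_mem_nhds 0 hε)
    have hsmall : ∀ᶠ t in 𝓝[≠] (0 : ℂ), t ∈ ball (0 : ℂ) ε :=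
      mem_nhdsWithin_of_mem_nhds (ball_mem_nhds (0 : ℂ) hε)
    filter_upwards [hrec, hsmall] with t ht1 ht2
    obtain ⟨w', hw', s, hs, hs1, hs2⟩ := ht1
    have hmem : ((t, w'), s) ∈ ball (((0, 0), 0) : (ℂ × F') × ℂ) ε := by
      rw [mem_ball, Prod.dist_eq, Prod.dist_eq]
      exact max_lt (max_lt ht2 hw') (lt_trans hs hrε)
    have h2 := hball _ hmem
    exact ⟨(Ψ ((t, w'), s)).2, h2.2, h2.1.2 hs2⟩

variable {F : Type} [NormedAddCommGroup F] [NormedSpace ℂ F] [FiniteDimensional ℂ F]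

theorem curve_limit (Z : Set (ℂ × F)) (p : F) (hZ : LocAn Z (0, p))
    (h : ∃ᶠ q in 𝓝 ((0 : ℂ), p), q ∈ Z ∧ q.1 ≠ 0) :
    ∀ P ∈ 𝓝 p, ∀ᶠ t in 𝓝[≠] (0 : ℂ), ∃ m ∈ P, (t, m) ∈ Z :=
  curve_aux _ F rfl Z p hZ h

end Pool.Agent.Moi
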