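import Mathlib

/-! MP_795b03_ag (locally Moishezon morphisms): the definitions used in the statement. -/

set_option autoImplicit false

open Topology Filter Set

namespace Pool.Agent.Moi

/-- `F` is holomorphic near the point `a` of a complex normed space: complex differentiable on a
neighbourhood of `a`. -/
def HolAt {E : Type} [NormedAddCommGroup E] [NormedSpace ℂ E] (F : E → ℂ) (a : E) : Prop :=
  ∀ᶠ z in 𝓝 a, DifferentiableAt ℂ F z

/-- near `a` the set `Z` is the common zero set of finitely many holomorphic functions. -/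
def LocAn {E : Type} [NormedAddCommGroup E] [NormedSpace ℂ E] (Z : Set E) (a : E) : Prop :=
  ∃ (m : ℕ) (G : Fin m → E → ℂ), (∀ i, HolAt (G i) a) ∧ ∀ᶠ z in 𝓝 a, (z ∈ Z ↔ ∀ i, G i z = 0)

/-- For a topological space `X` with a notion `hol` of germs of holomorphic functions
(`hol x f` says that the germ of `f` at `x` is holomorphic): on the open set `U` the map `psi` is a
homeomorphism onto an analytic subset of an open subset of `ℂⁿ`, and it identifies the holomorphic
germs with the germs of restrictions of holomorphic functions on `ℂⁿ`. -/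
structure IsModel {X : Type} [TopologicalSpace X] (hol : X → (X → ℂ) → Prop)
    (n : ℕ) (psi : X → (Fin n → ℂ)) (U : Set X) : Prop where
  isOpen : IsOpen U
  emb : IsEmbedding (U.domRestrict psi)
  an : ∀ y ∈ U, LocAn (psi '' U) (psi y)
  germs : ∀ y ∈ U, ∀ f : X → ℂ,
    hol y f ↔ ∃ F : (Fin n → ℂ) → ℂ, HolAt F (psi y) ∧ f =ᶠ[𝓝 y] F ∘ psi

/-- A (reduced) complex analytic space: a Hausdorff, second countable space with a sheaf of germs
of complex valued functions (`hol x f`: the germ of `f` at `x` belongs to the structure sheaf)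
which is locally isomorphic to an analytic subset of an open subset of some `ℂⁿ` with the
restrictions of the holomorphic functions. -/
class CxSpace (X : Type) [TopologicalSpace X] where
  hol : X → (X → ℂ) → Prop
  t2 : T2Space X
  countable : SecondCountableTopology X
  model : ∀ x : X, ∃ (n : ℕ) (psi : X → (Fin n → ℂ)) (U : Set X), IsModel hol n psi U ∧ x ∈ U

export CxSpace (hol)

section
variable {X Y : Type} [TopologicalSpace X] [TopologicalSpace Y] [CxSpace X] [CxSpace Y]

/-- `X` is a complex manifold: the local models can be taken to be open subsets of `ℂⁿ`. -/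
def IsSmooth (X : Type) [TopologicalSpace X] [CxSpace X] : Prop :=
  ∀ x : X, ∃ (n : ℕ) (psi : X → (Fin n → ℂ)) (U : Set X),
    IsModel (hol (X := X)) n psi U ∧ x ∈ U ∧ IsOpen (psi '' U)

/-- morphisms of complex analytic spaces -/
def IsHolMap (f : X → Y) : Prop :=
  Continuous f ∧ ∀ x, ∀ F : Y → ℂ, hol (f x) F → hol x (F ∘ f)

/-- `Z` is a (closed) analytic subset of the open set `O` of the complex space `X`. -/
def IsAnalyticIn (O Z : Set X) : Prop :=
  Z ⊆ O ∧ ∀ x ∈ O, ∃ (m : ℕ) (G : Fin m → X → ℂ), (∀ i, hol x (G i)) ∧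
    ∀ᶠ y in 𝓝 x, (y ∈ Z ↔ ∀ i, G i y = 0)

/-- `Z` is an irreducible analytic subset of `O`. -/
def IsIrred (O Z : Set X) : Prop :=
  Z.Nonempty ∧ IsAnalyticIn O Z ∧
    ∀ Z₁ Z₂, IsAnalyticIn O Z₁ → IsAnalyticIn O Z₂ → Z = Z₁ ∪ Z₂ → Z = Z₁ ∨ Z = Z₂

/-- `Z` is an irreducible component of the analytic subset `F` of `O`. -/
def IsIrrComp (O F Z : Set X) : Prop :=
  Z ⊆ F ∧ IsIrred O Z ∧ ∀ Z', Z' ⊆ F → IsIrred O Z' → Z ⊆ Z' → Z' = Z

/-- `k` is the dimension of the irreducible analytic set `Z`: at some point `Z` is a complex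
submanifold of dimension `k` (`chi` parametrizes `Z` near that point, `kap` is its inverse). -/
def HasDim (Z : Set X) (k : ℕ) : Prop :=
  ∃ (chi : (Fin k → ℂ) → X) (W : Set (Fin k → ℂ)) (U : Set X) (kap : X → (Fin k → ℂ)),
    IsOpen W ∧ W.Nonempty ∧ IsOpen U ∧ chi '' W = Z ∩ U ∧ (∀ w ∈ W, kap (chi w) = w) ∧
    (∀ w ∈ W, ContinuousAt chi w ∧ ∀ F : X → ℂ, hol (chi w) F → HolAt (F ∘ chi) w) ∧
    (∀ x ∈ U, ∀ i, hol x (fun y => kap y i))

/-- `f` (whose values at its poles are irrelevant) is a meromorphic function on the analytic set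
`Z`: locally it is a quotient `p / q` of holomorphic functions, where `q` does not vanish
identically on any open part of `Z`. -/
def IsMero (Z : Set X) (f : X → ℂ) : Prop :=
  ∀ z ∈ Z, ∃ p q : X → ℂ, hol z p ∧ hol z q ∧
    (∀ᶠ y in 𝓝 z, y ∈ Z → y ∈ closure (Z ∩ {y | q y ≠ 0})) ∧
    ∀ᶠ y in 𝓝 z, y ∈ Z → q y ≠ 0 → f y = p y / q y

/-- algebraic independence over `ℂ` of meromorphic functions on the irreducible analytic set `Z`. -/
def AlgIndep {k : ℕ} (Z : Set X) (f : Fin k → X → ℂ) : Prop :=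
  ∀ Q : MvPolynomial (Fin k) ℂ, Q ≠ 0 →
    ¬ Z ⊆ closure (Z ∩ {y | MvPolynomial.eval (fun i => f i y) Q = 0})

/-- The compact irreducible analytic set `Z` is Moishezon: its algebraic dimension equals its
dimension, that is, there are `dim Z` algebraically independent meromorphic functions on `Z`. -/
def IsMoishezon (Z : Set X) : Prop :=
  ∃ k, HasDim Z k ∧ ∃ f : Fin k → X → ℂ, (∀ i, IsMero Z (f i)) ∧ AlgIndep Z f

/-- The holomorphic map `pi` restricts to a bimeromorphic morphism (proper modification) from the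
analytic set `Y` to the analytic subset `Z` of the open set `O`: `Y → Z` is proper, and there are a
nowhere dense analytic subset `T` of `Z` with nowhere dense preimage in `Y` and a holomorphic
inverse `rho` of `Y → Z` over `Z \ T`. -/
def IsBimer (O : Set Y) (pi : X → Y) (Yb : Set X) (Z : Set Y) : Prop :=
  MapsTo pi Yb Z ∧ (∀ K ⊆ Z, IsCompact K → IsCompact (Yb ∩ pi ⁻¹' K)) ∧
  ∃ T ⊆ Z, IsAnalyticIn O T ∧ Z ⊆ closure (Z \ T) ∧ Yb ⊆ closure (Yb \ pi ⁻¹' T) ∧
    ∃ rho : Y → X, MapsTo rho (Z \ T) Yb ∧ (∀ z ∈ Z \ T, pi (rho z) = z) ∧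
      (∀ y ∈ Yb, pi y ∉ T → rho (pi y) = y) ∧
      ∀ z ∈ Z \ T, ContinuousWithinAt rho Z z ∧
        ∀ F : X → ℂ, hol (rho z) F → ∃ F' : Y → ℂ, hol z F' ∧ ∀ᶠ y in 𝓝[Z] z, F (rho y) = F' y

end

/-! ### Projective space and products -/

open scoped LinearAlgebra.Projectivization

/-- complex projective space of dimension `N` -/
abbrev PN (N : ℕ) : Type := ℙ ℂ (Fin (N + 1) → ℂ)

instance (N : ℕ) : TopologicalSpace (PN N) :=
  inferInstanceAs (TopologicalSpace (Quotient (projectivizationSetoid ℂ (Fin (N + 1) → ℂ))))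

/-- the point of projective space with homogeneous coordinates `v` (junk for `v = 0`) -/
noncomputable def toP {N : ℕ} (v : Fin (N + 1) → ℂ) : PN N :=
  if h : v ≠ 0 then Projectivization.mk ℂ v h else Classical.choice inferInstance

/-- `f` is holomorphic at `l`: it is holomorphic as a function of the homogeneous coordinates. -/
def holP {N : ℕ} (l : PN N) (f : PN N → ℂ) : Prop :=
  ∀ v : Fin (N + 1) → ℂ, v ≠ 0 → toP v = l → HolAt (fun w => f (toP w)) v

/-- the structure sheaf of the product of two complex spaces: holomorphic functions of holomorphic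
functions on the factors. -/
def holProd {X Y : Type} [TopologicalSpace X] [TopologicalSpace Y] [CxSpace X] [CxSpace Y]
    (p : X × Y) (f : X × Y → ℂ) : Prop :=
  ∃ (n m : ℕ) (a : Fin n → X → ℂ) (b : Fin m → Y → ℂ) (F : (Fin n → ℂ) × (Fin m → ℂ) → ℂ),
    (∀ i, hol p.1 (a i)) ∧ (∀ i, hol p.2 (b i)) ∧
    HolAt F ((fun i => a i p.1), (fun i => b i p.2)) ∧
    f =ᶠ[𝓝 p] fun q => F ((fun i => a i q.1), (fun i => b i q.2))

end Pool.Agent.Moi
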