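import Pool.Agent.H.MP_795b03_ag.Zeros

/-! JOB Elim: elimination of one variable (images of analytic germs that are finite over the base).

Proof. Choose 0 < r < eps such that G(u₀, z) ≠ 0 for 0 < |z| ≤ r (one_var_dich) and all G, Gs j are
holomorphic at (u₀, z), |z| ≤ r (HolAt.eventually).  Take k and alpha from zeros_param.  For u near
u₀ the zeros of G(u, .) in ball 0 r are exactly the alpha u i.  Put for a complex number s
   g_s(u,z) = ∑_j s^j Gs_j(u,z),     N_s(u) = ∏_i g_s(u, alpha u i).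
(a) N_s is holomorphic at u₀: the power sums P_l(u) = ∑_i g_s(u, alpha u i)^l are holomorphic by zeros_param
(applied with g = g_s^l), and by Newton's identities (MvPolynomial.mul_esymm_eq_sum evaluated at
x_i = g_s(u, alpha u i)) the elementary symmetric functions e_l(u), l ≤ k, satisfy
l e_l = ± ∑ ± e_a P_{l-a}; by strong induction they are holomorphic at u₀; N_s = e_k (esymm of top degree is the product).
(b) take the k m + 1 values s = 0, 1, ..., k m.  Claim: for u near u₀,
   (∃ z ∈ ball 0 r, G(u,z) = 0 and all Gs_j(u,z) = 0)  iff  N_s(u) = 0 for s = 0, ..., k m.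
 Forward: z = alpha u i for some i, the factor i of every N_s vanishes.  Backward: if for every i there
 is j with Gs_j(u, alpha u i) ≠ 0, then for every i the polynomial ∑_j T^j Gs_j(u, alpha u i) is nonzero of degree
 < m (m ≥ 1), so it has < m roots; the product over i has at most k m roots among complex numbers, so
 some s in {0..k m} is not a root and N_s(u) ≠ 0.  (If m = 0 the condition on the Gs is empty: then
 both sides are: k ≥ 1 true / N_s = empty sum product = 0^k; treat separately: G(u₀,0) = 0 gives k ≥ 1, the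
 set is a neighbourhood of u₀, use the empty family.)
-/

set_option autoImplicit false

open Topology Filter Set Complex Metric

namespace Pool.Agent.Moi

variable {E : Type} [NormedAddCommGroup E] [NormedSpace ℂ E] [FiniteDimensional ℂ E]

omit [FiniteDimensional ℂ E] in
private theorem elim_esymm {k : ℕ} (x : E → Fin k → ℂ) (u₀ : E)
    (hp : ∀ l : ℕ, HolAt (fun u => ∑ i, x u i ^ l) u₀) (n : ℕ) :
    HolAt (fun u => MvPolynomial.aeval (x u) (MvPolynomial.esymm (Fin k) ℂ n)) u₀ := by
  induction n using Nat.strong_induction_on with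
  | _ n ih =>
    rcases Nat.eq_zero_or_pos n with hn | hn
    · subst hn
      simp only [MvPolynomial.esymm_zero, map_one]
      exact HolAt.const 1
    · have hnC : (n : ℂ) ≠ 0 := Nat.cast_ne_zero.2 hn.ne'
      have key : ∀ u : E, MvPolynomial.aeval (x u) (MvPolynomial.esymm (Fin k) ℂ n) =
          (n : ℂ)⁻¹ * (-1) ^ (n + 1) * ∑ a ∈ (Finset.HasAntidiagonal.antidiagonal n).filter (fun a : ℕ × ℕ => a.1 < n),
            ((-1) ^ a.1 * MvPolynomial.aeval (x u) (MvPolynomial.esymm (Fin k) ℂ a.1)) *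
              ∑ i, x u i ^ a.2 := by
        intro u
        have h1 := congrArg (MvPolynomial.aeval (x u)) (MvPolynomial.mul_esymm_eq_sum (Fin k) ℂ n)
        simp only [map_mul, map_natCast, map_pow, map_neg, map_one, map_sum, MvPolynomial.psum,
          MvPolynomial.aeval_X] at h1
        rw [mul_assoc, ← h1, inv_mul_cancel_left₀ hnC]
      refine HolAt.congr ?_ (Eventually.of_forall fun u => (key u).symm)
      refine (HolAt.const _).mul (HolAt.sum _ fun a ha => ?_)
      rw [Finset.mem_filter] at ha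
      exact ((HolAt.const _).mul (ih a.1 ha.2)).mul (hp a.2)

omit [FiniteDimensional ℂ E] in
private theorem elim_prod {k : ℕ} (x : E → Fin k → ℂ) (u₀ : E)
    (hp : ∀ l : ℕ, HolAt (fun u => ∑ i, x u i ^ l) u₀) :
    HolAt (fun u => ∏ i, x u i) u₀ := by
  refine (elim_esymm x u₀ hp k).congr (Eventually.of_forall fun u => ?_)
  have h1 : MvPolynomial.esymm (Fin k) ℂ k = ∏ i, MvPolynomial.X i := by
    rw [MvPolynomial.esymm]
    have h2 : Finset.powersetCard k (Finset.univ : Finset (Fin k)) = {Finset.univ} := by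
      have h3 := Finset.powersetCard_self (Finset.univ : Finset (Fin k))
      rwa [Finset.card_univ, Fintype.card_fin] at h3
    rw [h2, Finset.sum_singleton]
  simp only [h1, map_prod, MvPolynomial.aeval_X]

/-- A product of `k` nonzero polynomials of degree at most `m` does not vanish at all of
`0, ..., k m`. -/
private theorem elim_poly {k m : ℕ} (c : Fin k → Fin m → ℂ) (hc : ∀ i, ∃ j, c i j ≠ 0) :
    ∃ s : Fin (k * m + 1), ∏ i, (∑ j : Fin m, ((s : ℕ) : ℂ) ^ (j : ℕ) * c i j) ≠ 0 := by
  classical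
  by_contra hcon
  push Not at hcon
  set P : Fin k → Polynomial ℂ := fun i => ∑ j : Fin m, Polynomial.C (c i j) * Polynomial.X ^ (j : ℕ)
    with hP
  have hP0 : ∀ i, P i ≠ 0 := by
    intro i h0
    obtain ⟨j, hj⟩ := hc i
    apply hj
    have h1 : (P i).coeff (j : ℕ) = 0 := by rw [h0]; simp
    simp only [hP, Polynomial.finsetSum_coeff, Polynomial.coeff_C_mul, Polynomial.coeff_X_pow] at h1
    rw [Finset.sum_eq_single j] at h1
    · simpa using h1
    · intro b _ hb
      have : (j : ℕ) ≠ (b : ℕ) := fun h => hb (Fin.ext h.symm)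
      simp [this]
    · intro h; exact absurd (Finset.mem_univ _) h
  have hPdeg : ∀ i, (P i).natDegree ≤ m := by
    intro i
    apply Polynomial.natDegree_sum_le_of_forall_le
    intro j _
    exact (Polynomial.natDegree_C_mul_X_pow_le _ _).trans j.2.le
  have hprod0 : (∏ i, P i) ≠ 0 := Finset.prod_ne_zero_iff.2 fun i _ => hP0 i
  have hdeg : (∏ i, P i).natDegree < k * m + 1 := by
    have h1 := Polynomial.natDegree_prod_le (Finset.univ : Finset (Fin k)) P
    have h2 : ∑ i : Fin k, (P i).natDegree ≤ ∑ _i : Fin k, m := Finset.sum_le_sum fun i _ => hPdeg i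
    simp at h2
    omega
  apply hprod0
  set S : Finset ℂ := (Finset.univ : Finset (Fin (k * m + 1))).image (fun s : Fin (k * m + 1) => ((s : ℕ) : ℂ)) with hS
  have hcard : S.card = k * m + 1 := by
    rw [hS, Finset.card_image_of_injective _ (fun a b h => Fin.ext (Nat.cast_injective h)),
      Finset.card_univ, Fintype.card_fin]
  refine Polynomial.eq_zero_of_natDegree_lt_card_of_eval_eq_zero' _ S ?_ (by rw [hcard]; exact hdeg)
  intro z hz
  rw [hS, Finset.mem_image] at hz
  obtain ⟨s, -, rfl⟩ := hz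
  rw [Polynomial.eval_prod, ← hcon s]
  refine Finset.prod_congr rfl fun i _ => ?_
  simp only [hP, Polynomial.eval_finsetSum, Polynomial.eval_mul, Polynomial.eval_C,
    Polynomial.eval_pow, Polynomial.eval_X]
  exact Finset.sum_congr rfl fun j _ => mul_comm _ _

theorem elim (G : E × ℂ → ℂ) (u₀ : E) (hG : HolAt G (u₀, 0)) (h0 : G (u₀, 0) = 0)
    (h1 : ¬ ∀ᶠ z in 𝓝 (0 : ℂ), G (u₀, z) = 0) (m : ℕ) (Gs : Fin m → E × ℂ → ℂ)
    (hGs : ∀ j, HolAt (Gs j) (u₀, 0)) (ε : ℝ) (hε : 0 < ε) :
    ∃ r : ℝ, 0 < r ∧ r < ε ∧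
      LocAn {u : E | ∃ z ∈ ball (0 : ℂ) r, G (u, z) = 0 ∧ ∀ j, Gs j (u, z) = 0} u₀ := by
  have _ := h0
  have hinc : ∀ z : ℂ, DifferentiableAt ℂ (fun z : ℂ => (u₀, z)) z := fun z => by fun_prop
  have hf : HolAt (fun z : ℂ => G (u₀, z)) 0 :=
    HolAt.comp (F := G) (f := fun z : ℂ => (u₀, z)) hG (Eventually.of_forall hinc)
  have hne := one_var_dich hf h1
  rw [eventually_nhdsWithin_iff] at hne
  have hcont : Tendsto (fun z : ℂ => (u₀, z)) (𝓝 0) (𝓝 (u₀, 0)) :=
    (hinc 0).continuousAt
  have hall : ∀ᶠ z in 𝓝 (0 : ℂ), (z ∈ ({0}ᶜ : Set ℂ) → G (u₀, z) ≠ 0) ∧ HolAt G (u₀, z) ∧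
      ∀ j, HolAt (Gs j) (u₀, z) := by
    refine hne.and ((hcont.eventually hG.eventually).and ?_)
    rw [eventually_all]
    intro j
    exact hcont.eventually (hGs j).eventually
  obtain ⟨ρ, hρ, hball⟩ := Metric.eventually_nhds_iff_ball.1 hall
  set r := min ρ ε / 2 with hr
  have hmin : 0 < min ρ ε := lt_min hρ hε
  have hr0 : 0 < r := by rw [hr]; linarith
  have hrρ : r < ρ := by
    have := min_le_left ρ ε
    rw [hr]; linarith
  have hrε : r < ε := by
    have := min_le_right ρ ε
    rw [hr]; linarith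
  refine ⟨r, hr0, hrε, ?_⟩
  have hcb : ∀ z ∈ closedBall (0 : ℂ) r, z ∈ ball (0 : ℂ) ρ := fun z hz =>
    closedBall_subset_ball hrρ hz
  obtain ⟨k, α, hα, hsum⟩ := zeros_param G u₀ 0 r hr0 (fun z hz => (hball z (hcb z hz)).2.1)
    (fun z hz => (hball z (hcb z (sphere_subset_closedBall hz))).1 (by
      intro h
      rw [mem_singleton_iff] at h
      subst h
      rw [mem_sphere, dist_self] at hz
      exact hr0.ne hz))
  have hgs : ∀ s : ℂ, ∀ z ∈ closedBall (0 : ℂ) r,
      HolAt (fun p : E × ℂ => ∑ j : Fin m, s ^ (j : ℕ) * Gs j p) (u₀, z) := by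
    intro s z hz
    exact HolAt.sum _ fun j _ => (HolAt.const _).mul ((hball z (hcb z hz)).2.2 j)
  refine ⟨k * m + 1, fun s u => ∏ i, (∑ j : Fin m, ((s : ℕ) : ℂ) ^ (j : ℕ) * Gs j (u, α u i)),
    ?_, ?_⟩
  · intro s
    apply elim_prod (fun u i => ∑ j : Fin m, ((s : ℕ) : ℂ) ^ (j : ℕ) * Gs j (u, α u i))
    intro l
    exact hsum (fun p => (∑ j : Fin m, ((s : ℕ) : ℂ) ^ (j : ℕ) * Gs j p) ^ l)
      (fun z hz => (hgs _ z hz).pow l)
  · filter_upwards [hα] with u hu
    obtain ⟨hb, -, -, -, hz⟩ := hu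
    constructor
    · rintro ⟨z, hzb, hGz, hGsz⟩ s
      obtain ⟨i, hi⟩ := (hz z (ball_subset_closedBall hzb)).1 hGz
      apply Finset.prod_eq_zero (Finset.mem_univ i)
      rw [hi]
      exact Finset.sum_eq_zero fun j _ => by rw [hGsz j, mul_zero]
    · intro hN
      by_contra hcon
      have hc : ∀ i, ∃ j, Gs j (u, α u i) ≠ 0 := by
        intro i
        by_contra hi
        push Not at hi
        exact hcon ⟨α u i, hb i, (hz _ (ball_subset_closedBall (hb i))).2 ⟨i, rfl⟩, hi⟩
      obtain ⟨s, hs⟩ := elim_poly (fun i j => Gs j (u, α u i)) hc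
      exact hs (hN s)

end Pool.Agent.Moi
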