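import Pool.Agent.H.MP_795b03_ag.Defs

/-! Local data for the non-Moishezon part: definitions only. -/

set_option autoImplicit false

open Topology Filter Set Complex

namespace Pool.Agent.Moi

/-- the elliptic curve `ℂ / (ℤ + iℤ)` as a topological group -/
abbrev El : Type := UnitAddCircle × UnitAddCircle

/-- the projection `ℂ → ℂ / (ℤ + iℤ)` -/
noncomputable def pr (z : ℂ) : El := ((z.re : UnitAddCircle), (z.im : UnitAddCircle))

section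
variable {E : Type} [NormedAddCommGroup E] [NormedSpace ℂ E] {N : ℕ}

/-- near `p` the conic set `Y` is the family of lines spanned by a nowhere zero holomorphic
vector valued function `phi`. -/
def LiftOf (Y : Set (E × ℂ × (Fin (N + 1) → ℂ))) (p : E × ℂ) (phi : E × ℂ → Fin (N + 1) → ℂ) :
    Prop :=
  (∀ i, HolAt (fun q => phi q i) p) ∧ phi p ≠ 0 ∧
    ∀ᶠ q in 𝓝 p, ∀ w : Fin (N + 1) → ℂ, w ≠ 0 → ((q.1, q.2, w) ∈ Y ↔ ∃ c : ℂ, c ≠ 0 ∧ w = c • phi q)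

def IsLift (Y : Set (E × ℂ × (Fin (N + 1) → ℂ))) (p : E × ℂ) : Prop := ∃ phi, LiftOf Y p phi

/-- points over which `Y` meets the coordinate hyperplane `w_i = 0` -/
def Hs (Y : Set (E × ℂ × (Fin (N + 1) → ℂ))) (i : Fin (N + 1)) : Set (E × ℂ) :=
  {q | ∃ w : Fin (N + 1) → ℂ, w ≠ 0 ∧ w i = 0 ∧ (q.1, q.2, w) ∈ Y}

/-- base points with a point of indeterminacy above them -/
def Ts (Y : Set (E × ℂ × (Fin (N + 1) → ℂ))) : Set E := {u | ∃ x : ℂ, ∀ i, (u, x) ∈ Hs Y i}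

/-- base points whose whole fibre lies in the hyperplane `w_i = 0` -/
def Tl (Y : Set (E × ℂ × (Fin (N + 1) → ℂ))) (i : Fin (N + 1)) : Set E :=
  {u | ∀ x : ℂ, (u, x) ∈ Hs Y i}

/-- good base points -/
def Gd (V : Set E) (Y : Set (E × ℂ × (Fin (N + 1) → ℂ))) (i : Fin (N + 1)) : Set E :=
  {u | u ∈ V ∧ u ∉ Ts Y ∧ u ∉ Tl Y i}

/-- The local data: `Y ⊆ V × ℂ × (ℂ^{N+1} \ 0)` analytic, conic in the last variable, periodic in the
second; `B` nowhere dense analytic; `Y` is the graph of a holomorphic map to projective space off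
`B` and is the closure of this graph; the hyperplane `w_{i0} = 0` is nondegenerate. -/
structure LD (V : Set E) (Y : Set (E × ℂ × (Fin (N + 1) → ℂ))) (B : Set (E × ℂ))
    (i0 : Fin (N + 1)) : Prop where
  isOpen : IsOpen V
  an : ∀ u ∈ V, ∀ x : ℂ, ∀ w : Fin (N + 1) → ℂ, w ≠ 0 → LocAn Y (u, x, w)
  cone : ∀ u ∈ V, ∀ x : ℂ, ∀ w : Fin (N + 1) → ℂ, w ≠ 0 → ∀ c : ℂ, c ≠ 0 →
    ((u, x, c • w) ∈ Y ↔ (u, x, w) ∈ Y)
  per : ∀ u ∈ V, ∀ x : ℂ, ∀ w : Fin (N + 1) → ℂ, w ≠ 0 → ∀ m n : ℤ,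
    ((u, x + (m : ℂ) + (n : ℂ) * I, w) ∈ Y ↔ (u, x, w) ∈ Y)
  anB : ∀ u ∈ V, ∀ x : ℂ, LocAn B (u, x)
  denseB : ∀ u ∈ V, ∀ x : ℂ, (u, x) ∈ closure (Bᶜ : Set (E × ℂ))
  lift : ∀ u ∈ V, ∀ x : ℂ, (u, x) ∉ B → IsLift Y (u, x)
  clos : ∀ u ∈ V, ∀ x : ℂ, ∀ w : Fin (N + 1) → ℂ, w ≠ 0 → (u, x, w) ∈ Y →
    (u, x, w) ∈ closure {q | q ∈ Y ∧ (q.1, q.2.1) ∉ B}
  nd : ∀ u ∈ V, ∀ x : ℂ, (u, x) ∈ closure ((Hs Y i0)ᶜ : Set (E × ℂ))

open Classical in
/-- the multiplicity of `x` in the divisor cut out by `w_i = 0` on the fibre over `u` -/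
noncomputable def mlt (Y : Set (E × ℂ × (Fin (N + 1) → ℂ))) (i : Fin (N + 1)) (u : E) (x : ℂ) : ℕ :=
  if h : IsLift Y (u, x) then analyticOrderNatAt (fun z => Classical.choose h (u, z) i) x else 0

/-- a section of `pr` -/
noncomputable def sec (q : El) : ℂ := Classical.epsilon (fun z => pr z = q)

/-- the divisor as a function on the elliptic curve -/
noncomputable def mE (Y : Set (E × ℂ × (Fin (N + 1) → ℂ))) (i : Fin (N + 1)) (u : E) (q : El) : ℕ :=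
  mlt Y i u (sec q)

/-- degree of the part of the divisor in `O` -/
noncomputable def cnt (Y : Set (E × ℂ × (Fin (N + 1) → ℂ))) (i : Fin (N + 1)) (u : E)
    (O : Set El) : ℕ := ∑ᶠ q ∈ O, mE Y i u q

/-- degree of the divisor -/
noncomputable def dg (Y : Set (E × ℂ × (Fin (N + 1) → ℂ))) (i : Fin (N + 1)) (u : E) : ℕ :=
  ∑ᶠ q : El, mE Y i u q

/-- sum of the divisor in the elliptic curve -/
noncomputable def sg (Y : Set (E × ℂ × (Fin (N + 1) → ℂ))) (i : Fin (N + 1)) (u : E) : El :=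
  ∑ᶠ q : El, mE Y i u q • q

/-- On complex lines `S` is either everything or discrete. -/
def LineDich (V S : Set E) : Prop :=
  ∀ (u₀ e : E) (D : Set ℂ), IsOpen D → IsPreconnected D → (∀ t ∈ D, u₀ + t • e ∈ V) →
    (∀ t ∈ D, u₀ + t • e ∈ S) ∨ (∀ t ∈ D, ∀ᶠ s in 𝓝[≠] t, u₀ + s • e ∉ S)

end

end Pool.Agent.Moi
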