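import Pool.Agent.H.MP_795b03_ag.Moish
import Pool.Agent.H.MP_795b03_ag.Loc
import Pool.Agent.H.MP_795b03_ag.ChartModel

/-! The example: definitions.

Base S = Bs = polydisc of 3 × 3 matrices.  Sp ⊆ ℙ² × Bs: pairs ([v], M) with M = lambda ⊗ v and
v0 v1 v2 = ∑ lambda_i v_i^4.  XX = (Sp × El) with the complex structure twisted by x ↦ x + tht * √2. -/

set_option autoImplicit false

open Topology Filter Set Complex

namespace Pool.Agent.Moi

/-- the base: a polydisc in the space of 3 × 3 matrices -/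
def Bs : Type := {M : Fin 3 → Fin 3 → ℂ // ∀ i j, ‖M i j‖ < 1 / 3}

instance : TopologicalSpace Bs := inferInstanceAs (TopologicalSpace {M : Fin 3 → Fin 3 → ℂ // _})

/-- holomorphic germs on `Bs` -/
def holB (x : Bs) (f : Bs → ℂ) : Prop :=
  ∃ F : (Fin 3 → Fin 3 → ℂ) → ℂ, HolAt F x.1 ∧ ∀ᶠ y in 𝓝 x, f y = F y.1

/-- the origin of `Bs` -/
def zB : Bs := ⟨0, fun _ _ => by simp⟩

/-- the equations of the modification -/
def Eqs (v : Fin 3 → ℂ) (M : Fin 3 → Fin 3 → ℂ) : Prop :=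
  (∀ i j k, M i j * v k = M i k * v j) ∧ v 0 * v 1 * v 2 = ∑ i, M i i * v i ^ 3

/-- the modification `Sp ⊆ ℙ² × Bs` -/
def Sp : Set (PN 2 × Bs) := {q | ∀ v : Fin 3 → ℂ, v ≠ 0 → toP (N := 2) v = q.1 → Eqs v q.2.1}

/-- the total space of the elliptic bundle (as a topological space it is `Sp × El`) -/
def XX : Type := {p : (PN 2 × Bs) × El // p.1 ∈ Sp}

instance : TopologicalSpace XX := inferInstanceAs (TopologicalSpace {p : (PN 2 × Bs) × El // p.1 ∈ Sp})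

/-- homogeneous coordinates in the chart `v_k = 1` -/
def vk (k : Fin 3) (c : Fin 4 → ℂ) : Fin 3 → ℂ := fun i => if i = k then 1 else if i = k + 1 then c 0 else c 1

/-- the vector `lambda` in the chart `k` -/
def lk (k : Fin 3) (c : Fin 4 → ℂ) : Fin 3 → ℂ := fun i =>
  if i = k then c 0 * c 1 - c 2 * c 0 ^ 4 - c 3 * c 1 ^ 4 else if i = k + 1 then c 2 else c 3

/-- the matrix in the chart `k` -/
def Mk (k : Fin 3) (c : Fin 4 → ℂ) : Fin 3 → Fin 3 → ℂ := fun i j => lk k c i * vk k c j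

/-- domain of the chart `k` of `Sp` -/
def Dk (k : Fin 3) : Set (Fin 4 → ℂ) := {c | ∀ i j, ‖Mk k c i j‖ < 1 / 3}

/-- the two regions over which the bundle is trivialised -/
def Om (j : Bool) : Set (Fin 3 → ℂ) :=
  if j then {v | ‖v 0‖ < ‖v 2‖ ∧ ‖v 1‖ < ‖v 2‖} else {v | ¬ (‖v 0‖ = ‖v 1‖ ∧ ‖v 1‖ ≤ ‖v 2‖)}

/-- the twist: on `Om true` it is zero; on `Om false` it is continuous, and on the intersection it is
`0` where `|v0| < |v1|` and `1` where `|v1| < |v0|`. -/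
noncomputable def tht (j : Bool) (v : Fin 3 → ℂ) : ℝ :=
  if j then 0 else
    if max ‖v 0‖ ‖v 1‖ ≤ ‖v 2‖ then (if ‖v 0‖ < ‖v 1‖ then 0 else 1)
    else max (‖v 0‖ - ‖v 2‖) 0 / (max (‖v 0‖ - ‖v 2‖) 0 + max (‖v 1‖ - ‖v 2‖) 0)

theorem Eqs.smul {v : Fin 3 → ℂ} {M : Fin 3 → Fin 3 → ℂ} (h : Eqs v M) (a : ℂ) :
    Eqs (a • v) M := by
  refine ⟨fun i j k => ?_, ?_⟩
  · have := h.1 i j k
    simp only [Pi.smul_apply, smul_eq_mul]
    linear_combination a * this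
  · have := h.2
    simp only [Pi.smul_apply, smul_eq_mul, Fin.sum_univ_three] at this ⊢
    linear_combination a ^ 3 * this

theorem vk_self (k : Fin 3) (c : Fin 4 → ℂ) : vk k c k = 1 := by simp [vk]

theorem vk_ne_zero (k : Fin 3) (c : Fin 4 → ℂ) : vk k c ≠ 0 := by
  intro h
  have := congrFun h k
  rw [vk_self] at this
  simp at this

theorem Eqs_chart (k : Fin 3) (c : Fin 4 → ℂ) : Eqs (vk k c) (Mk k c) := by
  refine ⟨fun i j l => ?_, ?_⟩
  · simp only [Mk]; ring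
  · fin_cases k <;> simp [Mk, lk, vk, Fin.sum_univ_three] <;> ring

theorem eqs_zero_ex : ((toP (N := 2) ![1, 0, 0], zB) : PN 2 × Bs) ∈ Sp := by
  intro v hv hv'
  have h1 : (![1, 0, 0] : Fin 3 → ℂ) ≠ 0 := by
    intro h; have := congrFun h 0; simp at this
  obtain ⟨c, hc, hvc⟩ := (toP_eq_iff (N := 2) h1 hv).1 hv'.symm
  rw [hvc]
  refine Eqs.smul ?_ c
  refine ⟨fun i j k => by simp [zB], ?_⟩
  simp [zB]

theorem eqs_chart (k : Fin 3) (c : Fin 4 → ℂ) (h : c ∈ Dk k) :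
    ((toP (N := 2) (vk k c), (⟨Mk k c, h⟩ : Bs)) : PN 2 × Bs) ∈ Sp := by
  intro v hv hv'
  obtain ⟨a, ha, hva⟩ := (toP_eq_iff (N := 2) (vk_ne_zero k c) hv).1 hv'.symm
  rw [hva]
  exact (Eqs_chart k c).smul a

open Classical in
/-- the parametrizations of `XX`: `(c, z)` goes to the point with base point `[vk k c]`, matrix `Mk k c` and
fibre coordinate `z - tht * √2` -/
noncomputable def chi (i : Fin 3 × Bool) (e : (Fin 4 → ℂ) × ℂ) : XX :=
  if h : e.1 ∈ Dk i.1 then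
    ⟨((toP (N := 2) (vk i.1 e.1), ⟨Mk i.1 e.1, h⟩), pr (e.2 - (tht i.2 (vk i.1 e.1) * Real.sqrt 2 : ℝ))),
      eqs_chart i.1 e.1 h⟩
  else ⟨((toP (N := 2) ![1, 0, 0], zB), 0), eqs_zero_ex⟩

/-- the domains of the parametrizations -/
def DD (i : Fin 3 × Bool) : Set ((Fin 4 → ℂ) × ℂ) := {e | e.1 ∈ Dk i.1 ∧ vk i.1 e.1 ∈ Om i.2}

/-- the projection to the base -/
def gX : XX → Bs := fun p => p.1.1.2

end Pool.Agent.Moi
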