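import Pool.Agent.H.MP_795b03_ag.Irr
import Pool.Agent.H.MP_795b03_ag.ChiInv

/-! JOB FibA: the fibres over points different from the origin.

fibA_base: M = s.1 ≠ 0, so M i j ≠ 0 for some i, j.  p.1.1.1 = toP v, Eqs v M gives v k = (v j / M i j) * M i k for all k, so v is a multiple of the vector M i and toP v = toP (M i); the same for p'.  The second components are both s.
fib_analytic: the 9 functions p ↦ (gX p).1 i j - s.1 i j are hol: gX_hol applied to the germs y ↦ y.1 i j - s.1 i j of Bs (holB).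
fibA_eq: from fibA_base.
fibA_preconn: if the fibre is empty clear; otherwise it is the range of the continuous map q ↦ ⟨(p.1.1, q), p.2⟩ from the connected space El (El is the image of ℂ under pr, or a product of connected spaces).
fibA_open: a point of the fibre near chi i (c,z) is chi i (c',z') with (c',z') near (c,z) in DD i (chartSys.opn) and has the same base point (fibA_base), so c' = c (chi_base_inj).
fibA_irred: irred_of_locPar; LocPar: x = chi i (c, z0) (chartSys.surj), n = 1, kap w = chi i (c, w 0), e = fun _ => z0; HolTo from holTo_chi and HolTo.comp_diff; kap w is in the fibre (chi_val); openness by fibA_open and the homeomorphism (Fin 1 → ℂ) ≃ ℂ.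
fibA_comp: Z is nonempty, so the fibre is nonempty and irreducible; maximality of Z.
fibA_dim: x = chi i (c, z0); W0, inv from chi_inv (W = univ); chi' w = chi i (c, w 0), W = {w | (c, w 0) ∈ W0}, U = chi i '' W0, kap y = fun _ => (inv y).2.  chi' '' W = fibre ∩ U: fibA_base and chi_base_inj.
-/

set_option autoImplicit false

open Topology Filter Set Complex

namespace Pool.Agent.Moi

private theorem fibA_toP {M : Fin 3 → Fin 3 → ℂ} {i j : Fin 3} (hij : M i j ≠ 0)
    {v : Fin 3 → ℂ} (hv : v ≠ 0) (hE : Eqs v M) : toP (N := 2) v = toP (N := 2) (M i) := by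
  have h1 : v = (v j / M i j) • M i := by
    funext k
    have := hE.1 i j k
    simp only [Pi.smul_apply, smul_eq_mul]
    field_simp
    linear_combination this
  have ha : v j / M i j ≠ 0 := by
    intro h0
    rw [h0, zero_smul] at h1
    exact hv h1
  have hM : M i ≠ 0 := fun h => hij (by rw [h]; rfl)
  calc toP (N := 2) v = toP (N := 2) ((v j / M i j) • M i) := by rw [← h1]
    _ = toP (N := 2) (M i) := toP_smul (N := 2) hM ha

theorem fibA_base {s : Bs} (hs : s ≠ zB) {p p' : XX} (h : gX p = s) (h' : gX p' = s) :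
    p.1.1 = p'.1.1 := by
  have hex : ∃ i j, s.1 i j ≠ 0 := by
    by_contra hcon
    push Not at hcon
    apply hs
    apply Subtype.ext
    funext i j
    exact hcon i j
  obtain ⟨i, j, hij⟩ := hex
  have key : ∀ q : XX, gX q = s → q.1.1.1 = toP (N := 2) (s.1 i) := by
    intro q hq
    obtain ⟨v, hv, hvq⟩ := toP_surj (N := 2) q.1.1.1
    have hE : Eqs v q.1.1.2.1 := q.2 v hv hvq
    have hq' : q.1.1.2 = s := hq
    rw [hq'] at hE
    rw [← hvq]
    exact fibA_toP hij hv hE
  have h1 : p.1.1.1 = p'.1.1.1 := (key p h).trans (key p' h').symm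
  have h2 : p.1.1.2 = p'.1.1.2 := (show p.1.1.2 = s from h).trans (show p'.1.1.2 = s from h').symm
  exact Prod.ext h1 h2

theorem fib_analytic (s : Bs) : IsAnalyticIn univ (gX ⁻¹' {s}) := by
  have h1 : gX ⁻¹' {s} = {y : XX | y ∈ univ ∧ ∀ l : Fin (3 * 3),
      (fun l (y : XX) => (gX y).1 (finProdFinEquiv.symm l).1 (finProdFinEquiv.symm l).2 -
        s.1 (finProdFinEquiv.symm l).1 (finProdFinEquiv.symm l).2) l y = 0} := by
    ext y
    constructor
    · intro hy
      have hy' : gX y = s := hy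
      refine ⟨mem_univ _, fun l => ?_⟩
      simp only [hy', sub_self]
    · rintro ⟨-, hy⟩
      show gX y = s
      apply Subtype.ext
      funext i j
      have := hy (finProdFinEquiv (i, j))
      simp only [Equiv.symm_apply_apply] at this
      exact sub_eq_zero.1 this
  rw [h1]
  refine isAnalyticIn_zero isOpen_univ ?_
  intro l y _
  refine gX_hol.2 y (fun b : Bs => b.1 (finProdFinEquiv.symm l).1 (finProdFinEquiv.symm l).2 -
        s.1 (finProdFinEquiv.symm l).1 (finProdFinEquiv.symm l).2) ?_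
  refine ⟨fun M => M (finProdFinEquiv.symm l).1 (finProdFinEquiv.symm l).2 -
        s.1 (finProdFinEquiv.symm l).1 (finProdFinEquiv.symm l).2, ?_, Eventually.of_forall fun _ => rfl⟩
  exact Eventually.of_forall fun M => by fun_prop

theorem fibA_eq {s : Bs} (hs : s ≠ zB) {p : XX} (h : gX p = s) :
    gX ⁻¹' {s} = range (fun q : El => (⟨(p.1.1, q), p.2⟩ : XX)) := by
  ext p'
  constructor
  · intro hp'
    refine ⟨p'.1.2, ?_⟩
    apply Subtype.ext
    exact Prod.ext (fibA_base hs h hp') rfl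
  · rintro ⟨q, rfl⟩
    exact h

private theorem fibA_circle : PreconnectedSpace UnitAddCircle := by
  have h : Function.Surjective (fun x : ℝ => (x : UnitAddCircle)) := by
    intro q
    obtain ⟨x, hx⟩ := QuotientAddGroup.mk_surjective q
    exact ⟨x, hx⟩
  have hc : Continuous (fun x : ℝ => (x : UnitAddCircle)) := AddCircle.continuous_mk' 1
  have h2 : ConnectedSpace UnitAddCircle := Function.Surjective.connectedSpace h hc
  infer_instance

theorem fibA_preconn {s : Bs} (hs : s ≠ zB) : IsPreconnected (gX ⁻¹' {s}) := by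
  rcases (gX ⁻¹' {s}).eq_empty_or_nonempty with h | ⟨p, hp⟩
  · rw [h]
    exact isPreconnected_empty
  · have := fibA_circle
    rw [fibA_eq hs (show gX p = s from hp)]
    refine isPreconnected_range ?_
    exact (continuous_const.prodMk continuous_id).subtype_mk _

private theorem fibA_gX {i : Fin 3 × Bool} {c : Fin 4 → ℂ} (h : c ∈ Dk i.1) (z : ℂ) :
    gX (chi i (c, z)) = (⟨Mk i.1 c, h⟩ : Bs) := by
  show (chi i (c, z)).1.1.2 = _
  rw [chi_val h z]

theorem fibA_open {i : Fin 3 × Bool} {c : Fin 4 → ℂ} {z : ℂ} (h : (c, z) ∈ DD i)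
    (hs : gX (chi i (c, z)) ≠ zB) {W : Set ℂ} (hW : W ∈ 𝓝 z) :
    (fun w : ℂ => chi i (c, w)) '' W ∈ 𝓝[gX ⁻¹' {gX (chi i (c, z))}] (chi i (c, z)) := by
  have h1 : {e : (Fin 4 → ℂ) × ℂ | e.2 ∈ W} ∩ DD i ∈ 𝓝 (c, z) := by
    refine Filter.inter_mem ?_ ((chartSys.isOpen i).mem_nhds h)
    exact continuous_snd.continuousAt.preimage_mem_nhds hW
  have h2 := chartSys.opn i (c, z) h _ h1
  filter_upwards [self_mem_nhdsWithin, mem_nhdsWithin_of_mem_nhds h2] with y hy1 hy2
  obtain ⟨⟨c', z'⟩, ⟨he1, he2⟩, rfl⟩ := hy2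
  have h3 : (chi i (c', z')).1.1 = (chi i (c, z)).1.1 := fibA_base hs hy1 rfl
  have h4 : c' = c := chi_base_inj he2.1 h.1 h3
  subst h4
  exact ⟨z', he1, rfl⟩

private theorem fibA_holTo {i : Fin 3 × Bool} {c : Fin 4 → ℂ} {w : Fin 1 → ℂ}
    (h : (c, w 0) ∈ DD i) : HolTo (fun w : Fin 1 → ℂ => chi i (c, w 0)) w :=
  HolTo.comp_diff (f := fun w : Fin 1 → ℂ => ((c, w 0) : (Fin 4 → ℂ) × ℂ)) (holTo_chi h)
    (Eventually.of_forall fun z => by fun_prop)

theorem fibA_irred {s : Bs} (hs : s ≠ zB) (hne : (gX ⁻¹' {s}).Nonempty) :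
    IsIrred univ (gX ⁻¹' {s}) := by
  refine irred_of_locPar hne (fibA_preconn hs) (fib_analytic s) fun x hx => ?_
  obtain ⟨i, ⟨c, z0⟩, he, rfl⟩ := chartSys.surj x
  have hx' : gX (chi i (c, z0)) = s := hx
  have hz : ∀ z, gX (chi i (c, z)) = s := fun z => by
    rw [fibA_gX he.1 z, ← fibA_gX he.1 z0, hx']
  refine ⟨1, fun w => chi i (c, w 0), fun _ => z0, rfl, ?_, ?_⟩
  · have h1 : ∀ᶠ w : Fin 1 → ℂ in 𝓝 (fun _ => z0), ((c, w 0) : (Fin 4 → ℂ) × ℂ) ∈ DD i := by
      have hc : Continuous (fun w : Fin 1 → ℂ => ((c, w 0) : (Fin 4 → ℂ) × ℂ)) := by fun_prop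
      exact hc.continuousAt.preimage_mem_nhds ((chartSys.isOpen i).mem_nhds he)
    filter_upwards [h1] with w hw
    exact ⟨fibA_holTo hw, hz _⟩
  · intro W hW
    have hc : Continuous (fun z : ℂ => (fun _ : Fin 1 => z)) := by fun_prop
    have h2 : (fun z : ℂ => (fun _ : Fin 1 => z)) ⁻¹' W ∈ 𝓝 z0 :=
      hc.continuousAt.preimage_mem_nhds hW
    have h3 := fibA_open he (by rw [hx']; exact hs) h2
    rw [hx'] at h3
    refine mem_of_superset h3 ?_
    rintro _ ⟨z, hzW, rfl⟩
    exact ⟨fun _ => z, hzW, rfl⟩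

theorem fibA_comp {s : Bs} (hs : s ≠ zB) {Z : Set XX} (h : IsIrrComp univ (gX ⁻¹' {s}) Z) :
    Z = gX ⁻¹' {s} := by
  obtain ⟨x, hx⟩ := h.2.1.1
  exact (h.2.2 _ subset_rfl (fibA_irred hs ⟨x, h.1 hx⟩) h.1).symm

theorem fibA_dim {s : Bs} (hs : s ≠ zB) (hne : (gX ⁻¹' {s}).Nonempty) :
    HasDim (gX ⁻¹' {s}) 1 := by
  obtain ⟨x, hx⟩ := hne
  obtain ⟨i, ⟨c, z0⟩, he, rfl⟩ := chartSys.surj x
  have hx' : gX (chi i (c, z0)) = s := hx
  have hz : ∀ z, gX (chi i (c, z)) = s := fun z => by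
    rw [fibA_gX he.1 z, ← fibA_gX he.1 z0, hx']
  obtain ⟨W0, inv, hW0o, heW0, hW0D, -, hop, hinj, hinv, hhol⟩ := chi_inv he (W := univ) univ_mem
  have hc : Continuous (fun w : Fin 1 → ℂ => ((c, w 0) : (Fin 4 → ℂ) × ℂ)) := by fun_prop
  refine ⟨fun w => chi i (c, w 0), {w | (c, w 0) ∈ W0}, chi i '' W0, fun y _ => (inv y).2,
    hW0o.preimage hc, ⟨fun _ => z0, heW0⟩, hop, ?_, ?_, ?_, ?_⟩
  · ext y
    constructor
    · rintro ⟨w, hw, rfl⟩
      exact ⟨hz _, ⟨_, hw, rfl⟩⟩
    · rintro ⟨hy, ⟨⟨c', z'⟩, he', rfl⟩⟩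
      have h3 : (chi i (c', z')).1.1 = (chi i (c, z0)).1.1 := fibA_base hs hy hx'
      have h4 : c' = c := chi_base_inj (hW0D he').1 he.1 h3
      subst h4
      exact ⟨fun _ => z', he', rfl⟩
  · intro w hw
    funext l
    simp only [hinv _ hw]
    rw [Subsingleton.elim l 0]
  · intro w hw
    have h1 := fibA_holTo (hW0D hw)
    exact ⟨h1.1, fun F hF => h1.2 F hF⟩
  · rintro _ ⟨w, hw, rfl⟩ l
    exact hhol w hw (fun e => e.2) (Eventually.of_forall fun e => by fun_prop)

end Pool.Agent.Moi
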