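import Pool.Agent.H.MP_795b03_ag.ExInst

/-! JOB GX: the projection to the base is holomorphic and proper.

gX_hol: gX is continuous (projections); a germ F at gX x is of the form F1 ∘ val near gX x, F1 holomorphic; x = chi i e with e ∈ DD i (chartSys.surj); by hol_chi we need that z ↦ F (gX (chi i z)) is holomorphic at e; near e
it equals F1 (Mk i.1 z.1), composition with a polynomial map.
Sp_closed: if (l,M) ∉ Sp, then l = toP v, v ≠ 0, ¬ Eqs v M; Eqs is a closed condition on (v,M) ∈ ℂ³ × Bs, so ¬ Eqs v' M' for (v',M') near (v,M), and toP maps neighbourhoods of v to neighbourhoods of l (toP_nhds), so all (l',M') near (l,M) are of this form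
and not in Sp (definition of Sp: for all representatives).
gX_proper: XX is a closed subset of (PN 2 × Bs) × El with PN 2 (pn_compact) and El compact; the projection (PN 2 × Bs) × El → Bs is proper (isProperMap_fst_of_compactSpace / isProperMap_snd_of_compactSpace, composition), and the closed embedding
XX → (PN 2 × Bs) × El is proper (IsClosedEmbedding.isProperMap).
-/

set_option autoImplicit false

open Topology Filter Set Complex

namespace Pool.Agent.Moi

private theorem gX_cont : Continuous gX :=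
  continuous_snd.comp (continuous_fst.comp continuous_subtype_val)

private theorem gX_Mk (k : Fin 3) (c : Fin 4 → ℂ) : DifferentiableAt ℂ (fun c => Mk k c) c := by
  have h1 : ∀ i, DifferentiableAt ℂ (fun c : Fin 4 → ℂ => lk k c i) c := by
    intro i
    unfold lk
    split_ifs <;> fun_prop
  have h2 : ∀ j, DifferentiableAt ℂ (fun c : Fin 4 → ℂ => vk k c j) c := by
    intro j
    unfold vk
    split_ifs <;> fun_prop
  rw [differentiableAt_pi]
  intro i
  rw [differentiableAt_pi]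
  intro j
  exact (h1 i).mul (h2 j)

theorem gX_hol : IsHolMap gX := by
  refine ⟨gX_cont, fun x F hF => ?_⟩
  obtain ⟨F1, hF1, hFF⟩ : ∃ F1 : (Fin 3 → Fin 3 → ℂ) → ℂ, HolAt F1 (gX x).1 ∧
    ∀ᶠ y in 𝓝 (gX x), F y = F1 y.1 := hF
  obtain ⟨i, e, he, rfl⟩ := chartSys.surj x
  rw [hol_chi he]
  have hval : ∀ z ∈ DD i, (gX (chi i z)).1 = Mk i.1 z.1 := by
    intro z hz
    have hz1 : z.1 ∈ Dk i.1 := hz.1
    simp only [gX, chi, dif_pos hz1]
  have hcont : ContinuousAt (fun z => gX (chi i z)) e :=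
    gX_cont.continuousAt.comp (chartSys.cont i e he)
  have hev : ∀ᶠ z in 𝓝 e, F (gX (chi i z)) = F1 (gX (chi i z)).1 := hcont hFF
  rw [hval e he] at hF1
  have h3 : HolAt (fun z : (Fin 4 → ℂ) × ℂ => F1 (Mk i.1 z.1)) e := by
    refine HolAt.comp (F := F1) (f := fun z : (Fin 4 → ℂ) × ℂ => Mk i.1 z.1) hF1 ?_
    refine Eventually.of_forall fun z => ?_
    exact DifferentiableAt.comp (f := fun z : (Fin 4 → ℂ) × ℂ => z.1)
      (g := fun c => Mk i.1 c) z (gX_Mk i.1 z.1) (by fun_prop)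
  refine h3.congr ?_
  filter_upwards [hev, (chartSys.isOpen i).mem_nhds he] with z hz1 hz2
  rw [Function.comp_apply, hz1, hval z hz2]

theorem Sp_closed : IsClosed Sp := by
  rw [← isOpen_compl_iff, isOpen_iff_mem_nhds]
  rintro ⟨l, M⟩ hq
  have hq' : ∃ v : Fin 3 → ℂ, v ≠ 0 ∧ toP (N := 2) v = l ∧ ¬ Eqs v M.1 := by
    by_contra hcon
    apply hq
    intro v hv hvl
    by_contra h
    exact hcon ⟨v, hv, hvl, h⟩
  obtain ⟨v, hv, rfl, hE⟩ := hq'
  have hcl : IsClosed {p : (Fin 3 → ℂ) × Bs | Eqs p.1 p.2.1} := by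
    have hM : ∀ i j, Continuous fun p : (Fin 3 → ℂ) × Bs => p.2.1 i j := by
      intro i j
      exact (continuous_apply j).comp ((continuous_apply i).comp
        (continuous_subtype_val.comp continuous_snd))
    have hv : ∀ i, Continuous fun p : (Fin 3 → ℂ) × Bs => p.1 i := by
      intro i
      exact (continuous_apply i).comp continuous_fst
    have hrw : {p : (Fin 3 → ℂ) × Bs | Eqs p.1 p.2.1} =
        (⋂ i : Fin 3, ⋂ j : Fin 3, ⋂ k : Fin 3, {p | p.2.1 i j * p.1 k = p.2.1 i k * p.1 j}) ∩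
          {p | p.1 0 * p.1 1 * p.1 2 = ∑ i, p.2.1 i i * p.1 i ^ 3} := by
      ext p
      simp [Eqs]
    rw [hrw]
    refine IsClosed.inter ?_ ?_
    · exact isClosed_iInter fun i => isClosed_iInter fun j => isClosed_iInter fun k =>
        isClosed_eq ((hM i j).mul (hv k)) ((hM i k).mul (hv j))
    · exact isClosed_eq (((hv 0).mul (hv 1)).mul (hv 2))
        (continuous_finsetSum _ fun i _ => (hM i i).mul ((hv i).pow 3))
  have hnb : {p : (Fin 3 → ℂ) × Bs | ¬ Eqs p.1 p.2.1} ∈ 𝓝 ((v, M) : (Fin 3 → ℂ) × Bs) :=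
    hcl.isOpen_compl.mem_nhds hE
  rw [nhds_prod_eq, mem_prod_iff] at hnb
  obtain ⟨A, hA, B, hB, hAB⟩ := hnb
  have h1 : (toP (N := 2) '' (A ∩ {w | w ≠ 0})) ×ˢ B ∈ 𝓝 ((toP (N := 2) v, M) : PN 2 × Bs) :=
    prod_mem_nhds (toP_nhds hv (Filter.inter_mem hA (isOpen_ne.mem_nhds hv))) hB
  refine mem_of_superset h1 ?_
  rintro ⟨_, M'⟩ ⟨⟨v', ⟨hv'A, hv'0⟩, rfl⟩, hM'⟩ hmem
  exact hAB (⟨hv'A, hM'⟩ : (v', M') ∈ A ×ˢ B) (hmem v' hv'0 rfl)

theorem gX_proper : IsProperMap gX := by
  haveI := pn_compact 2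
  have h1 : IsClosed {p : (PN 2 × Bs) × El | p.1 ∈ Sp} := Sp_closed.preimage continuous_fst
  have h2 : IsProperMap (Subtype.val : {p : (PN 2 × Bs) × El // p.1 ∈ Sp} → (PN 2 × Bs) × El) :=
    (h1.isClosedEmbedding_subtypeVal).isProperMap
  have h3 : IsProperMap (Prod.fst : (PN 2 × Bs) × El → PN 2 × Bs) := isProperMap_fst_of_compactSpace
  have h4 : IsProperMap (Prod.snd : PN 2 × Bs → Bs) := isProperMap_snd_of_compactSpace
  exact (h4.comp h3).comp h2

end Pool.Agent.Moi
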