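import Pool.Agent.H.MP_795b03_ag.Irr
import Pool.Agent.H.MP_795b03_ag.GX

/-! JOB FibZ: the fibre over the origin and its three components.

Fz k = points over 0 with v_k = 0.  lch, lpt: the two affine charts of the line v_k = 0:
b = false: chart k+1, c = (t,0,0,0): v_{k+1} = 1, v_{k+2} = t, v_k = 0;   b = true: chart k+2, c = (0,t,0,0): v_{k+2} = 1, v_{k+1} = t, v_k = 0.  (fin_cases k, b for these.)
lpt_facts: direct computation: lk = 0 (c0 c1 = 0, c2 = c3 = 0), so Mk = 0; the explicit values of vk are stated in lpt_vk (proved by the same computation; stated for use in other modules).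
lpt_mem_Fz: by lpt_facts lpt b t is in Dk, so chi takes its first branch; toP v = toP (vk ..) gives v = a • vk (toP_eq_iff), so v k = 0.
fib_zero: over M = 0 the equation is v0 v1 v2 = 0 (Sp), for one and hence all representatives (toP_eq_iff).
Fz_param: p ∈ Fz k, p.1.1.1 = toP v (toP_surj or similar in ChartA/PnModel); v (k+1) ≠ 0 or v (k+2) ≠ 0; rescale; the coordinates as stated; choose j with vk ∈ Om j (Om_cover in Tht: v k = 0 so the three norms are not all equal) and z with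
pr z = q + pr (tht √2).  The base point of chi i (lpt b t, z) is ([vk], zB) and equals p.1.1 (Subtype.ext).
-/

set_option autoImplicit false

open Topology Filter Set Complex

namespace Pool.Agent.Moi

/-- the components of the fibre over the origin -/
def Fz (k : Fin 3) : Set XX :=
  {p | gX p = zB ∧ ∀ v : Fin 3 → ℂ, v ≠ 0 → toP (N := 2) v = p.1.1.1 → v k = 0}

/-- chart index for the line `v_k = 0` -/
def lch (k : Fin 3) (b : Bool) : Fin 3 := if b then k + 2 else k + 1

/-- chart coordinates of the line `v_k = 0` -/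
def lpt (b : Bool) (t : ℂ) : Fin 4 → ℂ := if b then ![0, t, 0, 0] else ![t, 0, 0, 0]

theorem lpt_facts (k : Fin 3) (b : Bool) (t : ℂ) :
    Mk (lch k b) (lpt b t) = 0 ∧ lpt b t ∈ Dk (lch k b) ∧ vk (lch k b) (lpt b t) k = 0 := by
  have h1 : ∀ i, lk (lch k b) (lpt b t) i = 0 := by
    intro i
    cases b <;> simp [lk, lpt]
  have h2 : Mk (lch k b) (lpt b t) = 0 := by
    funext i j
    simp [Mk, h1]
  refine ⟨h2, ?_, ?_⟩
  · intro i j
    rw [h2]
    simp
  · cases b <;> fin_cases k <;> simp [vk, lch, lpt]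

theorem lpt_vk (k : Fin 3) (b : Bool) (t : ℂ) :
    vk (lch k b) (lpt b t) = fun i => if i = k then 0 else
      if b then (if i = k + 2 then 1 else t) else (if i = k + 1 then 1 else t) := by
  funext i
  cases b <;> fin_cases k <;> fin_cases i <;> simp [vk, lch, lpt]

private theorem FibZ_all {v w : Fin 3 → ℂ} (hv : v ≠ 0) (hw : w ≠ 0)
    (h : toP (N := 2) v = toP w) {k : Fin 3} (hk : v k = 0) : w k = 0 := by
  obtain ⟨a, ha, hva⟩ := (toP_eq_iff (N := 2) hv hw).1 h
  rw [hva, Pi.smul_apply, hk, smul_zero]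

theorem lpt_mem_Fz {k : Fin 3} {b : Bool} {t : ℂ} {j : Bool} {z : ℂ} :
    chi (lch k b, j) (lpt b t, z) ∈ Fz k := by
  obtain ⟨h1, h2, h3⟩ := lpt_facts k b t
  rw [ChartC_chi (i := (lch k b, j)) h2]
  refine ⟨Subtype.ext h1, ?_⟩
  intro v hv hvl
  exact FibZ_all (vk_ne_zero _ _) hv hvl.symm h3

theorem fib_zero : gX ⁻¹' {zB} = Fz 0 ∪ Fz 1 ∪ Fz 2 := by
  ext p
  constructor
  · intro hp
    have hp' : gX p = zB := hp
    obtain ⟨v, hv, hl⟩ := toP_surj p.1.1.1
    have hE : Eqs v p.1.1.2.1 := p.2 v hv hl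
    have h0 : p.1.1.2.1 = 0 := congrArg Subtype.val hp'
    rw [h0] at hE
    have h2 := hE.2
    simp only [Pi.zero_apply, zero_mul, Finset.sum_const_zero, mul_eq_zero] at h2
    have hall : ∀ k, v k = 0 → p ∈ Fz k := fun k hk =>
      ⟨hp', fun w hw hwl => FibZ_all hv hw (hl.trans hwl.symm) hk⟩
    rcases h2 with (h2 | h2) | h2
    · exact Or.inl (Or.inl (hall 0 h2))
    · exact Or.inl (Or.inr (hall 1 h2))
    · exact Or.inr (hall 2 h2)
  · rintro ((h | h) | h)
    · exact h.1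
    · exact h.1
    · exact h.1

theorem Fz_param {k : Fin 3} {p : XX} (hp : p ∈ Fz k) :
    ∃ (b : Bool) (t : ℂ) (j : Bool) (z : ℂ), (lpt b t, z) ∈ DD (lch k b, j) ∧
      p = chi (lch k b, j) (lpt b t, z) := by
  obtain ⟨hp0, hpk⟩ := hp
  obtain ⟨v, hv, hl⟩ := toP_surj p.1.1.1
  have hk : v k = 0 := hpk v hv hl
  have hb : ∃ (b : Bool) (t a : ℂ), a ≠ 0 ∧ vk (lch k b) (lpt b t) = a • v := by
    by_cases h1 : v (k + 1) = 0
    · have h2 : v (k + 2) ≠ 0 := by
        intro h2
        apply hv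
        funext i
        fin_cases k <;> fin_cases i <;> simp_all
      refine ⟨true, v (k + 1) / v (k + 2), (v (k + 2))⁻¹, inv_ne_zero h2, ?_⟩
      rw [lpt_vk]
      funext i
      fin_cases k <;> fin_cases i <;> simp_all
    · refine ⟨false, v (k + 2) / v (k + 1), (v (k + 1))⁻¹, inv_ne_zero h1, ?_⟩
      rw [lpt_vk]
      funext i
      fin_cases k <;> fin_cases i <;> simp_all [div_eq_inv_mul]
  obtain ⟨b, t, a, ha, hvk⟩ := hb
  obtain ⟨f1, f2, f3⟩ := lpt_facts k b t
  obtain ⟨j, hj⟩ : ∃ j : Bool, vk (lch k b) (lpt b t) ∈ Om j := by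
    rcases Om_cover (not_all_eq (vk_ne_zero _ _) (Eqs_chart _ _) f2) with h | h
    · exact ⟨true, h⟩
    · exact ⟨false, h⟩
  obtain ⟨w, hw⟩ := pr_surjective p.1.2
  refine ⟨b, t, j, w + (tht j (vk (lch k b) (lpt b t)) * Real.sqrt 2 : ℝ), ⟨f2, hj⟩, ?_⟩
  rw [ChartC_chi (i := (lch k b, j)) f2]
  have hP : toP (N := 2) (vk (lch k b) (lpt b t)) = p.1.1.1 := by
    rw [hvk, toP_smul hv ha, hl]
  have hM : p.1.1.2 = zB := hp0
  refine Subtype.ext (Prod.ext (Prod.ext hP.symm ?_) ?_)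
  · rw [hM]
    exact Subtype.ext f1.symm
  · show p.1.2 = pr (w + (tht j (vk (lch k b) (lpt b t)) * Real.sqrt 2 : ℝ) -
      (tht j (vk (lch k b) (lpt b t)) * Real.sqrt 2 : ℝ))
    rw [add_sub_cancel_right]
    exact hw.symm

end Pool.Agent.Moi
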