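import Pool.Agent.H.MP_795b03_ag.FibZ

/-! JOB FibZ2: the fibre over the origin: analyticity and connectedness.

Fz_analytic: Fz k is analytic in univ: at a point chi (k',j) e of XX (chartSys.surj), use the functions: the 9 entries p ↦ (gX p).1 i j (hol by gX_hol and holB of the coordinate functions; or directly by hol_chi: in the chart it is Mk k' c i j, polynomial) and the
function Q p = v_k/v_{k'}, quotient of homogeneous coordinates of p.1.1.1 (a representative v of p.1.1.1, chosen by Classical; the quotient does not depend on it), which is hol: in the chart it is vk k' c k, polynomial, near e (DD is open).  A point near chi (k',j) e is chi (k',j) e' with e' ∈ DD (chartSys.opn), it is in Fz k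
iff Mk k' c' = 0 and vk k' c' k = 0.
Fz_preconn: for b the map (t,q) ↦ ⟨((toP (vk (lch k b) (lpt b t)), zB), q), _⟩ is continuous from the connected space ℂ × El to XX (El is connected: it is the continuous image of ℂ under pr; toP is continuous at nonzero vectors), its values are in Fz k; Fz k is the union of the two images (Fz_param), which meet
(t = 1 in both charts).  IsPreconnected.union.
Fz_nonempty: lpt_mem_Fz.
fib_zero_preconn: Fz 0, Fz 1, Fz 2 are preconnected and pairwise intersect (node points, e.g. a point over [0:0:1] is in Fz 0 ∩ Fz 1: membership in Fz k by toP_eq_iff), fib_zero.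
-/

set_option autoImplicit false

open Topology Filter Set Complex

namespace Pool.Agent.Moi

private theorem FibZ2_mem {k : Fin 3} {v : Fin 3 → ℂ} (hv : v ≠ 0) {p : XX}
    (hp : p.1.1.1 = toP (N := 2) v) : p ∈ Fz k ↔ gX p = zB ∧ v k = 0 := by
  constructor
  · rintro ⟨h1, h2⟩
    exact ⟨h1, h2 v hv hp.symm⟩
  · rintro ⟨h1, h2⟩
    refine ⟨h1, fun w hw hwp => ?_⟩
    obtain ⟨a, ha, hwa⟩ := (toP_eq_iff (N := 2) hv hw).1 (hp.symm.trans hwp.symm)
    rw [hwa, Pi.smul_apply, h2, smul_zero]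

/-- a representative of the base point in projective space -/
private noncomputable def FibZ2_rep (p : XX) : Fin 3 → ℂ := Classical.choose (toP_surj p.1.1.1)

private theorem FibZ2_quot {k : Fin 3} {i : Fin 3 × Bool} {e : (Fin 4 → ℂ) × ℂ} (he : e ∈ DD i) :
    FibZ2_rep (chi i e) k / FibZ2_rep (chi i e) i.1 = vk i.1 e.1 k := by
  obtain ⟨h1, h2⟩ := Classical.choose_spec (toP_surj (chi i e).1.1.1)
  have h3 : (chi i e).1.1.1 = toP (N := 2) (vk i.1 e.1) := by
    obtain ⟨c, z⟩ := e
    rw [ChartC_chi he.1]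
  obtain ⟨a, ha, hva⟩ := (toP_eq_iff (N := 2) (vk_ne_zero i.1 e.1) h1).1 (h3.symm.trans h2.symm)
  change FibZ2_rep (chi i e) = _ at hva
  rw [hva, Pi.smul_apply, Pi.smul_apply, vk_self, smul_eq_mul, smul_eq_mul, mul_one,
    mul_div_cancel_left₀ _ ha]

private theorem FibZ2_gX {i : Fin 3 × Bool} {e : (Fin 4 → ℂ) × ℂ} (he : e ∈ DD i) :
    (gX (chi i e)).1 = Mk i.1 e.1 := by
  obtain ⟨c, z⟩ := e
  rw [ChartC_chi he.1]
  rfl

private theorem FibZ2_of_finite {ι : Type} [Finite ι] {Z : Set XX} {x : XX} (G : ι → XX → ℂ)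
    (hG : ∀ i, hol x (G i)) (h : ∀ᶠ z in 𝓝 x, (z ∈ Z ↔ ∀ i, G i z = 0)) :
    ∃ (m : ℕ) (G : Fin m → XX → ℂ), (∀ i, hol x (G i)) ∧
      ∀ᶠ y in 𝓝 x, (y ∈ Z ↔ ∀ i, G i y = 0) := by
  obtain ⟨n, ⟨e⟩⟩ := Finite.exists_equiv_fin ι
  refine ⟨n, fun i => G (e.symm i), fun i => hG _, ?_⟩
  filter_upwards [h] with z hz
  rw [hz]
  exact ⟨fun h' i => h' _, fun h' i => by simpa using h' (e i)⟩

theorem Fz_analytic (k : Fin 3) : IsAnalyticIn univ (Fz k) := by
  refine ⟨subset_univ _, fun x _ => ?_⟩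
  obtain ⟨i, e, he, rfl⟩ := chartSys.surj x
  have hD : DD i ∈ 𝓝 e := (chartSys.isOpen i).mem_nhds he
  refine FibZ2_of_finite (ι := Option (Fin 3 × Fin 3))
    (fun o => o.elim (fun p => FibZ2_rep p k / FibZ2_rep p i.1) fun ab p => (gX p).1 ab.1 ab.2)
    ?_ ?_
  · rintro (_ | ⟨a, b⟩)
    · change hol (chi i e) (fun p => FibZ2_rep p k / FibZ2_rep p i.1)
      rw [hol_chi he]
      have h1 : HolAt (fun z : (Fin 4 → ℂ) × ℂ => vk i.1 z.1 k) e :=
        Eventually.of_forall fun z =>
          DifferentiableAt.comp (g := fun b : Fin 4 → ℂ => vk i.1 b k) z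
            (ChartC_vk_diff i.1 k z.1) differentiableAt_fst
      refine h1.congr ?_
      filter_upwards [hD] with z hz
      exact (FibZ2_quot hz).symm
    · change hol (chi i e) (fun p => (gX p).1 a b)
      rw [hol_chi he]
      have h1 : HolAt (fun z : (Fin 4 → ℂ) × ℂ => Mk i.1 z.1 a b) e :=
        Eventually.of_forall fun z =>
          DifferentiableAt.comp (g := fun c : Fin 4 → ℂ => Mk i.1 c a b) z
            (ChartC_Mk_diff i.1 a b z.1) differentiableAt_fst
      refine h1.congr ?_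
      filter_upwards [hD] with z hz
      rw [FibZ2_gX hz]
  · filter_upwards [chartSys.opn i e he _ hD] with y hy
    obtain ⟨z, hz, rfl⟩ := hy
    have h3 : (chi i z).1.1.1 = toP (N := 2) (vk i.1 z.1) := by
      obtain ⟨c, w⟩ := z
      rw [ChartC_chi hz.1]
    rw [FibZ2_mem (vk_ne_zero i.1 z.1) h3]
    constructor
    · rintro ⟨h1, h2⟩ (_ | ⟨a, b⟩)
      · change FibZ2_rep (chi i z) k / FibZ2_rep (chi i z) i.1 = 0
        rw [FibZ2_quot hz, h2]
      · change (gX (chi i z)).1 a b = 0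
        rw [h1]
        rfl
    · intro h1
      refine ⟨Subtype.ext (funext fun a => funext fun b => h1 (some (a, b))), ?_⟩
      have h2 := h1 none
      change FibZ2_rep (chi i z) k / FibZ2_rep (chi i z) i.1 = 0 at h2
      rwa [FibZ2_quot hz] at h2

private theorem FibZ2_sp (k : Fin 3) (b : Bool) (t : ℂ) :
    ((toP (N := 2) (vk (lch k b) (lpt b t)), zB) : PN 2 × Bs) ∈ Sp := by
  have h1 := eqs_chart (lch k b) (lpt b t) (lpt_facts k b t).2.1
  have h2 : (⟨Mk (lch k b) (lpt b t), (lpt_facts k b t).2.1⟩ : Bs) = zB :=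
    Subtype.ext (lpt_facts k b t).1
  rwa [h2] at h1

/-- global parametrization of one half of a component -/
private noncomputable def FibZ2_phi (k : Fin 3) (b : Bool) (q : ℂ × El) : XX :=
  ⟨((toP (N := 2) (vk (lch k b) (lpt b q.1)), zB), q.2), FibZ2_sp k b q.1⟩

private theorem FibZ2_lpt_cont (b : Bool) : Continuous (lpt b) := by
  refine continuous_pi fun i => ?_
  cases b <;> fin_cases i <;> simp [lpt] <;> fun_prop

private theorem FibZ2_phi_cont (k : Fin 3) (b : Bool) : Continuous (FibZ2_phi k b) := by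
  have hind : Topology.IsInducing (fun p : XX => (p.1 : (PN 2 × Bs) × El)) := ⟨rfl⟩
  rw [hind.continuous_iff]
  have h0 : Continuous fun q : ℂ × El => vk (lch k b) (lpt b q.1) :=
    (ChartC_vk_cont _).comp ((FibZ2_lpt_cont b).comp continuous_fst)
  have h1 : Continuous fun q : ℂ × El => toP (N := 2) (vk (lch k b) (lpt b q.1)) := by
    rw [continuous_iff_continuousAt]
    intro q
    exact ContinuousAt.comp (f := fun q : ℂ × El => vk (lch k b) (lpt b q.1)) (g := toP (N := 2))
      (continuousAt_toP (vk_ne_zero _ _)) h0.continuousAt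
  exact (h1.prodMk continuous_const).prodMk continuous_snd

private theorem FibZ2_phi_mem (k : Fin 3) (b : Bool) (q : ℂ × El) : FibZ2_phi k b q ∈ Fz k :=
  (FibZ2_mem (vk_ne_zero (lch k b) (lpt b q.1)) rfl).2 ⟨rfl, (lpt_facts k b q.1).2.2⟩

private theorem FibZ2_range_pre (k : Fin 3) (b : Bool) : IsPreconnected (range (FibZ2_phi k b)) := by
  exact isPreconnected_range (FibZ2_phi_cont k b)

private theorem FibZ2_union (k : Fin 3) :
    Fz k = range (FibZ2_phi k false) ∪ range (FibZ2_phi k true) := by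
  apply Subset.antisymm
  · intro p hp
    obtain ⟨b, t, j, z, hD, rfl⟩ := Fz_param hp
    have h1 : chi (lch k b, j) (lpt b t, z) = FibZ2_phi k b (t,
        pr (z - (tht j (vk (lch k b) (lpt b t)) * Real.sqrt 2 : ℝ))) := by
      rw [ChartC_chi (i := (lch k b, j)) hD.1]
      exact Subtype.ext (Prod.ext (Prod.ext rfl (Subtype.ext (lpt_facts k b t).1)) rfl)
    rw [h1]
    cases b
    · exact Or.inl (mem_range_self _)
    · exact Or.inr (mem_range_self _)
  · rintro p (⟨q, rfl⟩ | ⟨q, rfl⟩)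
    · exact FibZ2_phi_mem k false q
    · exact FibZ2_phi_mem k true q

theorem Fz_preconn (k : Fin 3) : IsPreconnected (Fz k) := by
  rw [FibZ2_union]
  have h1 : FibZ2_phi k false (1, 0) = FibZ2_phi k true (1, 0) := by
    have h2 : vk (lch k false) (lpt false 1) = vk (lch k true) (lpt true 1) := by
      rw [lpt_vk, lpt_vk]
      funext i
      simp
    refine Subtype.ext (Prod.ext (Prod.ext ?_ rfl) rfl)
    change toP (N := 2) (vk (lch k false) (lpt false 1)) = toP (N := 2) (vk (lch k true) (lpt true 1))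
    rw [h2]
  exact IsPreconnected.union (FibZ2_phi k false (1, 0)) (mem_range_self _)
    (h1 ▸ mem_range_self _) (FibZ2_range_pre k false) (FibZ2_range_pre k true)

theorem Fz_nonempty (k : Fin 3) : (Fz k).Nonempty :=
  ⟨chi (lch k false, false) (lpt false 0, 0), lpt_mem_Fz⟩

theorem fib_zero_preconn : IsPreconnected (gX ⁻¹' {zB}) := by
  rw [fib_zero]
  have h01 : FibZ2_phi 0 true (0, 0) ∈ Fz 1 := by
    refine (FibZ2_mem (vk_ne_zero (lch 0 true) (lpt true 0)) rfl).2 ⟨rfl, ?_⟩
    rw [lpt_vk]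
    simp
  have h12 : FibZ2_phi 1 false (0, 0) ∈ Fz 0 := by
    refine (FibZ2_mem (vk_ne_zero (lch 1 false) (lpt false 0)) rfl).2 ⟨rfl, ?_⟩
    rw [lpt_vk]
    simp
  have h2 : FibZ2_phi 2 true (0, 0) ∈ Fz 0 := by
    refine (FibZ2_mem (vk_ne_zero (lch 2 true) (lpt true 0)) rfl).2 ⟨rfl, ?_⟩
    rw [lpt_vk]
    simp
  exact IsPreconnected.union (FibZ2_phi 2 true (0, 0)) (Or.inl h2) (FibZ2_phi_mem _ _ _)
    (IsPreconnected.union (FibZ2_phi 0 true (0, 0)) (FibZ2_phi_mem _ _ _) h01 (Fz_preconn 0)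
      (Fz_preconn 1)) (Fz_preconn 2)

end Pool.Agent.Moi
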