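import Pool.Agent.H.MP_795b03_ag.FibZ2

/-! Parametrizations of the components of the fibre over the origin. -/

set_option autoImplicit false

open Topology Filter Set Complex

namespace Pool.Agent.Moi

private def fz3idx (b : Bool) : Fin 4 := if b then 1 else 0

private theorem fz3_lpt (b : Bool) (t : ℂ) : lpt b t (fz3idx b) = t := by
  cases b <;> simp [lpt, fz3idx]

private theorem fz3_alg (k : Fin 3) (b : Bool) (c : Fin 4 → ℂ) (h1 : Mk (lch k b) c = 0)
    (h2 : vk (lch k b) c k = 0) : c = lpt b (c (fz3idx b)) := by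
  have hl : ∀ i, lk (lch k b) c i = 0 := by
    intro i
    have h3 := congrFun (congrFun h1 i) (lch k b)
    simp only [Mk, vk_self, mul_one] at h3
    exact h3
  have h4 := hl 0
  have h5 := hl 1
  have h6 := hl 2
  fin_cases k <;> cases b <;> simp [lk, lch, vk] at h2 h4 h5 h6 <;> funext i <;>
    fin_cases i <;> simp [lpt, fz3idx, *]

/-- a parametrized neighbourhood in `Fz k` -/
theorem Fz_open {k : Fin 3} {b j : Bool} {t z : ℂ} (h : (lpt b t, z) ∈ DD (lch k b, j))
    {W : Set (ℂ × ℂ)} (hW : W ∈ 𝓝 (t, z)) :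
    (fun q : ℂ × ℂ => chi (lch k b, j) (lpt b q.1, q.2)) '' W ∈
      𝓝[Fz k] (chi (lch k b, j) (lpt b t, z)) := by
  have hc : ContinuousAt (fun e : (Fin 4 → ℂ) × ℂ => (e.1 (fz3idx b), e.2)) (lpt b t, z) := by
    refine Continuous.continuousAt ?_
    exact ((continuous_apply (fz3idx b)).comp continuous_fst).prodMk continuous_snd
  have hc0 : (fun e : (Fin 4 → ℂ) × ℂ => (e.1 (fz3idx b), e.2)) (lpt b t, z) = (t, z) := by
    simp only [fz3_lpt]
  have h1 : (fun e : (Fin 4 → ℂ) × ℂ => (e.1 (fz3idx b), e.2)) ⁻¹' W ∩ DD (lch k b, j)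
      ∈ 𝓝 (lpt b t, z) := by
    refine inter_mem (hc.preimage_mem_nhds ?_) ((chartSys.isOpen _).mem_nhds h)
    have h0 := hW
    rw [← hc0] at h0
    exact h0
  have h2 := chartSys.opn _ _ h _ h1
  rw [mem_nhdsWithin_iff_exists_mem_nhds_inter]
  refine ⟨_, h2, ?_⟩
  rintro _ ⟨⟨e, ⟨he1, he2⟩, rfl⟩, hF⟩
  have hD : e.1 ∈ Dk (lch k b) := he2.1
  have hchi : chi (lch k b, j) e = ⟨((toP (N := 2) (vk (lch k b) e.1), ⟨Mk (lch k b) e.1, hD⟩),
      pr (e.2 - (tht j (vk (lch k b) e.1) * Real.sqrt 2 : ℝ))), eqs_chart (lch k b) e.1 hD⟩ := by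
    unfold chi
    rw [dif_pos hD]
  have hM : Mk (lch k b) e.1 = 0 := by
    have h3 := hF.1
    rw [hchi] at h3
    exact congrArg Subtype.val h3
  have hv : vk (lch k b) e.1 k = 0 := by
    refine hF.2 _ (vk_ne_zero _ _) ?_
    rw [hchi]
  have he : e.1 = lpt b (e.1 (fz3idx b)) := fz3_alg k b e.1 hM hv
  refine ⟨(e.1 (fz3idx b), e.2), he1, ?_⟩
  show chi (lch k b, j) (lpt b (e.1 (fz3idx b)), e.2) = chi (lch k b, j) e
  rw [← he]

theorem Fz_locPar {k : Fin 3} {x : XX} (hx : x ∈ Fz k) : LocPar (Fz k) x := by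
  obtain ⟨b, t, j, z, hDD, rfl⟩ := Fz_param hx
  have hd : Differentiable ℂ (fun w : Fin 2 → ℂ => (lpt b (w 0), w 1)) := by
    refine Differentiable.prodMk ?_ (differentiable_apply 1)
    rw [differentiable_pi]
    intro i
    cases b
    · fin_cases i
      · exact differentiable_apply 0
      · exact differentiable_const _
      · exact differentiable_const _
      · exact differentiable_const _
    · fin_cases i
      · exact differentiable_const _
      · exact differentiable_apply 0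
      · exact differentiable_const _
      · exact differentiable_const _
  refine ⟨2, fun w => chi (lch k b, j) (lpt b (w 0), w 1), ![t, z], by simp, ?_, ?_⟩
  · have h1 : ∀ᶠ w in 𝓝 (![t, z] : Fin 2 → ℂ), (lpt b (w 0), w 1) ∈ DD (lch k b, j) := by
      refine hd.continuous.continuousAt.preimage_mem_nhds ((chartSys.isOpen _).mem_nhds ?_)
      simpa using hDD
    filter_upwards [h1] with w hw
    refine ⟨?_, lpt_mem_Fz⟩
    exact HolTo.comp_diff (f := fun w : Fin 2 → ℂ => (lpt b (w 0), w 1)) (holTo_chi hw)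
      (Eventually.of_forall fun w' => hd w')
  · intro W hW
    have hc : Continuous (fun q : ℂ × ℂ => (![q.1, q.2] : Fin 2 → ℂ)) := by
      refine continuous_pi fun i => ?_
      fin_cases i
      · exact continuous_fst
      · exact continuous_snd
    have h1 : (fun q : ℂ × ℂ => (![q.1, q.2] : Fin 2 → ℂ)) ⁻¹' W ∈ 𝓝 (t, z) :=
      hc.continuousAt.preimage_mem_nhds hW
    refine mem_of_superset (Fz_open hDD h1) ?_
    rintro _ ⟨q, hq, rfl⟩
    exact ⟨![q.1, q.2], hq, by simp⟩

theorem Fz_irred (k : Fin 3) : IsIrred univ (Fz k) :=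
  irred_of_locPar (Fz_nonempty k) (Fz_preconn k) (Fz_analytic k) (fun _ hx => Fz_locPar hx)

end Pool.Agent.Moi
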