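import Pool.Agent.H.MP_795b03_ag.Comp
import Pool.Agent.H.MP_795b03_ag.FibZ3
import Pool.Agent.H.MP_795b03_ag.ChiInv

/-! JOB GDat: the data extracted from a bimeromorphic model.

extract: O = gX ⁻¹' U is open (gX continuous, gX_hol.1).  x0 a point over zB (Fz_nonempty and fib_zero); X1 = connectedComponentIn O x0.  comp_irr: X1 is an irreducible component, so h gives N, Xp, Y and the two IsBimer statements;
the first one gives T, rho, the second T', rho'.  Yg = {q | (q.1, (gX q.1, q.2)) ∈ Y}, phi x = (rho x).2.2.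
isOpen: comp_open.  sat: the set {p'' | p''.1.1 = p.1.1} is the image of the continuous map q ↦ ⟨(p.1.1, q), p.2⟩ from the connected space El, is contained in O (same gX) and contains p; IsPreconnected.subset_connectedComponentIn and connectedComponentIn_eq.
conn: isPreconnected_connectedComponentIn.  fib0: fib_zero_preconn, the fibre over zB is contained in O and contains x0.
an: Yg ⊆ X1 ×ˢ univ since p ∈ Y implies p.1 ∈ X1.  For (x,l) with x ∈ X1 ⊆ O take the equations G of Y at (x,(gX x,l)) and compose with the map m (x,l) = (x,(gX x,l)): m is continuous and hol (m q) F → hol q (F ∘ m): a germ of the product space is by definition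
(holProd, twice) F(a(x), b(y), c(l)) with a, b, c holomorphic germs; b ∘ gX is holomorphic by gX_hol.  (General lemma, provable from the definition of holProd: if f : X → Y, f' : X → Y' are IsHolMap then x ↦ (f x, f' x) is IsHolMap: holProd germ H(a(f x), b(f' x)), hol_comp.)
anT: restrict from O to X1 (T ⊆ X1).  dense: given.  single: x ∈ X1 \ T: rho x ∈ Y with (rho x).1 = x and (rho x).2.1 = gX x, so (x, phi x) ∈ Yg; if (x,l) ∈ Yg then y = (x,(gX x,l)) ∈ Y, y.1 ∉ T, so rho x = y and l = phi x.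
cont, holphi: X1 is open, so ContinuousWithinAt rho X1 x is ContinuousAt; for F hol at phi x the function F ∘ snd ∘ snd is hol at rho x (isHolMap_snd), so F (phi y) = F' y near x with F' hol: hol_congr.
clos: (x,l) ∈ Yg gives (x,(gX x,l)) ∈ Y ⊆ closure (Y \ fst ⁻¹ T); the continuous map (x,(s,l)) ↦ (x,l) sends Y \ fst ⁻¹ T into {q ∈ Yg | q.1 ∉ T} (elements y of Y satisfy y.2.1 = gX y.1): image_closure_subset_closure_image.
inj: in the same way from Y ⊆ closure (Y \ snd ⁻¹ T'): if y ∈ Y, y.2 ∉ T', q = (y.1, y.2.2), q' ∈ Yg with gX q'.1 = gX q.1 and q'.2 = q.2, then y' = (q'.1, (gX q'.1, q'.2)) ∈ Y has y'.2 = y.2 ∉ T' and y' = rho' y'.2 = rho' y.2 = y.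
VV_all: (c,z) ∈ DD i does not depend on z; (chi i (c,z)).1.1 = (chi i (c,0)).1.1 (chi_val) and h.sat.  VV_open: DD i open, chi i continuous there (chartSys), X1 open.
-/

set_option autoImplicit false

open Topology Filter Set Complex

namespace Pool.Agent.Moi

/-- the data on the open set `X₁` of `XX` coming from a bimeromorphic model: `Yg` is the closure of
the graph of the meromorphic map `phi` to projective space, which is holomorphic off `T`. -/
structure GDat (X₁ : Set XX) {N : ℕ} (Yg : Set (XX × PN N)) (T : Set XX) (phi : XX → PN N) :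
    Prop where
  isOpen : IsOpen X₁
  sat : ∀ p ∈ X₁, ∀ p' : XX, p'.1.1 = p.1.1 → p' ∈ X₁
  conn : IsPreconnected X₁
  fib0 : gX ⁻¹' {zB} ⊆ X₁
  an : IsAnalyticIn (X₁ ×ˢ univ) Yg
  anT : IsAnalyticIn X₁ T
  dense : X₁ ⊆ closure (X₁ \ T)
  single : ∀ x ∈ X₁ \ T, ∀ l, (x, l) ∈ Yg ↔ l = phi x
  cont : ∀ x ∈ X₁ \ T, ContinuousAt phi x
  holphi : ∀ x ∈ X₁ \ T, ∀ F : PN N → ℂ, hol (phi x) F → hol x (F ∘ phi)
  clos : Yg ⊆ closure {q | q ∈ Yg ∧ q.1 ∉ T}
  inj : Yg ⊆ closure {q | q ∈ Yg ∧ ∀ q' ∈ Yg, gX q'.1 = gX q.1 → q'.2 = q.2 → q' = q}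

/-- base points of the chart `i` over `X₁` -/
def VV (X₁ : Set XX) (i : Fin 3 × Bool) : Set (Fin 4 → ℂ) := {c | (c, (0 : ℂ)) ∈ DD i ∧ chi i (c, 0) ∈ X₁}

/-- the cone over the graph in the chart `i` -/
def YY {N : ℕ} (Yg : Set (XX × PN N)) (i : Fin 3 × Bool) :
    Set ((Fin 4 → ℂ) × ℂ × (Fin (N + 1) → ℂ)) :=
  {q | q.2.2 ≠ 0 ∧ (q.1, q.2.1) ∈ DD i ∧ (chi i (q.1, q.2.1), toP q.2.2) ∈ Yg}

/-- the bad set in the chart `i` -/
def BBs (T : Set XX) (i : Fin 3 × Bool) : Set ((Fin 4 → ℂ) × ℂ) := {e | chi i e ∈ T}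

private theorem GDat_comp {X Y Z : Type} [TopologicalSpace X] [CxSpace X] [TopologicalSpace Y]
    [CxSpace Y] [TopologicalSpace Z] [CxSpace Z] {g : Y → Z} {f : X → Y} (hg : IsHolMap g)
    (hf : IsHolMap f) : IsHolMap (fun x => g (f x)) :=
  ⟨hg.1.comp hf.1, fun x F hF => hf.2 x (F ∘ g) (hg.2 (f x) F hF)⟩

private theorem GDat_prodMk {X Y Y' : Type} [TopologicalSpace X] [CxSpace X] [TopologicalSpace Y]
    [CxSpace Y] [TopologicalSpace Y'] [CxSpace Y'] {f : X → Y} {f' : X → Y'} (hf : IsHolMap f)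
    (hf' : IsHolMap f') : IsHolMap (fun x => (f x, f' x)) := by
  refine ⟨hf.1.prodMk hf'.1, fun x F0 hF0 => ?_⟩
  obtain ⟨n, m, a, b, F, ha, hb, hF, hev⟩ := hF0
  have hc : ∀ k : Fin (n + m), hol x
      (Fin.addCases (motive := fun _ => X → ℂ) (fun i y => a i (f y)) (fun j y => b j (f' y)) k) := by
    intro k
    refine Fin.addCases (fun i => ?_) (fun j => ?_) k
    · rw [Fin.addCases_left]
      exact hf.2 x (a i) (ha i)
    · rw [Fin.addCases_right]
      exact hf'.2 x (b j) (hb j)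
  have hF2 : HolAt (fun v : Fin (n + m) → ℂ =>
      F ((fun i => v (Fin.castAdd m i)), (fun j => v (Fin.natAdd n j))))
      (fun k => Fin.addCases (motive := fun _ => X → ℂ) (fun i y => a i (f y))
        (fun j y => b j (f' y)) k x) := by
    refine HolAt.comp (F := F) (f := fun v : Fin (n + m) → ℂ =>
      (((fun i => v (Fin.castAdd m i)), (fun j => v (Fin.natAdd n j))) :
        (Fin n → ℂ) × (Fin m → ℂ))) ?_ ?_
    · simp only [Fin.addCases_left, Fin.addCases_right]
      exact hF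
    · exact Eventually.of_forall fun v => by fun_prop
  have h1 := hol_comp hc hF2
  refine hol_congr h1 ?_
  have hk : ContinuousAt (fun y => (f y, f' y)) x := (hf.1.prodMk hf'.1).continuousAt
  filter_upwards [hk.eventually hev] with y hy
  simp only [Fin.addCases_left, Fin.addCases_right]
  exact hy.symm

private theorem GDat_circle : PreconnectedSpace UnitAddCircle := by
  have h : Function.Surjective (fun x : ℝ => (x : UnitAddCircle)) := by
    intro q
    obtain ⟨x, hx⟩ := QuotientAddGroup.mk_surjective q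
    exact ⟨x, hx⟩
  have hc : Continuous (fun x : ℝ => (x : UnitAddCircle)) := AddCircle.continuous_mk' 1
  have h2 : ConnectedSpace UnitAddCircle := Function.Surjective.connectedSpace h hc
  infer_instance

/-- the elliptic curve through `p` -/
private def GDat_fib (p : XX) (q : El) : XX := ⟨(p.1.1, q), p.2⟩

private theorem GDat_fib_cont (p : XX) : Continuous (GDat_fib p) :=
  (continuous_const.prodMk continuous_id).subtype_mk _

/-- the map from pairs to the fibre product -/
private def GDat_m (N : ℕ) (q : XX × PN N) : XX × (Bs × PN N) := (q.1, (gX q.1, q.2))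

private theorem GDat_m_hol (N : ℕ) : IsHolMap (GDat_m N) :=
  GDat_prodMk isHolMap_fst (GDat_prodMk (GDat_comp gX_hol isHolMap_fst) isHolMap_snd)

theorem extract {U : Set Bs} (hU : IsOpen U) (h0 : zB ∈ U) (h : MoishezonOver gX U) :
    ∃ (X₁ : Set XX) (N : ℕ) (Yg : Set (XX × PN N)) (T : Set XX) (phi : XX → PN N),
      GDat X₁ Yg T phi := by
  have hO : IsOpen (gX ⁻¹' U) := hU.preimage gX_hol.1
  obtain ⟨x0, hx0⟩ : (gX ⁻¹' {zB}).Nonempty := by
    rw [fib_zero]
    obtain ⟨x, hx⟩ := Fz_nonempty 0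
    exact ⟨x, Or.inl (Or.inl hx)⟩
  have hfib : gX ⁻¹' {zB} ⊆ gX ⁻¹' U := by
    intro x hx
    have hx' : gX x = zB := hx
    show gX x ∈ U
    rw [hx']
    exact h0
  have hx0O : x0 ∈ gX ⁻¹' U := hfib hx0
  have hsub := connectedComponentIn_subset (gX ⁻¹' U) x0
  have hX1o : IsOpen (connectedComponentIn (gX ⁻¹' U) x0) := (comp_open hO x0).1
  obtain ⟨N, Xp, Y, hXp, hY, hYs, hB1, hB2⟩ := h _ (comp_irr hO hx0O)
  obtain ⟨hm1, hp1, T, hTX, hTan, hTd, hYd, rho, hr1, hr2, hr3, hr4⟩ := hB1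
  obtain ⟨hm2, hp2, T', hTX', hTan', hTd', hYd', rho', hr1', hr2', hr3', hr4'⟩ := hB2
  have hk : Continuous (fun y : XX × (Bs × PN N) => ((y.1, y.2.2) : XX × PN N)) :=
    continuous_fst.prodMk (continuous_snd.comp continuous_snd)
  have hrho : ∀ x ∈ connectedComponentIn (gX ⁻¹' U) x0 \ T,
      rho x = (x, (gX x, (rho x).2.2)) := by
    intro x hx
    have h1 : (rho x).1 = x := hr2 x hx
    have h2 : (rho x).2.1 = gX x := by
      rw [(hYs _ (hr1 hx)).2.2, h1]
    exact Prod.ext h1 (Prod.ext h2 rfl)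
  refine ⟨connectedComponentIn (gX ⁻¹' U) x0, N, {q | GDat_m N q ∈ Y}, T,
    fun x => (rho x).2.2, ?_⟩
  constructor
  · exact hX1o
  · intro p hp p' hpp
    have := GDat_circle
    have hpre : IsPreconnected (range (GDat_fib p)) := isPreconnected_range (GDat_fib_cont p)
    have hmem : p ∈ range (GDat_fib p) := ⟨p.1.2, rfl⟩
    have hsubO : range (GDat_fib p) ⊆ gX ⁻¹' U := by
      rintro _ ⟨q, rfl⟩
      have h2 : gX p ∈ U := hsub hp
      exact h2
    have h1 : range (GDat_fib p) ⊆ connectedComponentIn (gX ⁻¹' U) x0 := by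
      rw [connectedComponentIn_eq hp]
      exact hpre.subset_connectedComponentIn hmem hsubO
    refine h1 ⟨p'.1.2, ?_⟩
    exact Subtype.ext (Prod.ext hpp.symm rfl)
  · exact isPreconnected_connectedComponentIn
  · exact fib_zero_preconn.subset_connectedComponentIn hx0 hfib
  · refine ⟨fun q hq => ⟨(hYs _ hq).1, mem_univ _⟩, ?_⟩
    rintro ⟨x, l⟩ ⟨hx, -⟩
    obtain ⟨m, G, hG, hev⟩ := hY.2 (GDat_m N (x, l)) ⟨hsub hx, hsub hx, mem_univ _⟩
    refine ⟨m, fun i => G i ∘ GDat_m N, fun i => (GDat_m_hol N).2 (x, l) (G i) (hG i), ?_⟩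
    have hc : ContinuousAt (GDat_m N) (x, l) := (GDat_m_hol N).1.continuousAt
    exact hc.eventually hev
  · exact ⟨hTX, fun x hx => hTan.2 x (hsub hx)⟩
  · exact hTd
  · intro x hx l
    constructor
    · intro hl
      have h1 := hr3 (GDat_m N (x, l)) hl hx.2
      have h2 : rho x = (x, (gX x, l)) := h1
      rw [h2]
    · rintro rfl
      show (x, (gX x, (rho x).2.2)) ∈ Y
      rw [← hrho x hx]
      exact hr1 hx
  · intro x hx
    have h1 : ContinuousAt rho x := (hr4 x hx).1.continuousAt (hX1o.mem_nhds hx.1)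
    exact ContinuousAt.comp (g := fun y : XX × (Bs × PN N) => y.2.2)
      (continuous_snd.comp continuous_snd).continuousAt h1
  · intro x hx F hF
    have h1 : hol (rho x) (fun y : XX × (Bs × PN N) => F y.2.2) := by
      have h2 : IsHolMap (fun y : XX × (Bs × PN N) => y.2.2) :=
        GDat_comp isHolMap_snd isHolMap_snd
      exact h2.2 (rho x) F hF
    obtain ⟨F', hF', hev⟩ := (hr4 x hx).2 _ h1
    refine hol_congr hF' ?_
    rw [hX1o.nhdsWithin_eq hx.1] at hev
    filter_upwards [hev] with y hy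
    exact hy.symm
  · intro q hq
    have h1 : GDat_m N q ∈ closure (Y \ Prod.fst ⁻¹' T) := hYd hq
    have h2 := image_closure_subset_closure_image hk (mem_image_of_mem _ h1)
    refine closure_mono ?_ h2
    rintro _ ⟨y, ⟨hyY, hyT⟩, rfl⟩
    refine ⟨?_, hyT⟩
    show (y.1, (gX y.1, y.2.2)) ∈ Y
    rw [← (hYs y hyY).2.2]
    exact hyY
  · intro q hq
    have h1 : GDat_m N q ∈ closure (Y \ Prod.snd ⁻¹' T') := hYd' hq
    have h2 := image_closure_subset_closure_image hk (mem_image_of_mem _ h1)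
    refine closure_mono ?_ h2
    rintro _ ⟨y, ⟨hyY, hyT⟩, rfl⟩
    refine ⟨?_, ?_⟩
    · show (y.1, (gX y.1, y.2.2)) ∈ Y
      rw [← (hYs y hyY).2.2]
      exact hyY
    · intro q' hq' hg hq2
      have hy2 : y.2 = (gX q'.1, q'.2) := by
        refine Prod.ext ?_ hq2.symm
        rw [(hYs y hyY).2.2]
        exact hg.symm
      have h3 : rho' y.2 = y := hr3' y hyY hyT
      have h4 : rho' (gX q'.1, q'.2) = GDat_m N q' := by
        refine hr3' (GDat_m N q') hq' ?_
        show (gX q'.1, q'.2) ∉ T'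
        rw [← hy2]
        exact hyT
      have h5 : GDat_m N q' = y := by
        rw [← h4, ← hy2, h3]
      show q' = (y.1, y.2.2)
      rw [← h5]
      rfl

variable {X₁ : Set XX} {N : ℕ} {Yg : Set (XX × PN N)} {T : Set XX} {phi : XX → PN N}

theorem GDat.VV_all (h : GDat X₁ Yg T phi) {i : Fin 3 × Bool} {c : Fin 4 → ℂ} (hc : c ∈ VV X₁ i)
    (z : ℂ) : (c, z) ∈ DD i ∧ chi i (c, z) ∈ X₁ := by
  obtain ⟨h1, h2⟩ := hc
  refine ⟨h1, ?_⟩
  refine h.sat _ h2 _ ?_
  rw [chi_val h1.1 z, chi_val h1.1 0]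

theorem GDat.VV_open (h : GDat X₁ Yg T phi) (i : Fin 3 × Bool) : IsOpen (VV X₁ i) := by
  have h1 : IsOpen (DD i ∩ chi i ⁻¹' X₁) := by
    rw [isOpen_iff_mem_nhds]
    rintro e ⟨he, heX⟩
    exact Filter.inter_mem ((chartSys.isOpen i).mem_nhds he)
      (chartSys.cont i e he (h.isOpen.mem_nhds heX))
  have h2 : Continuous (fun c : Fin 4 → ℂ => ((c, (0 : ℂ)) : (Fin 4 → ℂ) × ℂ)) :=
    continuous_id.prodMk continuous_const
  exact h1.preimage h2

end Pool.Agent.Moi
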