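import Pool.Agent.H.MP_795b03_ag.LocE

/-! JOB LocMain: the main local theorem, and the case of degree zero.

Proof of LD.main. For u ∈ V choose d_u, s_u by LD.extend; db u := d_u, sb u := pr (s_u u) (u ∉ V: anything).
Let u ∈ V.  For u' near u (u' ∈ V): near u' both pairs (d_u,s_u), (d_{u'}, s_{u'}) describe (dg, sg) on Gd, which is dense near u' (Gd_dense), so d_{u'} = d_u, and
pr (s_u u') = pr (s_{u'} u') = sb u' by continuity of s_u, s_{u'}, pr and the Hausdorff property.  So sb = pr ∘ s_u and db = d_u near u;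
on Gd near u: dg u' = d_u = db u', sg u' = pr (s_u u') = sb u'.
Proof of LD.dg_zero.  dg Y i0 u = 0 and finite support (mE_finite) give mE = 0, so (u,x) ∉ Hs Y i0 for all x (mE_ne_zero_iff).  Since u ∉ Ts Y every (u,x) has a lift phi, phi(u,x) i0 ≠ 0; for every j the function
f_j(x) = w j / w i0, w any element of the fibre over (u,x), is well defined, equals phi_j/phi_i0 near x, so is entire; it is periodic (h.per): f_j (x + m + n I) = f_j x, so bounded (compact square)
and constant by Liouville (Differentiable.apply_eq_apply_of_bounded).  So for w in the fibre over (u,x) and w' in the fibre over (u,x'), w'/w' i0 = w/w i0, i.e. w is a multiple of w', and (u,x',w) ∈ Y by h.cone.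
-/

set_option autoImplicit false

open Topology Filter Set Complex Metric

namespace Pool.Agent.Moi

variable {E : Type} [NormedAddCommGroup E] [NormedSpace ℂ E] [FiniteDimensional ℂ E] {N : ℕ}
  {V : Set E} {Y : Set (E × ℂ × (Fin (N + 1) → ℂ))} {B : Set (E × ℂ)} {i0 : Fin (N + 1)}

theorem LD.main (h : LD V Y B i0) : ∃ (db : E → ℕ) (sb : E → El), ∀ u ∈ V,
    (∀ᶠ u' in 𝓝 u, db u' = db u) ∧
    (∀ᶠ u' in 𝓝 u, u' ∈ Gd V Y i0 → dg Y i0 u' = db u' ∧ sg Y i0 u' = sb u') ∧
    ∃ s : E → ℂ, HolAt s u ∧ ∀ᶠ u' in 𝓝 u, sb u' = pr (s u') := by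
  classical
  have hex : ∀ u, ∃ (d : ℕ) (s : E → ℂ), u ∈ V → HolAt s u ∧
      ∀ᶠ u' in 𝓝 u, u' ∈ Gd V Y i0 → dg Y i0 u' = d ∧ sg Y i0 u' = pr (s u') := by
    intro u
    by_cases hu : u ∈ V
    · obtain ⟨d, s, h1, h2⟩ := h.extend hu
      exact ⟨d, s, fun _ => ⟨h1, h2⟩⟩
    · exact ⟨0, fun _ => 0, fun h => absurd h hu⟩
  choose d s hds using hex
  have key : ∀ u ∈ V, ∀ᶠ u' in 𝓝 u, d u' = d u ∧ pr (s u' u') = pr (s u u') := by
    intro u hu
    obtain ⟨hs, hev⟩ := hds u hu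
    filter_upwards [h.isOpen.mem_nhds hu, eventually_eventually_nhds.2 hev, hs.eventually]
      with u' hu' h1 h2
    obtain ⟨hs', hev'⟩ := hds u' hu'
    have hcl : u' ∈ closure (Gd V Y i0) := h.Gd_dense hu'
    constructor
    · have hfreq : ∃ᶠ w in 𝓝 u', w ∈ Gd V Y i0 := mem_closure_iff_frequently.1 hcl
      obtain ⟨w, hw, h3, h4⟩ := (hfreq.and_eventually (h1.and hev')).exists
      rw [← (h4 hw).1, (h3 hw).1]
    · have hne : (𝓝[Gd V Y i0] u').NeBot := mem_closure_iff_nhdsWithin_neBot.1 hcl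
      have t1 : Tendsto (fun w => pr (s u w)) (𝓝[Gd V Y i0] u') (𝓝 (pr (s u u'))) :=
        ((continuous_pr.tendsto _).comp h2.continuousAt.tendsto).mono_left nhdsWithin_le_nhds
      have t2 : Tendsto (fun w => pr (s u' w)) (𝓝[Gd V Y i0] u') (𝓝 (pr (s u' u'))) :=
        ((continuous_pr.tendsto _).comp hs'.continuousAt.tendsto).mono_left nhdsWithin_le_nhds
      refine tendsto_nhds_unique (t2.congr' ?_) t1
      filter_upwards [self_mem_nhdsWithin, nhdsWithin_le_nhds h1, nhdsWithin_le_nhds hev']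
        with w hw h3 h4
      rw [← (h4 hw).2, (h3 hw).2]
  refine ⟨d, fun u => pr (s u u), fun u hu => ⟨?_, ?_, s u, (hds u hu).1, ?_⟩⟩
  · filter_upwards [key u hu] with u' h1
    exact h1.1
  · filter_upwards [key u hu, (hds u hu).2] with u' h1 h2 h3
    rw [h1.1, h1.2]
    exact h2 h3
  · filter_upwards [key u hu] with u' h1
    exact h1.2

theorem LD.dg_zero (h : LD V Y B i0) {u : E} (hu : u ∈ Gd V Y i0) (h0 : dg Y i0 u = 0)
    (x x' : ℂ) (w : Fin (N + 1) → ℂ) (hw : w ≠ 0) (hY : (u, x, w) ∈ Y) : (u, x', w) ∈ Y := by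
  have huV : u ∈ V := hu.1
  have hmE : ∀ q, mE Y i0 u q = 0 := by
    have hfin := h.mE_finite hu
    have h1 : dg Y i0 u = ∑ q ∈ hfin.toFinset, mE Y i0 u q :=
      finsum_eq_sum_of_support_subset _ (by
        intro q hq
        rw [Set.Finite.coe_toFinset]
        exact hq)
    rw [h0] at h1
    intro q
    by_contra hq
    exact hq (Finset.sum_eq_zero_iff.1 h1.symm q (by rw [Set.Finite.mem_toFinset]; exact hq))
  have hHs : ∀ z, (u, z) ∉ Hs Y i0 := fun z hz => (h.mE_ne_zero_iff hu z).2 hz (hmE _)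
  have hlift : ∀ z, IsLift Y (u, z) := fun z => (h.isLift_iff huV z).2 ⟨i0, hHs z⟩
  have hfib : ∀ z, ∃ v, v ≠ 0 ∧ (u, z, v) ∈ Y := fun z => h.fib_nonempty huV z
  choose W hW0 hWY using hfib
  have hi0 : ∀ z v, v ≠ 0 → (u, z, v) ∈ Y → v i0 ≠ 0 := fun z v hv hvY hv0 =>
    hHs z ⟨v, hv, hv0, hvY⟩
  set f : ℂ → Fin (N + 1) → ℂ := fun z => (W z i0)⁻¹ • W z with hf
  -- the fibres are lines
  have hline : ∀ z v v', v ≠ 0 → (u, z, v) ∈ Y → v' ≠ 0 → (u, z, v') ∈ Y →
      (v i0)⁻¹ • v = (v' i0)⁻¹ • v' := by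
    intro z v v' hv hvY hv' hvY'
    obtain ⟨phi, -, -, hphi⟩ := hlift z
    have h1 := hphi.self_of_nhds
    obtain ⟨c, hc, hcv⟩ := (h1 v hv).1 hvY
    obtain ⟨c', hc', hcv'⟩ := (h1 v' hv').1 hvY'
    have h2 := hi0 z v hv hvY
    have h3 := hi0 z v' hv' hvY'
    rw [hcv, hcv'] at *
    simp only [Pi.smul_apply, smul_eq_mul] at h2 h3 ⊢
    rw [smul_smul, smul_smul, mul_inv, mul_inv]
    have h4 : phi (u, z) i0 ≠ 0 := right_ne_zero_of_mul h2
    congr 1
    field_simp
  have hdiff : Differentiable ℂ f := by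
    intro z
    obtain ⟨phi, hphih, hphi0, hphi⟩ := hlift z
    have hc : ContinuousAt (fun t : ℂ => (u, t)) z := by fun_prop
    have hphi0' : ∀ᶠ t in 𝓝 z, phi (u, t) ≠ 0 := by
      have h1 : ContinuousAt (fun t : ℂ => phi (u, t)) z := by
        rw [continuousAt_pi]
        intro i
        exact ContinuousAt.comp (f := fun t : ℂ => (u, t)) (g := fun q => phi q i)
          (hphih i).continuousAt hc
      exact h1.eventually_ne hphi0
    have hev : ∀ᶠ t in 𝓝 z, f t = (phi (u, t) i0)⁻¹ • phi (u, t) := by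
      filter_upwards [hc.eventually hphi, hphi0'] with t ht ht0
      exact hline t (W t) (phi (u, t)) (hW0 t) (hWY t) ht0
        ((ht _ ht0).2 ⟨1, one_ne_zero, (one_smul _ _).symm⟩)
    have hd : ∀ i, DifferentiableAt ℂ (fun t : ℂ => phi (u, t) i) z := by
      intro i
      have h1 : DifferentiableAt ℂ (fun t : ℂ => (u, t)) z := by fun_prop
      exact DifferentiableAt.comp (f := fun t : ℂ => (u, t)) (g := fun q => phi q i) z
        (hphih i).differentiableAt h1
    have hz : phi (u, z) i0 ≠ 0 := by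
      refine hi0 z _ hphi0 ((hphi.self_of_nhds _ hphi0).2 ⟨1, one_ne_zero, (one_smul _ _).symm⟩)
    have h1 : DifferentiableAt ℂ (fun t : ℂ => (phi (u, t) i0)⁻¹ • phi (u, t)) z :=
      ((hd i0).inv hz).smul (differentiableAt_pi.2 hd)
    exact h1.congr_of_eventuallyEq hev
  have hper : ∀ (z : ℂ) (m n : ℤ), f (z + (m : ℂ) + (n : ℂ) * I) = f z := by
    intro z m n
    exact hline z _ _ (hW0 _) ((h.per u huV z _ (hW0 _) m n).1 (hWY _)) (hW0 z) (hWY z)
  have hbdd : Bornology.IsBounded (range f) := by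
    have hcomp : IsCompact (Icc (0 : ℝ) 1 ×ℂ Icc (0 : ℝ) 1) := isCompact_Icc.reProdIm isCompact_Icc
    refine (hcomp.image hdiff.continuous).isBounded.subset ?_
    rintro _ ⟨z, rfl⟩
    refine ⟨z - (⌊z.re⌋ : ℂ) - (⌊z.im⌋ : ℂ) * I, ?_, ?_⟩
    · rw [Complex.mem_reProdIm]
      constructor
      · simp only [sub_re, intCast_re, mul_re, I_re, mul_zero, intCast_im, I_im, mul_one, sub_zero]
        exact ⟨by linarith [Int.floor_le z.re], by linarith [Int.lt_floor_add_one z.re]⟩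
      · simp only [sub_im, intCast_im, mul_im, I_re, mul_zero, intCast_re, I_im, mul_one, sub_zero,
          add_zero]
        exact ⟨by linarith [Int.floor_le z.im], by linarith [Int.lt_floor_add_one z.im]⟩
    · have h1 := hper (z - (⌊z.re⌋ : ℂ) - (⌊z.im⌋ : ℂ) * I) ⌊z.re⌋ ⌊z.im⌋
      rw [← h1]
      congr 1
      ring
  have hconst : f x = f x' := hdiff.apply_eq_apply_of_bounded hbdd x x'
  have h1 : (w i0)⁻¹ • w = f x := hline x w (W x) hw hY (hW0 x) (hWY x)
  have hwi := hi0 x w hw hY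
  have hWi := hi0 x' (W x') (hW0 x') (hWY x')
  have h2 : w = (w i0 * (W x' i0)⁻¹) • W x' := by
    have h3 : w = w i0 • ((w i0)⁻¹ • w) := by
      rw [smul_smul, mul_inv_cancel₀ hwi, one_smul]
    calc w = w i0 • ((w i0)⁻¹ • w) := h3
      _ = w i0 • f x' := by rw [h1, hconst]
      _ = (w i0 * (W x' i0)⁻¹) • W x' := by rw [hf, smul_smul]
  rw [h2]
  exact (h.cone u huV x' (W x') (hW0 x') _ (mul_ne_zero hwi (inv_ne_zero hWi))).2 (hWY x')

end Pool.Agent.Moi
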