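import Pool.Agent.H.MP_795b03_ag.GLift
import Pool.Agent.H.MP_795b03_ag.LocMain

/-! JOB GLD: the local data LD in the charts.

Let c ∈ VV X1 i; then (c,z) ∈ DD i and chi i (c,z) ∈ X1 for all z (VV_all); x = chi i (c,z).
isOpen: VV_open.
an: the map kap (c',z',w') = (chi i (c',z'), toP w') is HolTo at (c,z,w), w ≠ 0 (HolTo.prodMk, holTo_chi and HolTo.comp_diff with the linear projections, holTo_toP); IsAnalyticIn.pull with h.an; near (c,z,w) the conditions w' ≠ 0 and (c',z') ∈ DD i hold, so YY agrees with the pull back near the point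
(LocAn only depends on the set near the point: ∀ᶠ).
cone: toP (a • w) = toP w, a • w ≠ 0.  per: chi i (c, z + m + n I) = chi i (c, z) (chi_val, pr_eq_iff) and DD i does not restrict z.
anB: IsAnalyticIn.pull with h.anT.
denseB: a neighbourhood W of (c,z): chi i '' W is a neighbourhood of x (chartSys.opn) so contains a point of X1 \ T (h.dense).
lift: chi i (c,z) ∈ X1 \ T; g from liftphi; phi' q = fun k => g k (chi i q): HolAt by hol_chi and hol_eventually...; near (c,z): chi i q ∈ X1 \ T (X1 open, T relatively closed: IsAnalyticIn.compl_nhds), and for w ≠ 0: (q.1,q.2,w) ∈ YY iff (chi i q, toP w) ∈ Yg iff toP w = phi (chi i q) = toP (phi' q) (h.single)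
iff w = a • phi' q with a ≠ 0 (toP_eq_iff).
clos: (x, toP w) ∈ Yg, so by h.clos there are points (x', l') of Yg near it with x' ∉ T.  Given neighbourhoods W of (c,z) and W' of w: chi i '' (W ∩ DD i) is a neighbourhood of x, toP '' (W' \ {0}) is a neighbourhood of toP w (toP_nhds), so x' = chi i e', l' = toP w' with e' ∈ W ∩ DD i, w' ∈ W', w' ≠ 0.
nd: by hi0 there are points y = chi i e' near x (e' near (c,z), e' ∈ DD i) with y ∈ X1, y ∉ T and all representatives of phi y have nonzero i0 coordinate; e' ∉ Hs: if w ≠ 0, w i0 = 0 and (e'.1, e'.2, w) ∈ YY then toP w = phi y by h.single, contradiction.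
-/

set_option autoImplicit false

open Topology Filter Set Complex

namespace Pool.Agent.Moi

variable {X₁ : Set XX} {N : ℕ} {Yg : Set (XX × PN N)} {T : Set XX} {phi : XX → PN N}

private theorem GLD_kap {N : ℕ} {i : Fin 3 × Bool} {c : Fin 4 → ℂ} {z : ℂ}
    {w : Fin (N + 1) → ℂ} (he : (c, z) ∈ DD i) (hw : w ≠ 0) :
    HolTo (fun q : (Fin 4 → ℂ) × ℂ × (Fin (N + 1) → ℂ) =>
      (chi i (q.1, q.2.1), toP (N := N) q.2.2)) (c, z, w) := by
  refine HolTo.prodMk ?_ ?_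
  · exact HolTo.comp_diff (kap := chi i)
      (f := fun q : (Fin 4 → ℂ) × ℂ × (Fin (N + 1) → ℂ) => (q.1, q.2.1)) (holTo_chi he)
      (Eventually.of_forall fun _ => by fun_prop)
  · exact HolTo.comp_diff (kap := toP (N := N))
      (f := fun q : (Fin 4 → ℂ) × ℂ × (Fin (N + 1) → ℂ) => q.2.2) (holTo_toP hw)
      (Eventually.of_forall fun _ => by fun_prop)

private theorem GLD_per {i : Fin 3 × Bool} {c : Fin 4 → ℂ} (hc : c ∈ Dk i.1) (z : ℂ) (m n : ℤ) :
    chi i (c, z + (m : ℂ) + (n : ℂ) * I) = chi i (c, z) := by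
  rw [ChartC_chi hc, ChartC_chi hc]
  refine Subtype.ext (Prod.ext rfl ?_)
  show pr (z + (m : ℂ) + (n : ℂ) * I - (tht i.2 (vk i.1 c) * Real.sqrt 2 : ℝ)) =
    pr (z - (tht i.2 (vk i.1 c) * Real.sqrt 2 : ℝ))
  rw [pr_eq_iff]
  exact ⟨m, n, by ring⟩

private theorem GLD_DD {i : Fin 3 × Bool} {c : Fin 4 → ℂ} (z z' : ℂ) :
    (c, z) ∈ DD i ↔ (c, z') ∈ DD i := Iff.rfl

private theorem GLD_nhds {i : Fin 3 × Bool} {e : (Fin 4 → ℂ) × ℂ} (he : e ∈ DD i)
    {W : Set ((Fin 4 → ℂ) × ℂ)} (hW : W ∈ 𝓝 e) : chi i '' (W ∩ DD i) ∈ 𝓝 (chi i e) :=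
  chartSys.opn i e he _ (Filter.inter_mem hW ((chartSys.isOpen i).mem_nhds he))

theorem GDat.ld (h : GDat X₁ Yg T phi) {i0 : Fin (N + 1)} (hi0 : NonDeg X₁ T phi i0)
    (i : Fin 3 × Bool) : LD (VV X₁ i) (YY Yg i) (BBs T i) i0 where
  isOpen := h.VV_open i
  an := by
    intro u hu x w hw
    obtain ⟨h1, h2⟩ := h.VV_all hu x
    have h3 : LocAn {q : (Fin 4 → ℂ) × ℂ × (Fin (N + 1) → ℂ) |
        (chi i (q.1, q.2.1), toP (N := N) q.2.2) ∈ Yg} (u, x, w) :=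
      IsAnalyticIn.pull (kap := fun q : (Fin 4 → ℂ) × ℂ × (Fin (N + 1) → ℂ) =>
        (chi i (q.1, q.2.1), toP (N := N) q.2.2)) h.an ⟨h2, mem_univ _⟩ (GLD_kap h1 hw)
    refine h3.congr ?_
    have c1 : ContinuousAt (fun q : (Fin 4 → ℂ) × ℂ × (Fin (N + 1) → ℂ) => q.2.2) (u, x, w) := by
      fun_prop
    have c2 : ContinuousAt (fun q : (Fin 4 → ℂ) × ℂ × (Fin (N + 1) → ℂ) => (q.1, q.2.1))
        (u, x, w) := by fun_prop
    filter_upwards [c1.eventually_ne hw, c2.eventually ((chartSys.isOpen i).mem_nhds h1)]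
      with q q1 q2
    exact ⟨fun hq => ⟨q1, q2, hq⟩, fun hq => hq.2.2⟩
  cone := by
    intro u hu x w hw c hc
    have h1 : toP (N := N) (c • w) = toP w := toP_smul hw hc
    constructor
    · rintro ⟨_, h3, h4⟩
      refine ⟨hw, h3, ?_⟩
      simp only at h4 ⊢
      rwa [h1] at h4
    · rintro ⟨_, h3, h4⟩
      refine ⟨smul_ne_zero hc hw, h3, ?_⟩
      simp only at h4 ⊢
      rwa [h1]
  per := by
    intro u hu x w hw m n
    have h1 := GLD_per (h.VV_all hu x).1.1 x m n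
    constructor
    · rintro ⟨_, h3, h4⟩
      refine ⟨hw, h3, ?_⟩
      simp only at h4 ⊢
      rwa [h1] at h4
    · rintro ⟨_, h3, h4⟩
      refine ⟨hw, h3, ?_⟩
      simp only at h4 ⊢
      rwa [h1]
  anB := by
    intro u hu x
    obtain ⟨h1, h2⟩ := h.VV_all hu x
    exact IsAnalyticIn.pull h.anT h2 (holTo_chi h1)
  denseB := by
    intro u hu x
    obtain ⟨h1, h2⟩ := h.VV_all hu x
    rw [mem_closure_iff_nhds]
    intro W hW
    have h3 := h.dense h2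
    rw [mem_closure_iff_nhds] at h3
    obtain ⟨_, ⟨e', ⟨he', _⟩, rfl⟩, _, hT⟩ := h3 _ (GLD_nhds h1 hW)
    exact ⟨e', he', hT⟩
  lift := by
    intro u hu x hB
    obtain ⟨h1, h2⟩ := h.VV_all hu x
    obtain ⟨g, g1, g2, g3⟩ := h.liftphi (x := chi i (u, x)) ⟨h2, hB⟩
    have hcont := chartSys.cont i (u, x) h1
    refine ⟨fun q k => g k (chi i q), fun k => (hol_chi h1 (g k)).1 (g1 k), g2, ?_⟩
    filter_upwards [(chartSys.isOpen i).mem_nhds h1, hcont.eventually (h.isOpen.mem_nhds h2),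
      hcont.eventually (h.anT.compl_nhds h2 hB), hcont.eventually g3] with q q1 q2 q3 q4 w hw
    obtain ⟨q5, q6⟩ := q4
    have h4 : (q.1, q.2, w) ∈ YY Yg i ↔ toP w = phi (chi i q) := by
      rw [← h.single (chi i q) ⟨q2, q3⟩]
      exact ⟨fun hq => hq.2.2, fun hq => ⟨hw, q1, hq⟩⟩
    rw [h4, ← q6, ← toP_eq_iff q5 hw]
    exact eq_comm
  clos := by
    intro u hu x w hw hY
    obtain ⟨h1, h2⟩ := h.VV_all hu x
    rw [mem_closure_iff_nhds]
    intro O hO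
    have c1 : ContinuousAt (fun p : ((Fin 4 → ℂ) × ℂ) × (Fin (N + 1) → ℂ) => (p.1.1, p.1.2, p.2))
        ((u, x), w) := by fun_prop
    obtain ⟨W, hW, W', hW', hsub⟩ := mem_nhds_prod_iff.1 (c1 hO)
    have h3 := h.clos hY.2.2
    rw [mem_closure_iff_nhds] at h3
    have h4 : (chi i '' (W ∩ DD i)) ×ˢ (toP (N := N) '' (W' ∩ {w | w ≠ 0})) ∈
        𝓝 ((chi i (u, x), toP w) : XX × PN N) :=
      prod_mem_nhds (GLD_nhds h1 hW) (toP_nhds hw (Filter.inter_mem hW' (isOpen_ne.mem_nhds hw)))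
    obtain ⟨⟨_, _⟩, ⟨⟨e', ⟨he', heD⟩, rfl⟩, ⟨w', ⟨hw', hw0⟩, rfl⟩⟩, hq, hT⟩ := h3 _ h4
    refine ⟨(e'.1, e'.2, w'), ?_, ⟨hw0, heD, hq⟩, hT⟩
    exact hsub (show (e', w') ∈ W ×ˢ W' from ⟨he', hw'⟩)
  nd := by
    intro u hu x
    obtain ⟨h1, h2⟩ := h.VV_all hu x
    rw [mem_closure_iff_nhds]
    intro W hW
    have h3 := hi0 _ h2
    rw [mem_closure_iff_nhds] at h3
    obtain ⟨_, ⟨e', ⟨he', heD⟩, rfl⟩, hX, hT, hw⟩ := h3 _ (GLD_nhds h1 hW)
    refine ⟨e', he', ?_⟩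
    rintro ⟨w, hw0, hwi, hY⟩
    have h4 : toP w = phi (chi i e') := (h.single (chi i e') ⟨hX, hT⟩ (toP w)).1 hY.2.2
    exact hw w hw0 h4 hwi

end Pool.Agent.Moi
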