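import Pool.Agent.H.MP_795b03_ag.GDat
import Pool.Agent.H.MP_795b03_ag.Compl

/-! JOB GLift: local lifts of phi, and a nondegenerate hyperplane.

liftphi: phi x = toP v, v ≠ 0 (every point of PN N is of this form), v k ≠ 0.  hol_coord (with i = k) gives for every j a function F j, hol at toP v = phi x, with F j (toP w) = w j / w k whenever w k ≠ 0.  g j = F j ∘ phi: hol at x by h.holphi.
The set {toP w | w ≠ 0, w k ≠ 0} is a neighbourhood of phi x (toP_nhds or: image of an open set under the open quotient map), so for y near x phi y = toP w with w k ≠ 0 (h.cont), g j y = w j / w k, (g j y)_j = (w k)⁻¹ • w ≠ 0 and toP of it is phi y.  At y = x too.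
nd: For i0 put A = {x ∈ X1 | ∀ᶠ y in 𝓝 x, y ∉ T → hz y} where hz y means: ∀ w ≠ 0, toP w = phi y → w i0 = 0.  A is open in X1.  A is relatively closed in X1: let x ∈ X1 be a limit of points of A.  x = chi i e, e ∈ DD i (chartSys.surj).
Choose a ball b around e inside DD i with chi i '' b ⊆ X1.  B = {e' | chi i e' ∈ T} is LocAn at all points of b (IsAnalyticIn.pull, h.anT, holTo_chi), so b \ B is preconnected (convex_compl).  On b \ B consider the set P of points e' such that hz (chi i e'') for e'' near e'.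
P is open; it is relatively closed in b \ B: near a limit point e' ∈ b \ B use the lift g of liftphi at chi i e': the function e'' ↦ g i0 (chi i e'') is holomorphic near e' and its vanishing at e'' is equivalent to hz (chi i e''); it vanishes on a nonempty open subset of a small ball around e', hence on the ball
(hol_identity).  P is nonempty: chi i '' b is a neighbourhood of x so it contains a point x' of A, and near x' there is a point not in T (h.dense; A open, T relatively closed).  So P = b \ B, i.e. x ∈ A (chi i '' b is a neighbourhood of x).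
X1 is preconnected, so A is empty or all of X1 (h.conn; e.g. isPreconnected_iff_subset_of_disjoint or IsPreconnected.subset_left_of_subset_union).  If for every i0 A = X1: X1 \ T is nonempty (Fz_nonempty, fib_zero, h.fib0, h.dense); at a point y of it phi y = toP w with w ≠ 0 and w i0 = 0 for all i0: contradiction.
So for some i0, A is empty: for every x ∈ X1 there are frequently y near x (so y ∈ X1) with y ∉ T and not hz y: some w ≠ 0 with toP w = phi y and w i0 ≠ 0; all other representatives are multiples of w (toP_eq_iff), so all have nonzero i0 coordinate.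
-/

set_option autoImplicit false

open Topology Filter Set Complex

namespace Pool.Agent.Moi

variable {X₁ : Set XX} {N : ℕ} {Yg : Set (XX × PN N)} {T : Set XX} {phi : XX → PN N}

theorem GDat.liftphi (h : GDat X₁ Yg T phi) {x : XX} (hx : x ∈ X₁ \ T) :
    ∃ g : Fin (N + 1) → XX → ℂ, (∀ k, hol x (g k)) ∧ (fun k => g k x) ≠ 0 ∧
      ∀ᶠ y in 𝓝 x, (fun k => g k y) ≠ 0 ∧ toP (fun k => g k y) = phi y := by
  obtain ⟨v, hv, hvx⟩ := toP_surj (phi x)
  have hk0 : ∃ k, v k ≠ 0 := by
    by_contra hcon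
    push Not at hcon
    exact hv (funext hcon)
  obtain ⟨k, hk⟩ := hk0
  choose F hF hF' using fun j => hol_coord (N := N) hv hk j
  have hW : {w : Fin (N + 1) → ℂ | w k ≠ 0} ∈ 𝓝 v :=
    (isOpen_ne.preimage (continuous_apply k)).mem_nhds hk
  have hnb : toP (N := N) '' {w : Fin (N + 1) → ℂ | w k ≠ 0} ∈ 𝓝 (phi x) := by
    rw [← hvx]
    exact toP_nhds hv hW
  have hev : ∀ᶠ y in 𝓝 x, (fun j => F j (phi y)) ≠ 0 ∧ toP (fun j => F j (phi y)) = phi y := by
    filter_upwards [(h.cont x hx).eventually hnb] with y hy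
    obtain ⟨w, hw, hwy⟩ := hy
    have hw' : w k ≠ 0 := hw
    have hw0 : w ≠ 0 := by
      rintro rfl
      exact hw' rfl
    have h1 : (fun j => F j (phi y)) = (w k)⁻¹ • w := by
      funext j
      rw [← hwy, hF' j w hw']
      simp only [Pi.smul_apply, smul_eq_mul]
      rw [div_eq_inv_mul]
    rw [h1]
    refine ⟨smul_ne_zero (inv_ne_zero hw') hw0, ?_⟩
    rw [toP_smul hw0 (inv_ne_zero hw'), hwy]
  refine ⟨fun j y => F j (phi y), fun j => ?_, hev.self_of_nhds.1, hev⟩
  exact h.holphi x hx (F j) (hvx ▸ hF j)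

/-- the hyperplane `w_{i0} = 0` is nondegenerate -/
def NonDeg (X₁ : Set XX) {N : ℕ} (T : Set XX) (phi : XX → PN N) (i0 : Fin (N + 1)) : Prop :=
  ∀ x ∈ X₁, x ∈ closure {y | y ∈ X₁ ∧ y ∉ T ∧ ∀ w : Fin (N + 1) → ℂ, w ≠ 0 → toP w = phi y → w i0 ≠ 0}

/-- `phi y` lies in the hyperplane `w_{i0} = 0` -/
private def GLift_hz {N : ℕ} (phi : XX → PN N) (i0 : Fin (N + 1)) (y : XX) : Prop :=
  ∀ w : Fin (N + 1) → ℂ, w ≠ 0 → toP w = phi y → w i0 = 0

private theorem GLift_hz_iff {phi : XX → PN N} {i0 : Fin (N + 1)} {y : XX}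
    {w : Fin (N + 1) → ℂ} (hw : w ≠ 0) (hwy : toP w = phi y) :
    GLift_hz phi i0 y ↔ w i0 = 0 := by
  constructor
  · intro h
    exact h w hw hwy
  · intro h w' hw' hwy'
    obtain ⟨c, hc, hcw⟩ := (toP_eq_iff hw hw').1 (hwy.trans hwy'.symm)
    rw [hcw]
    simp only [Pi.smul_apply, smul_eq_mul, h, mul_zero]

private theorem GLift_key (h : GDat X₁ Yg T phi) (i0 : Fin (N + 1)) {x : XX} (hx : x ∈ X₁)
    (hf : ∃ᶠ y in 𝓝 x, ∀ᶠ y' in 𝓝 y, y' ∉ T → GLift_hz phi i0 y') :
    ∀ᶠ y in 𝓝 x, y ∉ T → GLift_hz phi i0 y := by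
  obtain ⟨i, e, he, rfl⟩ := chartSys.surj x
  have h1 : DD i ∩ chi i ⁻¹' X₁ ∈ 𝓝 e :=
    Filter.inter_mem ((chartSys.isOpen i).mem_nhds he)
      (chartSys.cont i e he (h.isOpen.mem_nhds hx))
  obtain ⟨r, hr, hb⟩ := Metric.mem_nhds_iff.1 h1
  set B : Set ((Fin 4 → ℂ) × ℂ) := {e' | chi i e' ∈ T} with hB
  have hconn : IsPreconnected (Metric.ball e r \ B) :=
    convex_compl Metric.isOpen_ball (convex_ball e r)
      fun e' he' => h.anT.pull (hb he').2 (holTo_chi (hb he').1)
  set P : Set ((Fin 4 → ℂ) × ℂ) := {e' | ∀ᶠ e'' in 𝓝 e', GLift_hz phi i0 (chi i e'')} with hP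
  have hPo : IsOpen P := isOpen_setOfPred_eventually_nhds
  have hPc : ∀ e' ∈ Metric.ball e r \ B, (∃ᶠ e'' in 𝓝 e', e'' ∈ P) → e' ∈ P := by
    intro e' he' hfr
    obtain ⟨g, hg, -, hgev⟩ := h.liftphi (x := chi i e') ⟨(hb he'.1).2, he'.2⟩
    have hg' : ∀ k, HolAt (fun z => g k (chi i z)) e' := fun k =>
      (hol_chi (hb he'.1).1 (g k)).1 (hg k)
    have hgev' : ∀ᶠ z in 𝓝 e', (fun k => g k (chi i z)) ≠ 0 ∧
        toP (fun k => g k (chi i z)) = phi (chi i z) :=
      (chartSys.cont i e' (hb he'.1).1).eventually hgev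
    obtain ⟨r', hr', hb'⟩ := Metric.eventually_nhds_iff_ball.1
      (hgev'.and (hg' i0).eventually)
    obtain ⟨e'', he''P, he''b⟩ := (hfr.and_eventually (Metric.ball_mem_nhds e' hr')).exists
    have h5 : ∀ᶠ z in 𝓝 e'', g i0 (chi i z) = 0 := by
      filter_upwards [he''P, Metric.isOpen_ball.mem_nhds he''b] with z hz hzb
      exact (GLift_hz_iff (hb' z hzb).1.1 (hb' z hzb).1.2).1 hz
    have h6 := hol_identity (F := fun z => g i0 (chi i z)) Metric.isOpen_ball (convex_ball e' r')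
      (fun w hw => (hb' w hw).2) he''b h5
    show ∀ᶠ z in 𝓝 e', GLift_hz phi i0 (chi i z)
    filter_upwards [Metric.ball_mem_nhds e' hr'] with z hz
    exact (GLift_hz_iff (hb' z hz).1.1 (hb' z hz).1.2).2 (h6 z hz)
  have hPne : ((Metric.ball e r \ B) ∩ P).Nonempty := by
    have h7 := chartSys.opn i e he _ (Metric.ball_mem_nhds e hr)
    obtain ⟨y, hy, z, hz, rfl⟩ := (hf.and_eventually h7).exists
    have hzX : chi i z ∈ X₁ := (hb hz).2
    have h8 := mem_closure_iff_nhds.1 (h.dense hzX) _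
      (Filter.inter_mem (eventually_eventually_nhds.2 hy)
        (chartSys.opn i z (hb hz).1 _ (Metric.isOpen_ball.mem_nhds hz)))
    obtain ⟨y', ⟨hy'1, z', hz', rfl⟩, hy'X, hy'T⟩ := h8
    refine ⟨z', ⟨hz', hy'T⟩, ?_⟩
    have h9 : ∀ᶠ y'' in 𝓝 (chi i z'), GLift_hz phi i0 y'' := by
      filter_upwards [hy'1, h.anT.compl_nhds hy'X hy'T] with y'' h10 h11
      exact h10 h11
    exact (chartSys.cont i z' (hb hz').1).eventually h9
  have hsub : Metric.ball e r \ B ⊆ P := by
    have hcov : Metric.ball e r \ B ⊆ P ∪ interior Pᶜ := by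
      intro e' he'
      by_cases hcase : e' ∈ P
      · exact Or.inl hcase
      · right
        rw [mem_interior_iff_mem_nhds]
        by_contra hcon
        apply hcase
        refine hPc e' he' ?_
        intro hcon2
        exact hcon hcon2
    by_cases hv : ((Metric.ball e r \ B) ∩ interior Pᶜ).Nonempty
    · exfalso
      obtain ⟨z, -, hz1, hz2⟩ := hconn P (interior Pᶜ) hPo isOpen_interior hcov hPne hv
      exact interior_subset hz2 hz1
    · intro z hz
      rcases hcov hz with h10 | h10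
      · exact h10
      · exact absurd ⟨z, hz, h10⟩ hv
  filter_upwards [chartSys.opn i e he _ (Metric.ball_mem_nhds e hr)] with y hy hyT
  obtain ⟨z, hz, rfl⟩ := hy
  have h11 : ∀ᶠ e'' in 𝓝 z, GLift_hz phi i0 (chi i e'') := hsub ⟨hz, hyT⟩
  exact h11.self_of_nhds

private theorem GLift_all (h : GDat X₁ Yg T phi) (i0 : Fin (N + 1)) {x : XX} (hx : x ∈ X₁)
    (hf : ∀ᶠ y in 𝓝 x, y ∉ T → GLift_hz phi i0 y) :
    ∀ x' ∈ X₁, ∀ᶠ y in 𝓝 x', y ∉ T → GLift_hz phi i0 y := by
  set u : Set XX := {x' | ∀ᶠ y in 𝓝 x', y ∉ T → GLift_hz phi i0 y} with hu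
  have huo : IsOpen u := isOpen_setOfPred_eventually_nhds
  have hcov : X₁ ⊆ u ∪ interior uᶜ := by
    intro x' hx'
    by_cases hcase : x' ∈ u
    · exact Or.inl hcase
    · right
      rw [mem_interior_iff_mem_nhds]
      by_contra hcon
      apply hcase
      refine GLift_key h i0 hx' ?_
      intro hcon2
      exact hcon hcon2
  by_cases hv : (X₁ ∩ interior uᶜ).Nonempty
  · exfalso
    obtain ⟨z, -, hz1, hz2⟩ := h.conn u (interior uᶜ) huo isOpen_interior hcov ⟨x, hx, hf⟩ hv
    exact interior_subset hz2 hz1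
  · intro z hz
    rcases hcov hz with h10 | h10
    · exact h10
    · exact absurd ⟨z, hz, h10⟩ hv

theorem GDat.nd (h : GDat X₁ Yg T phi) : ∃ i0 : Fin (N + 1), NonDeg X₁ T phi i0 := by
  by_contra hcon
  push Not at hcon
  have hall : ∀ i0 : Fin (N + 1), ∀ x ∈ X₁, ∀ᶠ y in 𝓝 x, y ∉ T → GLift_hz phi i0 y := by
    intro i0
    have h1 := hcon i0
    unfold NonDeg at h1
    push Not at h1
    obtain ⟨x, hx, hxc⟩ := h1
    refine GLift_all h i0 hx ?_
    have h2 : ∀ᶠ y in 𝓝 x, y ∉ closure {y | y ∈ X₁ ∧ y ∉ T ∧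
        ∀ w : Fin (N + 1) → ℂ, w ≠ 0 → toP w = phi y → w i0 ≠ 0} :=
      isClosed_closure.isOpen_compl.mem_nhds hxc
    filter_upwards [h2, h.isOpen.mem_nhds hx] with y hy hyX hyT
    have h3 : ¬ ∀ w : Fin (N + 1) → ℂ, w ≠ 0 → toP w = phi y → w i0 ≠ 0 := fun h4 =>
      hy (subset_closure ⟨hyX, hyT, h4⟩)
    push Not at h3
    obtain ⟨w, hw, hwy, hw0⟩ := h3
    exact (GLift_hz_iff hw hwy).2 hw0
  obtain ⟨p, hp⟩ := Fz_nonempty 0
  have hpX : p ∈ X₁ := by
    apply h.fib0
    rw [fib_zero]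
    exact Or.inl (Or.inl hp)
  obtain ⟨y, hyX, hyT⟩ : (X₁ \ T).Nonempty := closure_nonempty_iff.1 ⟨p, h.dense hpX⟩
  obtain ⟨w, hw, hwy⟩ := toP_surj (phi y)
  apply hw
  funext i0
  exact (hall i0 y hyX).self_of_nhds hyT w hw hwy

end Pool.Agent.Moi
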