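import Pool.Agent.H.MP_795b03_ag.LocMain

/-! JOB Glue1: change of coordinates for the divisor.

transfer: let b be near c, so that the relation and differentiability of tau hold near b (eventually_eventually_nhds), b ∈ V, tau b ∈ V' (tau is continuous at c, V' open).
(1) (b,z) ∈ Hs Y k iff (tau b, z + a) ∈ Hs Y' k for all z, k: definition and the relation.  So b ∈ Ts Y iff tau b ∈ Ts Y', b ∈ Tl Y k iff tau b ∈ Tl Y' k (z ↦ z + a is a bijection of ℂ); so b ∈ Gd V Y i0 → tau b ∈ Gd V' Y' i0.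
(2) mlt Y i0 b z = mlt Y' i0 (tau b) (z + a): by LD.isLift_iff and (1) there is a lift at (b,z) iff there is one at (tau b, z+a); if not both are 0.  If phi' is a lift at (tau b, z + a) then phi q = phi' (tau q.1, q.2 + a) is a lift at (b, z)
(HolAt: composition; the relation near b).  By LD.mlt_eq (in LocM: mlt_eq) mlt Y i0 b z = order at z of z' ↦ phi' (tau b, z' + a) i0 = order at z + a of phi' (tau b, .) i0 = mlt Y' i0 (tau b) (z+a).  (analytic order under translation.)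
(3) mE Y' i0 (tau b) (q + pr a) = mlt Y' i0 (tau b) (sec q + a) by mE_pr (pr (sec q + a) = q + pr a), = mlt Y i0 b (sec q) = mE Y i0 b q.
(4) dg Y' (tau b) = ∑ᶠ q, mE Y' (tau b) q = ∑ᶠ q, mE Y' (tau b) (q + pr a) (finsum_comp_equiv with Equiv.addRight) = dg Y b; sg Y' (tau b) = ∑ᶠ q, mE Y' (tau b) (q + pr a) • (q + pr a) = ∑ᶠ q, mE Y b q • q + ∑ᶠ q, mE Y b q • pr a = sg + dg • pr a (finite support by LD.mE_finite).
glue: Gd V Y i0 is dense near c (LD.Gd_dense in LocBaire).  Near c: db b = db c, db' (tau b) = db' (tau c) (continuity of tau); for b ∈ Gd near c: dg, sg are given by db, sb and db', sb' at tau b ∈ Gd; so db' (tau c) = db c, and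
sb' (tau b) = sb b + db c • pr a for b ∈ Gd near c; both sides are continuous at b = c (sb = pr ∘ s near c, sb' ∘ tau = pr ∘ s' ∘ tau near c) and El is Hausdorff, so equality holds at c (c is in the closure of Gd: uniqueness of limits along 𝓝[Gd] c).
-/

set_option autoImplicit false

open Topology Filter Set Complex

namespace Pool.Agent.Moi

variable {E : Type} [NormedAddCommGroup E] [NormedSpace ℂ E] [FiniteDimensional ℂ E] {N : ℕ}
  {V : Set E} {Y : Set (E × ℂ × (Fin (N + 1) → ℂ))} {B : Set (E × ℂ)} {i0 : Fin (N + 1)}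
  {V' : Set E} {Y' : Set (E × ℂ × (Fin (N + 1) → ℂ))} {B' : Set (E × ℂ)}

/-- the relation between the two local data at the point `b` -/
private def Glue1_rel (Y : Set (E × ℂ × (Fin (N + 1) → ℂ))) (Y' : Set (E × ℂ × (Fin (N + 1) → ℂ)))
    (tau : E → E) (a : ℂ) (b : E) : Prop :=
  ∀ (z : ℂ) (w : Fin (N + 1) → ℂ), w ≠ 0 → ((b, z, w) ∈ Y ↔ (tau b, z + a, w) ∈ Y')

omit [FiniteDimensional ℂ E] in
private theorem Glue1_Hs {tau : E → E} {a : ℂ} {b : E} (hr : Glue1_rel Y Y' tau a b) (z : ℂ)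
    (k : Fin (N + 1)) : (b, z) ∈ Hs Y k ↔ (tau b, z + a) ∈ Hs Y' k := by
  constructor
  · rintro ⟨w, hw, hk, hY⟩
    exact ⟨w, hw, hk, (hr z w hw).1 hY⟩
  · rintro ⟨w, hw, hk, hY⟩
    exact ⟨w, hw, hk, (hr z w hw).2 hY⟩

omit [FiniteDimensional ℂ E] in
private theorem Glue1_lift {tau : E → E} {a : ℂ} {b : E} (hr : ∀ᶠ b' in 𝓝 b, Glue1_rel Y Y' tau a b')
    (ht : ∀ᶠ b' in 𝓝 b, DifferentiableAt ℂ tau b') {z : ℂ} {phi : E × ℂ → Fin (N + 1) → ℂ}
    (hphi : LiftOf Y' (tau b, z + a) phi) :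
    LiftOf Y (b, z) (fun q => phi (tau q.1, q.2 + a)) := by
  obtain ⟨h1, h2, h3⟩ := hphi
  have hd : ∀ᶠ q : E × ℂ in 𝓝 (b, z), DifferentiableAt ℂ (fun q : E × ℂ => (tau q.1, q.2 + a)) q := by
    have h4 : ∀ᶠ q : E × ℂ in 𝓝 (b, z), DifferentiableAt ℂ tau q.1 :=
      continuousAt_fst.eventually ht
    filter_upwards [h4] with q hq
    have h5 : DifferentiableAt ℂ (fun q : E × ℂ => tau q.1) q :=
      DifferentiableAt.comp q hq differentiableAt_fst
    have h6 : DifferentiableAt ℂ (fun q : E × ℂ => q.2 + a) q := by fun_prop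
    exact h5.prodMk h6
  have hc : ContinuousAt (fun q : E × ℂ => (tau q.1, q.2 + a)) (b, z) :=
    hd.self_of_nhds.continuousAt
  refine ⟨fun i => ?_, h2, ?_⟩
  · exact HolAt.comp (f := fun q : E × ℂ => (tau q.1, q.2 + a)) (F := fun q => phi q i) (h1 i) hd
  · have h4 : ∀ᶠ q : E × ℂ in 𝓝 (b, z), Glue1_rel Y Y' tau a q.1 :=
      continuousAt_fst.eventually hr
    filter_upwards [hc.eventually h3, h4] with q q1 q2 w hw
    rw [← q1 w hw]
    exact q2 q.2 w hw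

private theorem Glue1_mlt (h : LD V Y B i0) (h' : LD V' Y' B' i0) {tau : E → E} {a : ℂ} {b : E}
    (hb : b ∈ V) (hb' : tau b ∈ V') (hr : ∀ᶠ b' in 𝓝 b, Glue1_rel Y Y' tau a b')
    (ht : ∀ᶠ b' in 𝓝 b, DifferentiableAt ℂ tau b') (z : ℂ) :
    mlt Y' i0 (tau b) (z + a) = mlt Y i0 b z := by
  by_cases hL : IsLift Y' (tau b, z + a)
  · obtain ⟨phi, hphi⟩ := hL
    rw [mlt_eq hphi, mlt_eq (Glue1_lift hr ht hphi)]
    have hg : AnalyticAt ℂ (fun z : ℂ => z + a) z := by fun_prop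
    have hg' : deriv (fun z : ℂ => z + a) z ≠ 0 := by
      have : HasDerivAt (fun z : ℂ => z + a) 1 z := (hasDerivAt_id z).add_const a
      rw [this.deriv]
      exact one_ne_zero
    have := analyticOrderAt_comp_of_deriv_ne_zero (f := fun z => phi (tau b, z) i0) hg hg'
    rw [analyticOrderNatAt, analyticOrderNatAt, ← this]
    rfl
  · have hL' : ¬ IsLift Y (b, z) := by
      rw [h.isLift_iff hb z]
      rw [h'.isLift_iff hb' (z + a)] at hL
      rintro ⟨i, hi⟩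
      exact hL ⟨i, fun hcon => hi ((Glue1_Hs hr.self_of_nhds z i).2 hcon)⟩
    rw [mlt, mlt, dif_neg hL, dif_neg hL']

private theorem Glue1_mE (h : LD V Y B i0) (h' : LD V' Y' B' i0) {tau : E → E} {a : ℂ} {b : E}
    (hb : b ∈ V) (hb' : tau b ∈ V') (hr : ∀ᶠ b' in 𝓝 b, Glue1_rel Y Y' tau a b')
    (ht : ∀ᶠ b' in 𝓝 b, DifferentiableAt ℂ tau b') (q : El) :
    mE Y' i0 (tau b) (q + pr a) = mE Y i0 b q := by
  have h1 : q + pr a = pr (sec q + a) := by rw [pr_add, pr_sec]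
  rw [h1, h'.mE_pr i0 hb', Glue1_mlt h h' hb hb' hr ht]
  rfl

private theorem Glue1_Gd {tau : E → E} {a : ℂ} {b : E} (hb' : tau b ∈ V')
    (hr : Glue1_rel Y Y' tau a b) (hG : b ∈ Gd V Y i0) : tau b ∈ Gd V' Y' i0 := by
  obtain ⟨_, h2, h3⟩ := hG
  refine ⟨hb', ?_, ?_⟩
  · rintro ⟨x, hx⟩
    refine h2 ⟨x - a, fun i => (Glue1_Hs hr (x - a) i).2 ?_⟩
    rw [sub_add_cancel]
    exact hx i
  · intro hcon
    exact h3 fun x => (Glue1_Hs hr x i0).2 (hcon (x + a))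

theorem LD.transfer (h : LD V Y B i0) (h' : LD V' Y' B' i0) {c : E} (hc : c ∈ V) {tau : E → E}
    (hc' : tau c ∈ V') (ht : ∀ᶠ b in 𝓝 c, DifferentiableAt ℂ tau b) {a : ℂ}
    (hr : ∀ᶠ b in 𝓝 c, ∀ (z : ℂ) (w : Fin (N + 1) → ℂ), w ≠ 0 →
      ((b, z, w) ∈ Y ↔ (tau b, z + a, w) ∈ Y')) :
    ∀ᶠ b in 𝓝 c, b ∈ Gd V Y i0 → tau b ∈ Gd V' Y' i0 ∧ dg Y' i0 (tau b) = dg Y i0 b ∧
      sg Y' i0 (tau b) = sg Y i0 b + dg Y i0 b • pr a := by
  have hr' : ∀ᶠ b in 𝓝 c, Glue1_rel Y Y' tau a b := hr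
  have hcont : ContinuousAt tau c := ht.self_of_nhds.continuousAt
  filter_upwards [eventually_eventually_nhds.2 hr', eventually_eventually_nhds.2 ht,
    hcont.eventually (h'.isOpen.mem_nhds hc')] with b h1 h2 h3 hG
  have hb : b ∈ V := hG.1
  have hE : ∀ q, mE Y' i0 (tau b) (q + pr a) = mE Y i0 b q := Glue1_mE h h' hb h3 h1 h2
  have hfin := h.mE_finite hG
  refine ⟨Glue1_Gd h3 h1.self_of_nhds hG, ?_, ?_⟩
  · unfold dg
    rw [← finsum_comp_equiv (Equiv.addRight (pr a))]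
    exact finsum_congr hE
  · unfold sg dg
    rw [← finsum_comp_equiv (Equiv.addRight (pr a))]
    have h4 : ∀ q : El, mE Y' i0 (tau b) (Equiv.addRight (pr a) q) • (Equiv.addRight (pr a) q) =
        mE Y i0 b q • q + mE Y i0 b q • pr a := by
      intro q
      have h5 : Equiv.addRight (pr a) q = q + pr a := rfl
      rw [h5, hE q, smul_add]
    rw [finsum_congr h4, finsum_add_distrib]
    · congr 1
      have h6 := AddMonoidHom.map_finsum (multiplesHom El (pr a)) (f := fun q => mE Y i0 b q) hfin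
      simp only [multiplesHom_apply] at h6
      exact h6.symm
    · refine hfin.subset fun q hq hcon => hq ?_
      simp only [hcon, zero_smul]
    · refine hfin.subset fun q hq hcon => hq ?_
      simp only [hcon, zero_smul]

/-- the conclusion of `LD.main` -/
def MainD (V : Set E) (Y : Set (E × ℂ × (Fin (N + 1) → ℂ))) (i0 : Fin (N + 1)) (db : E → ℕ)
    (sb : E → El) : Prop := ∀ u ∈ V,
  (∀ᶠ u' in 𝓝 u, db u' = db u) ∧
  (∀ᶠ u' in 𝓝 u, u' ∈ Gd V Y i0 → dg Y i0 u' = db u' ∧ sg Y i0 u' = sb u') ∧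
  ∃ s : E → ℂ, HolAt s u ∧ ∀ᶠ u' in 𝓝 u, sb u' = pr (s u')

theorem LD.glue (h : LD V Y B i0) (h' : LD V' Y' B' i0) {c : E} (hc : c ∈ V) {tau : E → E}
    (hc' : tau c ∈ V') (ht : ∀ᶠ b in 𝓝 c, DifferentiableAt ℂ tau b) {a : ℂ}
    (hr : ∀ᶠ b in 𝓝 c, ∀ (z : ℂ) (w : Fin (N + 1) → ℂ), w ≠ 0 →
      ((b, z, w) ∈ Y ↔ (tau b, z + a, w) ∈ Y')) {db db' : E → ℕ} {sb sb' : E → El}
    (m : MainD V Y i0 db sb) (m' : MainD V' Y' i0 db' sb') :
    db' (tau c) = db c ∧ sb' (tau c) = sb c + db c • pr a := by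
  have hT := h.transfer h' hc hc' ht hr
  have hcont : ContinuousAt tau c := ht.self_of_nhds.continuousAt
  obtain ⟨m1, m2, s, m3, m4⟩ := m c hc
  obtain ⟨m1', m2', s', m3', m4'⟩ := m' (tau c) hc'
  have n1 := hcont.eventually m1'
  have n2 := hcont.eventually m2'
  have n4 := hcont.eventually m4'
  have hcl : c ∈ closure (Gd V Y i0) := h.Gd_dense hc
  have hd : db' (tau c) = db c := by
    have hfreq : ∃ᶠ w in 𝓝 c, w ∈ Gd V Y i0 := mem_closure_iff_frequently.1 hcl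
    obtain ⟨b, hG, ⟨hT1, h1⟩, ⟨h2, h3⟩, h4⟩ :=
      (hfreq.and_eventually ((hT.and m1).and ((m2.and n1).and n2))).exists
    obtain ⟨t1, t2, -⟩ := hT1 hG
    rw [← h3, ← (h4 t1).1, t2, (h2 hG).1, h1]
  refine ⟨hd, ?_⟩
  have hne : (𝓝[Gd V Y i0] c).NeBot := mem_closure_iff_nhdsWithin_neBot.1 hcl
  have t1 : Tendsto (fun b => pr (s' (tau b))) (𝓝[Gd V Y i0] c) (𝓝 (pr (s' (tau c)))) := by
    have h1 : ContinuousAt (fun b => s' (tau b)) c :=
      ContinuousAt.comp (f := tau) (g := s') m3'.continuousAt hcont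
    exact ((continuous_pr.tendsto _).comp h1.tendsto).mono_left nhdsWithin_le_nhds
  have t2 : Tendsto (fun b => pr (s b) + db c • pr a) (𝓝[Gd V Y i0] c)
      (𝓝 (pr (s c) + db c • pr a)) := by
    have h1 : Tendsto (fun b => pr (s b)) (𝓝[Gd V Y i0] c) (𝓝 (pr (s c))) :=
      ((continuous_pr.tendsto _).comp m3.continuousAt.tendsto).mono_left nhdsWithin_le_nhds
    exact h1.add_const _
  rw [m4'.self_of_nhds, m4.self_of_nhds]
  refine tendsto_nhds_unique (t1.congr' ?_) t2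
  filter_upwards [self_mem_nhdsWithin, nhdsWithin_le_nhds hT, nhdsWithin_le_nhds m1,
    nhdsWithin_le_nhds m2, nhdsWithin_le_nhds m4, nhdsWithin_le_nhds n2, nhdsWithin_le_nhds n4]
    with b hG k1 k2 k3 k4 k5 k6
  obtain ⟨l1, l2, l3⟩ := k1 hG
  rw [← k6, ← (k5 l1).2, l3, (k3 hG).2, (k3 hG).1, k2, k4]

end Pool.Agent.Moi
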