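import Pool.Agent.H.MP_795b03_ag.GLD
import Pool.Agent.H.MP_795b03_ag.Glue1
import Pool.Agent.H.MP_795b03_ag.ChartC

/-! JOB Glue2: the sum of the divisor as a function on the base, and positivity of the degree.

pos: suppose db c = 0.  Near c db = 0, and for u ∈ Gd near c dg = 0, so by LD.dg_zero (with h.ld hi0 i) all (u,x,w) ∈ YY give (u,x',w) ∈ YY.  Let W be an open neighbourhood of c inside VV X1 i on which this holds.  Choose u0 ∈ Gd ∩ W (LD.Gd_dense) and w0 ≠ 0 with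
(u0, 0, w0) ∈ YY (LD.fib_nonempty).  The point (chi i (u0,0), toP w0) ∈ Yg is by h.inj a limit of points q ∈ Yg with the uniqueness property; Gd is open (LD.Gd_open), so by chartSys.opn and toP_nhds we may take q = (chi i (u,x), toP w), u ∈ Gd ∩ W, (u,x) ∈ DD i, w ≠ 0, i.e. (u,x,w) ∈ YY.  Then
(u, x + 1/2, w) ∈ YY, so q' = (chi i (u,x+1/2), toP w) ∈ Yg has the same gX and the same second component, so q' = q, chi i (u,x+1/2) = chi i (u,x), and pr (x + 1/2 - a) = pr (x - a) (chi_val), which contradicts pr_eq_iff (1/2 is not of the form m + n I).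
glueTwo: chi_trans gives tau, n with a = n √2: tau c = c', chi i (b,z) = chi i' (tau b, z + a) near c.  For b near c: b ∈ VV X1 i (open), tau b ∈ VV X1 i' (open, tau continuous at c), so (b,z) ∈ DD i and (tau b, z + a) ∈ DD i' for all z and the relation hr of LD.glue holds.  LD.glue:
db' c' = db c, sb' c' = sb c + db c • pr (n √2), and n = tht i'.2 (vk i'.1 c') - tht i.2 (vk i.1 c) (the third statement of chi_trans at b = c, Eventually.self_of_nhds).  pr_add, pr_nsmul: subtract.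
glueAll: for each i choose db i, sb i by LD.main (with h.ld hi0 i; i0 from h.nd).  For m : PN 2 × Bs, if there are i, c with c ∈ VV X1 i and bsp i c = m choose one and put D m = db i c, TB m = sb i c - db i c • pr (tht √2); otherwise D = 0, TB = 0.  By glueTwo for all i, c ∈ VV X1 i:
D (bsp i c) = db i c and TB (bsp i c) = sb i c - db i c • pr (tht √2).  VV X1 i is open, so the three statements follow from MainD and pos.
-/

set_option autoImplicit false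

open Topology Filter Set Complex

namespace Pool.Agent.Moi

variable {X₁ : Set XX} {N : ℕ} {Yg : Set (XX × PN N)} {T : Set XX} {phi : XX → PN N}

/-- base point -/
noncomputable def bsp (i : Fin 3 × Bool) (c : Fin 4 → ℂ) : PN 2 × Bs := (chi i (c, 0)).1.1

/-- the twist as a complex number -/
noncomputable def tw (i : Fin 3 × Bool) (c : Fin 4 → ℂ) : ℂ := ((tht i.2 (vk i.1 c) * Real.sqrt 2 : ℝ) : ℂ)

theorem GDat.pos (h : GDat X₁ Yg T phi) {i0 : Fin (N + 1)} (hi0 : NonDeg X₁ T phi i0)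
    {i : Fin 3 × Bool} {c : Fin 4 → ℂ} (hc : c ∈ VV X₁ i) {db : (Fin 4 → ℂ) → ℕ}
    {sb : (Fin 4 → ℂ) → El} (m : MainD (VV X₁ i) (YY Yg i) i0 db sb) : 0 < db c := by
  by_contra hcon
  have h0 : db c = 0 := by omega
  have hld := h.ld hi0 i
  obtain ⟨m1, m2, -⟩ := m c hc
  have hP : ∀ᶠ u in 𝓝 c, u ∈ Gd (VV X₁ i) (YY Yg i) i0 → dg (YY Yg i) i0 u = 0 := by
    filter_upwards [m1, m2] with u h1 h2 h3
    rw [(h2 h3).1, h1, h0]
  obtain ⟨W, hWP, hWo, hcW⟩ := eventually_nhds_iff.1 hP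
  obtain ⟨u0, hu0W, hu0G⟩ := mem_closure_iff.1 (hld.Gd_dense hc) W hWo hcW
  obtain ⟨w0, hw0, hY0⟩ := hld.fib_nonempty hu0G.1 0
  have hDD0 : (u0, (0 : ℂ)) ∈ DD i := hY0.2.1
  have hN1 : chi i '' {e | (e.1 ∈ Gd (VV X₁ i) (YY Yg i) i0 ∧ e.1 ∈ W) ∧ e ∈ DD i} ∈
      𝓝 (chi i (u0, 0)) := by
    refine chartSys.opn i _ hDD0 _ ?_
    have h1 : ∀ᶠ u in 𝓝 u0, u ∈ Gd (VV X₁ i) (YY Yg i) i0 ∧ u ∈ W :=
      (hld.Gd_open hu0G).and (hWo.mem_nhds hu0W)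
    have h2 : ∀ᶠ e : (Fin 4 → ℂ) × ℂ in 𝓝 (u0, (0 : ℂ)),
        e.1 ∈ Gd (VV X₁ i) (YY Yg i) i0 ∧ e.1 ∈ W :=
      (continuous_fst.tendsto (u0, (0 : ℂ))).eventually h1
    exact h2.and ((chartSys.isOpen i).mem_nhds hDD0)
  have hN2 : toP '' {w : Fin (N + 1) → ℂ | w ≠ 0} ∈ 𝓝 (toP w0) :=
    toP_nhds hw0 (isOpen_ne.mem_nhds hw0)
  obtain ⟨q, ⟨hq1, hq2⟩, hqY, hqu⟩ :=
    mem_closure_iff_nhds.1 (h.inj hY0.2.2) _ (prod_mem_nhds hN1 hN2)
  obtain ⟨⟨u, x⟩, ⟨⟨huG, huW⟩, hD⟩, hux⟩ := hq1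
  obtain ⟨w, hw, hwq⟩ := hq2
  have hq : q = (chi i (u, x), toP w) := Prod.ext hux.symm hwq.symm
  subst hq
  have hYx : (u, x, w) ∈ YY Yg i := ⟨hw, hD, hqY⟩
  have hYx' := hld.dg_zero huG (hWP u huW huG) x (x + 1 / 2) w hw hYx
  have heq := hqu _ hYx'.2.2 (by
    have h1 := congrArg Prod.fst (chi_val (i := i) hD.1 x)
    have h2 := congrArg Prod.fst (chi_val (i := i) hD.1 (x + 1 / 2))
    change (chi i (u, x + 1 / 2)).1.1.2 = (chi i (u, x)).1.1.2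
    rw [h1, h2]) rfl
  have heq1 : chi i (u, x + 1 / 2) = chi i (u, x) := congrArg Prod.fst heq
  have h1 := congrArg Prod.snd (chi_val (i := i) hD.1 x)
  have h2 := congrArg Prod.snd (chi_val (i := i) hD.1 (x + 1 / 2))
  rw [heq1, h1] at h2
  obtain ⟨m', n', hmn⟩ := (pr_eq_iff _ _).1 h2
  have hre := congrArg Complex.re hmn
  simp only [Complex.add_re, Complex.sub_re, Complex.mul_re, Complex.intCast_re,
    Complex.intCast_im, Complex.I_re, Complex.I_im, mul_zero, zero_mul, sub_zero,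
    add_zero, Complex.ofReal_re] at hre
  have h3 : ((1 / 2 : ℂ)).re = 1 / 2 := by norm_num
  rw [h3] at hre
  have h4 : (2 * m' : ℝ) = -1 := by linarith
  have h5 : (2 * m' : ℤ) = -1 := by exact_mod_cast h4
  omega

theorem GDat.glueTwo (h : GDat X₁ Yg T phi) {i0 : Fin (N + 1)} (hi0 : NonDeg X₁ T phi i0)
    {i i' : Fin 3 × Bool} {c c' : Fin 4 → ℂ} (hc : c ∈ VV X₁ i) (hc' : c' ∈ VV X₁ i')
    (hb : bsp i c = bsp i' c') {db db' : (Fin 4 → ℂ) → ℕ} {sb sb' : (Fin 4 → ℂ) → El}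
    (m : MainD (VV X₁ i) (YY Yg i) i0 db sb) (m' : MainD (VV X₁ i') (YY Yg i') i0 db' sb') :
    db' c' = db c ∧ sb' c' - db' c' • pr (tw i' c') = sb c - db c • pr (tw i c) := by
  obtain ⟨τ, n, hτ, hτd, hn, hchi⟩ := chi_trans hc.1 hc'.1 hb
  have hτc : ContinuousAt τ c := hτd.self_of_nhds.continuousAt
  have hc'' : τ c ∈ VV X₁ i' := by rw [hτ]; exact hc'
  have e1 : ∀ᶠ b in 𝓝 c, b ∈ VV X₁ i := (h.VV_open i).mem_nhds hc
  have e2 : ∀ᶠ b in 𝓝 c, τ b ∈ VV X₁ i' := hτc.eventually ((h.VV_open i').mem_nhds hc'')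
  have hr : ∀ᶠ b in 𝓝 c, ∀ (z : ℂ) (w : Fin (N + 1) → ℂ), w ≠ 0 →
      ((b, z, w) ∈ YY Yg i ↔ (τ b, z + (n : ℂ) * (Real.sqrt 2 : ℝ), w) ∈ YY Yg i') := by
    filter_upwards [e1, e2, hchi] with b h1 h2 h3 z w hw
    constructor
    · rintro ⟨-, -, hY⟩
      refine ⟨hw, (h.VV_all h2 _).1, ?_⟩
      change (chi i' (τ b, z + (n : ℂ) * (Real.sqrt 2 : ℝ)), toP w) ∈ Yg
      rw [← h3 z]
      exact hY
    · rintro ⟨-, -, hY⟩
      refine ⟨hw, (h.VV_all h1 _).1, ?_⟩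
      change (chi i (b, z), toP w) ∈ Yg
      rw [h3 z]
      exact hY
  obtain ⟨g1, g2⟩ := LD.glue (h.ld hi0 i) (h.ld hi0 i') hc hc'' hτd hr m m'
  rw [hτ] at g1 g2
  refine ⟨g1, ?_⟩
  have hn' := hn.self_of_nhds
  rw [hτ] at hn'
  have h4 : (n : ℂ) * (Real.sqrt 2 : ℝ) = tw i' c' - tw i c := by
    unfold tw
    have h5 : ((n : ℝ) : ℂ) = ((tht i'.2 (vk i'.1 c') - tht i.2 (vk i.1 c) : ℝ) : ℂ) := by
      rw [hn']
    rw [Complex.ofReal_intCast] at h5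
    rw [h5]
    push_cast
    ring
  rw [g2, g1, h4, pr_sub, smul_sub]
  abel

theorem GDat.glueAll (h : GDat X₁ Yg T phi) :
    ∃ (D : PN 2 × Bs → ℕ) (TB : PN 2 × Bs → El), ∀ i, ∀ c ∈ VV X₁ i,
      (∀ᶠ c' in 𝓝 c, D (bsp i c') = D (bsp i c)) ∧
      (∃ s : (Fin 4 → ℂ) → ℂ, HolAt s c ∧
        ∀ᶠ c' in 𝓝 c, TB (bsp i c') + D (bsp i c') • pr (tw i c') = pr (s c')) ∧
      0 < D (bsp i c) := by
  classical
  obtain ⟨i0, hi0⟩ := h.nd
  have hm : ∀ i : Fin 3 × Bool, ∃ (db : (Fin 4 → ℂ) → ℕ) (sb : (Fin 4 → ℂ) → El),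
      MainD (VV X₁ i) (YY Yg i) i0 db sb := fun i => (h.ld hi0 i).main
  choose db sb m using hm
  let D : PN 2 × Bs → ℕ := fun b =>
    if hb : ∃ p : (Fin 3 × Bool) × (Fin 4 → ℂ), p.2 ∈ VV X₁ p.1 ∧ bsp p.1 p.2 = b then
      db hb.choose.1 hb.choose.2 else 0
  let TB : PN 2 × Bs → El := fun b =>
    if hb : ∃ p : (Fin 3 × Bool) × (Fin 4 → ℂ), p.2 ∈ VV X₁ p.1 ∧ bsp p.1 p.2 = b then
      sb hb.choose.1 hb.choose.2 - db hb.choose.1 hb.choose.2 • pr (tw hb.choose.1 hb.choose.2)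
    else 0
  have key : ∀ i, ∀ c ∈ VV X₁ i, D (bsp i c) = db i c ∧
      TB (bsp i c) = sb i c - db i c • pr (tw i c) := by
    intro i c hc
    have hb : ∃ p : (Fin 3 × Bool) × (Fin 4 → ℂ), p.2 ∈ VV X₁ p.1 ∧ bsp p.1 p.2 = bsp i c :=
      ⟨(i, c), hc, rfl⟩
    have h1 := hb.choose_spec
    have h2 := h.glueTwo hi0 hc h1.1 h1.2.symm (m i) (m hb.choose.1)
    refine ⟨?_, ?_⟩
    · simp only [D]
      rw [dif_pos hb]
      exact h2.1
    · simp only [TB]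
      rw [dif_pos hb]
      exact h2.2
  refine ⟨D, TB, fun i c hc => ?_⟩
  have e1 : ∀ᶠ c' in 𝓝 c, c' ∈ VV X₁ i := (h.VV_open i).mem_nhds hc
  obtain ⟨m1, -, s, hs, m3⟩ := m i c hc
  refine ⟨?_, ⟨s, hs, ?_⟩, ?_⟩
  · filter_upwards [e1, m1] with c' h1 h2
    rw [(key i c' h1).1, (key i c hc).1, h2]
  · filter_upwards [e1, m3] with c' h1 h2
    rw [(key i c' h1).1, (key i c' h1).2, sub_add_cancel, h2]
  · rw [(key i c hc).1]
    exact h.pos hi0 hc (m i)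

end Pool.Agent.Moi
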