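import Pool.Agent.H.MP_795b03_ag.Sp

/-! JOB Irr: connected analytic sets with local parametrizations are irreducible.

LocPar Z x: near x the set Z is parametrized by a holomorphic map kap from an open subset of ℂⁿ which is open onto Z at e.
locPar_identity: let W be analytic in O, Z ⊆ O, W ∈ 𝓝[Z] x1 for some x1 ∈ Z.  Let A = {x ∈ Z | W ∈ 𝓝[Z] x}: nonempty, relatively open in Z.  It is relatively closed: let x ∈ Z be a limit point of A, kap, e a
parametrization, G_j the equations of W near x (x ∈ O).  Choose a ball b around e on which HolTo kap z, kap z ∈ Z, G_j ∘ kap is holomorphic (HolAt.eventually) and (kap z ∈ W ↔ ∀ j, G_j (kap z) = 0).  kap '' b ∈ 𝓝[Z] x, so it contains a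
point kap z1 ∈ A, z1 ∈ b; near z1, kap z ∈ Z is close to kap z1 (continuity) so kap z ∈ W; so G_j ∘ kap vanishes near z1, hence on b (hol_identity, balls are convex).  So kap '' b ⊆ W and x ∈ A.  Z preconnected gives A = Z, and W ⊇ Z
(x ∈ Z and W ∈ 𝓝[Z] x imply x ∈ W).
irred_of_locPar: let Z = Z1 ∪ Z2 be analytic in O.  If Z1 ∈ 𝓝[Z] x for some x ∈ Z then Z ⊆ Z1, so Z = Z1.  Otherwise Z \ Z1 is relatively dense in Z and relatively open (IsAnalyticIn.compl_nhds), nonempty; it is contained in Z2, so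
Z2 ∈ 𝓝[Z] x for x ∈ Z \ Z1, and Z = Z2.
-/

set_option autoImplicit false

open Topology Filter Set Complex

namespace Pool.Agent.Moi

variable {X : Type} [TopologicalSpace X] [CxSpace X]

/-- `Z` has a holomorphic parametrization near its point `x` -/
def LocPar (Z : Set X) (x : X) : Prop :=
  ∃ (n : ℕ) (kap : (Fin n → ℂ) → X) (e : Fin n → ℂ), kap e = x ∧
    (∀ᶠ z in 𝓝 e, HolTo kap z ∧ kap z ∈ Z) ∧ ∀ W ∈ 𝓝 e, kap '' W ∈ 𝓝[Z] x

theorem locPar_identity {O Z W : Set X} (hZO : Z ⊆ O) (hc : IsPreconnected Z)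
    (hp : ∀ x ∈ Z, LocPar Z x) (hW : IsAnalyticIn O W) {x₁ : X} (hx : x₁ ∈ Z)
    (h1 : W ∈ 𝓝[Z] x₁) : Z ⊆ W := by
  -- the key step: the set of points of `Z` near which `Z ⊆ W` is relatively closed
  have key : ∀ x ∈ Z, (∃ᶠ y in 𝓝 x, y ∈ Z ∧ W ∈ 𝓝[Z] y) → W ∈ 𝓝[Z] x := by
    intro x hx hf
    obtain ⟨n, kap, e, he, hev, hop⟩ := hp x hx
    obtain ⟨m, G, hG, hGW⟩ := hW.2 x (hZO hx)
    have hkc : ContinuousAt kap e := hev.self_of_nhds.1.1
    have hg : ∀ j, HolAt (fun z => G j (kap z)) e := fun j =>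
      hev.self_of_nhds.1.2 (G j) (by rw [he]; exact hG j)
    have h2 : ∀ᶠ z in 𝓝 e, (kap z ∈ W ↔ ∀ j, G j (kap z) = 0) := by
      rw [← he] at hGW
      exact hkc.eventually hGW
    obtain ⟨r, hr, hb⟩ := Metric.eventually_nhds_iff_ball.1
      (hev.and (h2.and (eventually_all.2 fun j => (hg j).eventually)))
    have h3 := hop _ (Metric.ball_mem_nhds e hr)
    rw [mem_nhdsWithin_iff_eventually] at h3
    obtain ⟨y, ⟨hyZ, hyW⟩, hy⟩ := (hf.and_eventually h3).exists
    obtain ⟨z1, hz1, rfl⟩ := hy hyZ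
    have h4 : ∀ᶠ z in 𝓝 z1, kap z ∈ W := by
      have h5 : Tendsto kap (𝓝 z1) (𝓝[Z] (kap z1)) := by
        refine tendsto_nhdsWithin_iff.2 ⟨(hb z1 hz1).1.1.1, ?_⟩
        filter_upwards [Metric.isOpen_ball.mem_nhds hz1] with z hz
        exact (hb z hz).1.2
      exact h5 hyW
    have h6 : Metric.ball e r ∈ 𝓝 e := Metric.ball_mem_nhds e hr
    refine mem_of_superset (hop _ h6) ?_
    rintro _ ⟨z, hz, rfl⟩
    rw [(hb z hz).2.1]
    intro j
    refine hol_identity (F := fun z => G j (kap z)) Metric.isOpen_ball (convex_ball e r)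
      (fun w hw => (hb w hw).2.2 j) hz1 ?_ z hz
    filter_upwards [h4, Metric.isOpen_ball.mem_nhds hz1] with w hw hwb
    exact (hb w hwb).2.1.1 hw j
  -- connectedness
  let u : Set X := interior {y | y ∈ Z → y ∈ W}
  let v : Set X := interior {y | y ∈ Z → ¬ W ∈ 𝓝[Z] y}
  have hu : ∀ y, y ∈ u ↔ W ∈ 𝓝[Z] y := by
    intro y
    rw [mem_nhdsWithin_iff_eventually, mem_interior_iff_mem_nhds]
    rfl
  have hcov : Z ⊆ u ∪ v := by
    intro x hx
    by_cases h : W ∈ 𝓝[Z] x
    · exact Or.inl ((hu x).2 h)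
    · right
      rw [mem_interior_iff_mem_nhds]
      by_contra hcon
      apply h
      refine key x hx ?_
      intro hcon2
      apply hcon
      filter_upwards [hcon2] with y hy hyZ hyW
      exact hy ⟨hyZ, hyW⟩
  by_cases hv : (Z ∩ v).Nonempty
  · exfalso
    obtain ⟨x, hxZ, hxu, hxv⟩ := hc u v isOpen_interior isOpen_interior hcov
      ⟨x₁, hx, (hu x₁).2 h1⟩ hv
    exact interior_subset hxv hxZ ((hu x).1 hxu)
  · intro x hxZ
    rcases hcov hxZ with h | h
    · exact interior_subset h hxZ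
    · exact absurd ⟨x, hxZ, h⟩ hv

theorem irred_of_locPar {O Z : Set X} (hne : Z.Nonempty) (hc : IsPreconnected Z)
    (han : IsAnalyticIn O Z) (hp : ∀ x ∈ Z, LocPar Z x) : IsIrred O Z := by
  refine ⟨hne, han, fun Z₁ Z₂ h1 h2 h => ?_⟩
  by_cases hZ : Z ⊆ Z₁
  · left
    exact subset_antisymm hZ (by rw [h]; exact subset_union_left)
  · right
    obtain ⟨y, hy, hy1⟩ := not_subset.1 hZ
    refine subset_antisymm ?_ (by rw [h]; exact subset_union_right)
    refine locPar_identity han.1 hc hp h2 hy ?_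
    rw [mem_nhdsWithin_iff_eventually]
    filter_upwards [h1.compl_nhds (han.1 hy) hy1] with z hz hzZ
    rw [h] at hzZ
    exact hzZ.resolve_left hz

end Pool.Agent.Moi
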