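import Pool.Agent.H.MP_795b03_ag.LocM

/-! JOB Lift1: lifting a map from a disc to El = ℂ/(ℤ+iℤ) that is locally holomorphic off a discrete set
and has limits there.

Proof. D = ball 0 R.  (1) Claim: for every t in D there are a neighbourhood T of t and s : ℂ → ℂ analytic at t with
f t' = pr (s t') for all t' ∈ T, t' ∉ C.  For t ∉ C this is h1.  For t ∈ C: f → σ along 𝓝[≠] t; choose z0 with pr z0 = σ.  For t' ≠ t near t define s(t') as the
point w with pr w = f t' and dist w z0 ≤ 2 dist (f t') σ < 1/4 (exists_pr_close; unique in ball z0 (1/4) by pr_injOn).  On a punctured disc around t (which is disjoint from C) s is holomorphic: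
near t' ≠ t there is a holomorphic s' with f = pr s'; s'(t') - s(t') = m + n I; the function s' - (m + n I) takes values near s(t') ∈ ball z0 (1/4) and projects to f, so equals s near t'.
s is bounded, so it extends holomorphically to t (removable singularity, e.g. Complex.differentiableOn_update_limUnder_of_bddAbove).
(2) The derivative g(t) = s'(t) does not depend on the choice of s: if s1, s2 are two local functions as in (1) near t, then pr (s1 - s2) = 0 on a punctured neighbourhood, so on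
it s1 - s2 takes values in the closed discrete set ℤ + iℤ; it is continuous on the connected punctured disc, hence constant there, so the derivatives at t agree.  So g is well defined and holomorphic on D
(near t, g = deriv s).  (3) g has a primitive Z on the disc D (Mathlib: DifferentiableOn.isExactOn_ball or Complex.IsConservativeOn..., file Mathlib/Analysis/Complex/HasPrimitives.lean).
The function t ↦ fb(t) - pr (Z t), where fb = pr (s t) (the extension of f, well defined and continuous), is locally constant on D: locally fb - pr Z = pr (s - Z) and s - Z has derivative 0.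
D is connected so fb - pr Z = c; choose z1 with pr z1 = c and replace Z by Z + z1.
If D has no point outside C?  Not possible to be a problem: the construction gives Z anyway; f t = pr (Z t) for t ∈ D \ C.
-/

set_option autoImplicit false

open Topology Filter Set Complex Metric

namespace Pool.Agent.Moi

private theorem lift1_A {s1 s2 : ℂ → ℂ} {t : ℂ} (h1 : ContinuousAt s1 t) (h2 : ContinuousAt s2 t)
    (h : ∀ᶠ t' in 𝓝[≠] t, pr (s1 t') = pr (s2 t')) :
    pr (s1 t) = pr (s2 t) ∧ ∀ᶠ t' in 𝓝 t, s1 t' = s2 t' + (s1 t - s2 t) := by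
  have ha : Tendsto (fun t' => pr (s1 t')) (𝓝[≠] t) (𝓝 (pr (s1 t))) :=
    ((continuous_pr.continuousAt.comp (f := s1) h1).tendsto).mono_left nhdsWithin_le_nhds
  have hb : Tendsto (fun t' => pr (s2 t')) (𝓝[≠] t) (𝓝 (pr (s2 t))) :=
    ((continuous_pr.continuousAt.comp (f := s2) h2).tendsto).mono_left nhdsWithin_le_nhds
  have hpt : pr (s1 t) = pr (s2 t) := tendsto_nhds_unique (ha.congr' h) hb
  refine ⟨hpt, ?_⟩
  have h' : ∀ᶠ t' in 𝓝 t, pr (s1 t') = pr (s2 t') := by
    rw [eventually_nhdsWithin_iff] at h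
    filter_upwards [h] with t' ht'
    by_cases he : t' = t
    · rw [he]; exact hpt
    · exact ht' he
  have hd : Tendsto (fun t' => s1 t' - s2 t' - (s1 t - s2 t)) (𝓝 t) (𝓝 0) := by
    have : Tendsto (fun t' => s1 t' - s2 t' - (s1 t - s2 t)) (𝓝 t) (𝓝 (s1 t - s2 t - (s1 t - s2 t))) :=
      (h1.tendsto.sub h2.tendsto).sub tendsto_const_nhds
    rwa [sub_self] at this
  have hball : ∀ᶠ t' in 𝓝 t, s1 t' - s2 t' - (s1 t - s2 t) ∈ ball (0 : ℂ) (1 / 2) :=
    hd.eventually (isOpen_ball.mem_nhds (mem_ball_self (by norm_num)))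
  filter_upwards [h', hball] with t' ht' hb'
  have h0 : pr (s1 t' - s2 t' - (s1 t - s2 t)) = pr 0 := by
    rw [pr_sub, pr_sub, pr_sub, ht', hpt, sub_self, sub_self, sub_self, pr_zero]
  have := pr_injOn 0 hb' (mem_ball_self (by norm_num)) h0
  linear_combination this

private theorem lift1_eventually_of_punctured {p : ℂ → Prop} {t : ℂ} (h : ∀ᶠ t' in 𝓝[≠] t, p t') :
    ∀ᶠ t' in 𝓝[≠] t, ∀ᶠ t'' in 𝓝 t', p t'' := by
  have h2 := eventually_eventually_nhdsWithin.2 h
  filter_upwards [h2, self_mem_nhdsWithin] with t' ht' hne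
  rwa [isOpen_compl_singleton.nhdsWithin_eq hne] at ht'

private theorem lift1_loc (f : ℂ → El) (R : ℝ) (C : Set ℂ)
    (hC : ∀ t ∈ ball (0 : ℂ) R, ∀ᶠ s in 𝓝[≠] t, s ∉ C)
    (h1 : ∀ t ∈ ball (0 : ℂ) R, t ∉ C → ∃ s : ℂ → ℂ, AnalyticAt ℂ s t ∧ ∀ᶠ t' in 𝓝 t, f t' = pr (s t'))
    (h2 : ∀ t ∈ ball (0 : ℂ) R, ∃ σ, Tendsto f (𝓝[≠] t) (𝓝 σ)) (t : ℂ) (ht : t ∈ ball (0 : ℂ) R) :
    ∃ s : ℂ → ℂ, AnalyticAt ℂ s t ∧ ∀ᶠ t' in 𝓝[≠] t, f t' = pr (s t') := by
  obtain ⟨σ, hσ⟩ := h2 t ht
  obtain ⟨z0, hz0⟩ := pr_surjective σ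
  choose w hw1 hw2 using fun t' => exists_pr_close z0 (f t')
  have hwt : Tendsto w (𝓝[≠] t) (𝓝 z0) := by
    rw [tendsto_iff_dist_tendsto_zero]
    have hf0 : Tendsto (fun t' => 2 * dist (f t') (pr z0)) (𝓝[≠] t) (𝓝 0) := by
      have := (tendsto_iff_dist_tendsto_zero.1 hσ).const_mul 2
      rw [mul_zero] at this
      rw [hz0]; exact this
    exact squeeze_zero (fun _ => dist_nonneg) hw2 hf0
  refine ⟨Function.update w t z0, ?_, ?_⟩
  · refine Complex.analyticAt_of_differentiable_on_punctured_nhds_of_continuousAt ?_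
      (continuousAt_update_same.2 hwt)
    have hball : ∀ᶠ t' in 𝓝[≠] t, w t' ∈ ball z0 (1 / 2) :=
      hwt.eventually (isOpen_ball.mem_nhds (mem_ball_self (by norm_num)))
    have hball' := lift1_eventually_of_punctured hball
    have hD : ∀ᶠ t' in 𝓝[≠] t, t' ∈ ball (0 : ℂ) R :=
      mem_nhdsWithin_of_mem_nhds (isOpen_ball.mem_nhds ht)
    filter_upwards [hball', hD, hC t ht, self_mem_nhdsWithin] with t' hb hD' hC' hne
    obtain ⟨s', hs'a, hs'⟩ := h1 t' hD' hC'
    have hpc : pr (w t' - s' t') = 0 := by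
      rw [pr_sub, hw1, hs'.self_of_nhds, sub_self]
    have hcont : ContinuousAt (fun t'' => s' t'' + (w t' - s' t')) t' :=
      hs'a.continuousAt.add continuousAt_const
    have hin : ∀ᶠ t'' in 𝓝 t', s' t'' + (w t' - s' t') ∈ ball z0 (1 / 2) := by
      refine hcont.tendsto.eventually (isOpen_ball.mem_nhds ?_)
      have : s' t' + (w t' - s' t') = w t' := by ring
      rw [this]
      exact hb.self_of_nhds
    have heq : Function.update w t z0 =ᶠ[𝓝 t'] fun t'' => s' t'' + (w t' - s' t') := by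
      have hne' : ∀ᶠ t'' in 𝓝 t', t'' ≠ t := isOpen_ne.mem_nhds hne
      filter_upwards [hb, hin, hs', hne'] with t'' hb1 hb2 hb3 hb4
      rw [Function.update_of_ne hb4]
      refine pr_injOn z0 hb1 hb2 ?_
      rw [hw1, pr_add, hpc, add_zero, hb3]
    exact (hs'a.differentiableAt.add_const _).congr_of_eventuallyEq heq
  · filter_upwards [self_mem_nhdsWithin] with t' hne
    rw [Function.update_of_ne hne, hw1]

theorem lift_disc (f : ℂ → El) (R : ℝ) (hR : 0 < R) (C : Set ℂ)
    (hC : ∀ t ∈ ball (0 : ℂ) R, ∀ᶠ s in 𝓝[≠] t, s ∉ C)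
    (h1 : ∀ t ∈ ball (0 : ℂ) R, t ∉ C → ∃ s : ℂ → ℂ, AnalyticAt ℂ s t ∧ ∀ᶠ t' in 𝓝 t, f t' = pr (s t'))
    (h2 : ∀ t ∈ ball (0 : ℂ) R, ∃ σ, Tendsto f (𝓝[≠] t) (𝓝 σ)) :
    ∃ Z : ℂ → ℂ, DifferentiableOn ℂ Z (ball 0 R) ∧ ∀ t ∈ ball (0 : ℂ) R, t ∉ C → f t = pr (Z t) := by
  classical
  have hloc : ∀ t : ℂ, ∃ s : ℂ → ℂ, t ∈ ball (0 : ℂ) R →
      AnalyticAt ℂ s t ∧ ∀ᶠ t' in 𝓝[≠] t, f t' = pr (s t') := by
    intro t
    by_cases ht : t ∈ ball (0 : ℂ) R
    · obtain ⟨s, hs⟩ := lift1_loc f R C hC h1 h2 t ht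
      exact ⟨s, fun _ => hs⟩
    · exact ⟨fun _ => 0, fun h => absurd h ht⟩
  choose S hS using hloc
  -- comparison of `S t'` and `S t` for `t'` near `t`
  have hcmp : ∀ t ∈ ball (0 : ℂ) R, ∀ᶠ t' in 𝓝 t, AnalyticAt ℂ (S t) t' ∧
      pr (S t' t') = pr (S t t') ∧ ∀ᶠ t'' in 𝓝 t', S t' t'' = S t t'' + (S t' t' - S t t') := by
    intro t ht
    obtain ⟨ha, hf⟩ := hS t ht
    have hf' : ∀ᶠ t' in 𝓝 t, ∀ᶠ t'' in 𝓝[≠] t', f t'' = pr (S t t'') := by
      have hf2 := lift1_eventually_of_punctured hf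
      rw [eventually_nhdsWithin_iff] at hf2
      filter_upwards [hf2] with t' ht'
      by_cases he : t' = t
      · rw [he]; exact hf
      · exact (ht' he).filter_mono nhdsWithin_le_nhds
    filter_upwards [ha.eventually_analyticAt, hf', isOpen_ball.mem_nhds ht] with t' hb1 hb2 hb3
    obtain ⟨ha', hf3⟩ := hS t' hb3
    have := lift1_A (s1 := S t') (s2 := S t) ha'.continuousAt hb1.continuousAt (by
      filter_upwards [hb2, hf3] with t'' h3 h4
      rw [← h3, ← h4])
    exact ⟨hb1, this.1, this.2⟩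
  -- the derivative
  have hg : ∀ t ∈ ball (0 : ℂ) R, (fun t' => deriv (S t') t') =ᶠ[𝓝 t] deriv (S t) := by
    intro t ht
    filter_upwards [hcmp t ht] with t' h'
    have : S t' =ᶠ[𝓝 t'] fun t'' => S t t'' + (S t' t' - S t t') := h'.2.2
    rw [this.deriv_eq]
    simp
  have hgd : DifferentiableOn ℂ (fun t' => deriv (S t') t') (ball 0 R) := by
    intro t ht
    refine DifferentiableAt.differentiableWithinAt ?_
    exact ((hS t ht).1.deriv.differentiableAt).congr_of_eventuallyEq (hg t ht)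
  obtain ⟨Z0, hZ0⟩ := hgd.isExactOn_ball
  -- local constancy
  have hlc : ∀ t ∈ ball (0 : ℂ) R, ∀ᶠ t' in 𝓝 t,
      pr (S t' t') - pr (Z0 t') = pr (S t t) - pr (Z0 t) := by
    intro t ht
    have hder : ∀ᶠ t' in 𝓝 t, HasDerivAt (fun x => S t x - Z0 x) 0 t' := by
      filter_upwards [hg t ht, (hS t ht).1.eventually_analyticAt, isOpen_ball.mem_nhds ht] with t' a1 a2 a3
      have h5 : HasDerivAt (fun x => S t x - Z0 x) (deriv (S t) t' - deriv (S t') t') t' :=
        a2.differentiableAt.hasDerivAt.sub (hZ0 t' a3)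
      rwa [← a1, sub_self] at h5
    obtain ⟨ε, hε, hεs⟩ := Metric.eventually_nhds_iff_ball.1 hder
    have hconst : ∀ t' ∈ ball t ε, S t t' - Z0 t' = S t t - Z0 t := by
      intro t' ht'
      have hdiff : DifferentiableOn ℂ (fun x => S t x - Z0 x) (ball t ε) :=
        fun x hx => (hεs x hx).differentiableAt.differentiableWithinAt
      exact isOpen_ball.is_const_of_deriv_eq_zero (convex_ball t ε).isPreconnected hdiff
        (fun x hx => (hεs x hx).deriv) ht' (mem_ball_self hε)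
    filter_upwards [hcmp t ht, ball_mem_nhds t hε] with t' b1 b2
    rw [b1.2.1, ← pr_sub, ← pr_sub, hconst t' b2]
  have hconst : ∀ t ∈ ball (0 : ℂ) R, pr (S t t) - pr (Z0 t) = pr (S 0 0) - pr (Z0 0) := by
    intro t ht
    have hpre : IsPreconnected (ball (0 : ℂ) R) := (convex_ball 0 R).isPreconnected
    have : PreconnectedSpace (ball (0 : ℂ) R) := isPreconnected_iff_preconnectedSpace.1 hpre
    have hL : IsLocallyConstant (fun x : ball (0 : ℂ) R => pr (S x x) - pr (Z0 x)) := by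
      rw [IsLocallyConstant.iff_eventually_eq]
      intro x
      exact continuous_subtype_val.continuousAt.eventually (hlc x x.2)
    exact hL.apply_eq_of_preconnectedSpace ⟨t, ht⟩ ⟨0, mem_ball_self hR⟩
  obtain ⟨z1, hz1⟩ := pr_surjective (pr (S 0 0) - pr (Z0 0))
  refine ⟨fun t => Z0 t + z1, fun t ht =>
    ((hZ0 t ht).differentiableAt.add_const z1).differentiableWithinAt, ?_⟩
  intro t ht htC
  obtain ⟨s, hs, hfs⟩ := h1 t ht htC
  have h3 := (lift1_A (s1 := s) (s2 := S t) hs.continuousAt (hS t ht).1.continuousAt (by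
    filter_upwards [hfs.filter_mono nhdsWithin_le_nhds, (hS t ht).2] with t'' h3 h4
    rw [← h3, ← h4])).1
  rw [hfs.self_of_nhds, h3, pr_add, hz1, ← hconst t ht]
  abel

private theorem lift1_int {X : Type} [TopologicalSpace X] {T : Set X} (hT : IsPreconnected T) {d : X → ℝ}
    (hd : ContinuousOn d T) (h : ∀ t ∈ T, ∃ m : ℤ, d t = m) :
    ∀ t ∈ T, ∀ t' ∈ T, d t' ≤ d t := by
  intro t ht t' ht'
  by_contra hlt
  push Not at hlt
  obtain ⟨m, hm⟩ := h t ht
  obtain ⟨m', hm'⟩ := h t' ht'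
  have hmm : m + 1 ≤ m' := by
    rw [hm, hm'] at hlt
    exact_mod_cast hlt
  have hmm' : (m : ℝ) + 1 ≤ m' := by exact_mod_cast hmm
  have hsub := hT.intermediate_value ht ht' hd
  have hmem : (m : ℝ) + 1 / 2 ∈ Icc (d t) (d t') := by
    rw [hm, hm']
    constructor <;> linarith
  obtain ⟨x, hx, hdx⟩ := hsub hmem
  obtain ⟨k, hk⟩ := h x hx
  rw [hk] at hdx
  have h2 : (2 * k : ℤ) = 2 * m + 1 := by
    have : (2 * (k : ℝ)) = 2 * m + 1 := by rw [hdx]; ring
    exact_mod_cast this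
  omega

/-- two continuous lifts on a connected set which agree modulo the lattice differ by a constant -/
theorem lift_unique {X : Type} [TopologicalSpace X] {T : Set X} (hT : IsPreconnected T) {s1 s2 : X → ℂ}
    (h1 : ContinuousOn s1 T) (h2 : ContinuousOn s2 T) (h : ∀ t ∈ T, pr (s1 t) = pr (s2 t)) :
    ∀ t ∈ T, ∀ t' ∈ T, s1 t - s2 t = s1 t' - s2 t' := by
  have hre : ∀ t ∈ T, ∃ m : ℤ, (s1 t - s2 t).re = m := by
    intro t ht
    obtain ⟨m, n, hmn⟩ := (pr_eq_iff _ _).1 (h t ht)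
    exact ⟨m, by rw [hmn]; simp⟩
  have him : ∀ t ∈ T, ∃ m : ℤ, (s1 t - s2 t).im = m := by
    intro t ht
    obtain ⟨m, n, hmn⟩ := (pr_eq_iff _ _).1 (h t ht)
    exact ⟨n, by rw [hmn]; simp⟩
  have hc : ContinuousOn (fun t => s1 t - s2 t) T := h1.sub h2
  have hcr : ContinuousOn (fun t => (s1 t - s2 t).re) T := Complex.continuous_re.comp_continuousOn hc
  have hci : ContinuousOn (fun t => (s1 t - s2 t).im) T := Complex.continuous_im.comp_continuousOn hc
  intro t ht t' ht'
  apply Complex.ext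
  · exact le_antisymm (lift1_int hT hcr hre t' ht' t ht) (lift1_int hT hcr hre t ht t' ht')
  · exact le_antisymm (lift1_int hT hci him t' ht' t ht) (lift1_int hT hci him t ht t' ht')

end Pool.Agent.Moi
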