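import Pool.Agent.H.MP_795b03_ag.HolBasic
import Pool.Agent.H.MP_ceb9a9.Scv4

/-! JOB RExt: Riemann extension theorem in several variables.

Proof. By exists_dir (applied to G) choose e with ¬ ∀ᶠ s, G(p + s e) = 0 and all p + s e, |s| ≤ 2, in the
neighbourhood where G is holomorphic and f is bounded and holomorphic off {G = 0} (take e short).  By
one_var_dich choose 0 < r < 1 with G(p + s e) ≠ 0 for 0 < |s| ≤ r.  By compactness there is delta > 0 with
G(q + s e) ≠ 0 for |s| = r, |q - p| < delta.  Define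
  fb(q) = (2 pi)⁻¹ ∫_0^{2 pi} f(q + r e^{i th} e) d th.
fb is holomorphic on ball p delta by OkaP.differentiableOn_integral (Pool.Agent.H.MP_ceb9a9.Scv4).  Let |q - p| < delta,
G(q) ≠ 0.  The function s ↦ f(q + s e) is bounded and holomorphic on a neighbourhood of |s| ≤ r minus the zeros of
s ↦ G(q + s e), which is analytic and nonzero on the circle, so has finitely many zeros; by the
removable singularity theorem (Complex.differentiableOn_update_limUnder_of_bddAbove and friends, applied finitely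
often) it agrees off the zeros with a holomorphic function f1 on a neighbourhood of the closed disc; the mean value property
(circle average, Complex.circleIntegral...) gives f1(0) = fb(q), and f1(0) = f(q) since G(q) ≠ 0.
-/

set_option autoImplicit false

open Topology Filter Set Complex Metric

namespace Pool.Agent.Moi

/-- the mean value property for bounded functions which are holomorphic off the zeros of `G`. -/
private theorem RExt_one (G f : ℂ → ℂ) (C r R : ℝ) (hr : 0 < r) (hR : r < R)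
    (hG : ∀ s ∈ ball (0 : ℂ) R, HolAt G s) (hs : ∀ s ∈ sphere (0 : ℂ) r, G s ≠ 0)
    (hf : ∀ s ∈ ball (0 : ℂ) R, G s ≠ 0 → DifferentiableAt ℂ f s ∧ ‖f s‖ ≤ C) (h0 : G 0 ≠ 0) :
    Real.circleAverage f 0 r = f 0 := by
  have hR0 : 0 < R := hr.trans hR
  have hnz : ∀ s ∈ ball (0 : ℂ) R, ∀ᶠ w in 𝓝[≠] s, G w ≠ 0 := by
    intro s hs'
    refine one_var_dich (hG s hs') fun hev => h0 ?_
    exact hol_identity (E := ℂ) isOpen_ball (convex_ball 0 R) hG hs' hev 0 (mem_ball_self hR0)
  set h : ℂ → ℂ := fun s => limUnder (𝓝[≠] s) f with hh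
  have heq : ∀ s ∈ ball (0 : ℂ) R, G s ≠ 0 → h s = f s := by
    intro s hs' hGs
    have h1 : Tendsto f (𝓝[≠] s) (𝓝 (f s)) :=
      (hf s hs' hGs).1.continuousAt.tendsto.mono_left nhdsWithin_le_nhds
    exact h1.limUnder_eq
  have hdiff : ∀ s ∈ ball (0 : ℂ) R, DifferentiableAt ℂ h s := by
    intro s hs'
    have h1 : ∀ᶠ w in 𝓝 s, w ≠ s → G w ≠ 0 := eventually_nhdsWithin_iff.1 (hnz s hs')
    obtain ⟨ε, hε, hb⟩ := Metric.mem_nhds_iff.1 (inter_mem (isOpen_ball.mem_nhds hs') h1)
    have hBn : ball s ε ∈ 𝓝 s := ball_mem_nhds s hε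
    have h2 := differentiableOn_update_limUnder_of_bddAbove (f := f) (s := ball s ε) (c := s) hBn
      (fun w hw => ((hf w (hb hw.1).1 ((hb hw.1).2 hw.2)).1).differentiableWithinAt)
      ⟨C, by
        rintro _ ⟨w, hw, rfl⟩
        exact (hf w (hb hw.1).1 ((hb hw.1).2 hw.2)).2⟩
    have h3 : DifferentiableOn ℂ h (ball s ε) := by
      refine h2.congr fun w hw => ?_
      by_cases hws : w = s
      · rw [hws, Function.update_self]
      · rw [Function.update_of_ne hws]
        exact heq w (hb hw).1 ((hb hw).2 hws)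
    exact h3.differentiableAt hBn
  have h1 : Real.circleAverage f 0 r = Real.circleAverage h 0 r := by
    refine Real.circleAverage_congr_sphere fun s hs' => ?_
    rw [abs_of_pos hr] at hs'
    refine (heq s ?_ (hs s hs')).symm
    rw [mem_sphere_zero_iff_norm] at hs'
    rw [mem_ball_zero_iff]
    linarith
  rw [h1, ← heq 0 (mem_ball_self hR0) h0]
  refine DiffContOnCl.circleAverage ?_
  rw [abs_of_pos hr]
  refine DifferentiableOn.diffContOnCl ?_
  rw [closure_ball _ hr.ne']
  intro s hs'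
  refine (hdiff s ?_).differentiableWithinAt
  rw [mem_closedBall_zero_iff] at hs'
  rw [mem_ball_zero_iff]
  linarith

variable {E : Type} [NormedAddCommGroup E] [NormedSpace ℂ E] [FiniteDimensional ℂ E]

theorem riemann_ext (G f : E → ℂ) (p : E) (hG : HolAt G p) (h0 : ¬ ∀ᶠ q in 𝓝 p, G q = 0)
    (C : ℝ) (hf : ∀ᶠ q in 𝓝 p, G q ≠ 0 → DifferentiableAt ℂ f q ∧ ‖f q‖ ≤ C) :
    ∃ fb : E → ℂ, HolAt fb p ∧ ∀ᶠ q in 𝓝 p, G q ≠ 0 → fb q = f q := by
  obtain ⟨ρ, hρ, hb⟩ := Metric.mem_nhds_iff.1 (inter_mem hG.eventually hf)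
  obtain ⟨e, he, -, heh, hen⟩ := exists_dir hG h0 (ε := ρ / 4) (by positivity)
  -- the radius
  have hline : HolAt (fun s : ℂ => G (p + s • e)) 0 := by
    refine HolAt.comp (f := fun s : ℂ => p + s • e) ?_ (Eventually.of_forall fun s => by fun_prop)
    simpa using hG
  have h1 : ∀ᶠ s in 𝓝 (0 : ℂ), s ≠ 0 → G (p + s • e) ≠ 0 :=
    eventually_nhdsWithin_iff.1 (one_var_dich hline hen)
  obtain ⟨r0, hr0, hr0b⟩ := Metric.mem_nhds_iff.1 h1
  obtain ⟨r, hr, hr1, hrr⟩ : ∃ r : ℝ, 0 < r ∧ r < 1 ∧ r < r0 :=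
    ⟨min 1 r0 / 2, by positivity, by
      have := min_le_left (1 : ℝ) r0
      linarith, by
      have := min_le_right (1 : ℝ) r0
      linarith⟩
  have hcirc : ∀ s ∈ sphere (0 : ℂ) r, G (p + s • e) ≠ 0 := by
    intro s hs
    rw [mem_sphere_zero_iff_norm] at hs
    refine hr0b (by rw [mem_ball_zero_iff]; linarith) ?_
    rw [← norm_pos_iff]
    linarith
  have h2 : ∀ᶠ q in 𝓝 p, ∀ s ∈ sphere (0 : ℂ) r, G (q + s • e) ≠ 0 := by
    refine (isCompact_sphere (0 : ℂ) r).eventually_forall_of_forall_eventually fun s hs => ?_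
    have hsn : ‖s‖ ≤ 2 := by
      rw [mem_sphere_zero_iff_norm] at hs
      linarith
    have h3 : ContinuousAt (fun z : E × ℂ => G (z.1 + z.2 • e)) (p, s) := by
      refine ContinuousAt.comp (f := fun z : E × ℂ => z.1 + z.2 • e) (g := G) ?_ ?_
      · exact (heh s hsn).continuousAt
      · fun_prop
    exact h3.eventually_ne (hcirc s hs)
  obtain ⟨δ0, hδ0, hδb⟩ := Metric.mem_nhds_iff.1 h2
  obtain ⟨δ, hδ, hδ1, hδ2⟩ : ∃ δ : ℝ, 0 < δ ∧ δ ≤ δ0 ∧ δ ≤ ρ / 4 :=
    ⟨min δ0 (ρ / 4), by positivity, min_le_left _ _, min_le_right _ _⟩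
  have hin : ∀ q ∈ ball p δ, ∀ s : ℂ, ‖s‖ < 2 → q + s • e ∈ ball p ρ := by
    intro q hq s hs
    rw [mem_ball, dist_eq_norm] at hq ⊢
    calc ‖q + s • e - p‖ = ‖(q - p) + s • e‖ := by congr 1; abel
      _ ≤ ‖q - p‖ + ‖s • e‖ := norm_add_le _ _
      _ = ‖q - p‖ + ‖s‖ * ‖e‖ := by rw [norm_smul]
      _ < ρ := by nlinarith [norm_nonneg e, norm_nonneg s]
  have hcm : ∀ t : ℝ, circleMap 0 r t ∈ sphere (0 : ℂ) r := fun t => circleMap_mem_sphere 0 hr.le t
  have hcmn : ∀ t : ℝ, ‖circleMap 0 r t‖ < 2 := by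
    intro t
    have := mem_sphere_zero_iff_norm.1 (hcm t)
    linarith
  have hdf : ∀ q ∈ ball p δ, ∀ t : ℝ, DifferentiableAt ℂ f (q + circleMap 0 r t • e) := by
    intro q hq t
    exact ((hb (hin q hq _ (hcmn t))).2 (hδb (ball_subset_ball hδ1 hq) _ (hcm t))).1
  have hI : DifferentiableOn ℂ (fun q : E => ∫ t in (0 : ℝ)..2 * Real.pi,
      f (q + circleMap 0 r t • e)) (ball p δ) := by
    refine OkaP.differentiableOn_integral (f := fun q t => f (q + circleMap 0 r t • e))
      isOpen_ball ?_ ?_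
    · rintro ⟨q, t⟩ ⟨hq, -⟩
      have h4 : ContinuousAt (fun z : E × ℝ => z.1 + circleMap 0 r z.2 • e) (q, t) := by
        have : Continuous (fun z : E × ℝ => z.1 + circleMap 0 r z.2 • e) := by fun_prop
        exact this.continuousAt
      have h3 : ContinuousAt (fun z : E × ℝ => f (z.1 + circleMap 0 r z.2 • e)) (q, t) :=
        ContinuousAt.comp (f := fun z : E × ℝ => z.1 + circleMap 0 r z.2 • e) (g := f)
          (hdf q hq t).continuousAt h4
      exact h3.continuousWithinAt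
    · intro t _ q hq
      have h3 : DifferentiableAt ℂ (fun q : E => q + circleMap 0 r t • e) q := by fun_prop
      exact ((hdf q hq t).comp q h3).differentiableWithinAt
  refine ⟨fun q => (2 * Real.pi)⁻¹ • ∫ t in (0 : ℝ)..2 * Real.pi, f (q + circleMap 0 r t • e),
    ?_, ?_⟩
  · filter_upwards [ball_mem_nhds p hδ] with q hq
    exact (hI.differentiableAt (isOpen_ball.mem_nhds hq)).const_smul ((2 * Real.pi)⁻¹ : ℝ)
  · filter_upwards [ball_mem_nhds p hδ] with q hq hGq
    have h3 := RExt_one (fun s => G (q + s • e)) (fun s => f (q + s • e)) C r 2 hr (by linarith)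
      (fun s hs => by
        refine HolAt.comp (f := fun s : ℂ => q + s • e) ?_
          (Eventually.of_forall fun s => by fun_prop)
        exact (hb (hin q hq s (mem_ball_zero_iff.1 hs))).1)
      (fun s hs => hδb (ball_subset_ball hδ1 hq) s hs)
      (fun s hs hGs => by
        have h4 := (hb (hin q hq s (mem_ball_zero_iff.1 hs))).2 hGs
        refine ⟨?_, h4.2⟩
        have h5 : DifferentiableAt ℂ (fun s : ℂ => q + s • e) s := by fun_prop
        exact DifferentiableAt.comp (f := fun s : ℂ => q + s • e) s h4.1 h5)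
      (by simpa using hGq)
    have h4 : f (q + (0 : ℂ) • e) = f q := by simp
    rw [← h4, ← h3]
    rfl

end Pool.Agent.Moi
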