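import Pool.Agent.H.MP_795b03_ag.HolBasic
import Pool.Agent.H.MP_795b03_ag.RExt

/-! JOB LocA: closedness properties of the local data and the regular points.

Notation: Y_q = {w ≠ 0 | (q.1, q.2, w) ∈ Y}, a nonempty conic set.  Y is relatively closed: if u ∈ V, w ≠ 0 and (u,x,w) ∉ Y
then points near (u,x,w) are not in Y (LocAn.compl_mem and h.an).  V is open.

closed_fib: suppose not; then there are q_n → (u,x) and w_n ∈ K ∩ Y_{q_n}; by the cone property of K and of Y (q_n.1 ∈ V eventually)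
normalise ‖w_n‖ = 1; the unit sphere is compact, so along a subsequence w_n → w, ‖w‖ = 1, w ∈ K, and
(u,x,w) ∈ Y by relative closedness.  (Use frequently / mem_closure_iff_seq_limit / IsCompact.tendsto_subseq.)
fib_nonempty: otherwise closed_fib with K = univ shows that Y_q = ∅ for all q near (u,x); but there are such q ∉ B
(h.denseB), and h.lift gives a point of Y_q (phi q itself, c = 1).
Hs_closed: K = {w | w i = 0}.
fib_bound: the numbers: first at (u,x): there is eps > 0 with eps ‖w‖ < ‖w i‖ for all w ∈ Y_{(u,x)} (else unit vectors w_n ∈ Y with w_n i → 0,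
compactness gives w ∈ Y_{(u,x)} with w i = 0).  Then closed_fib with K = {w | ‖w i‖ ≤ eps ‖w‖}; so near (u,x) all w ∈ Y_q satisfy
‖w k‖ ≤ ‖w‖ ≤ eps⁻¹ ‖w i‖.
isLift_iff: (→) phi p ≠ 0 so some phi p i ≠ 0, and every w ∈ Y_p is c • phi p.
(←) Let (u,x) ∉ Hs Y i and C from fib_bound.  Let G_1..G_m be the equations of B at (u,x) (h.anB); not all are
eventually 0 near (u,x) (else B contains a neighbourhood, contradicting denseB); let G be one which is not.  Near (u,x): G q ≠ 0 → q ∉ B.  For q ∉ B near (u,x)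
put f_k(q) = w k / w i for any w ∈ Y_q (independent of w because Y_q = ℂˣ phi(q) with the lift at q; choose with Classical).  Near such q
f_k = phi_k/phi_i is holomorphic (phi_i ≠ 0 there), and ‖f_k‖ ≤ C.  riemann_ext gives fb_k holomorphic near (u,x) with fb_k = f_k where G ≠ 0;
for q ∉ B near (u,x) also fb_k(q) = f_k(q), because both are continuous at q and q is a limit of points with G ≠ 0 (G is not eventually
zero near q: identity principle hol_identity on a ball around (u,x)).  Put phi = fb (then phi_i = 1 near (u,x), as f_i = 1).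
For q near (u,x), q ∉ B: w ∈ Y_q iff w = (w i) • phi q, w i ≠ 0: clear.  q ∈ B: if w ∈ Y_q then by h.clos (q,w) = lim (q_n,w_n), q_n ∉ B, w_n ∈ Y_{q_n}, so
w_n = (w_n i) • phi(q_n) → w = (w i) • phi q, w i ≠ 0 since w ≠ 0.  Conversely q is a limit of q_n ∉ B (denseB), and
(q_n, c • phi q_n) ∈ Y, so (q, c • phi q) ∈ Y by relative closedness (c • phi q ≠ 0 as phi_i = 1).
-/

set_option autoImplicit false

open Topology Filter Set Complex

namespace Pool.Agent.Moi

variable {E : Type} [NormedAddCommGroup E] [NormedSpace ℂ E] [FiniteDimensional ℂ E] {N : ℕ}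
  {V : Set E} {Y : Set (E × ℂ × (Fin (N + 1) → ℂ))} {B : Set (E × ℂ)} {i0 : Fin (N + 1)}

omit [FiniteDimensional ℂ E] in
private theorem LocA_rel (h : LD V Y B i0) {u : E} (hu : u ∈ V) {x : ℂ} {w : Fin (N + 1) → ℂ}
    (hw : w ≠ 0) (h0 : (u, x, w) ∉ Y) : ∀ᶠ q in 𝓝 (u, x, w), q ∉ Y :=
  (h.an u hu x w hw).compl_mem h0

omit [FiniteDimensional ℂ E] in
private theorem LocA_V (h : LD V Y B i0) {u : E} (hu : u ∈ V) (x : ℂ) :
    ∀ᶠ q in 𝓝 (u, x), q.1 ∈ V :=
  (continuous_fst.tendsto (u, x)).eventually (h.isOpen.mem_nhds hu)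

omit [FiniteDimensional ℂ E] in
private theorem LocA_normalize {w : Fin (N + 1) → ℂ} (hw : w ≠ 0) :
    ((‖w‖ : ℂ))⁻¹ ≠ 0 ∧ ‖((‖w‖ : ℂ))⁻¹ • w‖ = 1 := by
  have h1 : ‖w‖ ≠ 0 := norm_ne_zero_iff.mpr hw
  have h2 : (‖w‖ : ℂ) ≠ 0 := by exact_mod_cast h1
  refine ⟨inv_ne_zero h2, ?_⟩
  rw [norm_smul, norm_inv, Complex.norm_real, norm_norm, inv_mul_cancel₀ h1]

theorem LD.closed_fib (h : LD V Y B i0) {K : Set (Fin (N + 1) → ℂ)} (hK : IsClosed K)
    (hc : ∀ w ∈ K, ∀ c : ℂ, c ≠ 0 → c • w ∈ K) {u : E} (hu : u ∈ V) {x : ℂ}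
    (h0 : ¬ ∃ w, w ≠ 0 ∧ w ∈ K ∧ (u, x, w) ∈ Y) :
    ∀ᶠ q in 𝓝 (u, x), ¬ ∃ w, w ≠ 0 ∧ w ∈ K ∧ (q.1, q.2, w) ∈ Y := by
  have hcomp : IsCompact (Metric.sphere (0 : Fin (N + 1) → ℂ) 1 ∩ K) :=
    (isCompact_sphere _ _).inter_right hK
  have key := hcomp.eventually_forall_of_forall_eventually (x₀ := (u, x))
    (P := fun q w => (q.1, q.2, w) ∉ Y) (by
      rintro w ⟨hw1, hwK⟩
      have hw0 : w ≠ 0 := by
        rintro rfl
        simp at hw1
      have hnY : (u, x, w) ∉ Y := fun hY => h0 ⟨w, hw0, hwK, hY⟩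
      have hcont : Continuous fun z : (E × ℂ) × (Fin (N + 1) → ℂ) => (z.1.1, z.1.2, z.2) := by
        fun_prop
      exact (hcont.tendsto ((u, x), w)).eventually (LocA_rel h hu hw0 hnY))
  filter_upwards [key, LocA_V h hu x] with q hq hqV
  rintro ⟨w, hw0, hwK, hwY⟩
  obtain ⟨h1, h2⟩ := LocA_normalize hw0
  refine hq (((‖w‖ : ℂ))⁻¹ • w) ⟨by simpa using h2, hc w hwK _ h1⟩ ?_
  exact (h.cone q.1 hqV q.2 w hw0 _ h1).2 hwY

omit [FiniteDimensional ℂ E] in
private theorem LocA_lift_mem {p : E × ℂ} {phi : E × ℂ → Fin (N + 1) → ℂ} (h : LiftOf Y p phi) :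
    ∀ w : Fin (N + 1) → ℂ, w ≠ 0 → ((p.1, p.2, w) ∈ Y ↔ ∃ c : ℂ, c ≠ 0 ∧ w = c • phi p) :=
  h.2.2.self_of_nhds

theorem LD.fib_nonempty (h : LD V Y B i0) {u : E} (hu : u ∈ V) (x : ℂ) :
    ∃ w, w ≠ 0 ∧ (u, x, w) ∈ Y := by
  by_contra hcon
  have h1 := h.closed_fib isClosed_univ (fun _ _ _ _ => mem_univ _) hu (x := x) (by
    rintro ⟨w, hw, -, hY⟩
    exact hcon ⟨w, hw, hY⟩)
  have h2 : ∃ᶠ q in 𝓝 (u, x), q ∈ (Bᶜ : Set (E × ℂ)) :=
    mem_closure_iff_frequently.mp (h.denseB u hu x)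
  obtain ⟨q, hqB, hq, hqV⟩ := (h2.and_eventually (h1.and (LocA_V h hu x))).exists
  obtain ⟨phi, hphi⟩ := h.lift q.1 hqV q.2 hqB
  refine hq ⟨phi q, hphi.2.1, mem_univ _, ?_⟩
  exact (LocA_lift_mem hphi (phi q) hphi.2.1).2 ⟨1, one_ne_zero, (one_smul _ _).symm⟩

theorem LD.Hs_closed (h : LD V Y B i0) (i : Fin (N + 1)) {u : E} (hu : u ∈ V) {x : ℂ}
    (h0 : (u, x) ∉ Hs Y i) : ∀ᶠ q in 𝓝 (u, x), q ∉ Hs Y i := by
  have h1 := h.closed_fib (K := {w | w i = 0}) (isClosed_eq (continuous_apply i) continuous_const)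
    (fun w hw c _ => by
      show c * w i = 0
      rw [show w i = 0 from hw, mul_zero]) hu (x := x) h0
  exact h1

theorem LD.fib_bound (h : LD V Y B i0) (i : Fin (N + 1)) {u : E} (hu : u ∈ V) {x : ℂ}
    (h0 : (u, x) ∉ Hs Y i) : ∃ C : ℝ, ∀ᶠ q in 𝓝 (u, x), ∀ w, w ≠ 0 → (q.1, q.2, w) ∈ Y →
      ∀ k, ‖w k‖ ≤ C * ‖w i‖ := by
  have key := (isCompact_sphere (0 : Fin (N + 1) → ℂ) 1).eventually_forall_of_forall_eventually
    (x₀ := (0 : ℝ)) (P := fun ε w => (u, x, w) ∉ Y ∨ ε < ‖w i‖) (by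
      intro w hw1
      have hw0 : w ≠ 0 := by
        rintro rfl
        simp at hw1
      by_cases hY : (u, x, w) ∈ Y
      · have hwi : w i ≠ 0 := fun hwi => h0 ⟨w, hw0, hwi, hY⟩
        have h1 : 0 < ‖w i‖ := norm_pos_iff.mpr hwi
        have hopen : IsOpen {z : ℝ × (Fin (N + 1) → ℂ) | z.1 < ‖z.2 i‖} :=
          isOpen_lt continuous_fst ((continuous_apply i).comp continuous_snd).norm
        filter_upwards [hopen.mem_nhds (show ((0 : ℝ), w) ∈ _ from h1)] with z hz
        exact Or.inr hz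
      · have hcont : Continuous fun z : ℝ × (Fin (N + 1) → ℂ) => (u, x, z.2) := by
          fun_prop
        filter_upwards [(hcont.tendsto ((0 : ℝ), w)).eventually (LocA_rel h hu hw0 hY)] with z hz
        exact Or.inl hz)
  obtain ⟨ε, hε, hε0⟩ := ((key.filter_mono nhdsWithin_le_nhds).and
    (self_mem_nhdsWithin : Ioi (0 : ℝ) ∈ 𝓝[>] (0 : ℝ))).exists
  have hε0' : 0 < ε := hε0
  have h1 := h.closed_fib (K := {w | ‖w i‖ ≤ ε * ‖w‖})
    (isClosed_le (continuous_apply i).norm (continuous_const.mul continuous_norm))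
    (fun w hw c _ => by
      show ‖(c • w) i‖ ≤ ε * ‖c • w‖
      rw [Pi.smul_apply, norm_smul, norm_smul]
      have := mul_le_mul_of_nonneg_left (show ‖w i‖ ≤ ε * ‖w‖ from hw) (norm_nonneg c)
      linarith) hu (x := x) (by
      rintro ⟨w, hw0, hwK, hwY⟩
      obtain ⟨h1, h2⟩ := LocA_normalize hw0
      rcases hε (((‖w‖ : ℂ))⁻¹ • w) (by simpa using h2) with h3 | h3
      · exact h3 ((h.cone u hu x w hw0 _ h1).2 hwY)
      · rw [Pi.smul_apply, norm_smul, norm_inv, Complex.norm_real, norm_norm] at h3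
        have h4 : 0 < ‖w‖ := norm_pos_iff.mpr hw0
        have h5 : ‖w i‖ ≤ ε * ‖w‖ := hwK
        rw [lt_inv_mul_iff₀ h4] at h3
        linarith)
  refine ⟨ε⁻¹, h1.mono fun q hq w hw0 hwY k => ?_⟩
  have h2 : ¬ ‖w i‖ ≤ ε * ‖w‖ := fun hle => hq ⟨w, hw0, hle, hwY⟩
  push Not at h2
  rw [le_inv_mul_iff₀ hε0']
  have := mul_le_mul_of_nonneg_left (norm_le_pi_norm w k) hε0'.le
  linarith

omit [FiniteDimensional ℂ E] in
private theorem LocA_zero_of_freq {X : Type} [TopologicalSpace X] {F : Type}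
    [NormedAddCommGroup F] {d : X → F} {q : X} (hd : ContinuousAt d q)
    (h : ∃ᶠ q' in 𝓝 q, d q' = 0) : d q = 0 := by
  by_contra hne
  exact h (hd.eventually_ne hne)

theorem LD.isLift_iff (h : LD V Y B i0) {u : E} (hu : u ∈ V) (x : ℂ) :
    IsLift Y (u, x) ↔ ∃ i, (u, x) ∉ Hs Y i := by
  classical
  constructor
  · rintro ⟨phi, hphi⟩
    obtain ⟨i, hi⟩ : ∃ i, phi (u, x) i ≠ 0 := by
      by_contra hcon
      push Not at hcon
      exact hphi.2.1 (funext hcon)
    refine ⟨i, ?_⟩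
    rintro ⟨w, hw0, hwi, hwY⟩
    obtain ⟨c, hc, rfl⟩ := (LocA_lift_mem hphi w hw0).1 hwY
    have : c * phi (u, x) i = 0 := hwi
    exact (mul_ne_zero hc hi) this
  · rintro ⟨i, hi⟩
    obtain ⟨C, hC⟩ := h.fib_bound i hu hi
    obtain ⟨m, G, hG, hGB⟩ := h.anB u hu x
    have hfr : ∃ᶠ q in 𝓝 (u, x), q ∈ (Bᶜ : Set (E × ℂ)) :=
      mem_closure_iff_frequently.mp (h.denseB u hu x)
    obtain ⟨j, hj⟩ : ∃ j, ¬ ∀ᶠ z in 𝓝 (u, x), G j z = 0 := by
      by_contra hcon
      push Not at hcon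
      obtain ⟨q, h1, h2, h3⟩ := (hfr.and_eventually (hGB.and (eventually_all.2 hcon))).exists
      exact h1 (h2.2 h3)
    set g := G j with hg
    have hgB : ∀ᶠ q in 𝓝 (u, x), g q ≠ 0 → q ∉ B := by
      filter_upwards [hGB] with q hq hgq hqB
      exact hgq (hq.1 hqB j)
    -- near `(u, x)` the function `g` is not locally zero
    have hden : ∀ᶠ q in 𝓝 (u, x), ∃ᶠ q' in 𝓝 q, g q' ≠ 0 := by
      obtain ⟨r, hr, hball⟩ := Metric.mem_nhds_iff.1 (hG j).eventually
      filter_upwards [Metric.ball_mem_nhds (u, x) hr] with q hq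
      intro hev
      apply hj
      have hev' : ∀ᶠ q' in 𝓝 q, g q' = 0 := by
        filter_upwards [hev] with q' hq'
        simpa using hq'
      have h1 := hol_identity (F := g) Metric.isOpen_ball (convex_ball (u, x) r)
        (fun z hz => hball hz) hq hev'
      filter_upwards [Metric.ball_mem_nhds (u, x) hr] with z hz
      exact h1 z hz
    -- the quotient functions
    let f : Fin (N + 1) → E × ℂ → ℂ := fun k q =>
      if hq : ∃ w : Fin (N + 1) → ℂ, w ≠ 0 ∧ (q.1, q.2, w) ∈ Y then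
        (Classical.choose hq) k / (Classical.choose hq) i else 0
    -- good points
    have hne : ∀ᶠ q in 𝓝 (u, x), ∀ w : Fin (N + 1) → ℂ, w ≠ 0 → (q.1, q.2, w) ∈ Y → w i ≠ 0 := by
      filter_upwards [hC] with q hq w hw0 hwY hwi
      apply hw0
      funext k
      have := hq w hw0 hwY k
      rw [hwi, norm_zero, mul_zero] at this
      simpa using this
    have hfval : ∀ᶠ q in 𝓝 (u, x), q ∉ B → ∀ w : Fin (N + 1) → ℂ, w ≠ 0 → (q.1, q.2, w) ∈ Y →
        ∀ k, f k q = w k / w i := by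
      filter_upwards [hne, LocA_V h hu x] with q hq hqV hqB w hw0 hwY k
      have hex : ∃ w : Fin (N + 1) → ℂ, w ≠ 0 ∧ (q.1, q.2, w) ∈ Y := ⟨w, hw0, hwY⟩
      obtain ⟨phi, hphi⟩ := h.lift q.1 hqV q.2 hqB
      have hs := Classical.choose_spec hex
      have e1 : f k q = (Classical.choose hex) k / (Classical.choose hex) i := dif_pos hex
      rw [e1]
      obtain ⟨c, hc, hcw⟩ := (LocA_lift_mem hphi w hw0).1 hwY
      obtain ⟨c', hc', hcw'⟩ := (LocA_lift_mem hphi _ hs.1).1 hs.2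
      have hwi := hq w hw0 hwY
      have hwi' := hq _ hs.1 hs.2
      rw [hcw'] at hwi' ⊢
      rw [hcw] at hwi ⊢
      simp only [Pi.smul_apply, smul_eq_mul] at hwi hwi' ⊢
      rw [mul_div_mul_left _ _ hc', mul_div_mul_left _ _ hc]
    have hfhol : ∀ᶠ q in 𝓝 (u, x), q ∉ B → ∀ k, HolAt (f k) q ∧ ‖f k q‖ ≤ C := by
      filter_upwards [hne.eventually_nhds, hfval.eventually_nhds, hC, LocA_V h hu x]
        with q hq hv hCq hqV hqB k
      obtain ⟨phi, hphi⟩ := h.lift q.1 hqV q.2 hqB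
      have hBc : ∀ᶠ q' in 𝓝 q, q' ∉ B := (h.anB q.1 hqV q.2).compl_mem hqB
      have hmem : (q.1, q.2, phi q) ∈ Y :=
        (LocA_lift_mem hphi (phi q) hphi.2.1).2 ⟨1, one_ne_zero, (one_smul _ _).symm⟩
      have hphi0 : phi q i ≠ 0 := hq.self_of_nhds (phi q) hphi.2.1 hmem
      have hev : ∀ᶠ q' in 𝓝 q, f k q' = phi q' k / phi q' i := by
        filter_upwards [hv, hBc, hphi.2.2, (hphi.1 i).continuousAt.eventually_ne hphi0]
          with q' h1 h2 h3 h4
        have hne' : phi q' ≠ 0 := fun h0 => h4 (by rw [h0]; rfl)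
        exact h1 h2 (phi q') hne' ((h3 _ hne').2 ⟨1, one_ne_zero, (one_smul _ _).symm⟩) k
      refine ⟨((hphi.1 k).div (hphi.1 i) hphi0).congr (hev.mono fun _ h0 => h0.symm), ?_⟩
      rw [hev.self_of_nhds, norm_div, div_le_iff₀ (norm_pos_iff.mpr hphi0)]
      exact hCq (phi q) hphi.2.1 hmem k
    choose fb hfb hfbe using fun k => riemann_ext g (f k) (u, x) (hG j) hj C (by
      filter_upwards [hfhol, hgB] with q h1 h2 h3
      exact ⟨(h1 (h2 h3) k).1.differentiableAt, (h1 (h2 h3) k).2⟩)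
    have hfball : ∀ᶠ q in 𝓝 (u, x), ∀ k, g q ≠ 0 → fb k q = f k q := eventually_all.2 hfbe
    have hfbhol : ∀ᶠ q in 𝓝 (u, x), ∀ k, HolAt (fb k) q :=
      eventually_all.2 fun k => (hfb k).eventually
    have hfb' : ∀ᶠ q in 𝓝 (u, x), q ∉ B → ∀ k, fb k q = f k q := by
      filter_upwards [hfhol, hden, hfball.eventually_nhds, hfbhol] with q h1 h2 h3 h4 hqB k
      have hcont : ContinuousAt (fun q' => fb k q' - f k q') q :=
        (h4 k).continuousAt.sub ((h1 hqB k).1.continuousAt)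
      have h5 := LocA_zero_of_freq hcont ((h2.and_eventually h3).mono
        fun q' hq' => sub_eq_zero.2 (hq'.2 k hq'.1))
      exact sub_eq_zero.1 h5
    have hone : ∀ᶠ q in 𝓝 (u, x), fb i q = 1 := by
      filter_upwards [hden, hfball.eventually_nhds, hfbhol, hgB.eventually_nhds,
        hfval.eventually_nhds, hne.eventually_nhds, (LocA_V h hu x).eventually_nhds]
        with q h1 h2 h3 h4 h5 h6 h7
      have hcont : ContinuousAt (fun q' => fb i q' - 1) q :=
        (h3 i).continuousAt.sub continuousAt_const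
      have h8 := LocA_zero_of_freq hcont
        ((h1.and_eventually (h2.and (h4.and (h5.and (h6.and h7))))).mono (by
          rintro q' ⟨a1, a2, a4, a5, a6, a7⟩
          obtain ⟨w, hw0, hwY⟩ := h.fib_nonempty a7 q'.2
          show fb i q' - 1 = 0
          rw [a2 i a1, a5 (a4 a1) w hw0 hwY i, div_self (a6 w hw0 hwY), sub_self]))
      exact sub_eq_zero.1 h8
    -- the description off `B`
    have hoff : ∀ᶠ q in 𝓝 (u, x), q ∉ B → ∀ w : Fin (N + 1) → ℂ, w ≠ 0 →
        ((q.1, q.2, w) ∈ Y ↔ ∃ c : ℂ, c ≠ 0 ∧ w = c • fun k => fb k q) := by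
      filter_upwards [hfb', hfval, hne, LocA_V h hu x] with q h1 h2 h3 h4 hqB w hw0
      constructor
      · intro hwY
        refine ⟨w i, h3 w hw0 hwY, ?_⟩
        funext k
        rw [Pi.smul_apply, h1 hqB k, h2 hqB w hw0 hwY k, smul_eq_mul,
          mul_div_cancel₀ _ (h3 w hw0 hwY)]
      · rintro ⟨c, hc, hcw⟩
        obtain ⟨w', hw0', hwY'⟩ := h.fib_nonempty h4 q.2
        have hwi' := h3 w' hw0' hwY'
        have e1 : w = (c / w' i) • w' := by
          rw [hcw]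
          funext k
          rw [Pi.smul_apply, Pi.smul_apply, h1 hqB k, h2 hqB w' hw0' hwY' k, smul_eq_mul,
            smul_eq_mul]
          field_simp
        rw [e1]
        exact (h.cone q.1 h4 q.2 w' hw0' _ (div_ne_zero hc hwi')).2 hwY'
    refine ⟨fun q k => fb k q, hfb, ?_, ?_⟩
    · intro h0
      have h1 := hone.self_of_nhds
      have h2 : fb i (u, x) = 0 := congrFun h0 i
      rw [h2] at h1
      exact zero_ne_one h1
    · filter_upwards [hoff.eventually_nhds, hfbhol, hone.eventually_nhds, LocA_V h hu x, hne]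
        with q h1 h2 h3 hqV hqne w hw0
      constructor
      · intro hwY
        have hcl := mem_closure_iff_frequently.mp (h.clos q.1 hqV q.2 w hw0 hwY)
        have hfc : ContinuousAt (fun q' : E × ℂ => fun k => fb k q') q :=
          continuousAt_pi.2 fun k => (h2 k).continuousAt
        have hpc : ContinuousAt (fun p : E × ℂ × (Fin (N + 1) → ℂ) => (p.1, p.2.1))
            (q.1, q.2, w) := by fun_prop
        have hfc' : ContinuousAt (fun p : E × ℂ × (Fin (N + 1) → ℂ) =>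
            (fun k => fb k (p.1, p.2.1) : Fin (N + 1) → ℂ)) (q.1, q.2, w) :=
          ContinuousAt.comp (g := fun q' : E × ℂ => (fun k => fb k q' : Fin (N + 1) → ℂ))
            (f := fun p : E × ℂ × (Fin (N + 1) → ℂ) => (p.1, p.2.1)) hfc hpc
        have hdc : ContinuousAt (fun p : E × ℂ × (Fin (N + 1) → ℂ) =>
            p.2.2 - (p.2.2 i) • (fun k => fb k (p.1, p.2.1) : Fin (N + 1) → ℂ))
            (q.1, q.2, w) := by
          have hc1 : ContinuousAt (fun p : E × ℂ × (Fin (N + 1) → ℂ) => p.2.2 i)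
              (q.1, q.2, w) := by fun_prop
          have hc2 : ContinuousAt (fun p : E × ℂ × (Fin (N + 1) → ℂ) => p.2.2)
              (q.1, q.2, w) := by fun_prop
          exact hc2.sub (hc1.smul hfc')
        have hp1 := hpc.eventually h1
        have hp3 := hpc.eventually h3
        have hp0 : ∀ᶠ p : E × ℂ × (Fin (N + 1) → ℂ) in 𝓝 (q.1, q.2, w), p.2.2 ≠ 0 :=
          (show ContinuousAt (fun p : E × ℂ × (Fin (N + 1) → ℂ) => p.2.2) (q.1, q.2, w) by
            fun_prop).eventually_ne hw0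
        have h5 := LocA_zero_of_freq hdc ((hcl.and_eventually (hp1.and (hp3.and hp0))).mono (by
          rintro p ⟨⟨pY, pB⟩, a1, a3, a0⟩
          obtain ⟨c, hc, hcw⟩ := (a1 pB p.2.2 a0).1 pY
          have hci : p.2.2 i = c := by
            have := congrFun hcw i
            rw [Pi.smul_apply, smul_eq_mul, a3, mul_one] at this
            exact this
          show p.2.2 - (p.2.2 i) • (fun k => fb k (p.1, p.2.1) : Fin (N + 1) → ℂ) = 0
          rw [hci, ← hcw, sub_self]))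
        have h6 : w = (w i) • (fun k => fb k q) := sub_eq_zero.1 h5
        refine ⟨w i, fun h0 => hw0 ?_, h6⟩
        rw [h6, h0, zero_smul]
      · rintro ⟨c, hc, rfl⟩
        by_contra hnY
        have h5 := LocA_rel h hqV hw0 hnY
        have hfc : ContinuousAt (fun q' : E × ℂ =>
            (q'.1, q'.2, c • (fun k => fb k q' : Fin (N + 1) → ℂ))) q := by
          refine ContinuousAt.prodMk continuousAt_fst (ContinuousAt.prodMk continuousAt_snd
            (ContinuousAt.const_smul (continuousAt_pi.2 fun k => (h2 k).continuousAt) c))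
        have h6 := hfc.eventually h5
        have h7 : ∃ᶠ q' in 𝓝 q, q' ∈ (Bᶜ : Set (E × ℂ)) :=
          mem_closure_iff_frequently.mp (h.denseB q.1 hqV q.2)
        obtain ⟨q', hqB, a1, a2, a3⟩ := (h7.and_eventually (h6.and (h1.and h3))).exists
        have hne0 : c • (fun k => fb k q' : Fin (N + 1) → ℂ) ≠ 0 := by
          intro h0
          have := congrFun h0 i
          rw [Pi.smul_apply, smul_eq_mul, a3, mul_one] at this
          exact hc this
        exact a1 ((a2 hqB _ hne0).2 ⟨c, hc, rfl⟩)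

/-- `Y` is relatively closed -/
theorem LD.rel_closed (h : LD V Y B i0) {u : E} (hu : u ∈ V) {x : ℂ} {w : Fin (N + 1) → ℂ}
    (hw : w ≠ 0) (h0 : (u, x, w) ∉ Y) : ∀ᶠ q in 𝓝 (u, x, w), q ∉ Y :=
  LocA_rel h hu hw h0

end Pool.Agent.Moi
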