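import Pool.Agent.H.MP_795b03_ag.LocM
import Pool.Agent.H.MP_795b03_ag.Curve
import Pool.Agent.H.MP_795b03_ag.Compl

/-! JOB LocB: the bad sets Ts and Tl are relatively closed and satisfy the line dichotomy.

Ts_closed: suppose u_n → u ∈ V, u_n ∈ Ts Y with x_n.  By LD.Hs_per we may take x_n in the compact square [0,1] + i [0,1]; pass to a subsequence x_n → x.
By Hs_closed (contrapositive) (u,x) ∈ Hs Y i for all i, so u ∈ Ts Y.
Tl_closed: if (u,x) ∉ Hs Y i then (u',x) ∉ Hs Y i for u' near u (Hs_closed).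
lineDich_Ts: fix u₀, e, D.  Apply planar_dich to S = {t | u₀ + t • e ∈ Ts Y}; hcl is Ts_closed.  hacc at t ∈ D: there are s_n → t, s_n ≠ t, x_n in the
square and w^i_n with w^i_n ≠ 0, w^i_n i = 0, (u₀ + s_n e, x_n, w^i_n) ∈ Y; normalise ‖w^i_n‖ = 1 (h.cone); pass to a subsequence: x_n → x*, w^i_n → W* i.
Let F = ℂ × (Fin (N+1) → Fin (N+1) → ℂ) and Z = {(s, (x, W)) : ℂ × F | ∀ i, (u₀ + (t + s) • e, x, W i) ∈ Y ∧ W i i = 0}.
Z is LocAn at (0, (x*, W*)): LocAn.preimage of Y under the affine map (s,(x,W)) ↦ (u₀ + (t+s) • e, x, W i) (W* i ≠ 0 and u₀ + t e ∈ V, h.an), LocAn.zero, LocAn.inter,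
LocAn.iInter.  The points (s_n - t, (x_n, w_n)) show that Z accumulates at (0,(x*,W*)) with s ≠ 0.  curve_limit with the neighbourhood
P = {(x, W) | ∀ i, W i ≠ 0} gives: for all s ≠ 0 close to 0 some (x,W) ∈ P with (s,(x,W)) ∈ Z, so u₀ + (t+s) e ∈ Ts Y.
lineDich_Tl: if every t ∈ D is in S := {t | u₀ + t e ∈ Tl Y i} the first alternative holds.  Otherwise fix t1 ∈ D and x1 with (u₀ + t1 e, x1) ∉ Hs Y i and apply
planar_dich to S1 = {t | (u₀ + t e, x1) ∈ Hs Y i} (hcl: Hs_closed; hacc: as above with F = (Fin (N+1) → ℂ),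
Z = {(s,w) | (u₀ + (t+s) e, x1, w) ∈ Y ∧ w i = 0}).  D ⊆ S1 is false at t1, so S1 is discrete, and S ⊆ S1.
lineDich_union: if one of the two sets contains the whole line piece the first alternative holds, otherwise both are discrete.
Gd_open: V open, Ts_closed, Tl_closed.
-/

set_option autoImplicit false

open Topology Filter Set Complex Metric

namespace Pool.Agent.Moi

variable {E : Type} [NormedAddCommGroup E] [NormedSpace ℂ E] [FiniteDimensional ℂ E] {N : ℕ}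
  {V : Set E} {Y : Set (E × ℂ × (Fin (N + 1) → ℂ))} {B : Set (E × ℂ)} {i0 : Fin (N + 1)}

/-- the compact fundamental square -/
private def locB_Sq : Set ℂ := Icc (0 : ℝ) 1 ×ℂ Icc (0 : ℝ) 1

private theorem locB_Sq_compact : IsCompact locB_Sq :=
  isCompact_Icc.reProdIm isCompact_Icc

private theorem locB_shift (x : ℂ) : ∃ m n : ℤ, x + (m : ℂ) + (n : ℂ) * I ∈ locB_Sq := by
  refine ⟨-⌊x.re⌋, -⌊x.im⌋, ?_⟩
  rw [locB_Sq, Complex.mem_reProdIm]
  have h1 := Int.floor_le x.re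
  have h2 := (Int.lt_floor_add_one x.re).le
  have h3 := Int.floor_le x.im
  have h4 := (Int.lt_floor_add_one x.im).le
  constructor
  · simp
    constructor <;> linarith
  · simp
    constructor <;> linarith

theorem LD.Ts_closed (h : LD V Y B i0) {u : E} (hu : u ∈ V) (h0 : u ∉ Ts Y) :
    ∀ᶠ u' in 𝓝 u, u' ∉ Ts Y := by
  have h1 : ∀ᶠ u' in 𝓝 u, ∀ x ∈ locB_Sq, ∃ i, (u', x) ∉ Hs Y i := by
    refine locB_Sq_compact.eventually_forall_of_forall_eventually ?_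
    intro x _
    have h2 : ¬ ∀ i, (u, x) ∈ Hs Y i := fun hc => h0 ⟨x, hc⟩
    push Not at h2
    obtain ⟨i, hi⟩ := h2
    filter_upwards [h.Hs_closed i hu hi] with q hq
    exact ⟨i, hq⟩
  filter_upwards [h1, h.isOpen.mem_nhds hu] with u' h2 h3
  rintro ⟨x, hx⟩
  obtain ⟨m, n, hmn⟩ := locB_shift x
  obtain ⟨i, hi⟩ := h2 _ hmn
  exact hi ((h.Hs_per i h3 x m n).2 (hx i))

theorem LD.Tl_closed (h : LD V Y B i0) (i : Fin (N + 1)) {u : E} (hu : u ∈ V) (h0 : u ∉ Tl Y i) :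
    ∀ᶠ u' in 𝓝 u, u' ∉ Tl Y i := by
  have h2 : ¬ ∀ x : ℂ, (u, x) ∈ Hs Y i := h0
  push Not at h2
  obtain ⟨x, hx⟩ := h2
  have hc : ContinuousAt (fun u' : E => (u', x)) u := by fun_prop
  filter_upwards [hc.eventually (h.Hs_closed i hu hx)] with u' hu' hcon
  exact hu' (hcon x)

/-- compactness plus the curve limit lemma -/
private theorem locB_acc {F : Type} [NormedAddCommGroup F] [NormedSpace ℂ F]
    [FiniteDimensional ℂ F] (Z : Set (ℂ × F)) (K P : Set F) (hK : IsCompact K)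
    (hZ : ∀ p ∈ K, LocAn Z (0, p)) (hP : ∀ p ∈ K, P ∈ 𝓝 p)
    (h : ∃ᶠ s in 𝓝[≠] (0 : ℂ), ∃ p ∈ K, (s, p) ∈ Z) :
    ∀ᶠ s in 𝓝[≠] (0 : ℂ), ∃ m ∈ P, (s, m) ∈ Z := by
  have h1 : ∃ p ∈ K, ∃ᶠ q in 𝓝 ((0 : ℂ), p), q ∈ Z ∧ q.1 ≠ 0 := by
    by_contra hcon
    push Not at hcon
    have h2 : ∀ᶠ s in 𝓝 (0 : ℂ), ∀ p ∈ K, ¬ ((s, p) ∈ Z ∧ s ≠ 0) := by
      refine hK.eventually_forall_of_forall_eventually ?_
      intro p hp
      filter_upwards [hcon p hp] with q hq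
      rintro ⟨h4, h5⟩
      exact h5 (hq h4)
    rw [frequently_nhdsWithin_iff] at h
    obtain ⟨s, ⟨⟨p, hp, hs⟩, hs0⟩, h4⟩ := (h.and_eventually h2).exists
    exact h4 p hp ⟨hs, hs0⟩
  obtain ⟨p, hp, h2⟩ := h1
  exact curve_limit Z p (hZ p hp) h2 P (hP p hp)

/-- the same at a point `t` -/
private theorem locB_acc' {F : Type} [NormedAddCommGroup F] [NormedSpace ℂ F]
    [FiniteDimensional ℂ F] (t : ℂ) (Z : Set (ℂ × F)) (K P : Set F) (hK : IsCompact K)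
    (hZ : ∀ p ∈ K, LocAn {q : ℂ × F | (t + q.1, q.2) ∈ Z} (0, p)) (hP : ∀ p ∈ K, P ∈ 𝓝 p)
    (h : ∃ᶠ s in 𝓝[≠] t, ∃ p ∈ K, (s, p) ∈ Z) :
    ∀ᶠ s in 𝓝[≠] t, ∃ m ∈ P, (s, m) ∈ Z := by
  have ht1 : Tendsto (fun s : ℂ => s - t) (𝓝[≠] t) (𝓝[≠] 0) := by
    refine tendsto_nhdsWithin_iff.2 ⟨?_, ?_⟩
    · have hc : ContinuousAt (fun s : ℂ => s - t) t := by fun_prop
      have := hc.tendsto
      rw [sub_self] at this
      exact this.mono_left nhdsWithin_le_nhds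
    · filter_upwards [self_mem_nhdsWithin] with s hs
      exact sub_ne_zero.2 hs
  have h1 : ∃ᶠ s in 𝓝[≠] (0 : ℂ), ∃ p ∈ K, (s, p) ∈ {q : ℂ × F | (t + q.1, q.2) ∈ Z} := by
    refine ht1.frequently ?_
    refine h.mono ?_
    rintro s ⟨p, hp, hs⟩
    refine ⟨p, hp, ?_⟩
    show (t + (s - t), p) ∈ Z
    rwa [add_sub_cancel]
  have h2 := locB_acc _ K P hK hZ hP h1
  filter_upwards [ht1.eventually h2] with s hs
  obtain ⟨m, hm, hs⟩ := hs
  refine ⟨m, hm, ?_⟩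
  have h3 : (t + (s - t), m) ∈ Z := hs
  rwa [add_sub_cancel] at h3

omit [FiniteDimensional ℂ E] in
private theorem locB_norm (h : LD V Y B i0) {i : Fin (N + 1)} {u : E} (hu : u ∈ V) {x : ℂ}
    (hx : (u, x) ∈ Hs Y i) : ∃ w : Fin (N + 1) → ℂ, ‖w‖ = 1 ∧ w i = 0 ∧ (u, x, w) ∈ Y := by
  obtain ⟨w, hw0, hwi, hw⟩ := hx
  have hn : ‖w‖ ≠ 0 := norm_ne_zero_iff.2 hw0
  have hn' : ((‖w‖⁻¹ : ℝ) : ℂ) ≠ 0 := by
    rw [Ne, Complex.ofReal_eq_zero]
    exact inv_ne_zero hn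
  refine ⟨((‖w‖⁻¹ : ℝ) : ℂ) • w, ?_, ?_, ?_⟩
  · rw [norm_smul, Complex.norm_real, norm_inv, norm_norm, inv_mul_cancel₀ hn]
  · rw [Pi.smul_apply, hwi, smul_zero]
  · exact (h.cone u hu x w hw0 _ hn').2 hw

private theorem locB_ne {w : Fin (N + 1) → ℂ} (h : ‖w‖ = 1) : w ≠ 0 := by
  rintro rfl
  rw [norm_zero] at h
  exact zero_ne_one h

theorem LD.lineDich_Ts (h : LD V Y B i0) : LineDich V (Ts Y) := by
  intro u₀ e D hD hD' hV
  have hline : ∀ t : ℂ, ContinuousAt (fun s : ℂ => u₀ + s • e) t := fun t => by fun_prop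
  refine planar_dich (S := {t | u₀ + t • e ∈ Ts Y}) hD hD' ?_ ?_
  · intro t ht htS
    exact (hline t).eventually (h.Ts_closed (hV t ht) htS)
  · intro t ht hfr
    let Z : Set (ℂ × (ℂ × (Fin (N + 1) → Fin (N + 1) → ℂ))) := {q | ∀ i, (u₀ + q.1 • e, q.2.1, q.2.2 i) ∈ Y ∧ q.2.2 i i = 0}
    let K : Set (ℂ × (Fin (N + 1) → Fin (N + 1) → ℂ)) := locB_Sq ×ˢ (Set.pi univ fun _ : Fin (N + 1) => sphere (0 : Fin (N + 1) → ℂ) 1)
    let P : Set (ℂ × (Fin (N + 1) → Fin (N + 1) → ℂ)) := {p | ∀ i, p.2 i ≠ 0}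
    have hK : IsCompact K :=
      locB_Sq_compact.prod (isCompact_univ_pi fun _ => isCompact_sphere _ _)
    have hKn : ∀ p ∈ K, ∀ i, ‖p.2 i‖ = 1 := by
      intro p hp i
      have h1 := hp.2 i (mem_univ i)
      rwa [mem_sphere_zero_iff_norm] at h1
    have hZ : ∀ p ∈ K, LocAn {q : ℂ × (ℂ × (Fin (N + 1) → Fin (N + 1) → ℂ)) | (t + q.1, q.2) ∈ Z} (0, p) := by
      intro p hp
      have h1 : ∀ i, LocAn {q : ℂ × (ℂ × (Fin (N + 1) → Fin (N + 1) → ℂ)) | (u₀ + (t + q.1) • e, q.2.1, q.2.2 i) ∈ Y} (0, p) := by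
        intro i
        refine LocAn.preimage
          (f := fun q : ℂ × (ℂ × (Fin (N + 1) → Fin (N + 1) → ℂ)) => (u₀ + (t + q.1) • e, q.2.1, q.2.2 i)) (b := (0, p)) ?_ ?_
        · show LocAn Y (u₀ + (t + (0 : ℂ)) • e, p.1, p.2 i)
          rw [add_zero]
          exact h.an _ (hV t ht) _ _ (locB_ne (hKn p hp i))
        · refine Eventually.of_forall fun q => ?_
          have h3 : DifferentiableAt ℂ (fun q : ℂ × (ℂ × (Fin (N + 1) → Fin (N + 1) → ℂ)) => u₀ + (t + q.1) • e) q := by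
            fun_prop
          have h4 : DifferentiableAt ℂ (fun q : ℂ × (ℂ × (Fin (N + 1) → Fin (N + 1) → ℂ)) => q.2.1) q := by
            fun_prop
          have h5 : DifferentiableAt ℂ (fun q : ℂ × (ℂ × (Fin (N + 1) → Fin (N + 1) → ℂ)) => q.2.2 i) q := by
            fun_prop
          exact h3.prodMk (h4.prodMk h5)
      have h2 : ∀ i, LocAn {q : ℂ × (ℂ × (Fin (N + 1) → Fin (N + 1) → ℂ)) | q.2.2 i i = 0} (0, p) := by
        intro i
        refine LocAn.zero (F := fun q : ℂ × (ℂ × (Fin (N + 1) → Fin (N + 1) → ℂ)) => q.2.2 i i) (Eventually.of_forall fun q => ?_)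
        fun_prop
      exact LocAn.iInter fun i => (h1 i).inter (h2 i)
    have hP : ∀ p ∈ K, P ∈ 𝓝 p := by
      intro p hp
      have h1 : ∀ᶠ q in 𝓝 p, ∀ i, q.2 i ≠ 0 := by
        rw [eventually_all]
        intro i
        have hc : ContinuousAt (fun q : (ℂ × (Fin (N + 1) → Fin (N + 1) → ℂ)) => q.2 i) p := by fun_prop
        exact hc.eventually_ne (locB_ne (hKn p hp i))
      exact h1
    have hV' : ∀ᶠ s in 𝓝[≠] t, u₀ + s • e ∈ V :=
      ((hline t).eventually (h.isOpen.mem_nhds (hV t ht))).filter_mono nhdsWithin_le_nhds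
    have hfr' : ∃ᶠ s in 𝓝[≠] t, ∃ p ∈ K, (s, p) ∈ Z := by
      refine (hfr.and_eventually hV').mono ?_
      rintro s ⟨⟨x, hx⟩, hsV⟩
      obtain ⟨m, n, hmn⟩ := locB_shift x
      have h1 : ∀ i, ∃ w : Fin (N + 1) → ℂ, ‖w‖ = 1 ∧ w i = 0 ∧
          (u₀ + s • e, x + (m : ℂ) + (n : ℂ) * I, w) ∈ Y := fun i =>
        locB_norm h hsV ((h.Hs_per i hsV x m n).2 (hx i))
      choose W hW1 hW2 hW3 using h1
      refine ⟨(x + (m : ℂ) + (n : ℂ) * I, W), ⟨hmn, fun i _ => ?_⟩, fun i => ⟨hW3 i, hW2 i⟩⟩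
      rw [mem_sphere_zero_iff_norm]
      exact hW1 i
    filter_upwards [locB_acc' t Z K P hK hZ hP hfr'] with s hs
    obtain ⟨m, hm, hs⟩ := hs
    exact ⟨m.1, fun i => ⟨m.2 i, hm i, (hs i).2, (hs i).1⟩⟩

theorem LD.lineDich_Tl (h : LD V Y B i0) (i : Fin (N + 1)) : LineDich V (Tl Y i) := by
  intro u₀ e D hD hD' hV
  have hline : ∀ t : ℂ, ContinuousAt (fun s : ℂ => u₀ + s • e) t := fun t => by fun_prop
  by_cases hall : ∀ t ∈ D, u₀ + t • e ∈ Tl Y i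
  · exact Or.inl hall
  refine Or.inr ?_
  push Not at hall
  obtain ⟨t1, ht1, hn⟩ := hall
  have hn' : ¬ ∀ x : ℂ, (u₀ + t1 • e, x) ∈ Hs Y i := hn
  push Not at hn'
  obtain ⟨x1, hx1⟩ := hn'
  have key := planar_dich (S := {t | (u₀ + t • e, x1) ∈ Hs Y i}) hD hD' ?_ ?_
  · rcases key with key | key
    · exact absurd (key ht1) hx1
    · intro t ht
      filter_upwards [key t ht] with s hs hcon
      exact hs (hcon x1)
  · intro t ht htS
    have hc : ContinuousAt (fun s : ℂ => (u₀ + s • e, x1)) t := by fun_prop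
    exact hc.eventually (h.Hs_closed i (hV t ht) htS)
  · intro t ht hfr
    let Z : Set (ℂ × (Fin (N + 1) → ℂ)) := {q | (u₀ + q.1 • e, x1, q.2) ∈ Y ∧ q.2 i = 0}
    let K : Set (Fin (N + 1) → ℂ) := sphere (0 : Fin (N + 1) → ℂ) 1
    let P : Set (Fin (N + 1) → ℂ) := {p | p ≠ 0}
    have hK : IsCompact K := isCompact_sphere _ _
    have hKn : ∀ p ∈ K, p ≠ 0 := by
      intro p hp
      exact locB_ne (mem_sphere_zero_iff_norm.1 hp)
    have hZ : ∀ p ∈ K, LocAn {q : ℂ × (Fin (N + 1) → ℂ) | (t + q.1, q.2) ∈ Z} (0, p) := by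
      intro p hp
      have h1 : LocAn {q : ℂ × (Fin (N + 1) → ℂ) | (u₀ + (t + q.1) • e, x1, q.2) ∈ Y} (0, p) := by
        refine LocAn.preimage
          (f := fun q : ℂ × (Fin (N + 1) → ℂ) => (u₀ + (t + q.1) • e, x1, q.2)) (b := (0, p)) ?_ ?_
        · show LocAn Y (u₀ + (t + (0 : ℂ)) • e, x1, p)
          rw [add_zero]
          exact h.an _ (hV t ht) _ _ (hKn p hp)
        · refine Eventually.of_forall fun q => ?_
          have h3 : DifferentiableAt ℂ (fun q : ℂ × (Fin (N + 1) → ℂ) => u₀ + (t + q.1) • e) q := by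
            fun_prop
          have h5 : DifferentiableAt ℂ (fun q : ℂ × (Fin (N + 1) → ℂ) => q.2) q := by
            fun_prop
          exact h3.prodMk ((differentiableAt_const _).prodMk h5)
      have h2 : LocAn {q : ℂ × (Fin (N + 1) → ℂ) | q.2 i = 0} (0, p) := by
        refine LocAn.zero (F := fun q : ℂ × (Fin (N + 1) → ℂ) => q.2 i) (Eventually.of_forall fun q => ?_)
        fun_prop
      exact h1.inter h2
    have hP : ∀ p ∈ K, P ∈ 𝓝 p := by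
      intro p hp
      exact isOpen_ne.mem_nhds (hKn p hp)
    have hV' : ∀ᶠ s in 𝓝[≠] t, u₀ + s • e ∈ V :=
      ((hline t).eventually (h.isOpen.mem_nhds (hV t ht))).filter_mono nhdsWithin_le_nhds
    have hfr' : ∃ᶠ s in 𝓝[≠] t, ∃ p ∈ K, (s, p) ∈ Z := by
      refine (hfr.and_eventually hV').mono ?_
      rintro s ⟨hx, hsV⟩
      obtain ⟨w, hw1, hw2, hw3⟩ := locB_norm h hsV hx
      refine ⟨w, ?_, hw3, hw2⟩
      exact mem_sphere_zero_iff_norm.2 hw1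
    filter_upwards [locB_acc' t Z K P hK hZ hP hfr'] with s hs
    obtain ⟨m, hm, hs⟩ := hs
    exact ⟨m, hm, hs.2, hs.1⟩

theorem LD.lineDich_union (h : LD V Y B i0) (i : Fin (N + 1)) :
    LineDich V (Ts Y ∪ Tl Y i) := by
  intro u₀ e D hD hD' hV
  rcases h.lineDich_Ts u₀ e D hD hD' hV with h1 | h1
  · exact Or.inl fun t ht => Or.inl (h1 t ht)
  rcases h.lineDich_Tl i u₀ e D hD hD' hV with h2 | h2
  · exact Or.inl fun t ht => Or.inr (h2 t ht)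
  refine Or.inr fun t ht => ?_
  filter_upwards [h1 t ht, h2 t ht] with s h3 h4 h5
  rcases h5 with h5 | h5
  · exact h3 h5
  · exact h4 h5

theorem LD.Gd_open (h : LD V Y B i0) {u : E} (hu : u ∈ Gd V Y i0) :
    ∀ᶠ u' in 𝓝 u, u' ∈ Gd V Y i0 := by
  filter_upwards [h.isOpen.mem_nhds hu.1, h.Ts_closed hu.1 hu.2.1, h.Tl_closed i0 hu.1 hu.2.2]
    with u' h1 h2 h3
  exact ⟨h1, h2, h3⟩

end Pool.Agent.Moi
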