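import Pool.Agent.H.MP_795b03_ag.LocB

/-! JOB LocBaire: the set Ts of base points with indeterminacy has empty interior (Baire), and the
good set is dense.

Ts_dense: let V' ⊆ V be open and nonempty; we find u ∈ V', u ∉ Ts Y.
Let V2 = {u ∈ V | ∃ x, (u,x) ∉ B}; it is open (B is relatively closed: LocAn.compl_mem with h.anB) and dense in V (given u ∈ V, (u,0) ∈ closure Bᶜ).
(a) For u ∈ V2 the set B_u = {x | (u,x) ∈ B} is discrete: every x0 has a punctured neighbourhood with (u,x) ∉ B.  (planar_dich with D = univ, S = B_u: it is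
LocAn at every point as a subset of ℂ by LocAn.preimage; a LocAn subset of ℂ which accumulates at a point contains a punctured neighbourhood by
one_var_dich applied to its equations.  D ⊆ S is excluded by u ∈ V2.)
(b) For u ∈ V2 and x0 ∈ ℂ there are j and n ∈ ℕ and rho > 0 with: for 0 < |x - x0| < rho and all w ≠ 0, (u,x,w) ∈ Y: ‖w k‖ ≤ n ‖w j‖ for all k.  Proof: choose x_m → x0, x_m ≠ x0,
unit vectors w_m with (u, x_m, w_m) ∈ Y (fib_nonempty), w_m → w* along a subsequence, w* j ≠ 0 for some j.  Apply curve_limit to Z = {(s,w) | (u, x0 + s, w) ∈ Y} ⊆ ℂ × (Fin (N+1) → ℂ)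
at (0,w*), with P = {w | w j ≠ 0 and ‖w k‖ < n ‖w j‖ for all k}, n larger than all ‖w* k‖/‖w* j‖.  So for small s ≠ 0 some w ∈ P has (u, x0+s, w) ∈ Y; for such x = x0 + s
also (u,x) ∉ B by (a), so (h.lift) all elements of the fibre are multiples of w, and satisfy the inequality.
(c) For j, n and a closed ball K = closedBall c r with c in a countable dense subset of ℂ (e.g. rational real and imaginary part) and r = 1/(l+1) let
E_{j,n,K} = {u ∈ V | ∀ x ∈ ball c r, (u,x) ∉ B → ∀ w ≠ 0, (u,x,w) ∈ Y → ∀ k, ‖w k‖ ≤ n ‖w j‖}.  It is relatively closed in V: let u_m → u ∈ V, u_m ∈ E, x ∈ ball c r, (u,x) ∉ B; phi a lift at (u,x); for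
m large (u_m,x) ∉ B and phi(u_m,x) is in the fibre, so the inequality holds for phi(u_m,x), and in the limit for phi(u,x) and its multiples.
(d) Baire: V' ∩ V2 is open nonempty, the frontiers (relative to V) of the countably many relatively closed sets E_{j,n,K} are nowhere dense, so there is
u ∈ V' ∩ V2 such that for all (j,n,K): u ∈ E_{j,n,K} implies that E_{j,n,K} is a neighbourhood of u.  (E is finite dimensional, so complete, so BaireSpace; work e.g. with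
the closed sets closure (E_{j,n,K}) intersected with V: relatively closed means closure (E) ∩ V = E; frontier of the closure is closed and nowhere dense: interior_frontier; use
dense_iInter_of_isOpen for the complements of the frontiers.)
(e) This u is not in Ts Y: let x0 ∈ ℂ.  Take j, n, rho from (b).  If (u,x0) ∉ B enlarge n such that the inequality also holds at x0 (lift).  Choose (c,r) in the family with x0 ∈ ball c r ⊆ ball x0 rho.
Then u ∈ E_{j,n,K}, so for q = (u',x) near (u,x0) with q ∉ B all w in the fibre satisfy ‖w k‖ ≤ n ‖w j‖.  If w ≠ 0, w j = 0, (u,x0,w) ∈ Y, then by h.clos it is a limit of (q_m, w_m) ∈ Y with q_m ∉ B, so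
‖w k‖ ≤ n ‖w j‖ = 0 for all k, contradiction.  So (u,x0) ∉ Hs Y j.
Gd_dense: Ts_dense, h.nd (if an open subset of V were contained in Tl Y i0, then an open subset of E × ℂ would be contained in Hs Y i0), and relatively closed sets
(Ts_closed, Tl_closed): intersection of two open dense subsets of V.
-/

set_option autoImplicit false

open Topology Filter Set Complex Metric

namespace Pool.Agent.Moi

variable {E : Type} [NormedAddCommGroup E] [NormedSpace ℂ E] [FiniteDimensional ℂ E] {N : ℕ}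
  {V : Set E} {Y : Set (E × ℂ × (Fin (N + 1) → ℂ))} {B : Set (E × ℂ)} {i0 : Fin (N + 1)}

omit [FiniteDimensional ℂ E] in
private theorem LocBaire_mult {p : E × ℂ} {phi : E × ℂ → Fin (N + 1) → ℂ} (h : LiftOf Y p phi)
    {j : Fin (N + 1)} {n : ℕ} (hphi : ‖phi p‖ ≤ n * ‖phi p j‖) :
    ∀ w : Fin (N + 1) → ℂ, w ≠ 0 → (p.1, p.2, w) ∈ Y → ‖w‖ ≤ n * ‖w j‖ := by
  intro w hw hY
  obtain ⟨c, -, rfl⟩ := (h.2.2.self_of_nhds w hw).1 hY
  rw [norm_smul, Pi.smul_apply, norm_smul]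
  nlinarith [norm_nonneg c, norm_nonneg (phi p), norm_nonneg (phi p j)]

omit [FiniteDimensional ℂ E] in
private theorem LocBaire_phi_cont {p : E × ℂ} {phi : E × ℂ → Fin (N + 1) → ℂ}
    (h : LiftOf Y p phi) : ContinuousAt phi p :=
  continuousAt_pi.2 fun i => (h.1 i).continuousAt

omit [FiniteDimensional ℂ E] in
/-- if the inequality holds at points accumulating at `p ∉ B`, then it holds at `p`. -/
private theorem LocBaire_limit (h : LD V Y B i0) {u : E} (hu : u ∈ V) {x : ℂ} (hx : (u, x) ∉ B)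
    {j : Fin (N + 1)} {n : ℕ}
    (hf : ∃ᶠ q in 𝓝 (u, x), q ∉ B → ∀ w : Fin (N + 1) → ℂ, w ≠ 0 → (q.1, q.2, w) ∈ Y →
      ‖w‖ ≤ n * ‖w j‖) :
    ∀ w : Fin (N + 1) → ℂ, w ≠ 0 → (u, x, w) ∈ Y → ‖w‖ ≤ n * ‖w j‖ := by
  obtain ⟨phi, hphi⟩ := h.lift u hu x hx
  have hc := LocBaire_phi_cont hphi
  refine LocBaire_mult hphi ?_
  by_contra hcon
  push Not at hcon
  have h1 : ∀ᶠ q in 𝓝 (u, x), (n : ℝ) * ‖phi q j‖ < ‖phi q‖ := by
    have hcj : ContinuousAt (fun q => (n : ℝ) * ‖phi q j‖) (u, x) :=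
      continuousAt_const.mul ((continuousAt_pi.1 hc j).norm)
    exact hcj.eventually_lt hc.norm hcon
  have h2 : ∀ᶠ q in 𝓝 (u, x), phi q ≠ 0 := hc.eventually_ne hphi.2.1
  have h3 : ∀ᶠ q in 𝓝 (u, x), q ∉ B := (h.anB u hu x).compl_mem hx
  obtain ⟨q, hq, h1, h2, h3, h4⟩ := (hf.and_eventually (h1.and (h2.and (h3.and hphi.2.2)))).exists
  have h5 := hq h3 (phi q) h2 ((h4 (phi q) h2).2 ⟨1, one_ne_zero, (one_smul _ _).symm⟩)
  linarith

private def LocBaire_S (Y : Set (E × ℂ × (Fin (N + 1) → ℂ))) (B : Set (E × ℂ))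
    (j : Fin (N + 1)) (n : ℕ) (O : Set ℂ) : Set E :=
  {u | ∀ x ∈ O, (u, x) ∉ B → ∀ w : Fin (N + 1) → ℂ, w ≠ 0 → (u, x, w) ∈ Y → ‖w‖ ≤ n * ‖w j‖}

omit [FiniteDimensional ℂ E] in
private theorem LocBaire_S_closed (h : LD V Y B i0) {u : E} (hu : u ∈ V) {j : Fin (N + 1)} {n : ℕ}
    {O : Set ℂ} (h0 : u ∈ closure (LocBaire_S Y B j n O)) : u ∈ LocBaire_S Y B j n O := by
  intro x hx hxB
  refine LocBaire_limit h hu hxB ?_
  have h1 : ∃ᶠ u' in 𝓝 u, u' ∈ LocBaire_S Y B j n O := mem_closure_iff_frequently.1 h0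
  have h2 : Tendsto (fun u' : E => (u', x)) (𝓝 u) (𝓝 (u, x)) :=
    (Continuous.prodMk_left x).tendsto u
  exact h2.frequently (h1.mono fun u' hu' hq => hu' x hx hq)

private theorem LocBaire_b (h : LD V Y B i0) {u : E} (hu : u ∈ V) (x : ℂ) :
    ∃ (j : Fin (N + 1)) (n : ℕ), ∀ᶠ z in 𝓝[≠] x, (u, z) ∉ B →
      ∀ w : Fin (N + 1) → ℂ, w ≠ 0 → (u, z, w) ∈ Y → ‖w‖ ≤ n * ‖w j‖ := by
  have hex : ∀ s : ℂ, ∃ w : Fin (N + 1) → ℂ, w ∈ sphere (0 : Fin (N + 1) → ℂ) 1 ∧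
      (u, x + s, w) ∈ Y := by
    intro s
    obtain ⟨w, hw, hY⟩ := h.fib_nonempty hu (x + s)
    have hw' : (‖w‖ : ℂ) ≠ 0 := by exact_mod_cast norm_ne_zero_iff.2 hw
    refine ⟨((‖w‖ : ℂ)⁻¹) • w, ?_, (h.cone u hu (x + s) w hw _ (inv_ne_zero hw')).2 hY⟩
    rw [mem_sphere_zero_iff_norm, norm_smul, norm_inv, Complex.norm_real, norm_norm,
      inv_mul_cancel₀ (norm_ne_zero_iff.2 hw)]
  choose W hW1 hW2 using hex
  obtain ⟨t, ht0, htends⟩ : ∃ t : ℕ → ℂ, (∀ m, t m ≠ 0) ∧ Tendsto t atTop (𝓝 0) := by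
    refine ⟨fun m => 1 / ((m : ℂ) + 1), fun m => ?_, tendsto_one_div_add_atTop_nhds_zero_nat⟩
    have : ((m : ℂ) + 1) ≠ 0 := by exact_mod_cast Nat.succ_ne_zero m
    exact one_div_ne_zero this
  obtain ⟨w, hw, ψ, hψ, hlim⟩ := (isCompact_sphere (0 : Fin (N + 1) → ℂ) 1).tendsto_subseq
    (fun m => hW1 (t m))
  have hw1 : ‖w‖ = 1 := mem_sphere_zero_iff_norm.1 hw
  have hw0 : w ≠ 0 := norm_ne_zero_iff.1 (by rw [hw1]; exact one_ne_zero)
  obtain ⟨j, hj⟩ := Function.ne_iff.1 hw0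
  rw [Pi.zero_apply] at hj
  obtain ⟨n, hn⟩ := exists_nat_gt (‖w‖ / ‖w j‖)
  rw [div_lt_iff₀ (norm_pos_iff.2 hj)] at hn
  refine ⟨j, n, ?_⟩
  have hlim2 : Tendsto (fun m => (t (ψ m), W (t (ψ m)))) atTop (𝓝 ((0 : ℂ), w)) :=
    (htends.comp hψ.tendsto_atTop).prodMk_nhds hlim
  have hZ : LocAn {q : ℂ × (Fin (N + 1) → ℂ) | (u, x + q.1, q.2) ∈ Y} ((0 : ℂ), w) := by
    have h1 : LocAn Y ((fun q : ℂ × (Fin (N + 1) → ℂ) => (u, x + q.1, q.2)) ((0 : ℂ), w)) :=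
      h.an u hu (x + 0) w hw0
    exact LocAn.preimage (f := fun q : ℂ × (Fin (N + 1) → ℂ) => (u, x + q.1, q.2)) (b := ((0 : ℂ), w)) h1
      (Eventually.of_forall fun q => by fun_prop)
  have hP : {v : Fin (N + 1) → ℂ | ‖v‖ < n * ‖v j‖} ∈ 𝓝 w := by
    refine (isOpen_lt ?_ ?_).mem_nhds hn <;> fun_prop
  have hcl := curve_limit _ w hZ (hlim2.frequently (Frequently.of_forall fun m =>
    ⟨hW2 (t (ψ m)), ht0 (ψ m)⟩)) _ hP
  have hmap : Tendsto (fun z : ℂ => z - x) (𝓝[≠] x) (𝓝[≠] (0 : ℂ)) := by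
    refine tendsto_nhdsWithin_iff.2 ⟨?_, ?_⟩
    · refine Tendsto.mono_left ?_ nhdsWithin_le_nhds
      have : Tendsto (fun z : ℂ => z - x) (𝓝 x) (𝓝 (x - x)) :=
        (continuous_id.sub continuous_const).tendsto x
      rwa [sub_self] at this
    · filter_upwards [self_mem_nhdsWithin] with z hz
      exact sub_ne_zero.2 hz
  filter_upwards [hmap.eventually hcl] with z hz hzB
  obtain ⟨v, hv, hvY⟩ := hz
  simp only [add_sub_cancel] at hv hvY
  have hv0 : v ≠ 0 := by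
    rintro rfl
    simp at hv
  obtain ⟨phi, hphi⟩ := h.lift u hu z hzB
  refine LocBaire_mult hphi ?_
  obtain ⟨c, hc, rfl⟩ := (hphi.2.2.self_of_nhds v hv0).1 hvY
  rw [norm_smul, Pi.smul_apply, norm_smul] at hv
  have hc' : 0 < ‖c‖ := norm_pos_iff.2 hc
  have h1 : ‖c‖ * ‖phi (u, z)‖ < ‖c‖ * (n * ‖phi (u, z) j‖) := by
    calc _ < _ := hv
      _ = _ := by ring
  exact (lt_of_mul_lt_mul_left h1 hc'.le).le

private theorem LocBaire_b' (h : LD V Y B i0) {u : E} (hu : u ∈ V) (x : ℂ) :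
    ∃ (j : Fin (N + 1)) (n : ℕ), ∀ᶠ z in 𝓝 x, (u, z) ∉ B →
      ∀ w : Fin (N + 1) → ℂ, w ≠ 0 → (u, z, w) ∈ Y → ‖w‖ ≤ n * ‖w j‖ := by
  obtain ⟨j, n, hb⟩ := LocBaire_b h hu x
  refine ⟨j, n, ?_⟩
  rw [← nhdsNE_sup_pure, eventually_sup]
  refine ⟨hb, ?_⟩
  rw [eventually_pure]
  intro hx
  refine LocBaire_limit h hu hx ?_
  have h2 : Tendsto (fun z : ℂ => (u, z)) (𝓝[≠] x) (𝓝 (u, x)) :=
    ((Continuous.prodMk_right u).tendsto x).mono_left nhdsWithin_le_nhds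
  exact h2.frequently hb.frequently

theorem LD.Ts_dense (h : LD V Y B i0) {u : E} (hu : u ∈ V) : u ∈ closure ((Ts Y)ᶜ : Set E) := by
  have : CompleteSpace E := FiniteDimensional.complete ℂ E
  rw [_root_.mem_closure_iff]
  intro O hO huO
  -- the countable family
  let A : Fin (N + 1) × ℕ × ℕ × ℕ → Set E := fun p =>
    closure (LocBaire_S Y B p.1 p.2.1
      (ball (TopologicalSpace.denseSeq ℂ p.2.2.1) (1 / ((p.2.2.2 : ℝ) + 1))))
  have hdense : Dense (⋂ p, (frontier (A p))ᶜ) := by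
    refine dense_iInter_of_isOpen (fun p => isClosed_frontier.isOpen_compl) fun p => ?_
    rw [← interior_eq_empty_iff_dense_compl]
    exact interior_frontier isClosed_closure
  obtain ⟨u1, hu1, hu1'⟩ := (hdense.inter_open_nonempty (O ∩ V) (hO.inter h.isOpen) ⟨u, huO, hu⟩)
  refine ⟨u1, hu1.1, ?_⟩
  have hu1V := hu1.2
  rintro ⟨x, hx⟩
  obtain ⟨j, n, hb⟩ := LocBaire_b' h hu1V x
  obtain ⟨ρ, hρ, hb⟩ := Metric.eventually_nhds_iff_ball.1 hb
  obtain ⟨l, hl⟩ := exists_nat_one_div_lt (half_pos hρ)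
  have hlpos : (0 : ℝ) < 1 / ((l : ℝ) + 1) := by positivity
  obtain ⟨c, hc⟩ := (TopologicalSpace.denseRange_denseSeq ℂ).exists_dist_lt x hlpos
  have hsub : ball (TopologicalSpace.denseSeq ℂ c) (1 / ((l : ℝ) + 1)) ⊆ ball x ρ := by
    refine ball_subset_ball' ?_
    rw [dist_comm]
    linarith
  have hmem : u1 ∈ LocBaire_S Y B j n (ball (TopologicalSpace.denseSeq ℂ c) (1 / ((l : ℝ) + 1))) :=
    fun z hz => hb z (hsub hz)
  have h1 : u1 ∈ interior (A (j, n, c, l)) := by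
    have h2 := mem_iInter.1 hu1' (j, n, c, l)
    have h3 : u1 ∈ A (j, n, c, l) := subset_closure hmem
    by_contra hcon
    apply h2
    rw [frontier, closure_closure]
    exact ⟨h3, hcon⟩
  have hev : ∀ᶠ u' in 𝓝 u1,
      u' ∈ LocBaire_S Y B j n (ball (TopologicalSpace.denseSeq ℂ c) (1 / ((l : ℝ) + 1))) := by
    filter_upwards [isOpen_interior.mem_nhds h1, h.isOpen.mem_nhds hu1V] with u' h2 h3
    exact LocBaire_S_closed h h3 (interior_subset h2)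
  have hballx : ∀ᶠ z in 𝓝 x, z ∈ ball (TopologicalSpace.denseSeq ℂ c) (1 / ((l : ℝ) + 1)) :=
    isOpen_ball.mem_nhds hc
  obtain ⟨w, hw, hwj, hwY⟩ := hx j
  have hclos := h.clos u1 hu1V x w hw hwY
  have hle : ‖w‖ ≤ n * ‖w j‖ := by
    by_contra hcon
    push Not at hcon
    have h4 : ∀ᶠ v in 𝓝 w, (n : ℝ) * ‖v j‖ < ‖v‖ := by
      refine (isOpen_lt ?_ ?_).mem_nhds hcon <;> fun_prop
    have h5 : ∀ᶠ v in 𝓝 w, v ≠ 0 := isOpen_ne.mem_nhds hw
    have h6 : ∀ᶠ q in 𝓝 (u1, x, w), q.1 ∈ LocBaire_S Y B j n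
        (ball (TopologicalSpace.denseSeq ℂ c) (1 / ((l : ℝ) + 1))) ∧
        q.2.1 ∈ ball (TopologicalSpace.denseSeq ℂ c) (1 / ((l : ℝ) + 1)) ∧
        (n : ℝ) * ‖q.2.2 j‖ < ‖q.2.2‖ ∧ q.2.2 ≠ 0 := by
      rw [nhds_prod_eq, nhds_prod_eq]
      exact hev.prod_mk (hballx.prod_mk (h4.and h5))
    obtain ⟨q, ⟨hq1, hq2⟩, hq3, hq4, hq5, hq6⟩ :=
      ((mem_closure_iff_frequently.1 hclos).and_eventually h6).exists
    have := hq3 q.2.1 hq4 hq2 q.2.2 hq6 hq1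
    linarith
  rw [hwj, norm_zero, mul_zero] at hle
  exact hw (norm_le_zero_iff.1 hle)

theorem LD.Gd_dense (h : LD V Y B i0) {u : E} (hu : u ∈ V) : u ∈ closure (Gd V Y i0) := by
  rw [_root_.mem_closure_iff]
  intro O hO huO
  have h1 := h.nd u hu 0
  rw [_root_.mem_closure_iff] at h1
  obtain ⟨⟨u1, x1⟩, ⟨hu1, -⟩, hu1'⟩ := h1 ((O ∩ V) ×ˢ univ) ((hO.inter h.isOpen).prod isOpen_univ)
    ⟨⟨huO, hu⟩, mem_univ _⟩
  have h2 : u1 ∉ Tl Y i0 := fun h3 => hu1' (h3 x1)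
  obtain ⟨O', hO', hO'o, hu1O'⟩ := _root_.eventually_nhds_iff.1 (h.Tl_closed i0 hu1.2 h2)
  have h3 := h.Ts_dense hu1.2
  rw [_root_.mem_closure_iff] at h3
  obtain ⟨u2, hu2, hu2'⟩ := h3 (O' ∩ (O ∩ V)) (hO'o.inter (hO.inter h.isOpen)) ⟨hu1O', hu1⟩
  exact ⟨u2, hu2.2.1, hu2.2.2, hu2', hO' u2 hu2.1⟩

end Pool.Agent.Moi
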