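import Pool.Agent.H.MP_795b03_ag.LocB

/-! JOB LocC: the divisor over a good base point and its local variation (on the ℂ level).

Let u1 ∈ Gd V Y i0.  Since u1 ∉ Ts Y, every (u1,x) has a lift (LD.isLift_iff).
mlt_ne_zero_iff: let phi be a lift at (u,x).  The analytic function z ↦ phi (u,z) i0 is not identically zero near x: otherwise
the set A = {x | (u,z) ∈ Hs Y i0 for all z near x} is nonempty; A is open, and closed: if x' is a limit of A, take a lift phi' at (u,x'): z ↦ phi'(u,z) i0 vanishes on an open set with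
limit point x', so it vanishes near x' (identity principle); so A = ℂ and u ∈ Tl Y i0, contradiction.  Hence its order is finite and it is ≠ 0 iff phi (u,x) i0 = 0 iff (u,x) ∈ Hs Y i0
((u,x,w) ∈ Y iff w = c • phi (u,x)).
zeros_discrete: (u,z) ∉ Hs Y i0 for z ≠ x near x (zeros of an analytic function that is not identically zero).
local_count: let phi be a lift at (u1,x1), valid on a ball of radius rho0 around (u1,x1), G(q) = phi q i0.  For 0 < r < rho0 small G(u1,z) ≠ 0 for 0 < |z - x1| ≤ r, so zeros_param applies with this G, z0 = x1 and the radius r.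
For u near u1 and all z ∈ closedBall x1 r, phi is a lift at (u,z) (shrink: tube lemma) so mlt Y i0 u z = analyticOrderNatAt (G(u,.)) z = Nat.card {i // alpha u i = z} by mlt_eq.  Hence {z ∈ ball x1 r | mlt ≠ 0} ⊆ range (alpha u) finite, and
for every function g: ∑ᶠ z ∈ ball x1 r, mlt u z * g z = ∑ i, g (alpha u i).  With g = 1: the number k, which for u = u1 equals mlt u1 x1 (the only zero of G(u1,.) in the disc is x1).  With g(u,z) = z: s(u) = ∑ alpha u i,
holomorphic at u1 by zeros_param; s(u1) = k x1.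
u ∈ Gd for u near u1: Gd_open.  On the sphere G(u,.) ≠ 0, so mlt = 0.
-/

set_option autoImplicit false
set_option linter.unusedSectionVars false

open Topology Filter Set Complex Metric

namespace Pool.Agent.Moi

variable {E : Type} [NormedAddCommGroup E] [NormedSpace ℂ E] [FiniteDimensional ℂ E] {N : ℕ}
  {V : Set E} {Y : Set (E × ℂ × (Fin (N + 1) → ℂ))} {B : Set (E × ℂ)} {i0 : Fin (N + 1)}

omit [FiniteDimensional ℂ E] in
private theorem LocC_lift_ev {p : E × ℂ} {phi : E × ℂ → Fin (N + 1) → ℂ} (h : LiftOf Y p phi) :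
    ∀ᶠ q in 𝓝 p, LiftOf Y q phi := by
  obtain ⟨h1, h2, h3⟩ := h
  have hc : ContinuousAt phi p := by
    rw [continuousAt_pi]
    exact fun i => (h1 i).continuousAt
  filter_upwards [eventually_all.2 fun i => (h1 i).eventually, hc.eventually_ne h2,
    eventually_eventually_nhds.2 h3] with q a b c
  exact ⟨a, b, c⟩

omit [FiniteDimensional ℂ E] in
private theorem LocC_hs_iff {p : E × ℂ} {phi : E × ℂ → Fin (N + 1) → ℂ} (h : LiftOf Y p phi)
    (i : Fin (N + 1)) : p ∈ Hs Y i ↔ phi p i = 0 := by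
  obtain ⟨h1, h2, h3⟩ := h
  have h4 := h3.self_of_nhds
  constructor
  · rintro ⟨w, hw, hwi, hwY⟩
    obtain ⟨c, hc, rfl⟩ := (h4 w hw).1 hwY
    rw [Pi.smul_apply, smul_eq_mul] at hwi
    exact (mul_eq_zero.1 hwi).resolve_left hc
  · intro h5
    exact ⟨phi p, h2, h5, (h4 _ h2).2 ⟨1, one_ne_zero, (one_smul _ _).symm⟩⟩

omit [FiniteDimensional ℂ E] in
private theorem LocC_slice {u : E} {x : ℂ} {G : E × ℂ → ℂ} (h : HolAt G (u, x)) :
    AnalyticAt ℂ (fun z => G (u, z)) x := by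
  have h1 : HolAt (fun z : ℂ => G (u, z)) x :=
    HolAt.comp (f := fun z : ℂ => ((u, z) : E × ℂ)) h
      (Eventually.of_forall fun z => (differentiableAt_const u).prodMk differentiableAt_id)
  exact Complex.analyticAt_iff_eventually_differentiableAt.2 h1

omit [FiniteDimensional ℂ E] in
private theorem LocC_tend (u : E) (x : ℂ) : Tendsto (fun z : ℂ => ((u, z) : E × ℂ)) (𝓝 x)
    (𝓝 (u, x)) := (Continuous.prodMk_right u).tendsto x

private theorem LocC_exists_lift (h : LD V Y B i0) {u : E} (hu : u ∈ Gd V Y i0) (x : ℂ) :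
    ∃ phi, LiftOf Y (u, x) phi := by
  have h1 : ∃ i, (u, x) ∉ Hs Y i := by
    by_contra hno
    push Not at hno
    exact hu.2.1 ⟨x, hno⟩
  exact (h.isLift_iff hu.1 x).2 h1

omit [FiniteDimensional ℂ E] in
private theorem LocC_slice_iff {u : E} {x : ℂ} {phi : E × ℂ → Fin (N + 1) → ℂ}
    (h : LiftOf Y (u, x) phi) (i : Fin (N + 1)) :
    ∀ᶠ z in 𝓝 x, ((u, z) ∈ Hs Y i ↔ phi (u, z) i = 0) := by
  filter_upwards [(LocC_tend u x).eventually (LocC_lift_ev h)] with z hz
  exact LocC_hs_iff hz i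

private theorem LocC_not_all (h : LD V Y B i0) {u : E} (hu : u ∈ Gd V Y i0) (x : ℂ) :
    ¬ ∀ᶠ z in 𝓝 x, (u, z) ∈ Hs Y i0 := by
  intro hx
  set A : Set ℂ := {x | ∀ᶠ z in 𝓝 x, (u, z) ∈ Hs Y i0} with hA
  have hopen : IsOpen A := by
    rw [isOpen_iff_mem_nhds]
    intro y hy
    exact eventually_eventually_nhds.2 hy
  have hclosed : IsClosed A := by
    rw [← closure_subset_iff_isClosed]
    intro y hy
    obtain ⟨phi, hphi⟩ := LocC_exists_lift h hu y
    have hev := LocC_slice_iff hphi i0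
    rcases (LocC_slice (hphi.1 i0)).eventually_eq_zero_or_eventually_ne_zero with h1 | h1
    · filter_upwards [hev, h1] with z hz hz1
      exact hz.2 hz1
    · exfalso
      rw [eventually_nhdsWithin_iff] at h1
      have h2 : ∀ᶠ z in 𝓝 y, ((u, z) ∈ Hs Y i0 → z = y) := by
        filter_upwards [hev, h1] with z hz hz1 hz2
        by_contra hne
        exact hz1 hne (hz.1 hz2)
      obtain ⟨a, ha1, ha2⟩ := (mem_closure_iff_frequently.1 hy).and_eventually
        (eventually_eventually_nhds.2 h2) |>.exists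
      have h3 : ∀ᶠ z in 𝓝 a, z = y := by
        filter_upwards [ha1, ha2] with z hz1 hz2
        exact hz2 hz1
      have h4 : (𝓝[≠] a).NeBot := inferInstance
      have hay : a = y := h3.self_of_nhds
      have h5 : ∀ᶠ z in 𝓝[≠] a, False := by
        rw [eventually_nhdsWithin_iff]
        filter_upwards [h3] with z hz hza
        exact hza (hz.trans hay.symm)
      exact (h5.exists).elim fun _ hf => hf
  have huniv : A = univ := IsClopen.eq_univ ⟨hclosed, hopen⟩ ⟨x, hx⟩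
  apply hu.2.2
  intro y
  have : y ∈ A := by rw [huniv]; exact mem_univ y
  exact this.self_of_nhds

private theorem LocC_nonzero (h : LD V Y B i0) {u : E} (hu : u ∈ Gd V Y i0) {x : ℂ}
    {phi : E × ℂ → Fin (N + 1) → ℂ} (hphi : LiftOf Y (u, x) phi) :
    ∀ᶠ z in 𝓝[≠] x, phi (u, z) i0 ≠ 0 := by
  rcases (LocC_slice (hphi.1 i0)).eventually_eq_zero_or_eventually_ne_zero with h1 | h1
  · exfalso
    apply LocC_not_all h hu x
    filter_upwards [LocC_slice_iff hphi i0, h1] with z hz hz1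
    exact hz.2 hz1
  · exact h1

theorem LD.mlt_ne_zero_iff (h : LD V Y B i0) {u : E} (hu : u ∈ Gd V Y i0) (x : ℂ) :
    mlt Y i0 u x ≠ 0 ↔ (u, x) ∈ Hs Y i0 := by
  obtain ⟨phi, hphi⟩ := LocC_exists_lift h hu x
  have han := LocC_slice (hphi.1 i0)
  have htop : analyticOrderAt (fun z => phi (u, z) i0) x ≠ ⊤ := by
    intro htop
    rw [analyticOrderAt_eq_top] at htop
    have h1 : ∀ᶠ z in 𝓝[≠] x, False := by
      filter_upwards [LocC_nonzero h hu hphi, eventually_nhdsWithin_of_eventually_nhds htop]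
        with z hz1 hz2
      exact hz1 hz2
    exact (h1.exists).elim fun _ hf => hf
  rw [mlt_eq hphi, LocC_hs_iff hphi]
  rw [← han.analyticOrderAt_ne_zero]
  have h2 := Nat.cast_analyticOrderNatAt htop
  rw [← h2]
  simp

theorem LD.zeros_discrete (h : LD V Y B i0) {u : E} (hu : u ∈ Gd V Y i0) (x : ℂ) :
    ∀ᶠ z in 𝓝[≠] x, (u, z) ∉ Hs Y i0 := by
  obtain ⟨phi, hphi⟩ := LocC_exists_lift h hu x
  filter_upwards [LocC_nonzero h hu hphi,
    eventually_nhdsWithin_of_eventually_nhds (LocC_slice_iff hphi i0)] with z hz1 hz2 hz3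
  exact hz1 (hz2.1 hz3)

private theorem LocC_sum {M : Type} [AddCommMonoid M] {k : ℕ} (a : Fin k → ℂ) (S : Set ℂ)
    (ha : ∀ i, a i ∈ S) (m : ℂ → ℕ) (hm : ∀ z ∈ S, m z = Nat.card {i // a i = z}) (g : ℂ → M) :
    (∑ᶠ x ∈ S, m x • g x) = ∑ i, g (a i) := by
  classical
  have h1 : ∀ x ∈ S, m x = (Finset.univ.filter (fun i => a i = x)).card := by
    intro x hx
    rw [hm x hx, Nat.card_eq_fintype_card, Fintype.card_subtype]
  rw [finsum_mem_eq_sum_of_subset (t := Finset.univ.image a)]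
  · rw [Finset.sum_comp g a]
    refine Finset.sum_congr rfl fun x hx => ?_
    obtain ⟨i, -, rfl⟩ := Finset.mem_image.1 hx
    rw [h1 _ (ha i)]
  · rintro x ⟨hx, hx2⟩
    rw [Function.mem_support] at hx2
    rw [Finset.coe_image, Finset.coe_univ, image_univ]
    by_contra hno
    apply hx2
    rw [h1 x hx]
    have h3 : Finset.univ.filter (fun i => a i = x) = ∅ := by
      rw [Finset.filter_eq_empty_iff]
      intro i _ hi
      exact hno ⟨i, hi⟩
    rw [h3, Finset.card_empty, zero_smul]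
  · intro x hx
    rw [Finset.coe_image, Finset.coe_univ, image_univ] at hx
    obtain ⟨i, rfl⟩ := hx
    exact ha i

theorem LD.local_count (h : LD V Y B i0) {u₁ : E} (hu : u₁ ∈ Gd V Y i0) (x₁ : ℂ) :
    ∀ᶠ r in 𝓝[>] (0 : ℝ), ∃ s : E → ℂ, HolAt s u₁ ∧ s u₁ = (mlt Y i0 u₁ x₁ : ℂ) * x₁ ∧
      ∀ᶠ u in 𝓝 u₁, u ∈ Gd V Y i0 ∧ (∀ x ∈ sphere x₁ r, mlt Y i0 u x = 0) ∧
        {x | x ∈ ball x₁ r ∧ mlt Y i0 u x ≠ 0}.Finite ∧
        (∑ᶠ x ∈ ball x₁ r, mlt Y i0 u x) = mlt Y i0 u₁ x₁ ∧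
        (∑ᶠ x ∈ ball x₁ r, (mlt Y i0 u x : ℂ) * x) = s u := by
  classical
  obtain ⟨phi, hphi⟩ := LocC_exists_lift h hu x₁
  -- the open set where `phi` is a lift
  obtain ⟨O, hOsub, hO, hOx⟩ := _root_.mem_nhds_iff.1 (LocC_lift_ev hphi)
  have hev1 : ∀ᶠ z in 𝓝 x₁, (u₁, z) ∈ O :=
    (LocC_tend u₁ x₁).eventually (hO.mem_nhds hOx)
  have hev2 : ∀ᶠ z in 𝓝 x₁, z ≠ x₁ → phi (u₁, z) i0 ≠ 0 :=
    eventually_nhdsWithin_iff.1 (LocC_nonzero h hu hphi)
  obtain ⟨ρ, hρ, hball⟩ := Metric.mem_nhds_iff.1 (hev1.and hev2)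
  have hmem : ∀ᶠ r in 𝓝[>] (0 : ℝ), 0 < r ∧ r < ρ := by
    filter_upwards [Ioo_mem_nhdsGT hρ] with r hr
    exact hr
  filter_upwards [hmem] with r hr
  obtain ⟨hr0, hrρ⟩ := hr
  have hcb : ∀ z ∈ closedBall x₁ r, (u₁, z) ∈ O ∧ (z ≠ x₁ → phi (u₁, z) i0 ≠ 0) := fun z hz =>
    hball (closedBall_subset_ball hrρ hz)
  have hsp : ∀ z ∈ sphere x₁ r, phi (u₁, z) i0 ≠ 0 := by
    intro z hz
    apply (hcb z (sphere_subset_closedBall hz)).2
    rintro rfl
    rw [mem_sphere, dist_self] at hz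
    exact hr0.ne hz
  obtain ⟨k, α, hα, hsum⟩ := zeros_param (fun q => phi q i0) u₁ x₁ r hr0
    (fun z hz => (hOsub (hcb z hz).1).1 i0) hsp
  -- tube
  have htube : ∀ᶠ u in 𝓝 u₁, ∀ z ∈ closedBall x₁ r, (u, z) ∈ O := by
    obtain ⟨A, B', hA, hB, huA, hKB, hAB⟩ := generalized_tube_lemma
      (isCompact_singleton (x := u₁)) (isCompact_closedBall x₁ r) hO (by
        rintro ⟨u, z⟩ ⟨hu, hz⟩
        rw [mem_singleton_iff] at hu
        subst hu
        exact (hcb z hz).1)
    filter_upwards [hA.mem_nhds (huA rfl)] with u hu z hz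
    exact hAB ⟨hu, hKB hz⟩
  have key : ∀ᶠ u in 𝓝 u₁, u ∈ Gd V Y i0 ∧ (∀ i, α u i ∈ ball x₁ r) ∧
      (∀ z ∈ closedBall x₁ r, mlt Y i0 u z = Nat.card {i // α u i = z}) ∧
      (∀ z ∈ closedBall x₁ r, phi (u, z) i0 = 0 ↔ ∃ i, α u i = z) ∧
      (∀ z ∈ sphere x₁ r, phi (u, z) i0 ≠ 0) := by
    filter_upwards [h.Gd_open hu, hα, htube] with u h1 h2 h3
    refine ⟨h1, h2.1, ?_, h2.2.2.2.2, h2.2.2.1⟩
    intro z hz
    rw [mlt_eq (hOsub (h3 z hz)), h2.2.2.2.1 z hz]
  -- at the centre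
  have hk1 := key.self_of_nhds
  have hα1 : ∀ i, α u₁ i = x₁ := by
    intro i
    by_contra hne
    have h1 := ball_subset_closedBall (hk1.2.1 i)
    exact (hcb _ h1).2 hne ((hk1.2.2.2.1 _ h1).2 ⟨i, rfl⟩)
  have hk : mlt Y i0 u₁ x₁ = k := by
    rw [hk1.2.2.1 x₁ (mem_closedBall_self hr0.le)]
    rw [Nat.card_eq_fintype_card, Fintype.card_subtype]
    rw [Finset.filter_true_of_mem fun i _ => hα1 i, Finset.card_univ, Fintype.card_fin]
  refine ⟨fun u => ∑ i, α u i, ?_, ?_, ?_⟩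
  · exact hsum (fun q => q.2) fun z _ => Eventually.of_forall fun q => differentiableAt_snd
  · simp only [hα1, hk]
    simp
  · filter_upwards [key] with u hu2
    obtain ⟨h1, h2, h3, h4, h5⟩ := hu2
    have h3' : ∀ z ∈ ball x₁ r, mlt Y i0 u z = Nat.card {i // α u i = z} := fun z hz =>
      h3 z (ball_subset_closedBall hz)
    refine ⟨h1, ?_, ?_, ?_, ?_⟩
    · intro z hz
      rw [h3 z (sphere_subset_closedBall hz)]
      have hem : IsEmpty {i // α u i = z} := by
        constructor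
        rintro ⟨i, hi⟩
        exact h5 z hz ((h4 z (sphere_subset_closedBall hz)).2 ⟨i, hi⟩)
      exact Nat.card_of_isEmpty
    · refine (finite_range (α u)).subset ?_
      rintro z ⟨hz, hz2⟩
      rw [h3' z hz] at hz2
      have hne : Nonempty {i // α u i = z} := by
        by_contra hno
        rw [not_nonempty_iff] at hno
        exact hz2 Nat.card_of_isEmpty
      obtain ⟨i, hi⟩ := hne
      exact ⟨i, hi⟩
    · have h6 := LocC_sum (α u) (ball x₁ r) h2 (fun z => mlt Y i0 u z) h3' (fun _ => (1 : ℕ))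
      simp only [smul_eq_mul, mul_one, Finset.sum_const, Finset.card_univ, Fintype.card_fin] at h6
      rw [h6, hk]
    · have h6 := LocC_sum (α u) (ball x₁ r) h2 (fun z => mlt Y i0 u z) h3' (fun z => z)
      simp only [nsmul_eq_mul] at h6
      exact h6

end Pool.Agent.Moi
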