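import Pool.Agent.H.MP_795b03_ag.LocC

/-! The divisor over a good base point as a function on the elliptic curve El. -/

set_option autoImplicit false

open Topology Filter Set Complex Metric

namespace Pool.Agent.Moi

variable {E : Type} [NormedAddCommGroup E] [NormedSpace ℂ E] [FiniteDimensional ℂ E] {N : ℕ}
  {V : Set E} {Y : Set (E × ℂ × (Fin (N + 1) → ℂ))} {B : Set (E × ℂ)} {i0 : Fin (N + 1)}

private def lc2sq : Set ℂ := {z : ℂ | z.re ∈ Icc (0 : ℝ) 1 ∧ z.im ∈ Icc (0 : ℝ) 1}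

private theorem lc2sq_compact : IsCompact lc2sq := by
  have h : lc2sq = Complex.equivRealProdCLM.symm '' (Icc (0 : ℝ) 1 ×ˢ Icc (0 : ℝ) 1) := by
    ext z
    constructor
    · intro hz
      exact ⟨(z.re, z.im), ⟨hz.1, hz.2⟩, by
        apply Complex.ext <;> simp⟩
    · rintro ⟨⟨a, b⟩, ⟨ha, hb⟩, rfl⟩
      constructor
      · simpa using ha
      · simpa using hb
  rw [h]
  exact (isCompact_Icc.prod isCompact_Icc).image Complex.equivRealProdCLM.symm.continuous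

private theorem lc2_rep (q : El) : ∃ x ∈ lc2sq, pr x = q := by
  obtain ⟨z, hz⟩ := pr_surjective q
  refine ⟨z - (⌊z.re⌋ : ℂ) - (⌊z.im⌋ : ℂ) * I, ⟨?_, ?_⟩, ?_⟩
  · have h : (z - (⌊z.re⌋ : ℂ) - (⌊z.im⌋ : ℂ) * I).re = Int.fract z.re := by
      simp only [sub_re, intCast_re, mul_re, I_re, mul_zero, intCast_im, I_im, mul_one, sub_zero,
        zero_sub, sub_neg_eq_add, zero_mul, neg_zero, add_zero]
      rfl
    rw [h]
    exact ⟨Int.fract_nonneg _, (Int.fract_lt_one _).le⟩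
  · have h : (z - (⌊z.re⌋ : ℂ) - (⌊z.im⌋ : ℂ) * I).im = Int.fract z.im := by
      simp only [sub_im, intCast_im, mul_im, intCast_re, I_im, mul_one, I_re, mul_zero, zero_mul,
        add_zero, sub_zero]
      rfl
    rw [h]
    exact ⟨Int.fract_nonneg _, (Int.fract_lt_one _).le⟩
  · rw [← hz, pr_eq_iff]
    refine ⟨-⌊z.re⌋, -⌊z.im⌋, ?_⟩
    push_cast
    ring

theorem LD.mE_ne_zero_iff (h : LD V Y B i0) {u : E} (hu : u ∈ Gd V Y i0) (x : ℂ) :
    mE Y i0 u (pr x) ≠ 0 ↔ (u, x) ∈ Hs Y i0 := by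
  rw [h.mE_pr i0 hu.1, h.mlt_ne_zero_iff hu]

theorem LD.mE_finite (h : LD V Y B i0) {u : E} (hu : u ∈ Gd V Y i0) :
    {q | mE Y i0 u q ≠ 0}.Finite := by
  have hfin : {x | x ∈ lc2sq ∧ (u, x) ∈ Hs Y i0}.Finite := by
    by_contra hcon
    obtain ⟨x, -, hx⟩ := Set.Infinite.exists_accPt_of_subset_isCompact hcon lc2sq_compact
      (fun x hx => hx.1)
    rw [accPt_iff_frequently_nhdsNE] at hx
    exact hx ((h.zeros_discrete hu x).mono fun z hz hz' => hz hz'.2)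
  refine (hfin.image pr).subset ?_
  intro q hq
  obtain ⟨x, hx, rfl⟩ := lc2_rep q
  exact ⟨x, ⟨hx, (h.mE_ne_zero_iff hu x).1 hq⟩, rfl⟩

private theorem lc2_decomp {M : Type*} [AddCommMonoid M] (Qs : Finset El) (D : El → Set El)
    (hdisj : (Qs : Set El).PairwiseDisjoint D) (f : El → M) (hf : (Function.support f).Finite)
    (hsupp : ∀ q, f q ≠ 0 → ∃ p ∈ Qs, q ∈ D p) :
    ∑ᶠ q, f q = ∑ p ∈ Qs, ∑ᶠ q ∈ D p, f q := by
  classical
  have h1 : ∑ᶠ q, f q = ∑ᶠ q ∈ (⋃ p ∈ (Qs : Set El), D p ∩ Function.support f), f q := by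
    rw [← finsum_mem_univ]
    refine finsum_mem_inter_support_eq _ _ _ ?_
    ext q
    simp only [mem_inter_iff, mem_univ, true_and, Function.mem_support, mem_iUnion,
      Finset.mem_coe, exists_prop]
    constructor
    · intro hq
      obtain ⟨p, hp, hqp⟩ := hsupp q hq
      exact ⟨⟨p, hp, hqp, hq⟩, hq⟩
    · exact fun hq => hq.2
  rw [h1, finsum_mem_biUnion ?_ Qs.finite_toSet (fun p _ => hf.inter_of_right _)]
  · rw [finsum_mem_coe_finset]
    refine Finset.sum_congr rfl fun p _ => ?_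
    exact finsum_mem_inter_support f (D p)
  · intro p hp q hq hpq
    exact (hdisj hp hq hpq).mono inter_subset_left inter_subset_left

private noncomputable def lc2hom : ℂ →+ El where
  toFun := pr
  map_zero' := pr_zero
  map_add' := pr_add

private theorem lc2_key (h : LD V Y B i0) {u₁ : E} (hu : u₁ ∈ Gd V Y i0) (W : El → Set El)
    (hW : ∀ q, mE Y i0 u₁ q ≠ 0 → W q ∈ 𝓝 q) :
    ∃ (Qs : Finset El) (D : El → Set El) (s : El → E → ℂ),
      (∀ q ∈ Qs, mE Y i0 u₁ q ≠ 0) ∧ (∀ q ∈ Qs, D q ⊆ W q) ∧ (∀ q ∈ Qs, q ∈ D q) ∧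
      (Qs : Set El).PairwiseDisjoint D ∧ (∀ q ∈ Qs, HolAt (s q) u₁) ∧
      ∀ᶠ u in 𝓝 u₁, u ∈ Gd V Y i0 ∧ (∀ q, mE Y i0 u q ≠ 0 → ∃ p ∈ Qs, q ∈ D p) ∧
        ∀ p ∈ Qs, (∑ᶠ q ∈ D p, mE Y i0 u q) = mE Y i0 u₁ p ∧
          (∑ᶠ q ∈ D p, mE Y i0 u q • q) = pr (s p u) := by
  classical
  have hfin := h.mE_finite hu
  let Qs : Finset El := hfin.toFinset
  have hQs : ∀ q, q ∈ Qs ↔ mE Y i0 u₁ q ≠ 0 := fun q => by
    rw [Set.Finite.mem_toFinset]; rfl
  obtain ⟨U, hU, hUd⟩ := hfin.t2_separation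
  -- choice of the radius
  have hr1 : ∀ q ∈ Qs, ∀ᶠ r in 𝓝[>] (0 : ℝ), pr '' ball (sec q) r ⊆ W q ∩ U q := by
    intro q hq
    have h1 : W q ∩ U q ∈ 𝓝 (pr (sec q)) := by
      rw [pr_sec]
      exact inter_mem (hW q ((hQs q).1 hq)) ((hU q).2.mem_nhds (hU q).1)
    have h2 := continuous_pr.continuousAt.preimage_mem_nhds h1
    obtain ⟨ε, hε, hball⟩ := Metric.mem_nhds_iff.1 h2
    have h3 : ∀ᶠ r in 𝓝[>] (0 : ℝ), r < ε :=
      mem_nhdsWithin_of_mem_nhds (Iio_mem_nhds hε)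
    filter_upwards [h3] with r hr
    rintro _ ⟨x, hx, rfl⟩
    exact hball (ball_subset_ball hr.le hx)
  have hr2 : ∀ᶠ r in 𝓝[>] (0 : ℝ), r < 1 / 2 :=
    mem_nhdsWithin_of_mem_nhds (Iio_mem_nhds (by norm_num))
  have hr3 : ∀ᶠ r in 𝓝[>] (0 : ℝ), 0 < r := self_mem_nhdsWithin
  have hall : ∀ᶠ r in 𝓝[>] (0 : ℝ), ∀ q ∈ Qs, (pr '' ball (sec q) r ⊆ W q ∩ U q) ∧
      ∃ s : E → ℂ, HolAt s u₁ ∧ s u₁ = (mlt Y i0 u₁ (sec q) : ℂ) * (sec q) ∧
      ∀ᶠ u in 𝓝 u₁, u ∈ Gd V Y i0 ∧ (∀ x ∈ sphere (sec q) r, mlt Y i0 u x = 0) ∧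
        {x | x ∈ ball (sec q) r ∧ mlt Y i0 u x ≠ 0}.Finite ∧
        (∑ᶠ x ∈ ball (sec q) r, mlt Y i0 u x) = mlt Y i0 u₁ (sec q) ∧
        (∑ᶠ x ∈ ball (sec q) r, (mlt Y i0 u x : ℂ) * x) = s u := by
    rw [Filter.eventually_all_finset]
    intro q hq
    exact (hr1 q hq).and (h.local_count hu (sec q))
  obtain ⟨r, hr, hr12, hr0⟩ := (hall.and (hr2.and hr3)).exists
  choose! s hs1 hs2 hs3 using fun q hq => (hr q hq).2
  let D : El → Set El := fun q => pr '' ball (sec q) r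
  have hDW : ∀ q ∈ Qs, D q ⊆ W q ∩ U q := fun q hq => (hr q hq).1
  have hqD : ∀ q ∈ Qs, q ∈ D q := fun q _ => ⟨sec q, mem_ball_self hr0, pr_sec q⟩
  have hDn : ∀ q, D q ∈ 𝓝 q := by
    intro q
    have := pr_nhds (sec q) (ball_mem_nhds (sec q) hr0)
    rwa [pr_sec] at this
  refine ⟨Qs, D, s, fun q hq => (hQs q).1 hq, fun q hq => (hDW q hq).trans inter_subset_left, hqD,
    ?_, hs1, ?_⟩
  · intro p hp q hq hpq
    have h1 := hUd (show p ∈ {q | mE Y i0 u₁ q ≠ 0} from (hQs p).1 hp)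
      (show q ∈ {q | mE Y i0 u₁ q ≠ 0} from (hQs q).1 hq) hpq
    exact h1.mono ((hDW p hp).trans inter_subset_right) ((hDW q hq).trans inter_subset_right)
  · -- claim A
    have hA : ∀ᶠ u in 𝓝 u₁, ∀ x ∈ lc2sq, (u, x) ∉ Hs Y i0 ∨ ∃ p ∈ Qs, pr x ∈ D p := by
      refine lc2sq_compact.eventually_forall_of_forall_eventually
        (P := fun u x => (u, x) ∉ Hs Y i0 ∨ ∃ p ∈ Qs, pr x ∈ D p) ?_
      intro x _
      by_cases hx : (u₁, x) ∈ Hs Y i0
      · have h1 : pr x ∈ Qs := (hQs _).2 ((h.mE_ne_zero_iff hu x).2 hx)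
        have h2 : ∀ᶠ z : E × ℂ in 𝓝 (u₁, x), pr z.2 ∈ D (pr x) :=
          (continuous_pr.comp continuous_snd).continuousAt.preimage_mem_nhds (hDn (pr x))
        exact h2.mono fun z hz => Or.inr ⟨pr x, h1, hz⟩
      · exact (h.Hs_closed i0 hu.1 hx).mono fun z hz => Or.inl hz
    have hB : ∀ᶠ u in 𝓝 u₁, ∀ p ∈ Qs, u ∈ Gd V Y i0 ∧ (∀ x ∈ sphere (sec p) r, mlt Y i0 u x = 0) ∧
        {x | x ∈ ball (sec p) r ∧ mlt Y i0 u x ≠ 0}.Finite ∧
        (∑ᶠ x ∈ ball (sec p) r, mlt Y i0 u x) = mlt Y i0 u₁ (sec p) ∧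
        (∑ᶠ x ∈ ball (sec p) r, (mlt Y i0 u x : ℂ) * x) = s p u := by
      rw [Filter.eventually_all_finset]
      intro p hp
      exact hs3 p hp
    filter_upwards [hA, hB, h.Gd_open hu] with u h1 h2 h3
    refine ⟨h3, ?_, ?_⟩
    · intro q hq
      obtain ⟨x, hx, rfl⟩ := lc2_rep q
      rcases h1 x hx with h4 | h4
      · exact absurd ((h.mE_ne_zero_iff h3 x).1 hq) h4
      · exact h4
    · intro p hp
      obtain ⟨-, -, h5, h6, h7⟩ := h2 p hp
      have hinj : InjOn pr (ball (sec p) r) := (pr_injOn (sec p)).mono (ball_subset_ball hr12.le)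
      constructor
      · rw [finsum_mem_image hinj]
        have h8 : ∀ x, mE Y i0 u (pr x) = mlt Y i0 u x := fun x => h.mE_pr i0 h3.1 x
        simp_rw [h8]
        rw [h6, ← h.mE_pr i0 hu.1, pr_sec]
      · rw [finsum_mem_image hinj]
        have h8 : ∀ x, mE Y i0 u (pr x) • pr x = lc2hom ((mlt Y i0 u x : ℂ) * x) := by
          intro x
          rw [h.mE_pr i0 h3.1 x]
          exact (pr_nsmul _ _).symm
        simp_rw [h8]
        rw [← AddMonoidHom.map_finsum_mem' lc2hom ?_, h7]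
        · rfl
        · refine h5.subset ?_
          rintro x ⟨hx1, hx2⟩
          refine ⟨hx1, ?_⟩
          intro h0
          apply hx2
          show (mlt Y i0 u x : ℂ) * x = 0
          rw [h0]; simp

private theorem lc2_supp (h : LD V Y B i0) {u : E} (hu : u ∈ Gd V Y i0) (O : Set El) :
    (Function.support (O.indicator (mE Y i0 u))).Finite := by
  refine (h.mE_finite hu).subset ?_
  intro q hq h0
  apply hq
  by_cases hqO : q ∈ O
  · rw [indicator_of_mem hqO]; exact h0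
  · rw [indicator_of_notMem hqO]

theorem LD.cnt_const (h : LD V Y B i0) {u₁ : E} (hu : u₁ ∈ Gd V Y i0) {O : Set El}
    (hO : ∀ q ∈ frontier O, mE Y i0 u₁ q = 0) :
    ∀ᶠ u in 𝓝 u₁, cnt Y i0 u O = cnt Y i0 u₁ O := by
  classical
  obtain ⟨Qs, D, s, hQ1, hQ2, hQ3, hQ4, -, hQ6⟩ := lc2_key h hu
    (fun q => if q ∈ interior O then interior O else interior Oᶜ) (by
      intro q hq
      by_cases h1 : q ∈ interior O
      · simp only [if_pos h1]
        exact isOpen_interior.mem_nhds h1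
      · simp only [if_neg h1]
        refine isOpen_interior.mem_nhds ?_
        have h2 : q ∉ frontier O := fun h3 => hq (hO q h3)
        rw [interior_compl]
        intro h3
        exact h2 ⟨h3, h1⟩)
  have hsub : ∀ p ∈ Qs, (p ∈ O → D p ⊆ O) ∧ (p ∉ O → D p ⊆ Oᶜ) := by
    intro p hp
    have h1 := hQ2 p hp
    by_cases h2 : p ∈ interior O
    · simp only [if_pos h2] at h1
      exact ⟨fun _ => h1.trans interior_subset, fun h3 => absurd (interior_subset h2) h3⟩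
    · simp only [if_neg h2] at h1
      have h3 : p ∈ Oᶜ := interior_subset (h1 (hQ3 p hp))
      exact ⟨fun h4 => absurd h4 h3, fun _ => h1.trans interior_subset⟩
  have hform : ∀ u, u ∈ Gd V Y i0 → (∀ q, mE Y i0 u q ≠ 0 → ∃ p ∈ Qs, q ∈ D p) →
      (∀ p ∈ Qs, (∑ᶠ q ∈ D p, mE Y i0 u q) = mE Y i0 u₁ p ∧
          (∑ᶠ q ∈ D p, mE Y i0 u q • q) = pr (s p u)) →
      cnt Y i0 u O = ∑ p ∈ Qs, if p ∈ O then mE Y i0 u₁ p else 0 := by
    intro u hu1 hu2 hu3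
    have h1 : cnt Y i0 u O = ∑ᶠ q, O.indicator (mE Y i0 u) q := by
      unfold cnt
      exact finsum_mem_def O _
    rw [h1, lc2_decomp Qs D hQ4 _ (lc2_supp h hu1 O) ?_]
    · refine Finset.sum_congr rfl fun p hp => ?_
      by_cases hpO : p ∈ O
      · rw [if_pos hpO, ← (hu3 p hp).1]
        refine finsum_mem_congr rfl fun q hq => ?_
        rw [indicator_of_mem ((hsub p hp).1 hpO hq)]
      · rw [if_neg hpO]
        have : ∀ q ∈ D p, O.indicator (mE Y i0 u) q = 0 := fun q hq =>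
          indicator_of_notMem ((hsub p hp).2 hpO hq) _
        exact finsum_mem_of_eqOn_zero this
    · intro q hq
      refine hu2 q fun h0 => hq ?_
      by_cases hqO : q ∈ O
      · rw [indicator_of_mem hqO]; exact h0
      · rw [indicator_of_notMem hqO]
  have h1 := hQ6.self_of_nhds
  have h2 := hform u₁ h1.1 h1.2.1 h1.2.2
  filter_upwards [hQ6] with u h3
  rw [h2, hform u h3.1 h3.2.1 h3.2.2]

theorem LD.dg_const (h : LD V Y B i0) {u₁ : E} (hu : u₁ ∈ Gd V Y i0) :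
    ∀ᶠ u in 𝓝 u₁, dg Y i0 u = dg Y i0 u₁ := by
  have h1 := h.cnt_const hu (O := univ) (by rw [frontier_univ]; exact fun q hq => absurd hq (notMem_empty q))
  have h2 : ∀ u, cnt Y i0 u univ = dg Y i0 u := by
    intro u
    unfold cnt dg
    exact finsum_mem_univ _
  simpa only [h2] using h1

theorem LD.sg_lift (h : LD V Y B i0) {u₁ : E} (hu : u₁ ∈ Gd V Y i0) :
    ∃ s : E → ℂ, HolAt s u₁ ∧ ∀ᶠ u in 𝓝 u₁, sg Y i0 u = pr (s u) := by
  classical
  obtain ⟨Qs, D, s, hQ1, hQ2, hQ3, hQ4, hQ5, hQ6⟩ := lc2_key h hu (fun _ => univ)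
    (fun q _ => univ_mem)
  refine ⟨fun u => ∑ p ∈ Qs, s p u, HolAt.sum Qs hQ5, ?_⟩
  filter_upwards [hQ6] with u hu1
  unfold sg
  have hsupp : (Function.support fun q => mE Y i0 u q • q).Finite := by
    refine (h.mE_finite hu1.1).subset ?_
    intro q hq h0
    apply hq
    show mE Y i0 u q • q = 0
    rw [h0, zero_smul]
  rw [lc2_decomp Qs D hQ4 _ hsupp ?_]
  · rw [pr_sum]
    exact Finset.sum_congr rfl fun p hp => (hu1.2.2 p hp).2
  · intro q hq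
    refine hu1.2.1 q fun h0 => hq ?_
    rw [h0, zero_smul]

end Pool.Agent.Moi
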