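import Pool.Agent.H.MP_795b03_ag.LocC2

/-! JOB LocD: limits of the divisor along a punctured complex line.

Write D_t = mE Y i0 (u₀ + t e), d(t) = dg, for 0 < |t| < delta where u₀ + t e ∈ Gd and u₀ + t e ∈ V (also t = 0).
(0) the punctured disc is connected and d(t) is locally constant (dg_const along the line) so d(t) = d for 0 < |t| < delta.
(1) Let L = {q : El | ∃ᶠ p in 𝓝 (0, q), p.1 ≠ 0 ∧ mE Y i0 (u₀ + p.1 • e) p.2 ≠ 0}.  If q ∈ L and O is a neighbourhood of q then for all small t ≠ 0 there is q' ∈ O with D_t q' ≠ 0.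
(2) L is finite with at most d elements.
(3) For every open O ⊇ L, for small t ≠ 0 the support of D_t is contained in O.
(4) Choose r0 > 0 such that the balls ball q (2 r0), q ∈ L, are pairwise disjoint; cnt (u₀ + t e) (ball q r0) = n_q for small t; put sigma = ∑_{q ∈ L} n_q • q.
-/

set_option autoImplicit false

open Topology Filter Set Complex Metric

namespace Pool.Agent.Moi

variable {E : Type} [NormedAddCommGroup E] [NormedSpace ℂ E] [FiniteDimensional ℂ E] {N : ℕ}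
  {V : Set E} {Y : Set (E × ℂ × (Fin (N + 1) → ℂ))} {B : Set (E × ℂ)} {i0 : Fin (N + 1)}

/-- a locally constant function on a punctured disc is constant -/
private theorem LocD_const {X : Type} {f : ℂ → X}
    (hf : ∀ᶠ t in 𝓝[≠] (0 : ℂ), ∀ᶠ s in 𝓝 t, f s = f t) :
    ∃ c, ∀ᶠ t in 𝓝[≠] (0 : ℂ), f t = c := by
  rw [eventually_nhdsWithin_iff, Metric.eventually_nhds_iff] at hf
  obtain ⟨δ, hδ, h⟩ := hf
  have hpc : IsPreconnected (ball (0 : ℂ) δ \ {0}) := by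
    refine planar_compl isOpen_ball (convex_ball (0 : ℂ) δ).isPreconnected fun t _ => ?_
    by_cases ht : t = 0
    · subst ht
      exact self_mem_nhdsWithin
    · exact mem_nhdsWithin_of_mem_nhds ((isOpen_ne.mem_nhds ht))
  let _ : TopologicalSpace X := ⊥
  have : DiscreteTopology X := ⟨rfl⟩
  have hcont : ContinuousOn f (ball (0 : ℂ) δ \ {0}) := by
    intro t ht
    have h1 : ∀ᶠ s in 𝓝 t, f s = f t := h (mem_ball.1 ht.1) ht.2
    have h2 : ContinuousAt f t := by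
      have h3 : f =ᶠ[𝓝 t] fun _ => f t := h1
      exact (continuousAt_const).congr h3.symm
    exact h2.continuousWithinAt
  have hmem : ((δ / 2 : ℝ) : ℂ) ∈ ball (0 : ℂ) δ \ {0} := by
    refine ⟨?_, ?_⟩
    · rw [mem_ball, dist_zero_right, Complex.norm_real, Real.norm_eq_abs, abs_of_pos (by linarith)]
      linarith
    · simp only [mem_singleton_iff, Complex.ofReal_eq_zero]
      linarith
  refine ⟨f ((δ / 2 : ℝ) : ℂ), ?_⟩
  rw [eventually_nhdsWithin_iff, Metric.eventually_nhds_iff]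
  exact ⟨δ, hδ, fun t ht ht0 => hpc.constant hcont ⟨mem_ball.2 ht, ht0⟩ hmem⟩

/-- accumulation points of the divisors along the line -/
private def LocD_L (Y : Set (E × ℂ × (Fin (N + 1) → ℂ))) (i0 : Fin (N + 1)) (u₀ e : E) : Set El :=
  {q | ∃ᶠ p in 𝓝 ((0 : ℂ), q), p.1 ≠ 0 ∧ mE Y i0 (u₀ + p.1 • e) p.2 ≠ 0}

private theorem LocD_near (h : LD V Y B i0) {u₀ e : E} (hu : u₀ ∈ V)
    (hg : ∀ᶠ t in 𝓝[≠] (0 : ℂ), u₀ + t • e ∈ Gd V Y i0) {q : El} (hq : q ∈ LocD_L Y i0 u₀ e)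
    {O : Set El} (hO : O ∈ 𝓝 q) :
    ∀ᶠ t in 𝓝[≠] (0 : ℂ), ∃ q' ∈ O, mE Y i0 (u₀ + t • e) q' ≠ 0 := by
  obtain ⟨x0, hx0⟩ := pr_surjective q
  have hg' : ∀ᶠ p in 𝓝 ((0 : ℂ), q), p.1 ≠ 0 → u₀ + p.1 • e ∈ Gd V Y i0 := by
    have h1 := eventually_nhdsWithin_iff.1 hg
    have h2 : Tendsto (fun p : ℂ × El => p.1) (𝓝 ((0 : ℂ), q)) (𝓝 0) := continuous_fst.tendsto _
    exact h2.eventually h1
  have hfr : ∃ᶠ p in 𝓝 ((0 : ℂ), q), p.1 ≠ 0 ∧ u₀ + p.1 • e ∈ Gd V Y i0 ∧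
      mE Y i0 (u₀ + p.1 • e) p.2 ≠ 0 := by
    refine (Frequently.and_eventually hq hg').mono fun p hp => ⟨hp.1.1, hp.2 hp.1.1, hp.1.2⟩
  obtain ⟨ns, hns, hnp⟩ := exists_seq_forall_of_frequently hfr
  have hz : ∀ n, ∃ z w, pr z = (ns n).2 ∧ dist z x0 ≤ 2 * dist (ns n).2 q ∧
      ‖(w : Fin (N + 1) → ℂ)‖ = 1 ∧ w i0 = 0 ∧ (u₀ + (ns n).1 • e, z, w) ∈ Y := by
    intro n
    obtain ⟨z, hz1, hz2⟩ := exists_pr_close x0 (ns n).2
    obtain ⟨h1, h2, h3⟩ := hnp n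
    rw [← hz1, h.mE_ne_zero_iff h2] at h3
    obtain ⟨w, hw0, hwi, hwY⟩ := h3
    have hn : ‖w‖ ≠ 0 := norm_ne_zero_iff.2 hw0
    have hnC : ((‖w‖⁻¹ : ℝ) : ℂ) ≠ 0 := by
      rw [Ne, Complex.ofReal_eq_zero]
      exact inv_ne_zero hn
    refine ⟨z, ((‖w‖⁻¹ : ℝ) : ℂ) • w, hz1, by rwa [hx0] at hz2, ?_, ?_, ?_⟩
    · rw [norm_smul, Complex.norm_real, norm_inv, norm_norm, inv_mul_cancel₀ hn]
    · simp [hwi]
    · exact (h.cone _ h2.1 _ _ hw0 _ hnC).2 hwY
  choose z w hz1 hz2 hw1 hw2 hw3 using hz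
  have hns1 : Tendsto (fun n => (ns n).1) atTop (𝓝 0) :=
    (continuous_fst.tendsto ((0 : ℂ), q)).comp hns
  have hns2 : Tendsto (fun n => (ns n).2) atTop (𝓝 q) :=
    (continuous_snd.tendsto ((0 : ℂ), q)).comp hns
  have hzt : Tendsto z atTop (𝓝 x0) := by
    rw [tendsto_iff_dist_tendsto_zero]
    refine squeeze_zero (fun _ => dist_nonneg) hz2 ?_
    have h1 := (tendsto_iff_dist_tendsto_zero.1 hns2).const_mul 2
    simpa using h1
  obtain ⟨wl, hwl, φ, hφ, hφt⟩ := (isCompact_sphere (0 : Fin (N + 1) → ℂ) 1).tendsto_subseq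
    (x := w) (fun n => by simpa using hw1 n)
  have hwl0 : wl ≠ 0 := by
    intro h0
    rw [h0] at hwl
    simp at hwl
  have hZ : LocAn {p : ℂ × (ℂ × (Fin (N + 1) → ℂ)) |
      (u₀ + p.1 • e, p.2.1, p.2.2) ∈ Y ∧ p.2.2 i0 = 0} ((0 : ℂ), (x0, wl)) := by
    refine LocAn.inter (Z := {p : ℂ × (ℂ × (Fin (N + 1) → ℂ)) |
      (u₀ + p.1 • e, p.2.1, p.2.2) ∈ Y}) (Z' := {p | p.2.2 i0 = 0}) ?_ ?_
    · refine LocAn.preimage (Z := Y) (f := fun p : ℂ × (ℂ × (Fin (N + 1) → ℂ)) =>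
        (u₀ + p.1 • e, p.2.1, p.2.2)) ?_ ?_
      · have h1 : u₀ + (0 : ℂ) • e = u₀ := by simp
        simp only [h1]
        exact h.an u₀ hu x0 wl hwl0
      · exact Eventually.of_forall fun p => by fun_prop
    · exact LocAn.zero (F := fun p : ℂ × (ℂ × (Fin (N + 1) → ℂ)) => p.2.2 i0)
        (Eventually.of_forall fun p => by fun_prop)
  have hacc : ∃ᶠ p in 𝓝 ((0 : ℂ), (x0, wl)), p ∈ {p : ℂ × (ℂ × (Fin (N + 1) → ℂ)) |
      (u₀ + p.1 • e, p.2.1, p.2.2) ∈ Y ∧ p.2.2 i0 = 0} ∧ p.1 ≠ 0 := by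
    have ht : Tendsto (fun n => ((ns (φ n)).1, (z (φ n), w (φ n)))) atTop
        (𝓝 ((0 : ℂ), (x0, wl))) := by
      refine (hns1.comp hφ.tendsto_atTop).prodMk_nhds ?_
      exact (hzt.comp hφ.tendsto_atTop).prodMk_nhds hφt
    refine ht.frequently (Eventually.frequently (Eventually.of_forall fun n => ?_))
    exact ⟨⟨hw3 _, hw2 _⟩, (hnp _).1⟩
  have hP : {m : ℂ × (Fin (N + 1) → ℂ) | pr m.1 ∈ O ∧ m.2 ≠ 0} ∈ 𝓝 (x0, wl) := by
    refine inter_mem (f := 𝓝 (x0, wl)) ?_ ?_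
    · have h1 : ContinuousAt (fun m : ℂ × (Fin (N + 1) → ℂ) => pr m.1) (x0, wl) :=
        (continuous_pr.comp continuous_fst).continuousAt
      refine h1.preimage_mem_nhds ?_
      simpa only [hx0] using hO
    · have h2 : ContinuousAt (fun m : ℂ × (Fin (N + 1) → ℂ) => m.2) (x0, wl) :=
        continuous_snd.continuousAt
      exact h2.preimage_mem_nhds (isOpen_ne.mem_nhds hwl0)
  filter_upwards [curve_limit _ _ hZ hacc _ hP, hg] with t ht htg
  obtain ⟨m, ⟨hm1, hm2⟩, hm3, hm4⟩ := ht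
  exact ⟨pr m.1, hm1, (h.mE_ne_zero_iff htg _).2 ⟨m.2, hm2, hm4, hm3⟩⟩

private theorem LocD_far {u₀ e : E} {O : Set El} (hO : IsOpen O)
    (hL : LocD_L Y i0 u₀ e ⊆ O) :
    ∀ᶠ t in 𝓝[≠] (0 : ℂ), ∀ q, mE Y i0 (u₀ + t • e) q ≠ 0 → q ∈ O := by
  have h1 : ∀ᶠ t in 𝓝 (0 : ℂ), ∀ q ∈ Oᶜ, t ≠ 0 → mE Y i0 (u₀ + t • e) q = 0 := by
    refine (hO.isClosed_compl.isCompact).eventually_forall_of_forall_eventually
      (P := fun t q => t ≠ 0 → mE Y i0 (u₀ + t • e) q = 0) ?_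
    intro q hq
    by_contra hcon
    refine hq (hL ?_)
    refine (Filter.not_eventually.1 hcon).mono fun p hp => ?_
    push Not at hp
    exact hp
  rw [eventually_nhdsWithin_iff]
  filter_upwards [h1] with t ht ht0 q hq
  by_contra hqO
  exact hq (ht q hqO ht0)

/-- finitely many points of a metric space are separated -/
private theorem LocD_sep {X : Type} [MetricSpace X] (s : Finset X) :
    ∃ r : ℝ, 0 < r ∧ ∀ x ∈ s, ∀ y ∈ s, x ≠ y → 4 * r < dist x y := by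
  classical
  by_cases hs : (s.offDiag).Nonempty
  · obtain ⟨p, hp, hmin⟩ := Finset.exists_min_image s.offDiag (fun p => dist p.1 p.2) hs
    have hp' := Finset.mem_offDiag.1 hp
    have hd : 0 < dist p.1 p.2 := dist_pos.2 hp'.2.2
    refine ⟨dist p.1 p.2 / 5, by positivity, fun x hx y hy hxy => ?_⟩
    have := hmin (x, y) (Finset.mem_offDiag.2 ⟨hx, hy, hxy⟩)
    simp only at this
    linarith
  · refine ⟨1, one_pos, fun x hx y hy hxy => ?_⟩
    exact absurd ⟨(x, y), Finset.mem_offDiag.2 ⟨hx, hy, hxy⟩⟩ hs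

private theorem LocD_card (h : LD V Y B i0) {u₀ e : E} (hu : u₀ ∈ V)
    (hg : ∀ᶠ t in 𝓝[≠] (0 : ℂ), u₀ + t • e ∈ Gd V Y i0) {d : ℕ}
    (hd : ∀ᶠ t in 𝓝[≠] (0 : ℂ), dg Y i0 (u₀ + t • e) = d) (s : Finset El)
    (hs : ∀ q ∈ s, q ∈ LocD_L Y i0 u₀ e) : s.card ≤ d := by
  classical
  obtain ⟨r, hr, hsep⟩ := LocD_sep s
  have h1 : ∀ᶠ t in 𝓝[≠] (0 : ℂ), ∀ q ∈ s, ∃ q' ∈ ball q r, mE Y i0 (u₀ + t • e) q' ≠ 0 :=
    (Finset.eventually_all s).2 fun q hq => LocD_near h hu hg (hs q hq) (ball_mem_nhds q hr)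
  obtain ⟨t, ht1, ht2, ht3⟩ := (h1.and (hd.and hg)).exists
  choose! f hf1 hf2 using ht1
  set S := (h.mE_finite ht3).toFinset with hS
  have hinj : Set.InjOn f s := by
    intro x hx y hy hxy
    by_contra hne
    have h2 := hsep x hx y hy hne
    have h3 := mem_ball.1 (hf1 x hx)
    have h4 := mem_ball.1 (hf1 y hy)
    rw [hxy] at h3
    have h5 := dist_triangle_left x y (f y)
    linarith
  have hsub : s.image f ⊆ S := by
    intro y hy
    obtain ⟨x, hx, rfl⟩ := Finset.mem_image.1 hy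
    rw [hS, Set.Finite.mem_toFinset]
    exact hf2 x hx
  have hsum : dg Y i0 (u₀ + t • e) = ∑ q ∈ S, mE Y i0 (u₀ + t • e) q := by
    refine finsum_eq_sum_of_support_subset _ fun q hq => ?_
    rw [hS, Set.Finite.coe_toFinset]
    exact hq
  calc s.card = (s.image f).card := (Finset.card_image_of_injOn hinj).symm
    _ ≤ S.card := Finset.card_le_card hsub
    _ = ∑ q ∈ S, 1 := by simp
    _ ≤ ∑ q ∈ S, mE Y i0 (u₀ + t • e) q := by
        refine Finset.sum_le_sum fun q hq => ?_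
        rw [hS, Set.Finite.mem_toFinset] at hq
        exact Nat.one_le_iff_ne_zero.2 hq
    _ = d := by rw [← hsum, ht2]

theorem LD.slice_limit (h : LD V Y B i0) {u₀ e : E} (hu : u₀ ∈ V)
    (hg : ∀ᶠ t in 𝓝[≠] (0 : ℂ), u₀ + t • e ∈ Gd V Y i0) :
    ∃ (d : ℕ) (σ : El), (∀ᶠ t in 𝓝[≠] (0 : ℂ), dg Y i0 (u₀ + t • e) = d) ∧
      Tendsto (fun t : ℂ => sg Y i0 (u₀ + t • e)) (𝓝[≠] 0) (𝓝 σ) := by
  classical
  have hline : ∀ t : ℂ, Tendsto (fun s : ℂ => u₀ + s • e) (𝓝 t) (𝓝 (u₀ + t • e)) := fun t =>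
    (Continuous.tendsto (by fun_prop) t)
  obtain ⟨d, hd⟩ : ∃ d, ∀ᶠ t in 𝓝[≠] (0 : ℂ), dg Y i0 (u₀ + t • e) = d := by
    refine LocD_const (f := fun t : ℂ => dg Y i0 (u₀ + t • e)) ?_
    filter_upwards [hg] with t ht
    exact (hline t).eventually (h.dg_const ht)
  have hcard := LocD_card h hu hg hd
  have hfin : (LocD_L Y i0 u₀ e).Finite := by
    by_contra hinf
    obtain ⟨s, hs1, hs2⟩ := (show (LocD_L Y i0 u₀ e).Infinite from hinf).exists_subset_card_eq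
      (d + 1)
    have := hcard s fun q hq => hs1 hq
    omega
  set L := hfin.toFinset with hLdef
  have hLm : ∀ q, q ∈ L ↔ q ∈ LocD_L Y i0 u₀ e := fun q => by rw [hLdef, Set.Finite.mem_toFinset]
  obtain ⟨r0, hr0, hsep⟩ := LocD_sep L
  have hfar : ∀ r : ℝ, 0 < r → ∀ᶠ t in 𝓝[≠] (0 : ℂ), ∀ q', mE Y i0 (u₀ + t • e) q' ≠ 0 →
      ∃ q ∈ L, q' ∈ ball q r := by
    intro r hr
    have h1 := LocD_far (Y := Y) (i0 := i0) (u₀ := u₀) (e := e) (O := ⋃ q ∈ L, ball q r)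
      (isOpen_biUnion fun q _ => isOpen_ball)
      (fun q hq => mem_biUnion ((hLm q).2 hq) (mem_ball_self hr))
    filter_upwards [h1] with t ht q' hq'
    have h2 := ht q' hq'
    simp only [mem_iUnion, exists_prop] at h2
    exact h2
  have hn : ∀ q ∈ L, ∃ n : ℕ, ∀ᶠ t in 𝓝[≠] (0 : ℂ), cnt Y i0 (u₀ + t • e) (ball q r0) = n := by
    intro q hq
    refine LocD_const (f := fun t : ℂ => cnt Y i0 (u₀ + t • e) (ball q r0)) ?_
    filter_upwards [hg, hfar (r0 / 2) (by positivity)] with t ht htf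
    refine (hline t).eventually (h.cnt_const ht fun q' hq' => ?_)
    by_contra hne
    obtain ⟨q'', hq'', hb⟩ := htf q' hne
    have h1 : dist q' q = r0 := mem_sphere.1 (frontier_ball_subset_sphere hq')
    have h2 : dist q' q'' < r0 / 2 := mem_ball.1 hb
    by_cases hqq : q'' = q
    · rw [hqq] at h2
      linarith
    · have h3 := hsep q'' hq'' q hq hqq
      have h4 := dist_triangle_left q'' q q'
      linarith
  choose! n hn using hn
  refine ⟨d, ∑ q ∈ L, n q • q, hd, ?_⟩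
  rw [Metric.tendsto_nhds]
  intro ε hε
  obtain ⟨r, hr, hrr0, hdr⟩ : ∃ r : ℝ, 0 < r ∧ r ≤ r0 ∧ d * r < ε := by
    refine ⟨min r0 (ε / (d + 1)), lt_min hr0 (by positivity), min_le_left _ _, ?_⟩
    have h1 : min r0 (ε / (d + 1)) ≤ ε / (d + 1) := min_le_right _ _
    have h2 : (0 : ℝ) ≤ d := Nat.cast_nonneg d
    calc (d : ℝ) * min r0 (ε / (d + 1)) ≤ d * (ε / (d + 1)) := by gcongr
      _ < ε := by
        rw [mul_div_assoc', div_lt_iff₀ (by positivity)]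
        nlinarith
  filter_upwards [hg, hd, hfar r hr, (Finset.eventually_all L).2 hn] with t htg htd htf htn
  set D : El → ℕ := fun q => mE Y i0 (u₀ + t • e) q with hD
  set S := (h.mE_finite htg).toFinset with hS
  have hSm : ∀ q, q ∈ S ↔ D q ≠ 0 := fun q => by
    rw [hS, Set.Finite.mem_toFinset]
    rfl
  set T : El → Finset El := fun q => S.filter (fun q' => q' ∈ ball q r0) with hT
  have hTm : ∀ q ∈ L, ∀ q' ∈ T q, dist q' q < r := by
    intro q hq q' hq'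
    rw [hT] at hq'
    obtain ⟨h1, h2⟩ := Finset.mem_filter.1 hq'
    obtain ⟨q'', hq'', hb⟩ := htf q' ((hSm q').1 h1)
    have h3 := mem_ball.1 hb
    have h4 := mem_ball.1 h2
    by_cases hqq : q'' = q
    · rwa [hqq] at h3
    · exfalso
      have h5 := hsep q'' hq'' q hq hqq
      have h6 := dist_triangle_left q'' q q'
      linarith
  have hdisj : (L : Set El).PairwiseDisjoint T := by
    intro x hx y hy hxy
    rw [Function.onFun, Finset.disjoint_left]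
    intro q' h1 h2
    have h3 := hTm x hx q' h1
    have h4 := hTm y hy q' h2
    have h5 := hsep x hx y hy hxy
    have h6 := dist_triangle_left x y q'
    linarith
  have hun : L.biUnion T = S := by
    ext q'
    rw [Finset.mem_biUnion]
    constructor
    · rintro ⟨q, _, hq'⟩
      exact (Finset.mem_filter.1 hq').1
    · intro hq'
      obtain ⟨q, hq, hb⟩ := htf q' ((hSm q').1 hq')
      exact ⟨q, hq, Finset.mem_filter.2 ⟨hq', ball_subset_ball hrr0 hb⟩⟩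
  have hcnt : ∀ q ∈ L, ∑ q' ∈ T q, D q' = n q := by
    intro q hq
    rw [← htn q hq]
    refine (finsum_mem_eq_sum_of_inter_support_eq _ ?_).symm
    ext q'
    simp only [hT, Finset.coe_filter, mem_inter_iff, Function.mem_support, mem_ofPred_eq, hSm]
    tauto
  have hdsum : ∑ q' ∈ S, D q' = d := by
    rw [← htd]
    refine (finsum_eq_sum_of_support_subset _ fun q hq => ?_).symm
    exact (hSm q).2 hq
  have hsg : sg Y i0 (u₀ + t • e) = ∑ q' ∈ S, D q' • q' := by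
    refine finsum_eq_sum_of_support_subset _ fun q hq => ?_
    refine (hSm q).2 fun h0 => hq ?_
    have h1 : mE Y i0 (u₀ + t • e) q = 0 := h0
    simp only [h1, zero_smul]
  have hdiff : sg Y i0 (u₀ + t • e) - ∑ q ∈ L, n q • q =
      ∑ q ∈ L, ∑ q' ∈ T q, D q' • (q' - q) := by
    rw [hsg, ← hun, Finset.sum_biUnion hdisj, ← Finset.sum_sub_distrib]
    refine Finset.sum_congr rfl fun q hq => ?_
    rw [← hcnt q hq, Finset.sum_smul, ← Finset.sum_sub_distrib]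
    refine Finset.sum_congr rfl fun q' _ => ?_
    rw [smul_sub]
  rw [dist_eq_norm, hdiff]
  calc ‖∑ q ∈ L, ∑ q' ∈ T q, D q' • (q' - q)‖ ≤ ∑ q ∈ L, ∑ q' ∈ T q, (D q' : ℝ) * r := by
        refine (norm_sum_le _ _).trans (Finset.sum_le_sum fun q hq => ?_)
        refine (norm_sum_le _ _).trans (Finset.sum_le_sum fun q' hq' => ?_)
        refine norm_nsmul_le.trans ?_
        have h1 := hTm q hq q' hq'
        rw [dist_eq_norm] at h1
        gcongr
    _ = (∑ q' ∈ S, (D q' : ℝ)) * r := by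
        rw [← hun, Finset.sum_biUnion hdisj, Finset.sum_mul]
        refine Finset.sum_congr rfl fun q _ => ?_
        rw [Finset.sum_mul]
    _ = d * r := by
        rw [← hdsum]
        push_cast
        rfl
    _ < ε := hdr

end Pool.Agent.Moi
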