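import Pool.Agent.H.MP_795b03_ag.LocD
import Pool.Agent.H.MP_795b03_ag.Lift1
import Pool.Agent.H.MP_795b03_ag.LocBaire
import Pool.Agent.H.MP_ceb9a9.Scv4

/-! JOB LocE: the sum of the divisor extends to all base points and has local holomorphic lifts.

Proof of LD.extend. Let u₀ ∈ V, rho > 0 with ball u₀ (4 rho) ⊆ V.  By Gd_dense choose u1 ∈ Gd V Y i0 with ‖u1 - u₀‖ < rho and put e = u1 - u₀, D = ball 0 3 ⊆ ℂ; u₀ + y + t e ∈ V for |t| < 3, ‖y‖ < rho.
(1) By lineDich_union (base point u₀, D convex) the set of t ∈ D with u₀ + t e ∉ Gd is discrete in D (the other alternative fails at t = 1).  It is finite in the compact closedBall 0 2, so there is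
1 < R < 2 with u₀ + t e ∈ Gd for |t| = R.  By compactness of the circle and Gd_open there is 0 < delta < rho with: u₀ + y + t e ∈ Gd for |t| = R and for t = 1, ‖y‖ < delta.
(2) Fix y, ‖y‖ < delta.  C_y = {t | u₀ + y + t e ∉ Gd}.  Again by lineDich_union C_y is discrete in D.  f(t) = sg Y i0 (u₀ + y + t e).  For t ∈ D \ C_y there is a local analytic lift (sg_lift and HolAt.line) and for every t ∈ D the limit
along 𝓝[≠] t exists: slice_limit with base point u₀ + y + t e (rewrite u₀ + y + (t + s) e).  lift_disc gives Z_y : ℂ → ℂ holomorphic on ball 0 3 with sg (u₀ + y + t e) = pr (Z_y t) for t ∈ D \ C_y.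
(3) s1: a lift near u₀ + e from sg_lift, holomorphic on ball (u₀+e) delta after shrinking delta, sg = pr s1 there.  Replace Z_y by Z_y + const such that Z_y(1) = s1(u₀ + y + e) (the constant is in ℤ+iℤ).
(4) omega(u) := derivative at t = 0 of t ↦ s(u + t e) for any local lift s of sg at u ∈ Gd; independent of the lift (two lifts differ near u by a constant: lift_unique on a ball);
omega is holomorphic at every u ∈ Gd: near u omega = fderiv s (.) e, holomorphic by SCV1_dir (Pool.Agent.H.MP_3a36cd_an.SCV1).  And Z_y'(t) = omega (u₀ + y + t e) for t ∈ D \ C_y (both are local lifts along the line).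
(5) For |t| < R: Z_y'(t) = (2 pi i)⁻¹ ∮_{|τ| = R} omega(u₀ + y + τ e)/(τ - t) dτ (Cauchy).  So
  Z_y(0) = s1(u₀ + y + e) - ∫_0^1 (2 pi i)⁻¹ ∮_{|τ|=R} omega(u₀ + y + τ e)/(τ - t) dτ dt.
  The right side, as a function of y ∈ ball 0 delta, is holomorphic: apply OkaP.differentiableOn_integral (Pool.Agent.H.MP_ceb9a9.Scv4) twice (integrand holomorphic in y, jointly continuous in (y, θ, t));
  to apply it to the inner integral with parameters (y,t) use E × ℂ as parameter space: the inner integral is holomorphic in (y,t) on ball 0 delta × ball 0 R, in particular jointly continuous.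
(6) s(u) := Z_{u-u₀}(0).  HolAt s u₀.  If u = u₀ + y ∈ Gd then 0 ∉ C_y, so sg u = pr (Z_y 0) = pr (s u).
(7) degree: D \ C_y is preconnected (planar_compl) and t ↦ dg (u₀ + y + t e) is locally constant on it (dg_const), so if u₀ + y ∈ Gd then dg (u₀+y) = dg (u₀ + y + e), which equals d := dg (u₀ + e) for y small (dg_const).
-/

set_option autoImplicit false

open Topology Filter Set Complex Metric

namespace Pool.Agent.Moi

variable {E : Type} [NormedAddCommGroup E] [NormedSpace ℂ E] [FiniteDimensional ℂ E] {N : ℕ}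
  {V : Set E} {Y : Set (E × ℂ × (Fin (N + 1) → ℂ))} {B : Set (E × ℂ)} {i0 : Fin (N + 1)}

/-- the good set along a line is the complement of a discrete set -/
private theorem LocE_line (h : LD V Y B i0) {a e : E} {t1 : ℂ} (ht1 : t1 ∈ ball (0 : ℂ) 3)
    (hV : ∀ t ∈ ball (0 : ℂ) 3, a + t • e ∈ V) (h1 : a + t1 • e ∈ Gd V Y i0) :
    ∀ t ∈ ball (0 : ℂ) 3, ∀ᶠ s in 𝓝[≠] t, a + s • e ∈ Gd V Y i0 := by
  rcases h.lineDich_union i0 a e (ball 0 3) isOpen_ball (convex_ball _ _).isPreconnected hV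
    with h2 | h2
  · rcases h2 t1 ht1 with h3 | h3
    · exact absurd h3 h1.2.1
    · exact absurd h3 h1.2.2
  · intro t ht
    have h3 : ∀ᶠ s in 𝓝[≠] t, s ∈ ball (0 : ℂ) 3 :=
      nhdsWithin_le_nhds (isOpen_ball.mem_nhds ht)
    filter_upwards [h2 t ht, h3] with s hs hs3
    exact ⟨hV s hs3, fun h4 => hs (Or.inl h4), fun h4 => hs (Or.inr h4)⟩

private theorem LocE_radius {G : Set ℂ} (hG : ∀ t ∈ ball (0 : ℂ) 3, ∀ᶠ s in 𝓝[≠] t, s ∈ G) :
    ∃ R : ℝ, 1 < R ∧ R < 2 ∧ ∀ t : ℂ, ‖t‖ = R → t ∈ G := by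
  have hK : IsCompact (closedBall (0 : ℂ) 2) := isCompact_closedBall _ _
  have hex : ∀ t ∈ closedBall (0 : ℂ) 2, {s | s ∈ G ∨ s = t} ∈ 𝓝 t := by
    intro t ht
    have h1 := hG t (closedBall_subset_ball (by norm_num) ht)
    rw [eventually_nhdsWithin_iff] at h1
    filter_upwards [h1] with s hs
    by_cases hst : s = t
    · exact Or.inr hst
    · exact Or.inl (hs hst)
  obtain ⟨F, hFK, hF⟩ := hK.elim_nhds_subcover (fun t => {s | s ∈ G ∨ s = t}) hex
  have hinf : (Ioo (1 : ℝ) 2).Infinite := Ioo_infinite (by norm_num)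
  obtain ⟨R, hR, hRF⟩ := hinf.exists_notMem_finset (F.image (fun t => ‖t‖))
  refine ⟨R, hR.1, hR.2, fun t ht => ?_⟩
  have h2 := hF (show t ∈ closedBall 0 2 by
    rw [mem_closedBall, dist_zero_right, ht]
    exact hR.2.le)
  obtain ⟨x, hx, hx2⟩ := mem_iUnion₂.1 h2
  rcases hx2 with h3 | h3
  · exact h3
  · exact absurd (Finset.mem_image.2 ⟨x, hx, by rw [← h3, ht]⟩) hRF

omit [FiniteDimensional ℂ E] in
private theorem LocE_aff (a e y0 : E) (t0 : ℂ) :
    ContinuousAt (fun p : E × ℂ => a + p.1 + p.2 • e) (y0, t0) := by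
  fun_prop

omit [FiniteDimensional ℂ E] in
private theorem LocE_local {a e y0 : E} {t0 : ℂ} {δ : ℝ} (hy0 : y0 ∈ ball (0 : E) δ)
    (ht0 : t0 ∈ ball (0 : ℂ) 3) {Z : E → ℂ → ℂ}
    (hZ : ∀ y ∈ ball (0 : E) δ, DifferentiableOn ℂ (Z y) (ball 0 3)) {f : E → El} {G : Set E}
    (hZp : ∀ y ∈ ball (0 : E) δ, ∀ t ∈ ball (0 : ℂ) 3, a + y + t • e ∈ G →
      f (a + y + t • e) = pr (Z y t))
    (hG : ∀ᶠ u in 𝓝 (a + y0 + t0 • e), u ∈ G)
    {s : E → ℂ} (hs : HolAt s (a + y0 + t0 • e))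
    (hsp : ∀ᶠ u in 𝓝 (a + y0 + t0 • e), f u = pr (s u)) :
    ∃ r > 0, ∀ y ∈ ball y0 r,
      (∀ τ ∈ ball t0 r, pr (Z y τ) = pr (s (a + y + τ • e)) ∧ HolAt s (a + y + τ • e)) ∧
      ∀ τ ∈ ball t0 r, ∀ τ' ∈ ball t0 r,
        Z y τ - s (a + y + τ • e) = Z y τ' - s (a + y + τ' • e) := by
  have hev : ∀ᶠ p in 𝓝 ((y0, t0) : E × ℂ), (a + p.1 + p.2 • e ∈ G ∧
      f (a + p.1 + p.2 • e) = pr (s (a + p.1 + p.2 • e)) ∧ HolAt s (a + p.1 + p.2 • e)) ∧
      p.1 ∈ ball (0 : E) δ ∧ p.2 ∈ ball (0 : ℂ) 3 := by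
    have c := LocE_aff a e y0 t0
    have c1 : ∀ᶠ p in 𝓝 ((y0, t0) : E × ℂ), p.1 ∈ ball (0 : E) δ :=
      continuousAt_fst.eventually (isOpen_ball.mem_nhds hy0)
    have c2 : ∀ᶠ p in 𝓝 ((y0, t0) : E × ℂ), p.2 ∈ ball (0 : ℂ) 3 :=
      continuousAt_snd.eventually (isOpen_ball.mem_nhds ht0)
    filter_upwards [c.eventually hG, c.eventually hsp, c.eventually hs.eventually, c1, c2]
      with p h1 h2 h3 h4 h5
    exact ⟨⟨h1, h2, h3⟩, h4, h5⟩
  obtain ⟨r, hr, hb⟩ := Metric.mem_nhds_iff.1 hev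
  rw [← ball_prod_same] at hb
  refine ⟨r, hr, fun y hy => ?_⟩
  have h1 : ∀ τ ∈ ball t0 r, pr (Z y τ) = pr (s (a + y + τ • e)) ∧ HolAt s (a + y + τ • e) := by
    intro τ hτ
    obtain ⟨⟨k1, k2, k3⟩, k4, k5⟩ := hb (mk_mem_prod hy hτ)
    exact ⟨by rw [← hZp y k4 τ k5 k1]; exact k2, k3⟩
  refine ⟨h1, ?_⟩
  refine lift_unique (convex_ball t0 r).isPreconnected (s1 := Z y)
    (s2 := fun τ => s (a + y + τ • e)) ?_ ?_ fun τ hτ => (h1 τ hτ).1
  · refine (hZ y (hb (mk_mem_prod hy (mem_ball_self hr))).2.1).continuousOn.mono fun τ hτ => ?_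
    exact (hb (mk_mem_prod hy hτ)).2.2
  · intro τ hτ
    refine ContinuousAt.continuousWithinAt ?_
    have h2 := (h1 τ hτ).2.continuousAt
    exact ContinuousAt.comp (f := fun τ : ℂ => a + y + τ • e) h2 (by fun_prop)

omit [FiniteDimensional ℂ E] in
private theorem LocE_prop {a e y0 : E} {t0 : ℂ} {Z : E → ℂ → ℂ} {s : E → ℂ} {r : ℝ} (hr : 0 < r)
    (hs : HolAt s (a + y0 + t0 • e))
    (hl : ∀ y ∈ ball y0 r,
      (∀ τ ∈ ball t0 r, pr (Z y τ) = pr (s (a + y + τ • e)) ∧ HolAt s (a + y + τ • e)) ∧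
      ∀ τ ∈ ball t0 r, ∀ τ' ∈ ball t0 r,
        Z y τ - s (a + y + τ • e) = Z y τ' - s (a + y + τ' • e))
    {τ' : ℂ} (hτ' : τ' ∈ ball t0 r)
    (hc : ContinuousAt (fun y : E => Z y τ') y0) :
    HolAt (fun p : E × ℂ => Z p.1 p.2) (y0, t0) := by
  set c : E → ℂ := fun y => Z y τ' - s (a + y + τ' • e) with hcdef
  have hcc : ContinuousAt c y0 := by
    refine hc.sub ?_
    have h2 := ((hl y0 (mem_ball_self hr)).1 τ' hτ').2.continuousAt
    exact ContinuousAt.comp (f := fun y : E => a + y + τ' • e) h2 (by fun_prop)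
  have hpr : ∀ y ∈ ball y0 r, pr (c y) = 0 := by
    intro y hy
    simp only [hcdef]
    rw [pr_sub, ((hl y hy).1 τ' hτ').1, sub_self]
  have hev : ∀ᶠ y in 𝓝 y0, c y = c y0 := by
    have h1 : ∀ᶠ y in 𝓝 y0, c y ∈ ball (c y0) (1 / 2) :=
      hcc.eventually (ball_mem_nhds _ (by norm_num))
    filter_upwards [h1, ball_mem_nhds y0 hr] with y hy1 hy2
    exact pr_injOn (c y0) hy1 (mem_ball_self (by norm_num))
      (by rw [hpr y hy2, hpr y0 (mem_ball_self hr)])
  have h3 : HolAt (fun p : E × ℂ => s (a + p.1 + p.2 • e) + c y0) (y0, t0) :=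
    (HolAt.comp (f := fun p : E × ℂ => a + p.1 + p.2 • e) (b := (y0, t0)) hs
      (Eventually.of_forall fun p => by fun_prop)).add (HolAt.const _)
  refine h3.congr ?_
  have e1 : ∀ᶠ p in 𝓝 ((y0, t0) : E × ℂ), c p.1 = c y0 :=
    (continuous_fst.tendsto ((y0, t0) : E × ℂ)).eventually hev
  have e2 : ∀ᶠ p in 𝓝 ((y0, t0) : E × ℂ), p.1 ∈ ball y0 r :=
    continuousAt_fst.eventually (ball_mem_nhds _ hr)
  have e3 : ∀ᶠ p in 𝓝 ((y0, t0) : E × ℂ), p.2 ∈ ball t0 r :=
    continuousAt_snd.eventually (ball_mem_nhds _ hr)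
  filter_upwards [e1, e2, e3] with p k1 k2 k3
  have k4 := (hl p.1 k2).2 p.2 k3 τ' hτ'
  rw [← k1]
  simp only [hcdef]
  rw [← k4]
  ring

theorem LD.extend (h : LD V Y B i0) {u₀ : E} (hu : u₀ ∈ V) :
    ∃ (d : ℕ) (s : E → ℂ), HolAt s u₀ ∧
      ∀ᶠ u in 𝓝 u₀, u ∈ Gd V Y i0 → dg Y i0 u = d ∧ sg Y i0 u = pr (s u) := by
  classical
  -- the directions
  obtain ⟨ρ, hρ, hρV⟩ := Metric.mem_nhds_iff.1 (h.isOpen.mem_nhds hu)
  obtain ⟨u1, hu1, hu1d⟩ := Metric.mem_closure_iff.1 (h.Gd_dense hu) (ρ / 4) (by positivity)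
  set e : E := u1 - u₀ with he
  have hen : ‖e‖ < ρ / 4 := by rw [he, ← dist_eq_norm, dist_comm]; exact hu1d
  have hV : ∀ y ∈ ball (0 : E) (ρ / 4), ∀ t ∈ ball (0 : ℂ) 3, u₀ + y + t • e ∈ V := by
    intro y hy t ht
    rw [mem_ball, dist_zero_right] at hy ht
    refine hρV ?_
    rw [mem_ball, dist_eq_norm, show u₀ + y + t • e - u₀ = y + t • e by abel]
    refine (norm_add_le _ _).trans_lt ?_
    rw [norm_smul]
    have h2 := norm_nonneg e
    have h3 := norm_nonneg t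
    nlinarith
  have h1e : u₀ + (1 : ℂ) • e = u1 := by rw [one_smul, he]; abel
  -- the good set along the central line, the radius
  have hl0 : ∀ t ∈ ball (0 : ℂ) 3, ∀ᶠ s in 𝓝[≠] t, u₀ + s • e ∈ Gd V Y i0 := by
    refine LocE_line h (t1 := 1) (by simp) (fun t ht => ?_) (by rw [h1e]; exact hu1)
    have := hV 0 (mem_ball_self (by positivity)) t ht
    rwa [add_zero] at this
  obtain ⟨R, hR1, hR2, hR⟩ := LocE_radius hl0
  -- the lift near `u1`
  obtain ⟨s1, hs1, hs1p⟩ := h.sg_lift hu1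
  have hdg := h.dg_const hu1
  -- the radius in the transversal direction
  have hGo : IsOpen {p : E × ℂ | u₀ + p.1 + p.2 • e ∈ Gd V Y i0} := by
    rw [isOpen_iff_mem_nhds]
    intro p hp
    have c := LocE_aff u₀ e p.1 p.2
    exact c.eventually (h.Gd_open hp)
  have hsub : ({(0 : E)} : Set E) ×ˢ sphere (0 : ℂ) R ⊆
      {p : E × ℂ | u₀ + p.1 + p.2 • e ∈ Gd V Y i0} := by
    rintro ⟨y, t⟩ ⟨hy, ht⟩
    rw [mem_singleton_iff] at hy
    simp only [mem_ofPred_eq] at hy ⊢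
    rw [hy, add_zero]
    exact hR t (by simpa using ht)
  obtain ⟨Uy, Vt, hUo, hVo, hU0, hVR, hUV⟩ :=
    generalized_tube_lemma isCompact_singleton (isCompact_sphere (0 : ℂ) R) hGo hsub
  have hev : ∀ᶠ y in 𝓝 (0 : E), y ∈ Uy ∧ y ∈ ball (0 : E) (ρ / 4) ∧
      (u₀ + y + (1 : ℂ) • e ∈ Gd V Y i0 ∧ HolAt s1 (u₀ + y + (1 : ℂ) • e) ∧
        (∀ᶠ u in 𝓝 (u₀ + y + (1 : ℂ) • e), sg Y i0 u = pr (s1 u)) ∧
        dg Y i0 (u₀ + y + (1 : ℂ) • e) = dg Y i0 u1) := by
    have c : ContinuousAt (fun y : E => u₀ + y + (1 : ℂ) • e) 0 := by fun_prop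
    have c0 : u₀ + (0 : E) + (1 : ℂ) • e = u1 := by rw [add_zero, h1e]
    have c1 : Tendsto (fun y : E => u₀ + y + (1 : ℂ) • e) (𝓝 0) (𝓝 u1) := by
      have := c.tendsto
      rwa [c0] at this
    filter_upwards [hUo.mem_nhds (hU0 rfl), ball_mem_nhds (0 : E) (show 0 < ρ / 4 by positivity),
      c1.eventually (h.Gd_open hu1), c1.eventually hs1.eventually,
      c1.eventually hs1p.eventually_nhds, c1.eventually hdg] with y k1 k2 k3 k4 k5 k6
    exact ⟨k1, k2, k3, k4, k5, k6⟩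
  obtain ⟨δ, hδ, hδb⟩ := Metric.mem_nhds_iff.1 hev
  -- the lifts along the lines
  have hline : ∀ y ∈ ball (0 : E) δ, ∀ t ∈ ball (0 : ℂ) 3, ∀ᶠ s in 𝓝[≠] t,
      u₀ + y + s • e ∈ Gd V Y i0 := fun y hy =>
    LocE_line h (t1 := 1) (by simp) (hV y (hδb hy).2.1) (hδb hy).2.2.1
  have hlift : ∀ y ∈ ball (0 : E) δ, ∃ Z : ℂ → ℂ, DifferentiableOn ℂ Z (ball 0 3) ∧
      (∀ t ∈ ball (0 : ℂ) 3, u₀ + y + t • e ∈ Gd V Y i0 → sg Y i0 (u₀ + y + t • e) = pr (Z t)) ∧
      Z 1 = s1 (u₀ + y + (1 : ℂ) • e) := by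
    intro y hy
    obtain ⟨Z, hZ, hZp⟩ := lift_disc (fun t => sg Y i0 (u₀ + y + t • e)) 3 (by norm_num)
      {t | u₀ + y + t • e ∉ Gd V Y i0}
      (fun t ht => by
        filter_upwards [hline y hy t ht] with s hs hs'
        exact hs' hs)
      (fun t ht htC => by
        have ht' : u₀ + y + t • e ∈ Gd V Y i0 := not_not.1 htC
        obtain ⟨s, hs, hsp⟩ := h.sg_lift ht'
        have c : ContinuousAt (fun t : ℂ => u₀ + y + t • e) t := by fun_prop
        exact ⟨fun t => s (u₀ + y + t • e), hs.line, c.eventually hsp⟩)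
      (fun t ht => by
        have h2 : ∀ᶠ s in 𝓝[≠] (0 : ℂ), (u₀ + y + t • e) + s • e ∈ Gd V Y i0 := by
          have c : Tendsto (fun s : ℂ => t + s) (𝓝[≠] 0) (𝓝[≠] t) := by
            refine tendsto_nhdsWithin_iff.2 ⟨?_, ?_⟩
            · have : ContinuousAt (fun s : ℂ => t + s) 0 := by fun_prop
              have h4 := this.tendsto
              rw [add_zero] at h4
              exact h4.mono_left nhdsWithin_le_nhds
            · filter_upwards [self_mem_nhdsWithin] with s hs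
              simpa using hs
          filter_upwards [c.eventually (hline y hy t ht)] with s hs
          rw [add_assoc, ← add_smul]
          exact hs
        obtain ⟨-, σ, -, hσ⟩ := h.slice_limit (hV y (hδb hy).2.1 t ht) h2
        refine ⟨σ, ?_⟩
        have c : Tendsto (fun s : ℂ => s - t) (𝓝[≠] t) (𝓝[≠] 0) := by
          refine tendsto_nhdsWithin_iff.2 ⟨?_, ?_⟩
          · have : ContinuousAt (fun s : ℂ => s - t) t := by fun_prop
            have h4 := this.tendsto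
            rw [sub_self] at h4
            exact h4.mono_left nhdsWithin_le_nhds
          · filter_upwards [self_mem_nhdsWithin] with s hs
            simpa [sub_eq_zero] using hs
        refine (hσ.comp c).congr fun s => ?_
        simp only [Function.comp]
        rw [add_assoc (u₀ + y), ← add_smul, add_sub_cancel])
    refine ⟨fun t => Z t + (s1 (u₀ + y + (1 : ℂ) • e) - Z 1), hZ.add_const _, ?_, by ring⟩
    intro t ht htG
    have h1 := hZp t ht (fun hn => hn htG)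
    have h2 := hZp 1 (by simp) (fun hn => hn (hδb hy).2.2.1)
    have h3 : sg Y i0 (u₀ + y + (1 : ℂ) • e) = pr (s1 (u₀ + y + (1 : ℂ) • e)) :=
      (hδb hy).2.2.2.2.1.self_of_nhds
    rw [pr_add, pr_sub, ← h1, ← h2, h3, sub_self, add_zero]
  choose! Z hZ hZp hZ1 using hlift
  -- joint holomorphy
  have hjoint : ∀ y0 ∈ ball (0 : E) δ, ∀ t ∈ ball (0 : ℂ) 3, u₀ + y0 + t • e ∈ Gd V Y i0 →
      HolAt (fun p : E × ℂ => Z p.1 p.2) (y0, t) := by
    intro y0 hy0
    set D : Set ℂ := ball (0 : ℂ) 3 \ {t | u₀ + y0 + t • e ∉ Gd V Y i0} with hD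
    have hDp : IsPreconnected D := planar_compl isOpen_ball (convex_ball _ _).isPreconnected
      (fun t ht => by
        filter_upwards [hline y0 hy0 t ht] with s hs hs'
        exact hs' hs)
    have h1D : (1 : ℂ) ∈ D := ⟨by simp, fun hn => hn (hδb hy0).2.2.1⟩
    have hopen : IsOpen {t : ℂ | HolAt (fun p : E × ℂ => Z p.1 p.2) (y0, t)} := by
      rw [isOpen_iff_mem_nhds]
      intro t ht
      have c : ContinuousAt (fun t : ℂ => ((y0, t) : E × ℂ)) t := by fun_prop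
      exact c.eventually ht.eventually
    have h1 : (1 : ℂ) ∈ {t : ℂ | HolAt (fun p : E × ℂ => Z p.1 p.2) (y0, t)} := by
      obtain ⟨r, hr, hl⟩ := LocE_local hy0 (show (1 : ℂ) ∈ ball (0 : ℂ) 3 by simp) hZ hZp
        (h.Gd_open (hδb hy0).2.2.1) (hδb hy0).2.2.2.1 (hδb hy0).2.2.2.2.1
      refine LocE_prop hr (hδb hy0).2.2.2.1 hl (mem_ball_self hr) ?_
      have c1 : ContinuousAt (fun y : E => s1 (u₀ + y + (1 : ℂ) • e)) y0 :=
        ContinuousAt.comp (f := fun y : E => u₀ + y + (1 : ℂ) • e)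
          (hδb hy0).2.2.2.1.continuousAt (by fun_prop)
      refine c1.congr ?_
      filter_upwards [isOpen_ball.mem_nhds hy0] with y hy
      exact (hZ1 y hy).symm
    have hsub2 : D ⊆ {t : ℂ | HolAt (fun p : E × ℂ => Z p.1 p.2) (y0, t)} := by
      refine hDp.subset_of_closure_inter_subset hopen ⟨1, h1D, h1⟩ ?_
      rintro t ⟨htc, htD⟩
      have htG : u₀ + y0 + t • e ∈ Gd V Y i0 := not_not.1 htD.2
      obtain ⟨s, hs, hsp⟩ := h.sg_lift htG
      obtain ⟨r, hr, hl⟩ := LocE_local hy0 htD.1 hZ hZp (h.Gd_open htG) hs hsp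
      obtain ⟨τ', hτ'1, hτ'2⟩ := Metric.mem_closure_iff.1 htc r hr
      have hτ' : τ' ∈ ball t r := by rw [mem_ball, dist_comm]; exact hτ'2
      refine LocE_prop hr hs hl hτ' ?_
      exact ContinuousAt.comp (f := fun y : E => ((y, τ') : E × ℂ)) (x := y0)
        (HolAt.continuousAt hτ'1) (by fun_prop)
    intro t ht htG
    exact hsub2 ⟨ht, fun hn => hn htG⟩
  -- the mean value formula
  have hRpos : 0 < R := by linarith
  have hcirc : ∀ θ : ℝ, circleMap 0 R θ ∈ sphere (0 : ℂ) R := fun θ =>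
    circleMap_mem_sphere 0 hRpos.le θ
  have hcirc3 : ∀ θ : ℝ, circleMap 0 R θ ∈ ball (0 : ℂ) 3 := fun θ => by
    have := hcirc θ
    rw [mem_sphere] at this
    rw [mem_ball, this]
    linarith
  have hcG : ∀ y ∈ ball (0 : E) δ, ∀ θ : ℝ, u₀ + y + circleMap 0 R θ • e ∈ Gd V Y i0 :=
    fun y hy θ => hUV (mk_mem_prod (hδb hy).1 (hVR (hcirc θ)))
  have hmean : ∀ y ∈ ball (0 : E) δ,
      Z y 0 = ((2 * Real.pi)⁻¹ : ℝ) • ∫ θ in (0 : ℝ)..2 * Real.pi, Z y (circleMap 0 R θ) := by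
    intro y hy
    have h1 : DiffContOnCl ℂ (Z y) (ball 0 |R|) := by
      refine DifferentiableOn.diffContOnCl ((hZ y hy).mono ?_)
      rw [abs_of_pos hRpos]
      exact closure_ball_subset_closedBall.trans (closedBall_subset_ball (by linarith))
    exact h1.circleAverage.symm
  have hint : DifferentiableOn ℂ
      (fun y : E => ∫ θ in (0 : ℝ)..2 * Real.pi, Z y (circleMap 0 R θ)) (ball 0 δ) := by
    refine OkaP.differentiableOn_integral isOpen_ball ?_ ?_
    · rintro ⟨y, θ⟩ ⟨hy, -⟩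
      refine ContinuousAt.continuousWithinAt ?_
      exact ContinuousAt.comp (f := fun q : E × ℝ => ((q.1, circleMap 0 R q.2) : E × ℂ))
        (x := (y, θ)) (hjoint y hy _ (hcirc3 θ) (hcG y hy θ)).continuousAt (by fun_prop)
    · intro θ _ y hy
      refine DifferentiableAt.differentiableWithinAt ?_
      exact DifferentiableAt.comp (f := fun y : E => ((y, circleMap 0 R θ) : E × ℂ)) (x := y)
        (hjoint y hy _ (hcirc3 θ) (hcG y hy θ)).differentiableAt (by fun_prop)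
  have hZ0 : DifferentiableOn ℂ (fun y : E => Z y 0) (ball 0 δ) :=
    (hint.const_smul ((2 * Real.pi)⁻¹ : ℝ)).congr hmean
  -- conclusion
  have hc0 : Tendsto (fun u : E => u - u₀) (𝓝 u₀) (𝓝 0) := by
    have : ContinuousAt (fun u : E => u - u₀) u₀ := by fun_prop
    have h4 := this.tendsto
    rwa [sub_self] at h4
  refine ⟨dg Y i0 u1, fun u => Z (u - u₀) 0, ?_, ?_⟩
  · filter_upwards [hc0.eventually (ball_mem_nhds (0 : E) hδ)] with u hu'
    exact DifferentiableAt.comp (f := fun u : E => u - u₀) (x := u)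
      ((hZ0 _ hu').differentiableAt (isOpen_ball.mem_nhds hu')) (by fun_prop)
  · filter_upwards [hc0.eventually (ball_mem_nhds (0 : E) hδ)] with u hu' huG
    have e0 : u₀ + (u - u₀) + (0 : ℂ) • e = u := by rw [zero_smul]; abel
    have hu0 : u₀ + (u - u₀) + (0 : ℂ) • e ∈ Gd V Y i0 := by rw [e0]; exact huG
    constructor
    · set y0 : E := u - u₀ with hy0
      set D : Set ℂ := ball (0 : ℂ) 3 \ {t | u₀ + y0 + t • e ∉ Gd V Y i0} with hD
      have hDp : IsPreconnected D := planar_compl isOpen_ball (convex_ball _ _).isPreconnected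
        (fun t ht => by
          filter_upwards [hline y0 hu' t ht] with s hs hs'
          exact hs' hs)
      have h1D : (1 : ℂ) ∈ D := ⟨by simp, fun hn => hn (hδb hu').2.2.1⟩
      have h0D : (0 : ℂ) ∈ D := ⟨by simp, fun hn => hn hu0⟩
      have hcont : ContinuousOn (fun t : ℂ => dg Y i0 (u₀ + y0 + t • e)) D := by
        intro t ht
        have htG : u₀ + y0 + t • e ∈ Gd V Y i0 := not_not.1 ht.2
        have c : ContinuousAt (fun t : ℂ => u₀ + y0 + t • e) t := by fun_prop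
        refine ContinuousAt.continuousWithinAt ?_
        exact (continuousAt_const (y := dg Y i0 (u₀ + y0 + t • e))).congr
          (by filter_upwards [c.eventually (h.dg_const htG)] with s hs using hs.symm)
      have h2 := hDp.constant hcont h0D h1D
      simp only [e0] at h2
      rw [h2]
      exact (hδb hu').2.2.2.2.2
    · have h2 := hZp (u - u₀) hu' 0 (by simp) hu0
      rwa [e0] at h2

end Pool.Agent.Moi
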