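import Pool.Agent.H.MP_795b03_ag.LocM

/-! JOB Wp: an elliptic function for the lattice ℤ + iℤ.

LL is the period pair (1, I) of Mathlib (Mathlib.Analysis.SpecialFunctions.Elliptic.Weierstrass); wp = ℘[LL].
Lattice: LL.lattice = {m + n I} (PeriodPair.mem_lattice).  wp_per: PeriodPair.weierstrassP_add_coe.
wp_local: if z0 is not in the lattice, ℘ is holomorphic near z0 (differentiableOn_weierstrassP, the lattice is closed): p = ℘, q = 1.  If z0 = l is in the lattice: ℘(z) = ℘[L - l](z) + 1/(z-l)^2 - 1/l^2 (weierstrassPExcept_add; Lean: 1/0 = 0), with ℘[L-l] holomorphic near l: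
q = (z-l)^2, p = q * (℘[L-l] - 1/l^2) + 1.
wp_unbdd: near 0: ℘(z) = ℘[L-0](z) + 1/z^2 and ℘[L-0] is continuous at 0, so |℘(z)| → ∞.
-/

set_option autoImplicit false

open Topology Filter Set Complex

namespace Pool.Agent.Moi

theorem LL_indep : LinearIndependent ℝ ![(1 : ℂ), I] := by
  have h := Complex.basisOneI.linearIndependent
  rwa [Complex.coe_basisOneI] at h

/-- the square lattice -/
noncomputable def LL : PeriodPair := ⟨1, I, LL_indep⟩

/-- Weierstrass function of the square lattice -/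
noncomputable def wp (z : ℂ) : ℂ := LL.weierstrassP z

/-- the lattice `ℤ + iℤ` -/
def Lat : Set ℂ := {z | ∃ m n : ℤ, z = (m : ℂ) + (n : ℂ) * I}

private theorem Wp_mem (z : ℂ) : z ∈ Lat ↔ z ∈ LL.lattice := by
  rw [PeriodPair.mem_lattice]
  constructor
  · rintro ⟨m, n, rfl⟩
    exact ⟨m, n, by simp [LL]⟩
  · rintro ⟨m, n, h⟩
    exact ⟨m, n, by rw [← h]; simp [LL]⟩

private theorem Wp_Lat : Lat = (LL.lattice : Set ℂ) := Set.ext Wp_mem

theorem wp_per (z : ℂ) (m n : ℤ) : wp (z + (m : ℂ) + (n : ℂ) * I) = wp z := by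
  have h : (m : ℂ) + (n : ℂ) * I ∈ LL.lattice := (Wp_mem _).1 ⟨m, n, rfl⟩
  have h1 := LL.weierstrassP_add_coe z ⟨_, h⟩
  rw [add_assoc]
  exact h1

/-- `wp` is well defined on `El` -/
theorem wp_pr {z w : ℂ} (h : pr z = pr w) : wp z = wp w := by
  obtain ⟨m, n, rfl⟩ := (pr_eq_iff z w).1 h
  exact wp_per w m n

theorem wp_hol {z : ℂ} (hz : z ∉ Lat) : HolAt wp z := by
  rw [Wp_mem] at hz
  exact Complex.analyticAt_iff_eventually_differentiableAt.1
    (LL.analyticOnNhd_weierstrassP z hz)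

theorem isClosed_Lat : IsClosed Lat := by
  rw [Wp_Lat]
  exact LL.isClosed_lattice

theorem Lat_discrete (z : ℂ) : ∀ᶠ w in 𝓝[≠] z, w ∉ Lat := by
  rw [eventually_nhdsWithin_iff]
  filter_upwards [LL.compl_lattice_sdiff_singleton_mem_nhds z] with w hw hwz hL
  exact hw ⟨(Wp_mem w).1 hL, hwz⟩

theorem wp_local (z₀ : ℂ) : ∃ p q : ℂ → ℂ, HolAt p z₀ ∧ HolAt q z₀ ∧ (∀ᶠ z in 𝓝[≠] z₀, q z ≠ 0) ∧
    ∀ᶠ z in 𝓝 z₀, q z ≠ 0 → wp z = p z / q z := by
  obtain ⟨n, hn⟩ := LL.meromorphic_weierstrassP z₀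
  refine ⟨fun z => (z - z₀) ^ n * wp z, fun z => (z - z₀) ^ n, ?_, ?_, ?_, ?_⟩
  · exact Complex.analyticAt_iff_eventually_differentiableAt.1 hn
  · exact Eventually.of_forall fun z => by fun_prop
  · filter_upwards [self_mem_nhdsWithin] with z hz
    exact pow_ne_zero _ (sub_ne_zero.2 hz)
  · refine Eventually.of_forall fun z hz => ?_
    rw [mul_div_cancel_left₀ _ hz]

theorem wp_unbdd (C : ℝ) : ∃ z : ℂ, z ∉ Lat ∧ C < ‖wp z‖ := by
  have h0 : meromorphicOrderAt wp 0 < 0 := by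
    have := LL.order_weierstrassP 0 (zero_mem _)
    change meromorphicOrderAt LL.weierstrassP 0 < 0
    rw [this]
    decide
  have h1 := tendsto_cobounded_of_meromorphicOrderAt_neg h0
  have h2 : ∀ᶠ z in 𝓝[≠] (0 : ℂ), C < ‖wp z‖ :=
    (tendsto_norm_cobounded_atTop.comp h1).eventually_gt_atTop C
  obtain ⟨z, hz1, hz2⟩ := ((Lat_discrete 0).and h2).exists
  exact ⟨z, hz1, hz2⟩

end Pool.Agent.Moi
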