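import Pool.Agent.H.MP_795b03_ag.FibA
import Pool.Agent.H.MP_795b03_ag.Wp

/-! JOB MoisA: the fibres over points different from the origin are Moishezon.

wp_inf: the set wp '' Latᶜ is unbounded (wp_unbdd), hence infinite.
moisA: k = 1 (fibA_dim); f _ p = wp (sec p.1.2).  Let x = chi i (c, z0) be in the fibre F, (c, z0) ∈ DD i, a = tht i.2 (vk i.1 c) * √2.  For all z: (chi i (c,z)).1.2 = pr (z - a) (chi_val), so f (chi i (c,z)) = wp (z - a) (wp_pr, pr_sec).
Meromorphic: wp_local at z0 - a gives p0, q0; use mero_param with n = 1, kap w = (c, w 0), rho e = fun _ => e.2, p w = p0 (w 0 - a), q w = q0 (w 0 - a), fibA_open (homeomorphism (Fin 1 → ℂ) ≃ ℂ); density: q0 ≠ 0 on a punctured neighbourhood of z0 - a.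
Independence: algIndep_param with S 0 = wp '' Latᶜ: fix a point chi i (c, z0) of F; for u ∉ Lat the point y = chi i (c, u + a) is in F, f y = wp u, and f is continuous within F at y (cwa_param with fibA_open at (c, u+a), wp continuous at u by wp_hol).
(gX (chi i (c,z)) = s for all z, so fibA_open applies with its set gX ⁻¹' {s}.)
-/

set_option autoImplicit false

open Topology Filter Set Complex

namespace Pool.Agent.Moi

theorem wp_inf : (wp '' Latᶜ).Infinite := by
  intro hfin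
  obtain ⟨C, hC⟩ := hfin.isBounded.exists_norm_le
  obtain ⟨z, hz, hz'⟩ := wp_unbdd C
  exact absurd (hC _ (mem_image_of_mem wp hz)) (not_le.2 hz')

theorem wp_sec (q : El) (x a : ℂ) (h : pr x = q) : wp (sec q + a) = wp (x + a) := by
  refine wp_pr ?_
  rw [pr_add, pr_add, pr_sec, h]

/-- a punctured neighbourhood is dense near its centre -/
theorem MoisA_dense {Q : ℂ → ℂ} {z : ℂ} (h : ∀ᶠ w in 𝓝[≠] z, Q w ≠ 0) :
    ∀ᶠ w in 𝓝 z, w ∈ closure {w | Q w ≠ 0} := by
  rw [← nhdsNE_sup_pure, eventually_sup]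
  refine ⟨h.mono fun w hw => subset_closure hw, ?_⟩
  rw [eventually_pure]
  rw [mem_closure_iff_frequently]
  exact h.frequently.filter_mono nhdsWithin_le_nhds

theorem MoisA_val {i : Fin 3 × Bool} {c : Fin 4 → ℂ} (h : c ∈ Dk i.1) (z : ℂ) :
    wp (sec (chi i (c, z)).1.2) = wp (z - (tht i.2 (vk i.1 c) * Real.sqrt 2 : ℝ)) := by
  refine wp_pr ?_
  rw [pr_sec, chi_val h z]

theorem MoisA_gX {i : Fin 3 × Bool} {c : Fin 4 → ℂ} (h : c ∈ Dk i.1) (z : ℂ) :
    gX (chi i (c, z)) = ⟨Mk i.1 c, h⟩ := by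
  unfold gX
  rw [chi_val h z]

theorem MoisA_hop {s : Bs} (hs : s ≠ zB) {i : Fin 3 × Bool} {c : Fin 4 → ℂ}
    (hO : vk i.1 c ∈ Om i.2) (h : c ∈ Dk i.1) (hMs : (⟨Mk i.1 c, h⟩ : Bs) = s) (w₀ : Fin 1 → ℂ) :
    ∀ W ∈ 𝓝 w₀, (fun w : Fin 1 → ℂ => chi i (c, w 0)) '' W ∈ 𝓝[gX ⁻¹' {s}] (chi i (c, w₀ 0)) := by
  intro W hW
  have h1 : gX (chi i (c, w₀ 0)) = s := by rw [MoisA_gX h, hMs]
  have hcont : Continuous (fun z : ℂ => (fun _ => z : Fin 1 → ℂ)) :=
    continuous_pi fun _ => continuous_id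
  have h0 : (fun _ => w₀ 0 : Fin 1 → ℂ) = w₀ := by
    funext j
    rw [Fin.fin_one_eq_zero j]
  have h2 : (fun z : ℂ => (fun _ => z : Fin 1 → ℂ)) ⁻¹' W ∈ 𝓝 (w₀ 0) := by
    refine hcont.continuousAt.preimage_mem_nhds ?_
    rw [h0]
    exact hW
  have h3 := fibA_open (i := i) (c := c) (z := w₀ 0) ⟨h, hO⟩ (by rw [h1]; exact hs) h2
  rw [h1] at h3
  refine mem_of_superset h3 ?_
  rintro _ ⟨z, hz, rfl⟩
  exact ⟨fun _ => z, hz, rfl⟩

theorem moisA {s : Bs} (hs : s ≠ zB) (hne : (gX ⁻¹' {s}).Nonempty) :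
    IsMoishezon (gX ⁻¹' {s}) := by
  refine ⟨1, fibA_dim hs hne, fun _ p => wp (sec p.1.2), ?_, ?_⟩
  · intro _ x hx
    obtain ⟨i, ⟨c, z0⟩, he, rfl⟩ := chartSys.surj x
    have hD : c ∈ Dk i.1 := he.1
    have hMs : (⟨Mk i.1 c, hD⟩ : Bs) = s := by
      rw [← MoisA_gX hD z0]
      exact hx
    obtain ⟨p0, q0, hp0, hq0, hq0', hpq⟩ :=
      wp_local (z0 - (tht i.2 (vk i.1 c) * Real.sqrt 2 : ℝ))
    generalize ha : ((tht i.2 (vk i.1 c) * Real.sqrt 2 : ℝ) : ℂ) = a at *
    have hval : ∀ z, wp (sec (chi i (c, z)).1.2) = wp (z - a) := by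
      intro z
      rw [MoisA_val hD z, ha]
    have hproj : ∀ (w₁ : Fin 1 → ℂ), Tendsto (fun w : Fin 1 → ℂ => w 0 - a) (𝓝 w₁)
        (𝓝 (w₁ 0 - a)) := fun w₁ =>
      ((continuous_apply 0).sub continuous_const).tendsto w₁
    have hdiff : ∀ᶠ w in 𝓝 (fun _ => z0 : Fin 1 → ℂ),
        DifferentiableAt ℂ (fun w : Fin 1 → ℂ => w 0 - a) w :=
      Eventually.of_forall fun w => by fun_prop
    refine mero_param (n := 1) (Z := gX ⁻¹' {s}) (f := fun p => wp (sec p.1.2)) (i := i)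
      (kap := fun w => (c, w 0)) (rho := fun e _ => e.2) (w₀ := fun _ => z0) he ?_ ?_ ?_ ?_
      (MoisA_hop hs he.2 hD hMs _)
      (p := fun w => p0 (w 0 - a)) (q := fun w => q0 (w 0 - a)) ?_ ?_ ?_ ?_
    · fun_prop
    · fun_prop
    · intro w
      funext j
      rw [Fin.fin_one_eq_zero j]
    · refine Eventually.of_forall fun w => ?_
      show gX (chi i (c, w 0)) = s
      rw [MoisA_gX hD, hMs]
    · exact HolAt.comp (F := p0) (f := fun w : Fin 1 → ℂ => w 0 - a) hp0 hdiff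
    · exact HolAt.comp (F := q0) (f := fun w : Fin 1 → ℂ => w 0 - a) hq0 hdiff
    · have h1 := (hproj (fun _ => z0)).eventually (MoisA_dense hq0')
      filter_upwards [h1] with w hw
      have hcont : Continuous (fun z : ℂ => (fun _ => z + a : Fin 1 → ℂ)) :=
        continuous_pi fun _ => continuous_id.add continuous_const
      have h2 := map_mem_closure hcont hw (t := {w : Fin 1 → ℂ | q0 (w 0 - a) ≠ 0}) (by
        intro z hz
        show q0 (z + a - a) ≠ 0
        rw [add_sub_cancel_right]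
        exact hz)
      have h3 : (fun _ => w 0 - a + a : Fin 1 → ℂ) = w := by
        funext j
        rw [Fin.fin_one_eq_zero j, sub_add_cancel]
      rw [h3] at h2
      exact h2
    · have h1 := (hproj (fun _ => z0)).eventually hpq
      filter_upwards [h1] with w hw hq
      show wp (sec (chi i (c, w 0)).1.2) = p0 (w 0 - a) / q0 (w 0 - a)
      rw [hval, hw hq]
  · obtain ⟨x, hx⟩ := hne
    obtain ⟨i, ⟨c, z0⟩, he, rfl⟩ := chartSys.surj x
    have hD : c ∈ Dk i.1 := he.1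
    have hMs : (⟨Mk i.1 c, hD⟩ : Bs) = s := by
      rw [← MoisA_gX hD z0]
      exact hx
    refine algIndep_param (fun _ => wp '' Latᶜ) (fun _ => wp_inf) fun b hb => ?_
    obtain ⟨u, hu, hub⟩ := hb 0
    generalize ha : ((tht i.2 (vk i.1 c) * Real.sqrt 2 : ℝ) : ℂ) = a
    have hval : ∀ z, wp (sec (chi i (c, z)).1.2) = wp (z - a) := by
      intro z
      rw [MoisA_val hD z, ha]
    refine ⟨chi i (c, u + a), ?_, fun j => ?_, fun j => ?_⟩
    · show gX (chi i (c, u + a)) = s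
      rw [MoisA_gX hD, hMs]
    · rw [hval, add_sub_cancel_right, hub, Fin.fin_one_eq_zero j]
    · refine cwa_param (n := 1) (kap := fun w => chi i (c, w 0)) (w₀ := fun _ => u + a)
        (MoisA_hop hs he.2 hD hMs _) ?_
      have h1 : (fun w : Fin 1 → ℂ => wp (sec (chi i (c, w 0)).1.2)) =
          fun w => wp (w 0 - a) := funext fun w => hval (w 0)
      rw [h1]
      refine ContinuousAt.comp (g := wp) (f := fun w : Fin 1 → ℂ => w 0 - a) ?_
        ((continuous_apply 0).sub continuous_const).continuousAt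
      show ContinuousAt wp (u + a - a)
      rw [add_sub_cancel_right]
      exact (wp_hol hu).continuousAt

end Pool.Agent.Moi
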