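import Pool.Agent.H.MP_795b03_ag.FibZ3
import Pool.Agent.H.MP_795b03_ag.ChiInv
import Pool.Agent.H.MP_795b03_ag.MoisA

/-! JOB MoisZ: the components of the fibre over the origin are Moishezon.

rat_toP: (toP w).rep is a nonzero multiple of w (Projectivization.mk_rep, toP_eq_iff), and the quotient is invariant under scaling.
Fz_chart_iff: gX = 0 means Mk = 0; Mk k' c i k' = lk k' c i (vk_self), so c 2 = c 3 = 0 and c 0 * c 1 = 0; v k = 0 for v = vk (lch k b) c gives c 1 = 0 (b = false) or c 0 = 0 (b = true).  Conversely lpt_mem_Fz.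
f1_chart: chi_val; (chi i (lpt b t, z)).1.2 = pr (z - tht j (vk ..) √2); wp_sec.  k = 0: tht j (vk) = 0 (tht_true or tht_line0 with v 0 = 0, vk ∈ Om j).  k = 1: tht true = 0, tht false = 1 (tht_line1).  k = 2: v 2 = 0, so vk ∉ Om true (norms would be negative), j = false; the two terms
tht false (vk) √2 cancel; tht false (rep) = tht false (vk) by tht_smul.
Fz_dim: x = chi i (lpt b t0, z0) ∈ Fz k (Fz_nonempty, Fz_param); W0, inv from chi_inv; chi' w = chi i (lpt b (w 0), w 1), W = {w | (lpt b (w 0), w 1) ∈ W0}, U = chi i '' W0, kap y = ![(inv y).1 (if b then 1 else 0), (inv y).2]; chi' '' W = Fz k ∩ U by Fz_chart_iff.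
moisZ: k' = 2, f = ![f0 k, f1 k].  Meromorphic: mero_param with n = 2, kap w = (lpt b (w 0), w 1), rho e = ![e.1 (if b then 1 else 0), e.2], Fz_open (homeomorphism (Fin 2 → ℂ) ≃ ℂ × ℂ).
f0: for b = false f0 = t (p w = w 0, q = 1); for b = true f0 = 1 / t (p = 1, q w = w 0), see lpt_vk and rat_toP.   f1: wp_local at z0 - aa k j, p w = p0 (w 1 - aa k j), q w = q0 (w 1 - aa k j).
Independence: algIndep_param with S 0 = univ, S 1 = wp '' Latᶜ: for t ∈ ℂ, u ∉ Lat take b = false and j with vk (lch k false) (lpt false t) ∈ Om j (Om_cover: one coordinate is 0 and another one is 1), z = u + aa k j; y = chi (lch k false, j) (lpt false t, z): f0 = t, f1 = wp u, continuity by cwa_param and Fz_open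
(f1_chart holds for points of DD, an open set).
-/

set_option autoImplicit false

open Topology Filter Set Complex

namespace Pool.Agent.Moi

/-- quotient of homogeneous coordinates -/
noncomputable def rat (a b : Fin 3) (l : PN 2) : ℂ := l.rep a / l.rep b

theorem rat_toP (a b : Fin 3) {w : Fin 3 → ℂ} (hw : w ≠ 0) :
    rat a b (toP (N := 2) w) = w a / w b := by
  have h1 : toP (N := 2) (toP (N := 2) w).rep = toP (N := 2) w := by
    have h2 := (toP (N := 2) w).rep_nonzero
    unfold toP at h2 ⊢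
    rw [dif_pos hw] at h2 ⊢
    rw [dif_pos h2]
    exact Projectivization.mk_rep _
  obtain ⟨c, hc, h3⟩ := (toP_eq_iff (N := 2) hw (toP (N := 2) w).rep_nonzero).1 h1.symm
  unfold rat
  rw [h3]
  simp only [Pi.smul_apply, smul_eq_mul]
  rw [mul_div_mul_left _ _ hc]

/-- first function on `Fz k` -/
noncomputable def f0 (k : Fin 3) (p : XX) : ℂ := rat (k + 2) (k + 1) p.1.1.1

/-- second function on `Fz k` -/
noncomputable def f1 (k : Fin 3) (p : XX) : ℂ :=
  wp (sec p.1.2 + (if k = 2 then ((tht false (p.1.1.1.rep) * Real.sqrt 2 : ℝ) : ℂ) else 0))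

/-- the constant twist on the lines 0, 1, 2 -/
noncomputable def aa (k : Fin 3) (j : Bool) : ℂ := if k = 1 ∧ j = false then ((Real.sqrt 2 : ℝ) : ℂ) else 0

theorem MoisZ_idx (b : Bool) (t : ℂ) : lpt b t (if b then 1 else 0) = t := by
  cases b <;> simp [lpt]

theorem MoisZ_alg (k : Fin 3) (b : Bool) (c : Fin 4 → ℂ) (h1 : Mk (lch k b) c = 0)
    (h2 : vk (lch k b) c k = 0) : c = lpt b (c (if b then 1 else 0)) := by
  have hl : ∀ i, lk (lch k b) c i = 0 := by
    intro i
    have h3 := congrFun (congrFun h1 i) (lch k b)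
    simp only [Mk, vk_self, mul_one] at h3
    exact h3
  have h4 := hl 0
  have h5 := hl 1
  have h6 := hl 2
  fin_cases k <;> cases b <;> simp [lk, lch, vk] at h2 h4 h5 h6 <;> funext i <;>
    fin_cases i <;> simp [lpt, *]

theorem Fz_chart_iff {k : Fin 3} {b j : Bool} {c : Fin 4 → ℂ} {z : ℂ} (h : (c, z) ∈ DD (lch k b, j)) :
    chi (lch k b, j) (c, z) ∈ Fz k ↔ c = lpt b (c (if b then 1 else 0)) := by
  have hD : c ∈ Dk (lch k b) := h.1
  constructor
  · intro hF
    have hv := chi_val (i := (lch k b, j)) hD z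
    have hM : Mk (lch k b) c = 0 := by
      have h3 := hF.1
      rw [MoisA_gX (i := (lch k b, j)) hD z] at h3
      exact congrArg Subtype.val h3
    have hv0 : vk (lch k b) c k = 0 := by
      refine hF.2 _ (vk_ne_zero _ _) ?_
      rw [hv]
    exact MoisZ_alg k b c hM hv0
  · intro hc
    rw [hc]
    exact lpt_mem_Fz

theorem MoisZ_tht {k : Fin 3} {v : Fin 3 → ℂ} {j : Bool} (hO : v ∈ Om j)
    (hk : v k = 0) : (if k = 2 then ((tht false v * Real.sqrt 2 : ℝ) : ℂ) else 0) -
      ((tht j v * Real.sqrt 2 : ℝ) : ℂ) = - aa k j := by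
  cases j with
  | true =>
    rw [tht_true]
    have h2 : k ≠ 2 := by
      rintro rfl
      have h3 : ‖v 0‖ < ‖v 2‖ := by
        have : v ∈ Om true := hO
        simp [Om] at this
        exact this.1
      rw [hk, norm_zero] at h3
      exact absurd h3 (not_lt.2 (norm_nonneg _))
    simp [h2, aa]
  | false =>
    have h3 : k = 0 ∨ k = 1 ∨ k = 2 := by
      fin_cases k <;> simp
    rcases h3 with rfl | rfl | rfl
    · rw [tht_line0 hO hk]
      simp [aa]
    · rw [tht_line1 hO hk]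
      simp [aa]
    · simp [aa]

theorem f1_chart {k : Fin 3} {b j : Bool} {t z : ℂ} (h : (lpt b t, z) ∈ DD (lch k b, j)) :
    f1 k (chi (lch k b, j) (lpt b t, z)) = wp (z - aa k j) := by
  have hD : lpt b t ∈ Dk (lch k b) := h.1
  have hO : vk (lch k b) (lpt b t) ∈ Om j := h.2
  have hv := chi_val (i := (lch k b, j)) hD z
  have hk := (lpt_facts k b t).2.2
  unfold f1
  rw [hv]
  have h1 : tht false (toP (N := 2) (vk (lch k b) (lpt b t))).rep =
      tht false (vk (lch k b) (lpt b t)) := by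
    have hw := vk_ne_zero (lch k b) (lpt b t)
    have h1 : toP (N := 2) (toP (N := 2) (vk (lch k b) (lpt b t))).rep =
        toP (N := 2) (vk (lch k b) (lpt b t)) := by
      have h2 := (toP (N := 2) (vk (lch k b) (lpt b t))).rep_nonzero
      unfold toP at h2 ⊢
      rw [dif_pos hw] at h2 ⊢
      rw [dif_pos h2]
      exact Projectivization.mk_rep _
    obtain ⟨c, hc, h3⟩ := (toP_eq_iff (N := 2) hw
      (toP (N := 2) (vk (lch k b) (lpt b t))).rep_nonzero).1 h1.symm
    rw [h3, tht_smul _ _ hc]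
  simp only [h1]
  rw [wp_sec _ _ _ rfl]
  have h4 := MoisZ_tht hO hk
  congr 1
  linear_combination h4

/-- homeomorphic change of parameters in `Fz_open` -/
theorem MoisZ_hop {k : Fin 3} {b j : Bool} (w₀ : Fin 2 → ℂ)
    (h : (lpt b (w₀ 0), w₀ 1) ∈ DD (lch k b, j)) :
    ∀ W ∈ 𝓝 w₀, (fun w : Fin 2 → ℂ => chi (lch k b, j) (lpt b (w 0), w 1)) '' W ∈
      𝓝[Fz k] (chi (lch k b, j) (lpt b (w₀ 0), w₀ 1)) := by
  intro W hW
  have hc : Continuous (fun q : ℂ × ℂ => (![q.1, q.2] : Fin 2 → ℂ)) := by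
    refine continuous_pi fun i => ?_
    fin_cases i
    · exact continuous_fst
    · exact continuous_snd
  have h0 : (![w₀ 0, w₀ 1] : Fin 2 → ℂ) = w₀ := by
    funext i
    fin_cases i <;> rfl
  have h1 : (fun q : ℂ × ℂ => (![q.1, q.2] : Fin 2 → ℂ)) ⁻¹' W ∈ 𝓝 (w₀ 0, w₀ 1) := by
    refine hc.continuousAt.preimage_mem_nhds ?_
    show W ∈ 𝓝 ![w₀ 0, w₀ 1]
    rw [h0]
    exact hW
  refine mem_of_superset (Fz_open h h1) ?_
  rintro _ ⟨q, hq, rfl⟩
  exact ⟨![q.1, q.2], hq, by simp⟩

theorem MoisZ_diff (b : Bool) : Differentiable ℂ (fun w : Fin 2 → ℂ => (lpt b (w 0), w 1)) := by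
  refine Differentiable.prodMk ?_ (differentiable_apply 1)
  rw [differentiable_pi]
  intro i
  cases b
  · fin_cases i
    · exact differentiable_apply 0
    · exact differentiable_const _
    · exact differentiable_const _
    · exact differentiable_const _
  · fin_cases i
    · exact differentiable_const _
    · exact differentiable_apply 0
    · exact differentiable_const _
    · exact differentiable_const _

theorem MoisZ_rho (b : Bool) : Differentiable ℂ (fun e : (Fin 4 → ℂ) × ℂ =>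
    (![e.1 (if b then 1 else 0), e.2] : Fin 2 → ℂ)) := by
  rw [differentiable_pi]
  intro i
  fin_cases i
  · show Differentiable ℂ (fun e : (Fin 4 → ℂ) × ℂ => e.1 (if b then 1 else 0))
    fun_prop
  · show Differentiable ℂ (fun e : (Fin 4 → ℂ) × ℂ => e.2)
    fun_prop

theorem MoisZ_rho_kap (b : Bool) (w : Fin 2 → ℂ) :
    (![(lpt b (w 0)) (if b then 1 else 0), w 1] : Fin 2 → ℂ) = w := by
  rw [MoisZ_idx]
  funext i
  fin_cases i <;> rfl

theorem MoisZ_ev {k : Fin 3} {b j : Bool} {w₀ : Fin 2 → ℂ}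
    (h : (lpt b (w₀ 0), w₀ 1) ∈ DD (lch k b, j)) :
    ∀ᶠ w in 𝓝 w₀, (lpt b (w 0), w 1) ∈ DD (lch k b, j) :=
  (MoisZ_diff b).continuous.continuousAt.preimage_mem_nhds ((chartSys.isOpen _).mem_nhds h)

theorem Fz_dim (k : Fin 3) : HasDim (Fz k) 2 := by
  obtain ⟨x, hx⟩ := Fz_nonempty k
  obtain ⟨b, t0, j, z0, hDD, rfl⟩ := Fz_param hx
  obtain ⟨W₀, inv, hW₀, heW, hWD, -, hUo, -, hinv, hhol⟩ := chi_inv hDD (W := univ) univ_mem
  refine ⟨fun w => chi (lch k b, j) (lpt b (w 0), w 1), {w | (lpt b (w 0), w 1) ∈ W₀},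
    chi (lch k b, j) '' W₀, fun y => ![(inv y).1 (if b then 1 else 0), (inv y).2],
    ?_, ?_, hUo, ?_, ?_, ?_, ?_⟩
  · exact hW₀.preimage (MoisZ_diff b).continuous
  · exact ⟨![t0, z0], by simpa using heW⟩
  · ext y
    constructor
    · rintro ⟨w, hw, rfl⟩
      exact ⟨lpt_mem_Fz, mem_image_of_mem _ hw⟩
    · rintro ⟨hyF, ⟨⟨c, z⟩, hcz, rfl⟩⟩
      have hc := (Fz_chart_iff (hWD hcz)).1 hyF
      refine ⟨![c (if b then 1 else 0), z], ?_, ?_⟩
      · show (lpt b (c (if b then 1 else 0)), z) ∈ W₀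
        rw [← hc]
        exact hcz
      · show chi (lch k b, j) (lpt b (c (if b then 1 else 0)), z) = chi (lch k b, j) (c, z)
        rw [← hc]
  · intro w hw
    simp only [hinv _ hw]
    exact MoisZ_rho_kap b w
  · intro w hw
    have h1 : HolTo (fun w : Fin 2 → ℂ => chi (lch k b, j) (lpt b (w 0), w 1)) w :=
      HolTo.comp_diff (f := fun w : Fin 2 → ℂ => (lpt b (w 0), w 1)) (holTo_chi (hWD hw))
        (Eventually.of_forall fun w' => (MoisZ_diff b) w')
    exact h1
  · rintro _ ⟨e, he, rfl⟩ i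
    have h1 := hhol e he (fun e => (![e.1 (if b then 1 else 0), e.2] : Fin 2 → ℂ) i)
      (Eventually.of_forall fun e' => differentiableAt_pi.1 (MoisZ_rho b e') i)
    exact h1

theorem MoisZ_f0_chart {k : Fin 3} {b j : Bool} {t z : ℂ} (h : (lpt b t, z) ∈ DD (lch k b, j)) :
    f0 k (chi (lch k b, j) (lpt b t, z)) = if b then 1 / t else t := by
  have hD : lpt b t ∈ Dk (lch k b) := h.1
  unfold f0
  rw [chi_val (i := (lch k b, j)) hD z]
  show rat (k + 2) (k + 1) (toP (N := 2) (vk (lch k b) (lpt b t))) = _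
  rw [rat_toP _ _ (vk_ne_zero _ _), lpt_vk]
  fin_cases k <;> cases b <;> simp

/-- meromorphy in the parameters -/
theorem MoisZ_mero {k : Fin 3} {b j : Bool} {w₀ : Fin 2 → ℂ} {f : XX → ℂ}
    (h : (lpt b (w₀ 0), w₀ 1) ∈ DD (lch k b, j))
    {p q : (Fin 2 → ℂ) → ℂ} (hp : HolAt p w₀) (hq : HolAt q w₀)
    (hd : ∀ᶠ w in 𝓝 w₀, w ∈ closure {w | q w ≠ 0})
    (hf : ∀ᶠ w in 𝓝 w₀, q w ≠ 0 → f (chi (lch k b, j) (lpt b (w 0), w 1)) = p w / q w) :
    ∃ P Q : XX → ℂ, hol (chi (lch k b, j) (lpt b (w₀ 0), w₀ 1)) P ∧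
      hol (chi (lch k b, j) (lpt b (w₀ 0), w₀ 1)) Q ∧
      (∀ᶠ y in 𝓝 (chi (lch k b, j) (lpt b (w₀ 0), w₀ 1)), y ∈ Fz k →
        y ∈ closure (Fz k ∩ {y | Q y ≠ 0})) ∧
      ∀ᶠ y in 𝓝 (chi (lch k b, j) (lpt b (w₀ 0), w₀ 1)), y ∈ Fz k → Q y ≠ 0 → f y = P y / Q y :=
  mero_param (n := 2) (Z := Fz k) (f := f) (i := (lch k b, j))
    (kap := fun w => (lpt b (w 0), w 1))
    (rho := fun e => ![e.1 (if b then 1 else 0), e.2]) (w₀ := w₀) h
    (MoisZ_diff b).continuous (MoisZ_rho b) (MoisZ_rho_kap b)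
    (Eventually.of_forall fun _ => lpt_mem_Fz) (MoisZ_hop w₀ h) hp hq hd hf

theorem MoisZ_dense (l : Fin 2) {Q : ℂ → ℂ} {w₀ : Fin 2 → ℂ} {a : ℂ}
    (h : ∀ᶠ z in 𝓝[≠] (w₀ l - a), Q z ≠ 0) :
    ∀ᶠ w in 𝓝 w₀, w ∈ closure {w : Fin 2 → ℂ | Q (w l - a) ≠ 0} := by
  have h1 : Tendsto (fun w : Fin 2 → ℂ => w l - a) (𝓝 w₀) (𝓝 (w₀ l - a)) :=
    ((continuous_apply l).sub continuous_const).tendsto w₀
  filter_upwards [h1.eventually (MoisA_dense h)] with w hw
  have hcont : Continuous (fun z : ℂ => Function.update w l (z + a)) :=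
    continuous_const.update l (continuous_id.add continuous_const)
  have h2 := map_mem_closure hcont hw (t := {w : Fin 2 → ℂ | Q (w l - a) ≠ 0}) (by
    intro z hz
    show Q (Function.update w l (z + a) l - a) ≠ 0
    rw [Function.update_self, add_sub_cancel_right]
    exact hz)
  rw [sub_add_cancel, Function.update_eq_self] at h2
  exact h2

theorem moisZ (k : Fin 3) : IsMoishezon (Fz k) := by
  refine ⟨2, Fz_dim k, ![f0 k, f1 k], ?_, ?_⟩
  · intro l x hx
    obtain ⟨b, t, j, z, hDD, rfl⟩ := Fz_param hx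
    have hev := MoisZ_ev (w₀ := ![t, z]) (by simpa using hDD)
    have h0 : ∀ (u : Fin 2 → ℂ), HolAt (fun w : Fin 2 → ℂ => w 0) u := fun u =>
      Eventually.of_forall fun w => differentiableAt_apply 0 w
    fin_cases l
    · have hd0 : ∀ᶠ z in 𝓝[≠] ((![t, z] : Fin 2 → ℂ) 0 - 0), (fun z : ℂ => z) z ≠ 0 := by
        by_cases ht : t = 0
        · filter_upwards [self_mem_nhdsWithin] with y hy
          simpa [ht] using hy
        · have h1 : ∀ᶠ y in 𝓝 ((![t, z] : Fin 2 → ℂ) 0 - 0), y ≠ 0 := by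
            refine isOpen_ne.mem_nhds ?_
            simpa using ht
          exact h1.filter_mono nhdsWithin_le_nhds
      have hd1 := MoisZ_dense 0 hd0
      simp only [sub_zero] at hd1
      cases b with
      | false =>
        refine MoisZ_mero (w₀ := ![t, z]) (f := f0 k) (by simpa using hDD)
          (p := fun w => w 0) (q := fun _ => 1) (h0 _) (HolAt.const 1) ?_ ?_
        · refine Eventually.of_forall fun w => subset_closure ?_
          exact one_ne_zero
        · filter_upwards [hev] with w hw _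
          rw [MoisZ_f0_chart hw]
          simp
      | true =>
        refine MoisZ_mero (w₀ := ![t, z]) (f := f0 k) (by simpa using hDD)
          (p := fun _ => 1) (q := fun w => w 0) (HolAt.const 1) (h0 _) hd1 ?_
        filter_upwards [hev] with w hw _
        rw [MoisZ_f0_chart hw]
        simp
    · obtain ⟨p0, q0, hp0, hq0, hq0', hpq⟩ := wp_local (z - aa k j)
      have hdiff : ∀ᶠ w in 𝓝 (![t, z] : Fin 2 → ℂ),
          DifferentiableAt ℂ (fun w : Fin 2 → ℂ => w 1 - aa k j) w :=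
        Eventually.of_forall fun w => by fun_prop
      have hproj : Tendsto (fun w : Fin 2 → ℂ => w 1 - aa k j) (𝓝 ![t, z])
          (𝓝 (z - aa k j)) :=
        ((continuous_apply 1).sub continuous_const).tendsto _
      refine MoisZ_mero (w₀ := ![t, z]) (f := f1 k) (by simpa using hDD)
        (p := fun w => p0 (w 1 - aa k j)) (q := fun w => q0 (w 1 - aa k j)) ?_ ?_ ?_ ?_
      · exact HolAt.comp (F := p0) (f := fun w : Fin 2 → ℂ => w 1 - aa k j) hp0 hdiff
      · exact HolAt.comp (F := q0) (f := fun w : Fin 2 → ℂ => w 1 - aa k j) hq0 hdiff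
      · exact MoisZ_dense 1 hq0'
      · filter_upwards [hev, hproj.eventually hpq] with w hw hw2 hq
        rw [f1_chart hw, hw2 hq]
  · refine algIndep_param ![univ, wp '' Latᶜ] ?_ fun a ha => ?_
    · intro l
      fin_cases l
      · exact infinite_univ
      · exact wp_inf
    obtain ⟨u, hu, hua⟩ : ∃ u, u ∉ Lat ∧ wp u = a 1 := by
      obtain ⟨u, hu, hua⟩ := ha 1
      exact ⟨u, hu, hua⟩
    have hv := lpt_vk k false (a 0)
    have hO : vk (lch k false) (lpt false (a 0)) ∈ Om true ∨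
        vk (lch k false) (lpt false (a 0)) ∈ Om false := by
      refine Om_cover ?_
      rw [hv]
      fin_cases k <;> simp
      intro h1 h2
      rw [h2, norm_zero] at h1
      exact one_ne_zero h1
    obtain ⟨j, hj⟩ : ∃ j, vk (lch k false) (lpt false (a 0)) ∈ Om j := by
      rcases hO with h | h
      · exact ⟨true, h⟩
      · exact ⟨false, h⟩
    have hDD : (lpt false (a 0), u + aa k j) ∈ DD (lch k false, j) :=
      ⟨(lpt_facts k false (a 0)).2.1, hj⟩
    have hev := MoisZ_ev (w₀ := ![a 0, u + aa k j]) (by simpa using hDD)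
    refine ⟨chi (lch k false, j) (lpt false (a 0), u + aa k j), lpt_mem_Fz, ?_, ?_⟩
    · intro l
      fin_cases l
      · show f0 k _ = a 0
        rw [MoisZ_f0_chart hDD]
        simp
      · show f1 k _ = a 1
        rw [f1_chart hDD, add_sub_cancel_right, hua]
    · intro l
      have hop := MoisZ_hop (k := k) (b := false) (j := j) ![a 0, u + aa k j] (by simpa using hDD)
      refine cwa_param (n := 2) (kap := fun w => chi (lch k false, j) (lpt false (w 0), w 1))
        (w₀ := ![a 0, u + aa k j]) hop ?_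
      fin_cases l
      · have h1 : (fun w : Fin 2 → ℂ => w 0) =ᶠ[𝓝 ![a 0, u + aa k j]]
            fun w => f0 k (chi (lch k false, j) (lpt false (w 0), w 1)) := by
          filter_upwards [hev] with w hw
          rw [MoisZ_f0_chart hw]
          simp
        exact (continuous_apply 0).continuousAt.congr h1
      · have h1 : (fun w : Fin 2 → ℂ => wp (w 1 - aa k j)) =ᶠ[𝓝 ![a 0, u + aa k j]]
            fun w => f1 k (chi (lch k false, j) (lpt false (w 0), w 1)) := by
          filter_upwards [hev] with w hw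
          rw [f1_chart hw]
        refine ContinuousAt.congr ?_ h1
        refine ContinuousAt.comp (g := wp) (f := fun w : Fin 2 → ℂ => w 1 - aa k j) ?_
          ((continuous_apply 1).sub continuous_const).continuousAt
        show ContinuousAt wp (u + aa k j - aa k j)
        rw [add_sub_cancel_right]
        exact (wp_hol hu).continuousAt

end Pool.Agent.Moi
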