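import Pool.Agent.H.MP_795b03_ag.HolBasic

/-! JOB ProdModel: the product of two complex spaces is a complex space.

Proof. p = (x, y).  Take models (n, f, U) at x and (m, g, W) at y and psi (x', y') := Fin.append (f x') (g y') : Fin (n+m) → ℂ on U ×ˢ W.
IsEmbedding: product of embeddings composed with the homeomorphism (Fin n → ℂ) × (Fin m → ℂ) ≃ (Fin (n+m) → ℂ).
LocAn at psi (x', y'): z ∈ psi '' (U ×ˢ W) iff its first block is in f '' U and the second block in g '' W; preimages of locally
analytic sets under linear projections, intersection (LocAn.preimage, LocAn.inter in HolBasic; you may import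
Pool.Agent.H.MP_795b03_ag.HolBasic).
germs at (x', y'): (→) f0 = F(a, b) near (x',y'), a_i = A_i ∘ f near x', b_j = B_j ∘ g near y' with A_i, B_j holomorphic (germs of the two
models); so f0 = F' ∘ psi with F' (z) = F (A (first block), B (second block)), holomorphic near psi (x',y').
(←) f0 = F' ∘ psi: take a_i = i-th coordinate of f (holomorphic at x' by germs with F = projection), b_j the j-th coordinate of g, and
F (s,t) = F' (Fin.append s t).
-/

set_option autoImplicit false

open Topology Filter Set

namespace Pool.Agent.Moi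

private theorem ProdModel_append_diff {n m : ℕ} (q : (Fin n → ℂ) × (Fin m → ℂ)) :
    DifferentiableAt ℂ (fun r : (Fin n → ℂ) × (Fin m → ℂ) => (Fin.append r.1 r.2 : Fin (n + m) → ℂ))
      q := by
  rw [differentiableAt_pi]
  intro k
  refine Fin.addCases (fun i => ?_) (fun j => ?_) k
  · simp only [Fin.append_left]
    fun_prop
  · simp only [Fin.append_right]
    fun_prop

private theorem ProdModel_emb {X Y : Type} [TopologicalSpace X] [TopologicalSpace Y] {n m : ℕ}
    {f : X → (Fin n → ℂ)} {g : Y → (Fin m → ℂ)} {U : Set X} {W : Set Y}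
    (hf : IsEmbedding (U.domRestrict f)) (hg : IsEmbedding (W.domRestrict g)) :
    IsEmbedding ((U ×ˢ W).domRestrict (fun q => (Fin.append (f q.1) (g q.2) : Fin (n + m) → ℂ))) := by
  have h1 := (hf.prodMap hg).comp (Homeomorph.Set.prod U W).isEmbedding
  exact (Fin.appendHomeomorph (X := ℂ) n m).isEmbedding.comp h1

theorem prod_model {X Y : Type} [TopologicalSpace X] [TopologicalSpace Y] [CxSpace X] [CxSpace Y]
    (p : X × Y) : ∃ (n : ℕ) (psi : X × Y → (Fin n → ℂ)) (U : Set (X × Y)),
      IsModel (holProd (X := X) (Y := Y)) n psi U ∧ p ∈ U := by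
  obtain ⟨n, f, U, hU, hpU⟩ := CxSpace.model p.1
  obtain ⟨m, g, W, hW, hpW⟩ := CxSpace.model p.2
  refine ⟨n + m, fun q => Fin.append (f q.1) (g q.2), U ×ˢ W, ?_, hpU, hpW⟩
  set lft : (Fin (n + m) → ℂ) → (Fin n → ℂ) := fun z i => z (Fin.castAdd m i) with hlft
  set rgt : (Fin (n + m) → ℂ) → (Fin m → ℂ) := fun z j => z (Fin.natAdd n j) with hrgt
  have hl : ∀ (a : Fin n → ℂ) (b : Fin m → ℂ), lft (Fin.append a b) = a := by
    intro a b; funext i; simp [hlft]
  have hr : ∀ (a : Fin n → ℂ) (b : Fin m → ℂ), rgt (Fin.append a b) = b := by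
    intro a b; funext i; simp [hrgt]
  have hlr : ∀ z : Fin (n + m) → ℂ, Fin.append (lft z) (rgt z) = z := by
    intro z; funext k
    refine Fin.addCases (fun i => ?_) (fun j => ?_) k
    · simp [hlft]
    · simp [hrgt]
  have hld : ∀ z : Fin (n + m) → ℂ, DifferentiableAt ℂ lft z := by
    intro z; rw [hlft]; fun_prop
  have hrd : ∀ z : Fin (n + m) → ℂ, DifferentiableAt ℂ rgt z := by
    intro z; rw [hrgt]; fun_prop
  refine ⟨hU.isOpen.prod hW.isOpen, ProdModel_emb hU.emb hW.emb, ?_, ?_⟩
  · rintro ⟨x, y⟩ ⟨hx, hy⟩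
    have h1 : LocAn {z | lft z ∈ f '' U} (Fin.append (f x) (g y)) :=
      LocAn.preimage (f := lft) (by rw [hl]; exact hU.an x hx) (Eventually.of_forall hld)
    have h2 : LocAn {z | rgt z ∈ g '' W} (Fin.append (f x) (g y)) :=
      LocAn.preimage (f := rgt) (by rw [hr]; exact hW.an y hy) (Eventually.of_forall hrd)
    refine (h1.inter h2).congr (Eventually.of_forall fun z => ?_)
    constructor
    · rintro ⟨⟨x', hx', h3⟩, ⟨y', hy', h4⟩⟩
      refine ⟨(x', y'), ⟨hx', hy'⟩, ?_⟩
      change Fin.append (f x') (g y') = z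
      rw [h3, h4, hlr]
    · rintro ⟨⟨x', y'⟩, ⟨hx', hy'⟩, rfl⟩
      exact ⟨⟨x', hx', (hl _ _).symm⟩, ⟨y', hy', (hr _ _).symm⟩⟩
  · rintro ⟨x, y⟩ ⟨hx, hy⟩ f0
    simp only at hx hy
    constructor
    · rintro ⟨n', m', a, b, F, ha, hb, hF, hf0⟩
      have ha' := fun i => (hU.germs x hx (a i)).1 (ha i)
      have hb' := fun i => (hW.germs y hy (b i)).1 (hb i)
      choose A hA hA' using ha'
      choose B hB hB' using hb'
      have hval : ((fun i => A i (lft (Fin.append (f x) (g y)))),
          (fun i => B i (rgt (Fin.append (f x) (g y))))) = ((fun i => a i x), (fun i => b i y)) := by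
        rw [hl, hr]
        refine Prod.ext (funext fun i => ?_) (funext fun i => ?_)
        · exact (hA' i).eq_of_nhds.symm
        · exact (hB' i).eq_of_nhds.symm
      refine ⟨fun z => F ((fun i => A i (lft z)), (fun i => B i (rgt z))), ?_, ?_⟩
      · refine HolAt.comp (f := fun z : Fin (n + m) → ℂ =>
          (((fun i => A i (lft z)), (fun i => B i (rgt z))) : (Fin n' → ℂ) × (Fin m' → ℂ))) ?_ ?_
        · have h := hF
          simp only at h
          rw [← hval] at h
          exact h
        · have h1 : ∀ i, HolAt (fun z => A i (lft z)) (Fin.append (f x) (g y)) := fun i =>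
            HolAt.comp (f := lft) (by rw [hl]; exact hA i) (Eventually.of_forall hld)
          have h2 : ∀ i, HolAt (fun z => B i (rgt z)) (Fin.append (f x) (g y)) := fun i =>
            HolAt.comp (f := rgt) (by rw [hr]; exact hB i) (Eventually.of_forall hrd)
          filter_upwards [eventually_all.2 h1, eventually_all.2 h2] with z h3 h4
          exact (differentiableAt_pi.2 h3).prodMk (differentiableAt_pi.2 h4)
      · have h1 : ∀ᶠ q : X × Y in 𝓝 (x, y), ∀ i, a i q.1 = A i (f q.1) :=
          continuousAt_fst.eventually (p := fun x' => ∀ i, a i x' = A i (f x'))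
            (eventually_all.2 hA')
        have h2 : ∀ᶠ q : X × Y in 𝓝 (x, y), ∀ i, b i q.2 = B i (g q.2) :=
          continuousAt_snd.eventually (p := fun y' => ∀ i, b i y' = B i (g y'))
            (eventually_all.2 hB')
        filter_upwards [hf0, h1, h2] with q h3 h4 h5
        rw [h3]
        simp only [Function.comp_apply, hl, hr, h4, h5]
    · rintro ⟨F, hF, hf0⟩
      refine ⟨n, m, fun i x' => f x' i, fun j y' => g y' j, fun r => F (Fin.append r.1 r.2),
        ?_, ?_, ?_, ?_⟩
      · intro i
        exact (hU.germs x hx _).2 ⟨fun z => z i, Eventually.of_forall fun z => by fun_prop,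
          Eventually.of_forall fun _ => rfl⟩
      · intro i
        exact (hW.germs y hy _).2 ⟨fun z => z i, Eventually.of_forall fun z => by fun_prop,
          Eventually.of_forall fun _ => rfl⟩
      · exact HolAt.comp (f := fun r : (Fin n → ℂ) × (Fin m → ℂ) =>
          (Fin.append r.1 r.2 : Fin (n + m) → ℂ)) hF (Eventually.of_forall ProdModel_append_diff)
      · filter_upwards [hf0] with q hq
        rw [hq]
        rfl

end Pool.Agent.Moi
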