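import Pool.Agent.H.MP_795b03_ag.PnModel
import Pool.Agent.H.MP_795b03_ag.ProdModel

/-! Projective space and products as complex spaces; Moishezon morphisms. -/

set_option autoImplicit false

open Topology Filter Set

namespace Pool.Agent.Moi

/-- projective space as a complex space -/
noncomputable instance instCxPN (N : ℕ) : CxSpace (PN N) where
  hol := holP
  t2 := pn_t2 N
  countable := pn_sc N
  model := fun l => by
    obtain ⟨psi, U, h, hl, _⟩ := pn_model l
    exact ⟨N, psi, U, h, hl⟩

/-- the product of two complex spaces -/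
noncomputable instance instCxProd (X Y : Type) [TopologicalSpace X] [TopologicalSpace Y]
    [CxSpace X] [CxSpace Y] : CxSpace (X × Y) where
  hol := holProd
  t2 := by
    haveI := CxSpace.t2 (X := X)
    haveI := CxSpace.t2 (X := Y)
    infer_instance
  countable := by
    haveI := CxSpace.countable (X := X)
    haveI := CxSpace.countable (X := Y)
    infer_instance
  model := prod_model

section
variable {X S : Type} [TopologicalSpace X] [TopologicalSpace S] [CxSpace X] [CxSpace S]

/-- The morphism `g⁻¹(U) → U` (restriction of `g` over the open set `U`) is Moishezon: for every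
irreducible component `X₁` of `g⁻¹(U)`, the morphism `X₁ → U` is bimeromorphic over `U` to a
projective morphism `Xp → U`, where `Xp` is an analytic subset of `U × ℙᴺ`, that is, there is an
analytic subset `Y` of the fibre product `X₁ ×_U Xp` whose projections `Y → X₁` and `Y → Xp`
are bimeromorphic. -/
def MoishezonOver (g : X → S) (U : Set S) : Prop :=
  ∀ X₁, IsIrrComp (g ⁻¹' U) (g ⁻¹' U) X₁ →
    ∃ (N : ℕ) (Xp : Set (S × PN N)) (Y : Set (X × (S × PN N))),
      IsAnalyticIn (U ×ˢ univ) Xp ∧
      IsAnalyticIn ((g ⁻¹' U) ×ˢ (U ×ˢ univ)) Y ∧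
      (∀ p ∈ Y, p.1 ∈ X₁ ∧ p.2 ∈ Xp ∧ p.2.1 = g p.1) ∧
      IsBimer (g ⁻¹' U) Prod.fst Y X₁ ∧ IsBimer (U ×ˢ univ) Prod.snd Y Xp

/-- `g` is locally Moishezon: every point of `S` has an open neighbourhood `U` such that
`g⁻¹(U) → U` is Moishezon. -/
def LocallyMoishezon (g : X → S) : Prop :=
  ∀ s : S, ∃ U : Set S, IsOpen U ∧ s ∈ U ∧ MoishezonOver g U

end

end Pool.Agent.Moi
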