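import Pool.Agent.H.MP_795b03_ag.LocM

/-! JOB P1: a locally liftable map from ℙ¹ to the elliptic curve is constant.

Let F be f1 or f2.  If s, s' are two analytic local lifts of F at t then s - s' takes values in ℤ + iℤ near t and is continuous, so it is constant near t (discrete: pr_eq_iff; e.g. values within 1/2 of the value at t, two lattice points at distance < 1 are equal), so deriv s t = deriv s' t.
Define g_F(t) = deriv s t for any local lift s at t (choice); for t' near t the same s is a lift at t', so g_F = deriv s near t: g_F is entire.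
For t ≠ 0: near t, pr (s1 t') = f1 t' = f2 (t'⁻¹) = pr (s2 (t'⁻¹)), where s2 is a lift of f2 at t⁻¹; t' ↦ s2 (t'⁻¹) is another local lift of f1 at t, so g_1(t) = - g_2(t⁻¹) / t^2.
As t → ∞, g_2(t⁻¹) → g_2(0) so g_1(t) → 0; g_1 is entire and tends to 0 along cocompact, hence zero (Liouville: Mathlib Differentiable.apply_eq_of_tendsto_cocompact, file Mathlib/Analysis/Complex/Liouville.lean).
So every local lift s of f1 has derivative 0 near the point, is locally constant, f1 is locally constant, ℂ is connected: f1 is constant (IsLocallyConstant.apply_eq_of_preconnectedSpace).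
f2 t = f1 t⁻¹ for t ≠ 0, constant; f2 is continuous at 0 (pr ∘ s) and El is Hausdorff, so f2 0 is the same constant.
-/

set_option autoImplicit false

open Topology Filter Set Complex

namespace Pool.Agent.Moi

private theorem P1_dconst {t : ℂ} {s s' : ℂ → ℂ} (hs : AnalyticAt ℂ s t)
    (hs' : AnalyticAt ℂ s' t) (h : ∀ᶠ t' in 𝓝 t, pr (s t') = pr (s' t')) :
    ∀ᶠ t' in 𝓝 t, s t' = s' t' + (s t - s' t) := by
  have hc : ContinuousAt (fun t' => s t' - s' t') t := hs.continuousAt.sub hs'.continuousAt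
  have hb : ∀ᶠ t' in 𝓝 t, s t' - s' t' ∈ Metric.ball (s t - s' t) (1 / 2) :=
    hc.preimage_mem_nhds (Metric.ball_mem_nhds _ (by norm_num))
  filter_upwards [h, hb] with t' h1 h2
  have h3 : pr (s t' - s' t') = pr (s t - s' t) := by
    rw [pr_sub, pr_sub, h1, h.self_of_nhds, sub_self, sub_self]
  have h4 := pr_injOn (s t - s' t) h2 (Metric.mem_ball_self (by norm_num)) h3
  linear_combination h4

private theorem P1_deriv {t : ℂ} {s s' : ℂ → ℂ} (hs : AnalyticAt ℂ s t)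
    (hs' : AnalyticAt ℂ s' t) (h : ∀ᶠ t' in 𝓝 t, pr (s t') = pr (s' t')) :
    deriv s t = deriv s' t := by
  have h1 := P1_dconst hs hs' h
  have h2 : s =ᶠ[𝓝 t] fun t' => s' t' + (s t - s' t) := h1
  rw [h2.deriv_eq, deriv_add_const]

private theorem P1_g (f : ℂ → El)
    (hf : ∀ t, ∃ s : ℂ → ℂ, AnalyticAt ℂ s t ∧ ∀ᶠ t' in 𝓝 t, f t' = pr (s t')) :
    ∃ g : ℂ → ℂ, Differentiable ℂ g ∧ ∀ (t : ℂ) (s : ℂ → ℂ), AnalyticAt ℂ s t →
      (∀ᶠ t' in 𝓝 t, f t' = pr (s t')) → deriv s t = g t := by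
  choose S hS1 hS2 using hf
  have key : ∀ (t : ℂ) (s : ℂ → ℂ), AnalyticAt ℂ s t →
      (∀ᶠ t' in 𝓝 t, f t' = pr (s t')) → deriv s t = deriv (S t) t := by
    intro t s hs h
    refine P1_deriv hs (hS1 t) ?_
    filter_upwards [h, hS2 t] with t' h1 h2
    rw [← h1, h2]
  refine ⟨fun t => deriv (S t) t, ?_, key⟩
  intro t
  have h1 : ∀ᶠ t' in 𝓝 t, deriv (S t) t' = deriv (S t') t' := by
    filter_upwards [(hS1 t).eventually_analyticAt, (hS2 t).eventually_nhds] with t' h1 h2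
    exact key t' (S t) h1 h2
  have h2 : DifferentiableAt ℂ (deriv (S t)) t := (hS1 t).deriv.differentiableAt
  refine h2.congr_of_eventuallyEq ?_
  filter_upwards [h1] with t' h1
  exact h1.symm

theorem p1_const (f1 f2 : ℂ → El)
    (h1 : ∀ t, ∃ s : ℂ → ℂ, AnalyticAt ℂ s t ∧ ∀ᶠ t' in 𝓝 t, f1 t' = pr (s t'))
    (h2 : ∀ t, ∃ s : ℂ → ℂ, AnalyticAt ℂ s t ∧ ∀ᶠ t' in 𝓝 t, f2 t' = pr (s t'))
    (h : ∀ t : ℂ, t ≠ 0 → f1 t = f2 t⁻¹) : f1 0 = f2 0 := by
  obtain ⟨g1, hg1, k1⟩ := P1_g f1 h1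
  obtain ⟨g2, hg2, k2⟩ := P1_g f2 h2
  have hrel : ∀ t : ℂ, t ≠ 0 → g1 t = g2 t⁻¹ * (-(t ^ 2)⁻¹) := by
    intro t ht
    obtain ⟨s, hs, hs'⟩ := h2 t⁻¹
    have e1 : deriv s t⁻¹ = g2 t⁻¹ := k2 _ s hs hs'
    have hinv : AnalyticAt ℂ (fun t' : ℂ => t'⁻¹) t := analyticAt_inv ht
    have hcomp : AnalyticAt ℂ (fun t' => s t'⁻¹) t := hs.comp hinv
    have e2 : deriv (fun t' => s t'⁻¹) t = g1 t := by
      refine k1 t _ hcomp ?_
      have hc : ContinuousAt (fun t' : ℂ => t'⁻¹) t := hinv.continuousAt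
      filter_upwards [hc.eventually hs', isOpen_ne.mem_nhds ht] with t' h3 h4
      rw [h t' h4, h3]
    rw [← e2, ← e1]
    have h3 : HasDerivAt s (deriv s t⁻¹) t⁻¹ := hs.differentiableAt.hasDerivAt
    have h4 : HasDerivAt (fun t' : ℂ => t'⁻¹) (-(t ^ 2)⁻¹) t := hasDerivAt_inv ht
    exact (h3.comp t h4).deriv
  have htend : Tendsto g1 (cocompact ℂ) (𝓝 0) := by
    have hinv : Tendsto (fun t : ℂ => t⁻¹) (cocompact ℂ) (𝓝 0) := by
      have := Filter.tendsto_inv₀_cobounded (α := ℂ)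
      rwa [Metric.cobounded_eq_cocompact] at this
    have h5 : Tendsto (fun t : ℂ => g2 t⁻¹) (cocompact ℂ) (𝓝 (g2 0)) :=
      (hg2.continuous.tendsto 0).comp hinv
    have h6 : Tendsto (fun t : ℂ => -(t ^ 2)⁻¹) (cocompact ℂ) (𝓝 0) := by
      have h7 : Tendsto (fun t : ℂ => -((t⁻¹) ^ 2)) (cocompact ℂ) (𝓝 (-(0 ^ 2))) := (hinv.pow 2).neg
      simpa using h7
    have h8 : Tendsto (fun t : ℂ => g2 t⁻¹ * (-(t ^ 2)⁻¹)) (cocompact ℂ) (𝓝 (g2 0 * 0)) := h5.mul h6
    rw [mul_zero] at h8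
    refine h8.congr' ?_
    have h9 : ∀ᶠ t : ℂ in cocompact ℂ, t ≠ 0 := by
      have : ({0} : Set ℂ)ᶜ ∈ cocompact ℂ := isCompact_singleton.compl_mem_cocompact
      exact this
    filter_upwards [h9] with t ht
    exact (hrel t ht).symm
  have hz : ∀ t, g1 t = 0 := fun t => hg1.apply_eq_of_tendsto_cocompact t htend
  have hlc : ∀ t, ∀ᶠ t' in 𝓝 t, f1 t' = f1 t := by
    intro t
    obtain ⟨s, hs, hs'⟩ := h1 t
    have h3 : ∀ᶠ t' in 𝓝 t, AnalyticAt ℂ s t' ∧ deriv s t' = 0 := by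
      filter_upwards [hs.eventually_analyticAt, hs'.eventually_nhds] with t' a1 a2
      exact ⟨a1, by rw [k1 t' s a1 a2, hz]⟩
    obtain ⟨r, hr, hr'⟩ := Metric.eventually_nhds_iff_ball.1 (h3.and hs')
    have h4 : ∀ x ∈ Metric.ball t r, s x = s t := by
      intro x hx
      refine (convex_ball t r).is_const_of_fderivWithin_eq_zero (𝕜 := ℂ)
        (fun y hy => (hr' y hy).1.1.differentiableAt.differentiableWithinAt) ?_ hx
        (Metric.mem_ball_self hr)
      intro y hy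
      rw [fderivWithin_of_isOpen Metric.isOpen_ball hy]
      ext
      simp [(hr' y hy).1.2]
    filter_upwards [Metric.ball_mem_nhds t hr] with x hx
    rw [(hr' x hx).2, h4 x hx, ← (hr' t (Metric.mem_ball_self hr)).2]
  have hconst : ∀ t t', f1 t = f1 t' := by
    have : IsLocallyConstant f1 := (IsLocallyConstant.iff_eventually_eq f1).2 hlc
    exact fun t t' => this.apply_eq_of_preconnectedSpace t t'
  have hf2 : ∀ t : ℂ, t ≠ 0 → f2 t = f1 0 := by
    intro t ht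
    have := h t⁻¹ (inv_ne_zero ht)
    rw [inv_inv] at this
    rw [← this, hconst t⁻¹ 0]
  obtain ⟨s, hs, hs'⟩ := h2 0
  have hcont : ContinuousAt f2 0 := by
    have : ContinuousAt (fun t => pr (s t)) 0 := continuous_pr.continuousAt.comp hs.continuousAt
    exact this.congr (hs'.mono fun _ h => h.symm)
  have t1 : Tendsto f2 (𝓝[≠] 0) (𝓝 (f2 0)) := hcont.tendsto.mono_left nhdsWithin_le_nhds
  have t2 : Tendsto f2 (𝓝[≠] 0) (𝓝 (f1 0)) := by
    refine tendsto_const_nhds.congr' ?_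
    filter_upwards [self_mem_nhdsWithin] with t ht
    exact (hf2 t ht).symm
  exact tendsto_nhds_unique t2 t1

end Pool.Agent.Moi
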