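import Pool.Agent.H.MP_795b03_ag.Glue2
import Pool.Agent.H.MP_795b03_ag.P1

/-! JOB Neg: the contradiction on the triangle of lines.

Let bl k b t = (toP (vk (lch k b) (lpt b t)), zB).  For every j: bsp (lch k b, j) (lpt b t) = bl k b t (unfold bsp, chi_val, Mk = 0 by lpt_facts, Subtype.ext).
lpt_VV: chi (lch k b, j) (lpt b t, 0) ∈ Fz k ⊆ gX ⁻¹ {zB} ⊆ X1 (lpt_mem_Fz, fib_zero); the condition on j is vk (lch k b) (lpt b t) ∈ Om j.  For each k, b, t such a j exists (Om_cover: coordinate k is 0 and one coordinate is 1, so the norms are not all equal).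
bl_inv: bl k false t = bl k true t⁻¹ for t ≠ 0: lpt_vk: the vector for (true, t⁻¹) is t⁻¹ times the vector for (false, t) (toP_eq_iff).
Lines k = 0, 1: F_b(t) = TB (bl k b t).  Locally near t fix j with lpt b t ∈ VV X1 (lch k b, j) (for t' near t still, VV_open-like: DD open; only the statement ∀ᶠ c' is used): TB (bl k b t') + D (bl k b t') • pr (tw ..) = pr (s (lpt b t')) and D (bl k b t') = D (bl k b t) =: d near t, and
tw (lch k b, j) (lpt b t') = constant kappa in {0, √2} for t' near t (tht_true, tht_line0, tht_line1; vk .. ∈ Om j near t by openness of DD).  So F_b = pr (s (lpt b t') - d * kappa) near t: analytic (HolAt.line or composition with the linear map lpt b: HolAt → AnalyticAt via DifferentiableOn on a neighbourhood).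
Line k = 2: F_b(t) = TB (bl 2 b t) + D (bl 2 b t) • pr (tht false (vk ..) √2); j = false always works (Om_line2), F_b = pr (s (lpt b t')) near t.  F_false t = F_true t⁻¹ by bl_inv and tht_smul.
p1_const for k = 0, 1, 2: F_false 0 = F_true 0.
Nodes: bl 0 false 0 = bl 2 true 0 = ([0:1:0], zB), bl 0 true 0 = bl 1 false 0 = ([0:0:1], zB), bl 1 true 0 = bl 2 false 0 = ([1:0:0], zB) (lpt_vk at t = 0: the vectors are equal to ![0,1,0], ![0,0,1], ![1,0,0]).
So TB [1:0:0] = TB [0:0:1] = TB [0:1:0], and for k = 2: TB [1:0:0] + D • pr √2 = TB [0:1:0] + D' • pr 0 (tht_node_a, tht_node_b), hence D • pr √2 = 0 with D = D ([1:0:0], zB) > 0; pr (D √2) = 0 = pr 0 (pr_nsmul) gives D √2 = m + n I, so D √2 = m (real parts), which contradicts the irrationality of √2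
(irrational_sqrt_two; D ≠ 0).
not_locMoish: LocallyMoishezon gX at s = zB gives U; extract, glueAll, neg_final.
-/

set_option autoImplicit false

open Topology Filter Set Complex

namespace Pool.Agent.Moi

theorem lpt_VV {X₁ : Set XX} (hfib : gX ⁻¹' {zB} ⊆ X₁) {k : Fin 3} {b j : Bool} {t : ℂ}
    (hj : vk (lch k b) (lpt b t) ∈ Om j) : lpt b t ∈ VV X₁ (lch k b, j) :=
  ⟨⟨(lpt_facts k b t).2.1, hj⟩,
    hfib (lpt_mem_Fz (k := k) (b := b) (t := t) (j := j) (z := 0)).1⟩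

/-- homogeneous coordinates on the line `k` -/
noncomputable def Neg_v (k : Fin 3) (b : Bool) (t : ℂ) : Fin 3 → ℂ := vk (lch k b) (lpt b t)

/-- the points of the line `k` over the origin -/
noncomputable def Neg_bl (k : Fin 3) (b : Bool) (t : ℂ) : PN 2 × Bs := (toP (Neg_v k b t), zB)

theorem Neg_bsp (k : Fin 3) (b j : Bool) (t : ℂ) :
    bsp (lch k b, j) (lpt b t) = Neg_bl k b t := by
  unfold bsp Neg_bl Neg_v
  rw [chi_val (i := (lch k b, j)) (lpt_facts k b t).2.1]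
  refine Prod.ext rfl (Subtype.ext (lpt_facts k b t).1)

theorem Neg_lpt_diff (b : Bool) : Differentiable ℂ (lpt b) := by
  rw [differentiable_pi]
  intro i
  cases b <;> fin_cases i <;> simp [lpt]

theorem Neg_v_ne (k : Fin 3) (b : Bool) (t : ℂ) : Neg_v k b t ≠ 0 := vk_ne_zero _ _

theorem Neg_v_zero (k : Fin 3) (b : Bool) (t : ℂ) : Neg_v k b t k = 0 := (lpt_facts k b t).2.2

theorem Neg_v_cont (k : Fin 3) (b : Bool) : Continuous (Neg_v k b) :=
  (ChartC_vk_cont _).comp (Neg_lpt_diff b).continuous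

theorem Neg_v_inv (k : Fin 3) {t : ℂ} (ht : t ≠ 0) :
    Neg_v k true t⁻¹ = t⁻¹ • Neg_v k false t := by
  unfold Neg_v
  rw [lpt_vk, lpt_vk]
  funext i
  fin_cases k <;> fin_cases i <;> simp [ht]

theorem Neg_bl_inv (k : Fin 3) {t : ℂ} (ht : t ≠ 0) : Neg_bl k false t = Neg_bl k true t⁻¹ := by
  unfold Neg_bl
  have h1 : toP (N := 2) (Neg_v k false t) = toP (Neg_v k true t⁻¹) :=
    (toP_eq_iff (N := 2) (Neg_v_ne _ _ _) (Neg_v_ne _ _ _)).2
      ⟨t⁻¹, inv_ne_zero ht, Neg_v_inv k ht⟩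
  rw [h1]

theorem Neg_cover (k : Fin 3) (b : Bool) (t : ℂ) : ∃ j : Bool, Neg_v k b t ∈ Om j := by
  have h1 : ¬ (‖Neg_v k b t 0‖ = ‖Neg_v k b t 1‖ ∧ ‖Neg_v k b t 1‖ = ‖Neg_v k b t 2‖) := by
    rintro ⟨h01, h12⟩
    apply Neg_v_ne k b t
    have h0 := Neg_v_zero k b t
    have h3 : ‖Neg_v k b t k‖ = 0 := by rw [h0, norm_zero]
    have h4 : ‖Neg_v k b t 0‖ = 0 ∧ ‖Neg_v k b t 1‖ = 0 ∧ ‖Neg_v k b t 2‖ = 0 := by
      fin_cases k
      · exact ⟨h3, h01 ▸ h3, h12 ▸ h01 ▸ h3⟩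
      · exact ⟨h01.trans h3, h3, h12 ▸ h3⟩
      · exact ⟨(h01.trans h12).trans h3, h12.trans h3, h3⟩
    funext i
    fin_cases i
    · exact norm_eq_zero.1 h4.1
    · exact norm_eq_zero.1 h4.2.1
    · exact norm_eq_zero.1 h4.2.2
  rcases Om_cover h1 with h | h
  · exact ⟨true, h⟩
  · exact ⟨false, h⟩

theorem neg_final {X₁ : Set XX} (hfib : gX ⁻¹' {zB} ⊆ X₁) (D : PN 2 × Bs → ℕ)
    (TB : PN 2 × Bs → El)
    (h : ∀ i, ∀ c ∈ VV X₁ i,
      (∀ᶠ c' in 𝓝 c, D (bsp i c') = D (bsp i c)) ∧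
      (∃ s : (Fin 4 → ℂ) → ℂ, HolAt s c ∧
        ∀ᶠ c' in 𝓝 c, TB (bsp i c') + D (bsp i c') • pr (tw i c') = pr (s c')) ∧
      0 < D (bsp i c)) : False := by
  -- local form of the hypothesis along the lines
  have hloc : ∀ (k : Fin 3) (b j : Bool) (t : ℂ), Neg_v k b t ∈ Om j →
      ∃ s : ℂ → ℂ, AnalyticAt ℂ s t ∧ ∀ᶠ t' in 𝓝 t, Neg_v k b t' ∈ Om j ∧
        D (Neg_bl k b t') = D (Neg_bl k b t) ∧
        TB (Neg_bl k b t') + D (Neg_bl k b t') •
          pr ((tht j (Neg_v k b t') * Real.sqrt 2 : ℝ) : ℂ) = pr (s t') := by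
    intro k b j t hj
    obtain ⟨hD, ⟨s, hs, hTB⟩, -⟩ := h (lch k b, j) (lpt b t) (lpt_VV hfib hj)
    have hc : Tendsto (lpt b) (𝓝 t) (𝓝 (lpt b t)) := (Neg_lpt_diff b).continuous.continuousAt
    refine ⟨fun t' => s (lpt b t'), ?_, ?_⟩
    · have h1 : HolAt (fun t' => s (lpt b t')) t :=
        hs.comp (Eventually.of_forall fun t' => (Neg_lpt_diff b) t')
      exact Complex.analyticAt_iff_eventually_differentiableAt.2 h1
    · have h2 : ∀ᶠ t' in 𝓝 t, Neg_v k b t' ∈ Om j :=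
        (Neg_v_cont k b).continuousAt.eventually ((isOpen_Om j).mem_nhds hj)
      filter_upwards [h2, hc.eventually hD, hc.eventually hTB] with t' h3 h4 h5
      rw [Neg_bsp, Neg_bsp] at h4
      rw [Neg_bsp] at h5
      exact ⟨h3, h4, h5⟩
  have hpos : 0 < D (Neg_bl 2 false 0) := by
    obtain ⟨j, hj⟩ := Neg_cover 2 false 0
    have := (h (lch 2 false, j) (lpt false 0) (lpt_VV hfib hj)).2.2
    rwa [Neg_bsp] at this
  -- lines 0 and 1
  have hline : ∀ (k : Fin 3) (κ : ℝ), (∀ (v : Fin 3 → ℂ), v k = 0 → v ∈ Om false →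
      tht false v = κ) → TB (Neg_bl k false 0) = TB (Neg_bl k true 0) := by
    intro k κ hκ
    have key : ∀ b : Bool, ∀ t, ∃ s : ℂ → ℂ, AnalyticAt ℂ s t ∧
        ∀ᶠ t' in 𝓝 t, TB (Neg_bl k b t') = pr (s t') := by
      intro b t
      obtain ⟨j, hj⟩ := Neg_cover k b t
      obtain ⟨s, hs, hev⟩ := hloc k b j t hj
      obtain ⟨κ', hκ'⟩ : ∃ κ' : ℝ, ∀ t', Neg_v k b t' ∈ Om j → tht j (Neg_v k b t') = κ' := by
        cases j
        · exact ⟨κ, fun t' ht' => hκ _ (Neg_v_zero k b t') ht'⟩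
        · exact ⟨0, fun t' _ => tht_true _⟩
      refine ⟨fun t' => s t' - (D (Neg_bl k b t) : ℂ) * ((κ' * Real.sqrt 2 : ℝ) : ℂ),
        hs.sub analyticAt_const, ?_⟩
      filter_upwards [hev] with t' ht'
      obtain ⟨h1, h2, h3⟩ := ht'
      rw [pr_sub, pr_nsmul, ← h3, hκ' t' h1, h2]
      abel
    refine p1_const (fun t => TB (Neg_bl k false t)) (fun t => TB (Neg_bl k true t))
      (key false) (key true) fun t ht => ?_
    simp only [Neg_bl_inv k ht]
  have h0 := hline 0 0 fun v hv hv' => tht_line0 hv' hv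
  have h1 := hline 1 1 fun v hv hv' => tht_line1 hv' hv
  -- line 2
  have h2 : TB (Neg_bl 2 false 0) + D (Neg_bl 2 false 0) •
      pr ((tht false (Neg_v 2 false 0) * Real.sqrt 2 : ℝ) : ℂ) =
      TB (Neg_bl 2 true 0) + D (Neg_bl 2 true 0) •
      pr ((tht false (Neg_v 2 true 0) * Real.sqrt 2 : ℝ) : ℂ) := by
    have key : ∀ b : Bool, ∀ t, ∃ s : ℂ → ℂ, AnalyticAt ℂ s t ∧
        ∀ᶠ t' in 𝓝 t, TB (Neg_bl 2 b t') + D (Neg_bl 2 b t') •
          pr ((tht false (Neg_v 2 b t') * Real.sqrt 2 : ℝ) : ℂ) = pr (s t') := by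
      intro b t
      obtain ⟨s, hs, hev⟩ := hloc 2 b false t (Om_line2 (Neg_v_ne _ _ _) (Neg_v_zero 2 b t))
      exact ⟨s, hs, hev.mono fun t' ht' => ht'.2.2⟩
    refine p1_const (fun t => TB (Neg_bl 2 false t) + D (Neg_bl 2 false t) •
        pr ((tht false (Neg_v 2 false t) * Real.sqrt 2 : ℝ) : ℂ))
      (fun t => TB (Neg_bl 2 true t) + D (Neg_bl 2 true t) •
        pr ((tht false (Neg_v 2 true t) * Real.sqrt 2 : ℝ) : ℂ))
      (key false) (key true) fun t ht => ?_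
    simp only [Neg_bl_inv 2 ht, Neg_v_inv 2 ht, tht_smul false _ (inv_ne_zero ht)]
  have v0f : Neg_v 0 false 0 = ![0, 1, 0] := by
    unfold Neg_v; rw [lpt_vk]; funext i; fin_cases i <;> simp
  have v0t : Neg_v 0 true 0 = ![0, 0, 1] := by
    unfold Neg_v; rw [lpt_vk]; funext i; fin_cases i <;> simp
  have v1f : Neg_v 1 false 0 = ![0, 0, 1] := by
    unfold Neg_v; rw [lpt_vk]; funext i; fin_cases i <;> simp
  have v1t : Neg_v 1 true 0 = ![1, 0, 0] := by
    unfold Neg_v; rw [lpt_vk]; funext i; fin_cases i <;> simp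
  have v2f : Neg_v 2 false 0 = ![1, 0, 0] := by
    unfold Neg_v; rw [lpt_vk]; funext i; fin_cases i <;> simp
  have v2t : Neg_v 2 true 0 = ![0, 1, 0] := by
    unfold Neg_v; rw [lpt_vk]; funext i; fin_cases i <;> simp
  unfold Neg_bl at h0 h1 h2 hpos
  rw [v0f, v0t] at h0
  rw [v1f, v1t] at h1
  rw [v2f, v2t, tht_node_a, tht_node_b] at h2
  rw [v2f] at hpos
  rw [← h1, ← h0] at h2
  have h3 : D (toP (N := 2) ![1, 0, 0], zB) • pr (((1 : ℝ) * Real.sqrt 2 : ℝ) : ℂ) = 0 := by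
    have h4 := add_left_cancel h2
    rw [h4, zero_mul, Complex.ofReal_zero, pr_zero, smul_zero]
  rw [← pr_nsmul, ← pr_zero, pr_eq_iff, one_mul] at h3
  obtain ⟨m, n, hmn⟩ := h3
  have hre := congrArg Complex.re hmn
  simp only [zero_add, Complex.add_re, Complex.mul_re, Complex.natCast_re, Complex.natCast_im,
    Complex.ofReal_re, Complex.ofReal_im, Complex.intCast_re, Complex.intCast_im, Complex.I_re,
    Complex.I_im, mul_zero, zero_mul, sub_zero, add_zero] at hre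
  have hirr := irrational_sqrt_two.natCast_mul hpos.ne'
  exact hirr ⟨(m : ℚ), by rw [hre]; push_cast; rfl⟩

theorem not_locMoish : ¬ LocallyMoishezon gX := by
  intro h
  obtain ⟨U, hU, h0, hm⟩ := h zB
  obtain ⟨X₁, N, Yg, T, phi, hg⟩ := extract hU h0 hm
  obtain ⟨D, TB, hD⟩ := hg.glueAll
  exact neg_final hg.fib0 D TB hD

end Pool.Agent.Moi
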