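import Pool.Agent.H.MP_795b03_ag.Defs

/-! Projective space is a compact Hausdorff second countable complex manifold. -/

set_option autoImplicit false

open Topology Filter Set

namespace Pool.Agent.Moi

open scoped LinearAlgebra.Projectivization

private noncomputable def pnq (N : ℕ) : {v : Fin (N + 1) → ℂ // v ≠ 0} → PN N :=
  fun v => Projectivization.mk ℂ v.1 v.2

private theorem pnq_quot (N : ℕ) : IsQuotientMap (pnq N) :=
  isQuotientMap_quotient_mk'

private theorem pnq_surj (N : ℕ) : Function.Surjective (pnq N) := (pnq_quot N).surjective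

private theorem pnq_eq {N : ℕ} (v w : {v : Fin (N + 1) → ℂ // v ≠ 0}) :
    pnq N v = pnq N w ↔ ∃ c : ℂ, c ≠ 0 ∧ w.1 = c • v.1 := by
  unfold pnq
  rw [Projectivization.mk_eq_mk_iff' ℂ v.1 w.1 v.2 w.2]
  constructor
  · rintro ⟨a, ha⟩
    have ha0 : a ≠ 0 := by
      rintro rfl
      rw [zero_smul] at ha
      exact v.2 ha.symm
    exact ⟨a⁻¹, inv_ne_zero ha0, by rw [← ha, smul_smul, inv_mul_cancel₀ ha0, one_smul]⟩
  · rintro ⟨c, hc, hw⟩
    exact ⟨c⁻¹, by rw [hw, smul_smul, inv_mul_cancel₀ hc, one_smul]⟩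

private theorem pnq_toP {N : ℕ} (v : {v : Fin (N + 1) → ℂ // v ≠ 0}) : toP v.1 = pnq N v := by
  unfold toP
  rw [dif_pos v.2]
  rfl

private theorem pnq_open (N : ℕ) : IsOpenMap (pnq N) := by
  intro W hW
  rw [← (pnq_quot N).isOpen_preimage]
  have h : pnq N ⁻¹' (pnq N '' W) = ⋃ c : {c : ℂ // c ≠ 0},
      (fun v : {v : Fin (N + 1) → ℂ // v ≠ 0} =>
        (⟨c.1 • v.1, smul_ne_zero c.2 v.2⟩ : {v : Fin (N + 1) → ℂ // v ≠ 0})) ⁻¹' W := by
    ext v
    simp only [mem_preimage, mem_image, mem_iUnion]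
    constructor
    · rintro ⟨w, hw, hwv⟩
      obtain ⟨c, hc, h2⟩ := (pnq_eq v w).1 hwv.symm
      refine ⟨⟨c, hc⟩, ?_⟩
      have : (⟨c • v.1, smul_ne_zero hc v.2⟩ : {v : Fin (N + 1) → ℂ // v ≠ 0}) = w :=
        Subtype.ext h2.symm
      rw [this]; exact hw
    · rintro ⟨c, hc⟩
      exact ⟨_, hc, ((pnq_eq v _).2 ⟨c.1, c.2, rfl⟩).symm⟩
  rw [h]
  refine isOpen_iUnion fun c => hW.preimage ?_
  exact (continuous_subtype_val.const_smul c.1).subtype_mk _

/-- `toP` is continuous at every nonzero vector. -/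
theorem continuousAt_toP {N : ℕ} {v : Fin (N + 1) → ℂ} (hv : v ≠ 0) :
    ContinuousAt (toP (N := N)) v := by
  have h1 : ContinuousOn (toP (N := N)) {v | v ≠ 0} := by
    rw [continuousOn_iff_continuous_domRestrict]
    have : ({v : Fin (N + 1) → ℂ | v ≠ 0}.domRestrict toP) = pnq N := by
      funext w
      exact pnq_toP w
    rw [this]
    exact (pnq_quot N).continuous
  exact h1.continuousAt (isOpen_ne.mem_nhds hv)

/-- `toP v = toP w` iff the two nonzero vectors are proportional. -/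
theorem toP_eq_iff {N : ℕ} {v w : Fin (N + 1) → ℂ} (hv : v ≠ 0) (hw : w ≠ 0) :
    toP v = toP w ↔ ∃ c : ℂ, c ≠ 0 ∧ w = c • v := by
  rw [pnq_toP ⟨v, hv⟩, pnq_toP ⟨w, hw⟩]
  exact pnq_eq _ _

theorem toP_surj {N : ℕ} (l : PN N) : ∃ v : Fin (N + 1) → ℂ, v ≠ 0 ∧ toP v = l := by
  obtain ⟨v, hv⟩ := pnq_surj N l
  exact ⟨v.1, v.2, by rw [pnq_toP, hv]⟩

theorem toP_smul {N : ℕ} {v : Fin (N + 1) → ℂ} (hv : v ≠ 0) {c : ℂ} (hc : c ≠ 0) :
    toP (c • v) = toP v :=
  ((toP_eq_iff hv (smul_ne_zero hc hv)).2 ⟨c, hc, rfl⟩).symm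

/-- `toP` is an open map on nonzero vectors. -/
theorem toP_nhds {N : ℕ} {v : Fin (N + 1) → ℂ} (hv : v ≠ 0) {W : Set (Fin (N + 1) → ℂ)}
    (hW : W ∈ 𝓝 v) : toP '' W ∈ 𝓝 (toP v) := by
  have h1 : (Subtype.val ⁻¹' W : Set {v : Fin (N + 1) → ℂ // v ≠ 0}) ∈ 𝓝 ⟨v, hv⟩ :=
    continuous_subtype_val.continuousAt.preimage_mem_nhds hW
  have h2 := (pnq_open N).image_mem_nhds h1
  rw [← pnq_toP] at h2
  refine mem_of_superset h2 ?_
  rintro _ ⟨w, hw, rfl⟩
  exact ⟨w.1, hw, pnq_toP w⟩

theorem pn_t2 (N : ℕ) : T2Space (PN N) := by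
  have hq : IsOpenQuotientMap (pnq N) := ⟨pnq_surj N, (pnq_quot N).continuous, pnq_open N⟩
  rw [t2Space_iff_of_isOpenQuotientMap hq]
  have h : {q : {v : Fin (N + 1) → ℂ // v ≠ 0} × {v : Fin (N + 1) → ℂ // v ≠ 0} |
      pnq N q.1 = pnq N q.2} = ⋂ i, ⋂ j, {q | q.1.1 i * q.2.1 j = q.1.1 j * q.2.1 i} := by
    ext ⟨v, w⟩
    simp only [mem_ofPred_eq, mem_iInter]
    rw [pnq_eq]
    constructor
    · rintro ⟨c, hc, h⟩ i j
      rw [h]
      simp only [Pi.smul_apply, smul_eq_mul]
      ring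
    · intro h
      obtain ⟨i, hi⟩ := Function.ne_iff.1 v.2
      have hi' : v.1 i ≠ 0 := hi
      have hw : w.1 = (w.1 i / v.1 i) • v.1 := by
        funext j
        have := h i j
        simp only [Pi.smul_apply, smul_eq_mul]
        field_simp
        linear_combination this
      refine ⟨w.1 i / v.1 i, ?_, hw⟩
      intro h0
      rw [h0, zero_smul] at hw
      exact w.2 hw
  rw [h]
  refine isClosed_iInter fun i => isClosed_iInter fun j => isClosed_eq ?_ ?_
  · exact ((continuous_apply i).comp (continuous_subtype_val.comp continuous_fst)).mul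
      ((continuous_apply j).comp (continuous_subtype_val.comp continuous_snd))
  · exact ((continuous_apply j).comp (continuous_subtype_val.comp continuous_fst)).mul
      ((continuous_apply i).comp (continuous_subtype_val.comp continuous_snd))

theorem pn_sc (N : ℕ) : SecondCountableTopology (PN N) :=
  (pnq_quot N).secondCountableTopology (pnq_open N)

theorem pn_compact (N : ℕ) : CompactSpace (PN N) := by
  have hs : IsCompact (Metric.sphere (0 : Fin (N + 1) → ℂ) 1) := isCompact_sphere _ _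
  have hc : ContinuousOn (toP (N := N)) (Metric.sphere (0 : Fin (N + 1) → ℂ) 1) := by
    intro v hv
    refine (continuousAt_toP ?_).continuousWithinAt
    rintro rfl
    simp at hv
  refine ⟨?_⟩
  have h := hs.image_of_continuousOn hc
  have h2 : toP '' (Metric.sphere (0 : Fin (N + 1) → ℂ) 1) = (univ : Set (PN N)) := by
    rw [eq_univ_iff_forall]
    intro l
    obtain ⟨v, hv, rfl⟩ := toP_surj l
    have hn : ‖v‖ ≠ 0 := norm_ne_zero_iff.2 hv
    refine ⟨((‖v‖ : ℂ)⁻¹) • v, ?_, toP_smul hv ?_⟩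
    · rw [mem_sphere_zero_iff_norm, norm_smul, norm_inv, Complex.norm_real, norm_norm,
        inv_mul_cancel₀ hn]
    · exact inv_ne_zero (by exact_mod_cast hn)
  rw [← h2]
  exact h

/-- the affine charts are local models. -/
theorem pn_model {N : ℕ} (l : PN N) : ∃ (psi : PN N → (Fin N → ℂ)) (U : Set (PN N)),
    IsModel (holP (N := N)) N psi U ∧ l ∈ U ∧ IsOpen (psi '' U) := by
  classical
  obtain ⟨v₀, hv₀, rfl⟩ := toP_surj l
  obtain ⟨i, hi⟩ := Function.ne_iff.1 hv₀
  have hi : v₀ i ≠ 0 := hi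
  choose rep hrep0 hrep using (toP_surj (N := N))
  let a : (Fin (N + 1) → ℂ) → (Fin N → ℂ) := fun w j => w (i.succAbove j) / w i
  let psi : PN N → (Fin N → ℂ) := fun l => a (rep l)
  let U : Set (PN N) := {l | rep l i ≠ 0}
  have hrel : ∀ w : Fin (N + 1) → ℂ, w ≠ 0 → ∃ c : ℂ, c ≠ 0 ∧ rep (toP w) = c • w := by
    intro w hw
    exact (toP_eq_iff hw (hrep0 _)).1 (hrep _).symm
  have hpsi : ∀ w : Fin (N + 1) → ℂ, w ≠ 0 → psi (toP w) = a w := by
    intro w hw
    obtain ⟨c, hc, h⟩ := hrel w hw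
    funext j
    show rep (toP w) (i.succAbove j) / rep (toP w) i = w (i.succAbove j) / w i
    rw [h]
    simp only [Pi.smul_apply, smul_eq_mul]
    rw [mul_div_mul_left _ _ hc]
  have hU : ∀ w : Fin (N + 1) → ℂ, w ≠ 0 → (toP w ∈ U ↔ w i ≠ 0) := by
    intro w hw
    obtain ⟨c, hc, h⟩ := hrel w hw
    show rep (toP w) i ≠ 0 ↔ w i ≠ 0
    rw [h]
    simp [hc]
  have hne : ∀ w : Fin (N + 1) → ℂ, w i ≠ 0 → w ≠ 0 := by
    rintro w hw rfl
    exact hw rfl
  let ins : (Fin N → ℂ) → (Fin (N + 1) → ℂ) := fun z => i.insertNth (1 : ℂ) z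
  have hinsi : ∀ z, ins z i = 1 := fun z =>
    Fin.insertNth_apply_same (α := fun _ => ℂ) i (1 : ℂ) z
  have hinsj : ∀ z j, ins z (i.succAbove j) = z j := fun z j =>
    Fin.insertNth_apply_succAbove (α := fun _ => ℂ) i (1 : ℂ) z j
  have hins0 : ∀ z, ins z ≠ 0 := fun z => hne _ (by rw [hinsi]; exact one_ne_zero)
  have hinsc : Continuous ins := continuous_const.finInsertNth i continuous_id
  have hains : ∀ z, a (ins z) = z := by
    intro z
    funext j
    show ins z (i.succAbove j) / ins z i = z j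
    rw [hinsi, hinsj, div_one]
  have hinsa : ∀ w : Fin (N + 1) → ℂ, w i ≠ 0 → ins (a w) = (w i)⁻¹ • w := by
    intro w hw
    funext k
    rcases Fin.eq_self_or_eq_succAbove i k with h | ⟨j, h⟩
    · rw [h, hinsi]
      simp [hw]
    · rw [h, hinsj]
      show w (i.succAbove j) / w i = _
      simp only [Pi.smul_apply, smul_eq_mul]
      rw [div_eq_inv_mul]
  let phi : (Fin N → ℂ) → PN N := fun z => toP (ins z)
  have hphic : Continuous phi := by
    rw [continuous_iff_continuousAt]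
    intro z
    exact (continuousAt_toP (hins0 z)).comp hinsc.continuousAt
  have hphiU : ∀ z, phi z ∈ U := fun z => (hU _ (hins0 z)).2 (by rw [hinsi]; exact one_ne_zero)
  have hpp : ∀ z, psi (phi z) = z := fun z => by
    show psi (toP (ins z)) = z
    rw [hpsi _ (hins0 z), hains]
  have hpp' : ∀ l ∈ U, phi (psi l) = l := by
    intro l hl
    obtain ⟨w, hw, rfl⟩ := toP_surj l
    have hwi := (hU w hw).1 hl
    rw [hpsi w hw]
    show toP (ins (a w)) = toP w
    rw [hinsa w hwi]
    exact toP_smul hw (inv_ne_zero hwi)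
  have hnhds : ∀ w : Fin (N + 1) → ℂ, w i ≠ 0 → ∀ᶠ w' in 𝓝 w, w' i ≠ 0 := fun w hw =>
    (continuous_apply i).continuousAt.eventually_ne hw
  have hUo : IsOpen U := by
    rw [isOpen_iff_mem_nhds]
    intro l hl
    obtain ⟨w, hw, rfl⟩ := toP_surj l
    have hwi := (hU w hw).1 hl
    refine mem_of_superset (toP_nhds hw (hnhds w hwi)) ?_
    rintro _ ⟨w', hw', rfl⟩
    exact (hU w' (hne w' hw')).2 hw'
  have hac : ∀ w : Fin (N + 1) → ℂ, w i ≠ 0 → DifferentiableAt ℂ a w := by
    intro w hw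
    rw [differentiableAt_pi]
    intro j
    have h1 : DifferentiableAt ℂ (fun w : Fin (N + 1) → ℂ => w (i.succAbove j)) w :=
      differentiableAt_apply (i.succAbove j) w
    have h2 : DifferentiableAt ℂ (fun w : Fin (N + 1) → ℂ => w i) w := differentiableAt_apply i w
    have h3 : (fun w : Fin (N + 1) → ℂ => a w j) = fun w => w (i.succAbove j) * (w i)⁻¹ := by
      funext w
      exact div_eq_mul_inv _ _
    rw [h3]
    exact h1.mul (h2.fun_inv hw)
  have hpsic : ContinuousOn psi U := by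
    intro l hl
    obtain ⟨w, hw, rfl⟩ := toP_surj l
    have hwi := (hU w hw).1 hl
    refine ContinuousAt.continuousWithinAt ?_
    intro V hV
    rw [hpsi w hw] at hV
    have h1 : a ⁻¹' V ∩ {w' | w' i ≠ 0} ∈ 𝓝 w :=
      inter_mem ((hac w hwi).continuousAt.preimage_mem_nhds hV) (hnhds w hwi)
    rw [mem_map]
    refine mem_of_superset (toP_nhds hw h1) ?_
    rintro _ ⟨w', ⟨hw1, hw2⟩, rfl⟩
    show psi (toP w') ∈ V
    rw [hpsi w' (hne w' hw2)]
    exact hw1
  have himg : psi '' U = univ := by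
    rw [eq_univ_iff_forall]
    intro z
    exact ⟨phi z, hphiU z, hpp z⟩
  refine ⟨psi, U, ⟨hUo, ?_, ?_, ?_⟩, (hU v₀ hv₀).2 hi, by rw [himg]; exact isOpen_univ⟩
  · have hl : Function.LeftInverse (fun z : Fin N → ℂ => (⟨phi z, hphiU z⟩ : U)) (U.domRestrict psi) := by
      intro x
      exact Subtype.ext (hpp' x.1 x.2)
    exact hl.isEmbedding (hphic.subtype_mk _) (continuousOn_iff_continuous_domRestrict.1 hpsic)
  · intro y hy
    rw [himg]
    exact ⟨0, Fin.elim0, fun j => j.elim0, Eventually.of_forall fun z => ⟨fun _ j => j.elim0,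
      fun _ => mem_univ z⟩⟩
  · intro y hy f
    constructor
    · intro hf
      refine ⟨fun z => f (phi z), ?_, ?_⟩
      · have h1 : toP (ins (psi y)) = y := hpp' y hy
        have h2 := hf (ins (psi y)) (hins0 _) h1
        have h3 : ∀ᶠ z in 𝓝 (psi y), DifferentiableAt ℂ (fun w => f (toP w)) (ins z) :=
          hinsc.continuousAt.eventually h2
        filter_upwards [h3] with z hz
        have h4 : DifferentiableAt ℂ ins z := by
          rw [differentiableAt_pi]
          intro k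
          rcases Fin.eq_self_or_eq_succAbove i k with h | ⟨j, h⟩
          · have : (fun x => ins x k) = fun _ => (1 : ℂ) := by
              funext x; rw [h]; exact hinsi x
            rw [this]
            exact differentiableAt_const _
          · have : (fun x => ins x k) = fun x => x j := by
              funext x; rw [h]; exact hinsj x j
            rw [this]
            exact differentiableAt_apply j z
        exact DifferentiableAt.comp z (g := fun w => f (toP w)) hz h4
      · filter_upwards [hUo.mem_nhds hy] with l' hl'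
        show f l' = f (phi (psi l'))
        rw [hpp' l' hl']
    · rintro ⟨F, hF, hfF⟩ v hv rfl
      have hvi := (hU v hv).1 hy
      rw [hpsi v hv] at hF
      have h1 : (fun w => f (toP w)) =ᶠ[𝓝 v] fun w => F (a w) := by
        have h2 := (continuousAt_toP hv).eventually hfF
        filter_upwards [h2, hnhds v hvi] with w hw hwi
        rw [hw]
        show F (psi (toP w)) = F (a w)
        rw [hpsi w (hne w hwi)]
      have h3 := h1.eventually_nhds
      have h4 := (hac v hvi).continuousAt.eventually hF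
      filter_upwards [h3, h4, hnhds v hvi] with w hw1 hw2 hwi
      refine DifferentiableAt.congr_of_eventuallyEq ?_ hw1
      exact DifferentiableAt.comp w (g := F) hw2 (hac w hwi)

end Pool.Agent.Moi
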