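import Pool.Agent.H.MP_795b03_ag.MoisZ

/-! JOB Pos: all irreducible components of all fibres are Moishezon.

s ≠ zB: Z is the fibre (fibA_comp), nonempty because Z is irreducible: moisA.
s = zB: Z ⊆ Fz 0 ∪ Fz 1 ∪ Fz 2 (fib_zero).  Z = (Z ∩ Fz 0) ∪ (Z ∩ (Fz 1 ∪ Fz 2)), analytic sets (IsAnalyticIn.inter, union, Fz_analytic, and Z is analytic in univ), so by irreducibility Z ⊆ Fz 0 or Z ⊆ Fz 1 ∪ Fz 2; again, Z ⊆ Fz 1 or Z ⊆ Fz 2.
So Z ⊆ Fz k, Fz k ⊆ gX ⁻¹ {zB} is irreducible (Fz_irred), so Z = Fz k by maximality: moisZ.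
-/

set_option autoImplicit false

open Topology Filter Set Complex

namespace Pool.Agent.Moi

private theorem pos_split {Z A B : Set XX} (hZ : IsIrred univ Z) (hA : IsAnalyticIn univ A)
    (hB : IsAnalyticIn univ B) (h : Z ⊆ A ∪ B) : Z ⊆ A ∨ Z ⊆ B := by
  have h1 : Z = (Z ∩ A) ∪ (Z ∩ B) := by
    rw [← inter_union_distrib_left]
    exact (inter_eq_left.mpr h).symm
  rcases hZ.2.2 (Z ∩ A) (Z ∩ B) (hZ.2.1.inter hA) (hZ.2.1.inter hB) h1 with h2 | h2
  · left
    exact inter_eq_left.mp h2.symm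
  · right
    exact inter_eq_left.mp h2.symm

theorem pos (s : Bs) (Z : Set XX) (h : IsIrrComp univ (gX ⁻¹' {s}) Z) : IsMoishezon Z := by
  by_cases hs : s = zB
  · subst hs
    have hk : ∀ k, Fz k ⊆ gX ⁻¹' {zB} := by
      intro k
      rw [fib_zero]
      fin_cases k
      · exact subset_union_left.trans subset_union_left
      · exact subset_union_right.trans subset_union_left
      · exact subset_union_right
    have h1 : Z ⊆ Fz 0 ∪ Fz 1 ∪ Fz 2 := by
      rw [← fib_zero]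
      exact h.1
    have h2 : ∃ k, Z ⊆ Fz k := by
      rcases pos_split h.2.1 ((Fz_analytic 0).union (Fz_analytic 1)) (Fz_analytic 2) h1 with h3 | h3
      · rcases pos_split h.2.1 (Fz_analytic 0) (Fz_analytic 1) h3 with h4 | h4
        · exact ⟨0, h4⟩
        · exact ⟨1, h4⟩
      · exact ⟨2, h3⟩
    obtain ⟨k, hZk⟩ := h2
    rw [← h.2.2 (Fz k) (hk k) (Fz_irred k) hZk]
    exact moisZ k
  · have h1 := fibA_comp hs h
    rw [h1]
    refine moisA hs ?_
    rw [← h1]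
    exact h.2.1.1

end Pool.Agent.Moi
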