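import Pool.Agent.H.MP_795b03_ag.Ex

/-! JOB Tht: the twist function tht and the regions Om.

Write r_i = ‖v i‖.  tht true = 0.  tht false v = (if max r0 r1 ≤ r2 then (if r0 < r1 then 0 else 1) else
(r0 - r2)⁺ / ((r0 - r2)⁺ + (r1 - r2)⁺)).
Om false = complement of the closed set {r0 = r1 ≤ r2}; it is the union of the open sets
O1 = {r2 < max r0 r1} (tht false given by the quotient with positive denominator, continuous), O2 = {r0 < r1, r0 < r2} (tht false = 0 there: if max ≤ r2 clear; otherwise r2 < r1 and (r0 - r2)⁺ = 0),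
O3 = {r1 < r0, r1 < r2} (tht false = 1: if max ≤ r2, not r0 < r1; otherwise r2 < r0 and (r1 - r2)⁺ = 0).
tht_cases: on Om true ∩ Om false: r0, r1 < r2 and r0 ≠ r1: locally tht false is constant 0 (if r0 < r1) or 1.
Scaling: all norms are multiplied by ‖a‖ > 0; max (‖a‖ x) 0 = ‖a‖ max x 0.
-/

set_option autoImplicit false

open Topology Filter Set Complex

namespace Pool.Agent.Moi

private theorem tht_cn (i : Fin 3) : Continuous (fun v : Fin 3 → ℂ => ‖v i‖) :=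
  (continuous_apply i).norm

private theorem tht_mem_true {v : Fin 3 → ℂ} :
    v ∈ Om true ↔ ‖v 0‖ < ‖v 2‖ ∧ ‖v 1‖ < ‖v 2‖ := by simp [Om]

private theorem tht_mem_false {v : Fin 3 → ℂ} :
    v ∈ Om false ↔ ¬ (‖v 0‖ = ‖v 1‖ ∧ ‖v 1‖ ≤ ‖v 2‖) := by simp [Om]

private theorem tht_false_def (v : Fin 3 → ℂ) : tht false v =
    if max ‖v 0‖ ‖v 1‖ ≤ ‖v 2‖ then (if ‖v 0‖ < ‖v 1‖ then 0 else 1)
    else max (‖v 0‖ - ‖v 2‖) 0 / (max (‖v 0‖ - ‖v 2‖) 0 + max (‖v 1‖ - ‖v 2‖) 0) := by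
  simp [tht]

theorem isOpen_Om (j : Bool) : IsOpen (Om j) := by
  cases j with
  | true =>
    have h : Om true = {v : Fin 3 → ℂ | ‖v 0‖ < ‖v 2‖} ∩ {v : Fin 3 → ℂ | ‖v 1‖ < ‖v 2‖} := by
      ext v
      exact tht_mem_true
    rw [h]
    exact (isOpen_lt (tht_cn 0) (tht_cn 2)).inter (isOpen_lt (tht_cn 1) (tht_cn 2))
  | false =>
    have h : Om false = ({v : Fin 3 → ℂ | ‖v 0‖ = ‖v 1‖} ∩ {v : Fin 3 → ℂ | ‖v 1‖ ≤ ‖v 2‖})ᶜ := by
      ext v
      exact tht_mem_false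
    rw [h]
    exact ((isClosed_eq (tht_cn 0) (tht_cn 1)).inter
      (isClosed_le (tht_cn 1) (tht_cn 2))).isOpen_compl

private theorem tht_norm_smul (a : ℂ) (v : Fin 3 → ℂ) (i : Fin 3) :
    ‖(a • v) i‖ = ‖a‖ * ‖v i‖ := by
  rw [Pi.smul_apply, norm_smul]

theorem Om_smul {j : Bool} {v : Fin 3 → ℂ} {a : ℂ} (ha : a ≠ 0) : a • v ∈ Om j ↔ v ∈ Om j := by
  have ha' : 0 < ‖a‖ := norm_pos_iff.mpr ha
  cases j with
  | true =>
    rw [tht_mem_true, tht_mem_true, tht_norm_smul, tht_norm_smul, tht_norm_smul,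
      mul_lt_mul_iff_right₀ ha', mul_lt_mul_iff_right₀ ha']
  | false =>
    rw [tht_mem_false, tht_mem_false, tht_norm_smul, tht_norm_smul, tht_norm_smul,
      mul_le_mul_iff_right₀ ha', mul_right_inj' ha'.ne']

private theorem tht_max_mul {c x y : ℝ} (hc : 0 < c) : max (c * x) (c * y) = c * max x y :=
  (mul_max_of_nonneg x y hc.le).symm

theorem tht_smul (j : Bool) (v : Fin 3 → ℂ) {a : ℂ} (ha : a ≠ 0) : tht j (a • v) = tht j v := by
  have ha' : 0 < ‖a‖ := norm_pos_iff.mpr ha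
  cases j with
  | true => simp [tht]
  | false =>
    rw [tht_false_def, tht_false_def, tht_norm_smul, tht_norm_smul, tht_norm_smul,
      tht_max_mul ha']
    have h1 : max (‖a‖ * ‖v 0‖ - ‖a‖ * ‖v 2‖) 0 = ‖a‖ * max (‖v 0‖ - ‖v 2‖) 0 := by
      rw [← tht_max_mul ha', mul_zero, mul_sub]
    have h2 : max (‖a‖ * ‖v 1‖ - ‖a‖ * ‖v 2‖) 0 = ‖a‖ * max (‖v 1‖ - ‖v 2‖) 0 := by
      rw [← tht_max_mul ha', mul_zero, mul_sub]
    rw [h1, h2, ← mul_add, mul_div_mul_left _ _ ha'.ne']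
    simp only [mul_le_mul_iff_right₀ ha', mul_lt_mul_iff_right₀ ha']

private theorem tht_O2 {v : Fin 3 → ℂ} (h1 : ‖v 0‖ < ‖v 1‖) (h2 : ‖v 0‖ < ‖v 2‖) :
    tht false v = 0 := by
  rw [tht_false_def]
  split_ifs with h
  · rfl
  · have h3 : max (‖v 0‖ - ‖v 2‖) 0 = 0 := max_eq_right (by linarith)
    rw [h3, zero_div]

private theorem tht_O3 {v : Fin 3 → ℂ} (h1 : ‖v 1‖ < ‖v 0‖) (h2 : ‖v 1‖ < ‖v 2‖) :
    tht false v = 1 := by
  rw [tht_false_def]
  split_ifs with h h'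
  · linarith
  · rfl
  · have h3 : max (‖v 1‖ - ‖v 2‖) 0 = 0 := max_eq_right (by linarith)
    rw [max_eq_left h1.le, not_le] at h
    have h4 : max (‖v 0‖ - ‖v 2‖) 0 = ‖v 0‖ - ‖v 2‖ := max_eq_left (by linarith)
    rw [h3, h4, add_zero, div_self (by linarith)]

private theorem tht_ev_O2 {v : Fin 3 → ℂ} (h1 : ‖v 0‖ < ‖v 1‖) (h2 : ‖v 0‖ < ‖v 2‖) :
    ∀ᶠ v' in 𝓝 v, tht false v' = 0 := by
  filter_upwards [(isOpen_lt (tht_cn 0) (tht_cn 1)).mem_nhds h1,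
    (isOpen_lt (tht_cn 0) (tht_cn 2)).mem_nhds h2] with v' h3 h4
  exact tht_O2 h3 h4

private theorem tht_ev_O3 {v : Fin 3 → ℂ} (h1 : ‖v 1‖ < ‖v 0‖) (h2 : ‖v 1‖ < ‖v 2‖) :
    ∀ᶠ v' in 𝓝 v, tht false v' = 1 := by
  filter_upwards [(isOpen_lt (tht_cn 1) (tht_cn 0)).mem_nhds h1,
    (isOpen_lt (tht_cn 1) (tht_cn 2)).mem_nhds h2] with v' h3 h4
  exact tht_O3 h3 h4

private theorem tht_cont_of_ev {v : Fin 3 → ℂ} {c : ℝ} (h : ∀ᶠ v' in 𝓝 v, tht false v' = c) :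
    ContinuousAt (tht false) v := by
  have h1 : (fun _ => c) =ᶠ[𝓝 v] tht false := by
    filter_upwards [h] with v' hv'
    exact hv'.symm
  exact continuousAt_const.congr h1

theorem tht_continuousAt {j : Bool} {v : Fin 3 → ℂ} (hv : v ∈ Om j) : ContinuousAt (tht j) v := by
  cases j with
  | true =>
    have h : tht true = fun _ => (0 : ℝ) := by
      funext v'
      simp [tht]
    rw [h]
    exact continuousAt_const
  | false =>
    rw [tht_mem_false] at hv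
    by_cases h : max ‖v 0‖ ‖v 1‖ ≤ ‖v 2‖
    · have h0 : ‖v 0‖ ≤ ‖v 2‖ := (le_max_left _ _).trans h
      have h1 : ‖v 1‖ ≤ ‖v 2‖ := (le_max_right _ _).trans h
      rcases lt_trichotomy ‖v 0‖ ‖v 1‖ with hlt | heq | hgt
      · exact tht_cont_of_ev (tht_ev_O2 hlt (hlt.trans_le h1))
      · exact absurd ⟨heq, h1⟩ hv
      · exact tht_cont_of_ev (tht_ev_O3 hgt (hgt.trans_le h0))
    · rw [not_le] at h
      have hc : Continuous (fun v : Fin 3 → ℂ => max ‖v 0‖ ‖v 1‖) := (tht_cn 0).max (tht_cn 1)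
      have h1 : (fun v' : Fin 3 → ℂ => max (‖v' 0‖ - ‖v' 2‖) 0 /
          (max (‖v' 0‖ - ‖v' 2‖) 0 + max (‖v' 1‖ - ‖v' 2‖) 0)) =ᶠ[𝓝 v] tht false := by
        filter_upwards [(isOpen_lt (tht_cn 2) hc).mem_nhds h] with v' hv'
        rw [tht_false_def, if_neg (not_le.mpr hv')]
      have hn : Continuous (fun v' : Fin 3 → ℂ => max (‖v' 0‖ - ‖v' 2‖) 0) :=
        ((tht_cn 0).sub (tht_cn 2)).max continuous_const
      have hm : Continuous (fun v' : Fin 3 → ℂ => max (‖v' 1‖ - ‖v' 2‖) 0) :=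
        ((tht_cn 1).sub (tht_cn 2)).max continuous_const
      have hne : max (‖v 0‖ - ‖v 2‖) 0 + max (‖v 1‖ - ‖v 2‖) 0 ≠ 0 := by
        have h2 : 0 ≤ max (‖v 0‖ - ‖v 2‖) 0 := le_max_right _ _
        have h3 : 0 ≤ max (‖v 1‖ - ‖v 2‖) 0 := le_max_right _ _
        have h4 : ‖v 0‖ - ‖v 2‖ ≤ max (‖v 0‖ - ‖v 2‖) 0 := le_max_left _ _
        have h5 : ‖v 1‖ - ‖v 2‖ ≤ max (‖v 1‖ - ‖v 2‖) 0 := le_max_left _ _
        rcases lt_max_iff.mp h with h6 | h6
        · intro h7; linarith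
        · intro h7; linarith
      exact (hn.continuousAt.div (hn.add hm).continuousAt hne).congr h1

theorem Om_cover {v : Fin 3 → ℂ} (h : ¬ (‖v 0‖ = ‖v 1‖ ∧ ‖v 1‖ = ‖v 2‖)) :
    v ∈ Om true ∨ v ∈ Om false := by
  rw [tht_mem_true, tht_mem_false]
  by_cases h1 : ‖v 0‖ = ‖v 1‖ ∧ ‖v 1‖ ≤ ‖v 2‖
  · left
    obtain ⟨h2, h3⟩ := h1
    have h4 : ‖v 1‖ < ‖v 2‖ := lt_of_le_of_ne h3 fun h5 => h ⟨h2, h5⟩
    exact ⟨by rw [h2]; exact h4, h4⟩
  · right
    exact h1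

theorem tht_true (v : Fin 3 → ℂ) : tht true v = 0 := by simp [tht]

/-- on the overlap the twist is locally an integer constant -/
theorem tht_cases {v : Fin 3 → ℂ} (h1 : v ∈ Om true) (h2 : v ∈ Om false) :
    ∃ n : ℤ, ∀ᶠ v' in 𝓝 v, tht false v' = n := by
  rw [tht_mem_true] at h1
  rw [tht_mem_false] at h2
  rcases lt_trichotomy ‖v 0‖ ‖v 1‖ with hlt | heq | hgt
  · refine ⟨0, ?_⟩
    filter_upwards [tht_ev_O2 hlt h1.1] with v' hv'
    rw [hv']; simp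
  · exact absurd ⟨heq, h1.2.le⟩ h2
  · refine ⟨1, ?_⟩
    filter_upwards [tht_ev_O3 hgt h1.2] with v' hv'
    rw [hv']; simp

/-- the differences of the twists are locally integer constants -/
theorem tht_diff {j j' : Bool} {v : Fin 3 → ℂ} (h1 : v ∈ Om j) (h2 : v ∈ Om j') :
    ∃ n : ℤ, ∀ᶠ v' in 𝓝 v, tht j v' - tht j' v' = n := by
  cases j with
  | true =>
    cases j' with
    | true => exact ⟨0, Eventually.of_forall fun v' => by simp⟩
    | false =>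
      obtain ⟨n, hn⟩ := tht_cases h1 h2
      refine ⟨-n, ?_⟩
      filter_upwards [hn] with v' hv'
      rw [tht_true, hv']
      push_cast
      ring
  | false =>
    cases j' with
    | true =>
      obtain ⟨n, hn⟩ := tht_cases h2 h1
      refine ⟨n, ?_⟩
      filter_upwards [hn] with v' hv'
      rw [tht_true, hv', sub_zero]
    | false => exact ⟨0, Eventually.of_forall fun v' => by simp⟩

theorem tht_line0 {v : Fin 3 → ℂ} (h : v ∈ Om false) (h0 : v 0 = 0) : tht false v = 0 := by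
  rw [tht_mem_false] at h
  have h1 : ‖v 0‖ = 0 := by rw [h0, norm_zero]
  rw [tht_false_def]
  have h2 : max (‖v 0‖ - ‖v 2‖) 0 = 0 := max_eq_right (by
    have := norm_nonneg (v 2)
    linarith)
  split_ifs with h3 h4
  · rfl
  · exfalso
    have h5 : ‖v 1‖ ≤ ‖v 2‖ := (le_max_right _ _).trans h3
    have h6 : ‖v 1‖ = 0 := le_antisymm (by linarith) (norm_nonneg _)
    exact h ⟨by rw [h1, h6], h5⟩
  · rw [h2, zero_div]

theorem tht_line1 {v : Fin 3 → ℂ} (h : v ∈ Om false) (h1 : v 1 = 0) : tht false v = 1 := by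
  rw [tht_mem_false] at h
  have h2 : ‖v 1‖ = 0 := by rw [h1, norm_zero]
  have h3 : ‖v 1‖ < ‖v 0‖ := by
    rw [h2]
    refine lt_of_le_of_ne (norm_nonneg _) fun h4 => ?_
    exact h ⟨by rw [h2, ← h4], by rw [h2]; exact norm_nonneg _⟩
  rw [tht_false_def]
  split_ifs with h4 h5
  · linarith
  · rfl
  · rw [max_eq_left h3.le, not_le] at h4
    have h5 : max (‖v 1‖ - ‖v 2‖) 0 = 0 := max_eq_right (by
      have := norm_nonneg (v 2)
      linarith)
    have h6 : max (‖v 0‖ - ‖v 2‖) 0 = ‖v 0‖ - ‖v 2‖ := max_eq_left (by linarith)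
    rw [h5, h6, add_zero, div_self (by linarith)]

theorem Om_line2 {v : Fin 3 → ℂ} (hv : v ≠ 0) (h2 : v 2 = 0) : v ∈ Om false := by
  rw [tht_mem_false]
  rintro ⟨h3, h4⟩
  rw [h2, norm_zero] at h4
  have h5 : v 1 = 0 := norm_le_zero_iff.mp h4
  have h6 : v 0 = 0 := by
    rw [h5, norm_zero] at h3
    exact norm_eq_zero.mp h3
  apply hv
  funext i
  fin_cases i
  · exact h6
  · exact h5
  · exact h2

theorem tht_node_a : tht false ![1, 0, 0] = 1 := by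
  rw [tht_false_def]
  simp

theorem tht_node_b : tht false ![0, 1, 0] = 0 := by
  rw [tht_false_def]
  simp

end Pool.Agent.Moi
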