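import Pool.Agent.H.MP_795b03_ag.HolBasic
import Pool.Agent.H.MP_ceb9a9.Scv4

/-! JOB Zeros: the zeros of a holomorphic family of functions of one variable.

Proof. (1) One function: let h be analytic on a neighbourhood of the closed disc D, nonvanishing on
the circle.  h has finitely many zeros in D (isolated zeros + compactness, h is not identically zero near any
point because D is connected), and by dividing them out one after the other (or with
MeromorphicOn.extract_zeros_poles, or with Mathlib dslope / analyticOrderAt factorization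
h = (z - a)^m g locally and induction on the number of zeros) h = (prod_i (z - a_i)) * v on a neighbourhood of D
with v analytic and nonvanishing on D; the list a : Fin k → ℂ contains every zero as often as its
multiplicity (order).  Hence for g analytic near D:
  (2 pi i)⁻¹ ∮ g h'/h = ∑_i g(a_i),   since h'/h = ∑ 1/(z - a_i) + v'/v, ∮ g v'/v = 0 and Cauchy's formula.
In particular k = (2 pi i)⁻¹ ∮ h'/h.
(2) Family: by compactness (tube lemma) there are a ball W around u₀ and r' > r such that G is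
holomorphic on a neighbourhood of every (u, z), u in W, |z - z₀| ≤ r, and G(u,z) ≠ 0 on the circle.  The
integral I(u) = (2 pi i)⁻¹ ∮ G_z(u,z)/G(u,z) dz is continuous (even holomorphic) in u and integer valued, so it is
constant = k on the ball W.  Choose alpha u : Fin k → ℂ the list of zeros of G(u,.) by (1).
For g as in the statement u ↦ ∑_i g(u, alpha u i) = (2 pi i)⁻¹ ∮ g(u,z) G_z(u,z)/G(u,z) dz is holomorphic:
OkaP.differentiableOn_integral (file Pool.Agent.H.MP_ceb9a9.Scv4) after writing the circle integral as an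
integral over [0, 2 pi]; G_z is holomorphic in (u,z) by SCV1_dir (Pool.Agent.H.MP_3a36cd_an.SCV1).
If the order is the natural number order analyticOrderNatAt: it is 0 at non zeros, and finite at
zeros because G(u,.) does not vanish on the circle.
-/

set_option autoImplicit false

open Topology Filter Set Complex Metric

namespace Pool.Agent.Moi

/-- Finset factorization. -/
private theorem zeros_fact {h : ℂ → ℂ} {z₀ : ℂ} {r : ℝ} (hr : 0 < r)
    (hh : AnalyticOnNhd ℂ h (closedBall z₀ r)) (hs : ∀ z ∈ sphere z₀ r, h z ≠ 0) :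
    ∃ (S : Finset ℂ) (m : ℂ → ℕ) (v : ℂ → ℂ), (∀ a ∈ S, a ∈ ball z₀ r) ∧
      AnalyticOnNhd ℂ v (closedBall z₀ r) ∧ (∀ z ∈ closedBall z₀ r, v z ≠ 0) ∧
      ∀ z ∈ closedBall z₀ r, ∀ᶠ ζ in 𝓝 z, h ζ = (∏ a ∈ S, (ζ - a) ^ (m a)) * v ζ := by
  have hpc : IsPreconnected (closedBall z₀ r) := (convex_closedBall z₀ r).isPreconnected
  have hx : z₀ + r ∈ sphere z₀ r := by
    simp [abs_of_pos hr]
  have hx' : z₀ + r ∈ closedBall z₀ r := sphere_subset_closedBall hx
  have hx0 : analyticOrderAt h (z₀ + r) ≠ ⊤ := by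
    have : analyticOrderAt h (z₀ + r) = 0 :=
      (hh _ hx').analyticOrderAt_eq_zero.2 (hs _ hx)
    rw [this]; simp
  have hord : ∀ z ∈ closedBall z₀ r, analyticOrderAt h z ≠ ⊤ := fun z hz =>
    hh.analyticOrderAt_ne_top_of_isPreconnected hpc hx' hz hx0
  have hfin : {z | z ∈ closedBall z₀ r ∧ h z = 0}.Finite := by
    by_contra hinf
    obtain ⟨x, hxB, hacc⟩ := Set.Infinite.exists_accPt_of_subset_isCompact hinf
      (isCompact_closedBall z₀ r) (fun z hz => hz.1)
    have h1 : ∃ᶠ y in 𝓝[≠] x, h y = 0 := by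
      rw [accPt_iff_frequently_nhdsNE] at hacc
      exact hacc.mono fun y hy => hy.2
    have h2 := (hh x hxB).frequently_zero_iff_eventually_zero.1 h1
    exact hord x hxB (analyticOrderAt_eq_top.2 h2)
  classical
  set S := hfin.toFinset with hS
  have hSmem : ∀ z, z ∈ S ↔ z ∈ closedBall z₀ r ∧ h z = 0 := by
    intro z; simp [hS]
  set m : ℂ → ℕ := fun a => analyticOrderNatAt h a with hm
  have key : ∀ T : Finset ℂ, T ⊆ S → ∃ v : ℂ → ℂ, AnalyticOnNhd ℂ v (closedBall z₀ r) ∧
      (∀ z ∈ closedBall z₀ r, (z ∈ T ∨ z ∉ S) → v z ≠ 0) ∧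
      ∀ z ∈ closedBall z₀ r, ∀ᶠ ζ in 𝓝 z, h ζ = (∏ a ∈ T, (ζ - a) ^ (m a)) * v ζ := by
    intro T
    induction T using Finset.induction_on with
    | empty =>
      intro _
      refine ⟨h, hh, ?_, ?_⟩
      · intro z hz hz' h0
        rcases hz' with hz' | hz'
        · simp at hz'
        · exact hz' ((hSmem z).2 ⟨hz, h0⟩)
      · intro z _
        simp
    | insert b T hbT ih =>
      intro hT
      obtain ⟨v, hv, hv0, hveq⟩ := ih (fun x hx => hT (Finset.mem_insert_of_mem hx))
      have hbS : b ∈ S := hT (Finset.mem_insert_self _ _)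
      have hbB : b ∈ closedBall z₀ r := ((hSmem b).1 hbS).1
      set p : ℂ → ℂ := fun ζ => ∏ a ∈ T, (ζ - a) ^ (m a) with hp
      have hpan : AnalyticAt ℂ p b := by
        apply Finset.analyticAt_fun_prod
        intro a _
        fun_prop
      have hpb : p b ≠ 0 := by
        simp only [hp, Finset.prod_ne_zero_iff]
        intro a ha
        apply pow_ne_zero
        intro h0
        rw [sub_eq_zero] at h0
        exact hbT (h0 ▸ ha)
      have hord' : analyticOrderAt v b = analyticOrderAt h b := by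
        have h1 : analyticOrderAt h b = analyticOrderAt (p * v) b :=
          analyticOrderAt_congr (hveq b hbB)
        rw [h1, analyticOrderAt_mul hpan (hv b hbB), hpan.analyticOrderAt_eq_zero.2 hpb, zero_add]
      have hvtop : analyticOrderAt v b ≠ ⊤ := by rw [hord']; exact hord b hbB
      have hmb : analyticOrderNatAt v b = m b := by
        simp only [analyticOrderNatAt, hord', hm]
      obtain ⟨g, hg, hgb, hgeq⟩ := (hv b hbB).analyticOrderAt_ne_top.1 hvtop
      rw [hmb] at hgeq
      set v' : ℂ → ℂ := fun z => if z = b then g b else v z / (z - b) ^ (m b) with hv'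
      have hglob : ∀ ζ, v ζ = (ζ - b) ^ (m b) * v' ζ := by
        intro ζ
        by_cases hζ : ζ = b
        · subst hζ
          have := hgeq.self_of_nhds
          simp only [hv', if_true]
          simpa using this
        · simp only [hv', hζ, if_false]
          have : (ζ - b) ^ (m b) ≠ 0 := pow_ne_zero _ (sub_ne_zero.2 hζ)
          field_simp
      have hgv : v' =ᶠ[𝓝 b] g := by
        filter_upwards [hgeq] with ζ hζ
        by_cases hζb : ζ = b
        · simp [hv', hζb]
        · simp only [hv', hζb, if_false, hζ, smul_eq_mul]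
          have : (ζ - b) ^ (m b) ≠ 0 := pow_ne_zero _ (sub_ne_zero.2 hζb)
          field_simp
      refine ⟨v', ?_, ?_, ?_⟩
      · intro z hz
        by_cases hzb : z = b
        · subst hzb
          exact hg.congr hgv.symm
        · have h1 : AnalyticAt ℂ (fun z => v z / (z - b) ^ (m b)) z := by
            apply AnalyticAt.fun_div (hv z hz) (by fun_prop)
            exact pow_ne_zero _ (sub_ne_zero.2 hzb)
          apply h1.congr
          have : ∀ᶠ ζ in 𝓝 z, ζ ≠ b := isOpen_ne.mem_nhds hzb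
          filter_upwards [this] with ζ hζ
          simp [hv', hζ]
      · intro z hz hz'
        by_cases hzb : z = b
        · simp [hv', hzb, hgb]
        · have : v z ≠ 0 := by
            apply hv0 z hz
            rcases hz' with hz' | hz'
            · rw [Finset.mem_insert] at hz'
              exact Or.inl (hz'.resolve_left hzb)
            · exact Or.inr hz'
          intro h0
          apply this
          rw [hglob z, h0, mul_zero]
      · intro z hz
        filter_upwards [hveq z hz] with ζ hζ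
        rw [hζ, Finset.prod_insert hbT, hglob ζ]
        ring
  obtain ⟨v, hv, hv0, hveq⟩ := key S (Finset.Subset.refl _)
  refine ⟨S, m, v, ?_, hv, ?_, hveq⟩
  · intro a ha
    obtain ⟨h1, h2⟩ := (hSmem a).1 ha
    rcases (mem_closedBall.1 h1).lt_or_eq with h3 | h3
    · exact h3
    · exact absurd h2 (hs a h3)
  · intro z hz
    exact hv0 z hz (em _)

private theorem zeros_ord_prod {k : ℕ} (a : Fin k → ℂ) (z : ℂ) (s : Finset (Fin k)) :
    AnalyticAt ℂ (fun ζ => ∏ i ∈ s, (ζ - a i)) z ∧
      analyticOrderAt (fun ζ => ∏ i ∈ s, (ζ - a i)) z = ((s.filter (fun i => a i = z)).card : ℕ) := by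
  classical
  induction s using Finset.induction_on with
  | empty =>
    refine ⟨by simpa using analyticAt_const, ?_⟩
    simp only [Finset.prod_empty, Finset.filter_empty, Finset.card_empty, Nat.cast_zero]
    rw [(analyticAt_const).analyticOrderAt_eq_zero]
    simp
  | insert i s hi ih =>
    obtain ⟨h1, h2⟩ := ih
    have h3 : AnalyticAt ℂ (fun ζ => ζ - a i) z := by fun_prop
    have h4 : (fun ζ => ∏ j ∈ insert i s, (ζ - a j)) =
        (fun ζ => ζ - a i) * (fun ζ => ∏ j ∈ s, (ζ - a j)) := by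
      funext ζ
      simp [Finset.prod_insert hi]
    rw [h4]
    refine ⟨h3.mul h1, ?_⟩
    rw [analyticOrderAt_mul h3 h1, h2, Finset.filter_insert]
    by_cases hz : a i = z
    · subst hz
      rw [if_pos rfl, Finset.card_insert_of_notMem (by simp [hi])]
      have : analyticOrderAt (fun ζ => ζ - a i) (a i) = 1 := by simp
      rw [this]
      push_cast
      ring
    · rw [if_neg hz]
      have : analyticOrderAt (fun ζ => ζ - a i) z = 0 := by
        rw [h3.analyticOrderAt_eq_zero]
        exact sub_ne_zero.2 (fun h => hz h.symm)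
      rw [this, zero_add]

private theorem zeros_single {h : ℂ → ℂ} {z₀ : ℂ} {r : ℝ} (hr : 0 < r)
    (hh : AnalyticOnNhd ℂ h (closedBall z₀ r)) (hs : ∀ z ∈ sphere z₀ r, h z ≠ 0) :
    ∃ (k : ℕ) (a : Fin k → ℂ), (∀ i, a i ∈ ball z₀ r) ∧
      (∀ z ∈ closedBall z₀ r, analyticOrderNatAt h z = Nat.card {i // a i = z}) ∧
      (∀ z ∈ closedBall z₀ r, h z = 0 ↔ ∃ i, a i = z) ∧
      ∀ g : ℂ → ℂ, AnalyticOnNhd ℂ g (closedBall z₀ r) →
        (∮ z in C(z₀, r), g z * (deriv h z / h z)) = 2 * Real.pi * I * ∑ i, g (a i) := by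
  classical
  obtain ⟨S, m, v, hSb, hv, hv0, hveq⟩ := zeros_fact hr hh hs
  set ι := (Σ x : S, Fin (m x)) with hι
  set e : ι ≃ Fin (Fintype.card ι) := Fintype.equivFin ι with he
  set a : Fin (Fintype.card ι) → ℂ := fun i => ((e.symm i).1 : ℂ) with ha
  have hprod : ∀ ζ : ℂ, ∏ x ∈ S, (ζ - x) ^ (m x) = ∏ i, (ζ - a i) := by
    intro ζ
    have h1 : ∏ i, (ζ - a i) = ∏ x : ι, (ζ - (x.1 : ℂ)) := by
      rw [← Equiv.prod_comp e]
      simp [ha]
    rw [h1, Fintype.prod_sigma]
    simp only [Finset.prod_const, Finset.card_univ, Fintype.card_fin]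
    rw [Finset.prod_coe_sort S (fun x => (ζ - x) ^ (m x))]
  have hab : ∀ i, a i ∈ ball z₀ r := fun i => hSb _ (e.symm i).1.2
  have heq : ∀ z ∈ closedBall z₀ r, h =ᶠ[𝓝 z] (fun ζ => ∏ i, (ζ - a i)) * v := by
    intro z hz
    filter_upwards [hveq z hz] with ζ hζ
    rw [hζ, hprod ζ]; rfl
  refine ⟨Fintype.card ι, a, hab, ?_, ?_, ?_⟩
  · intro z hz
    have h1 := zeros_ord_prod a z Finset.univ
    have h2 : analyticOrderAt h z = ((Finset.univ.filter (fun i => a i = z)).card : ℕ) := by
      rw [analyticOrderAt_congr (heq z hz), analyticOrderAt_mul h1.1 (hv z hz), h1.2,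
        (hv z hz).analyticOrderAt_eq_zero.2 (hv0 z hz), add_zero]
    rw [analyticOrderNatAt, h2, ENat.toNat_natCast, Nat.card_eq_fintype_card, Fintype.card_subtype]
  · intro z hz
    have h1 := (heq z hz).self_of_nhds
    rw [h1]
    simp only [Pi.mul_apply, mul_eq_zero, hv0 z hz, or_false, Finset.prod_eq_zero_iff,
      Finset.mem_univ, true_and, sub_eq_zero]
    exact exists_congr fun i => eq_comm
  · intro g hg
    have hld : ∀ z ∈ sphere z₀ r, g z * (deriv h z / h z) =
        (∑ i, (z - a i)⁻¹ • g z) + g z * (deriv v z / v z) := by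
      intro z hz
      have hz' : z ∈ closedBall z₀ r := sphere_subset_closedBall hz
      have hza : ∀ i, z - a i ≠ 0 := by
        intro i h0
        rw [sub_eq_zero] at h0
        have := hab i
        rw [← h0, mem_ball, mem_sphere.1 hz] at this
        exact lt_irrefl _ this
      have h1 : deriv h z / h z = logDeriv ((fun ζ => ∏ i, (ζ - a i)) * v) z := by
        rw [← logDeriv_apply]
        exact (logDeriv_congr_nhds (heq z hz')).self_of_nhds
      have h2 : logDeriv ((fun ζ => ∏ i, (ζ - a i)) * v) z =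
          logDeriv (fun ζ => ∏ i, (ζ - a i)) z + logDeriv v z :=
        logDeriv_mul z (Finset.prod_ne_zero_iff.2 fun i _ => hza i) (hv0 z hz')
          (zeros_ord_prod a z Finset.univ).1.differentiableAt (hv z hz').differentiableAt
      have h3 : logDeriv (fun ζ => ∏ i, (ζ - a i)) z = ∑ i, (z - a i)⁻¹ := by
        have h4 := logDeriv_prod (s := Finset.univ) (f := fun i ζ => ζ - a i) (x := z)
          (fun i _ => hza i) (fun i _ => by fun_prop)
        rw [h4]
        refine Finset.sum_congr rfl fun i _ => ?_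
        rw [logDeriv_apply]
        simp
      rw [h1, h2, h3, logDeriv_apply, mul_add, Finset.mul_sum]
      congr 1
      refine Finset.sum_congr rfl fun i _ => ?_
      rw [smul_eq_mul, mul_comm]
    have hci : ∀ i, CircleIntegrable (fun z => (z - a i)⁻¹ • g z) z₀ r := by
      intro i
      apply ContinuousOn.circleIntegrable hr.le
      intro z hz
      have hz' : z ∈ closedBall z₀ r := sphere_subset_closedBall hz
      have hza : z - a i ≠ 0 := by
        intro h0
        rw [sub_eq_zero] at h0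
        have := hab i
        rw [← h0, mem_ball, mem_sphere.1 hz] at this
        exact lt_irrefl _ this
      apply ContinuousAt.continuousWithinAt
      exact ((continuousAt_id.sub continuousAt_const).inv₀ hza).smul (hg z hz').continuousAt
    have hvc : AnalyticOnNhd ℂ (fun z => g z * (deriv v z / v z)) (closedBall z₀ r) := by
      intro z hz
      exact (hg z hz).fun_mul ((hv z hz).deriv.fun_div (hv z hz) (hv0 z hz))
    have hd : CircleIntegrable (fun z => g z * (deriv v z / v z)) z₀ r := by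
      apply ContinuousOn.circleIntegrable hr.le
      intro z hz
      exact (hvc z (sphere_subset_closedBall hz)).continuousAt.continuousWithinAt
    rw [circleIntegral.integral_congr hr.le hld, circleIntegral.integral_add
      (CircleIntegrable.fun_sum _ fun i _ => hci i) hd,
      circleIntegral.integral_fun_sum (fun i _ => hci i)]
    have h0 : (∮ z in C(z₀, r), g z * (deriv v z / v z)) = 0 := by
      refine circleIntegral_eq_zero_of_differentiable_on_off_countable hr.le countable_empty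
        (fun z hz => (hvc z hz).continuousAt.continuousWithinAt) ?_
      intro z hz
      exact (hvc z (ball_subset_closedBall hz.1)).differentiableAt
    rw [h0, add_zero, Finset.mul_sum]
    refine Finset.sum_congr rfl fun i _ => ?_
    have h1 : DiffContOnCl ℂ g (ball z₀ r) := by
      refine ⟨fun z hz => (hg z (ball_subset_closedBall hz)).differentiableAt.differentiableWithinAt, ?_⟩
      rw [closure_ball z₀ hr.ne']
      exact fun z hz => (hg z hz).continuousAt.continuousWithinAt
    rw [h1.circleIntegral_sub_inv_smul (hab i)]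
    simp [smul_eq_mul]


variable {E : Type} [NormedAddCommGroup E] [NormedSpace ℂ E] [FiniteDimensional ℂ E]

omit [FiniteDimensional ℂ E] in
private theorem zeros_an {G : E × ℂ → ℂ} {u : E} {z : ℂ} (h : HolAt G (u, z)) :
    AnalyticAt ℂ (fun ζ => G (u, ζ)) z := by
  rw [Complex.analyticAt_iff_eventually_differentiableAt]
  have h1 : ContinuousAt (fun ζ : ℂ => (u, ζ)) z := by fun_prop
  filter_upwards [h1.eventually h] with ζ hζ
  exact hζ.comp ζ (by fun_prop)

omit [FiniteDimensional ℂ E] in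
private theorem zeros_open (G : E × ℂ → ℂ) : IsOpen {p | HolAt G p} := by
  rw [isOpen_iff_mem_nhds]
  intro p hp
  exact eventually_eventually_nhds.2 hp

omit [FiniteDimensional ℂ E] in
private theorem zeros_open2 (G : E × ℂ → ℂ) : IsOpen {p | HolAt G p ∧ G p ≠ 0} := by
  rw [isOpen_iff_mem_nhds]
  rintro p ⟨hp, h0⟩
  have h1 : ContinuousAt G p := hp.self_of_nhds.continuousAt
  exact (eventually_eventually_nhds.2 hp).and (h1.eventually_ne h0)

private theorem zeros_int {G g : E × ℂ → ℂ} {z₀ : ℂ} {r : ℝ} (hr : 0 < r) {W : Set E}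
    (hW : IsOpen W) (hG : ∀ u ∈ W, ∀ z ∈ sphere z₀ r, HolAt G (u, z))
    (h0 : ∀ u ∈ W, ∀ z ∈ sphere z₀ r, G (u, z) ≠ 0)
    (hg : ∀ u ∈ W, ∀ z ∈ sphere z₀ r, HolAt g (u, z)) :
    DifferentiableOn ℂ (fun u => ∮ z in C(z₀, r), g (u, z) *
      (deriv (fun ζ => G (u, ζ)) z / G (u, z))) W := by
  set Φ : E × ℂ → ℂ := fun p => g p * (fderiv ℂ G p (0, 1) / G p) with hΦ
  have hΦd : ∀ p, HolAt G p → G p ≠ 0 → HolAt g p → DifferentiableAt ℂ Φ p := by
    intro p h1 h2 h3
    have h4 : DifferentiableAt ℂ (fun y => fderiv ℂ G y ((0 : E), (1 : ℂ))) p :=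
      OkaP.scv1_dir (zeros_open G)
        (fun y hy => (HolAt.differentiableAt hy).differentiableWithinAt) _ h1
    have h5 : DifferentiableAt ℂ (fun y => (G y)⁻¹) p := h1.self_of_nhds.inv h2
    have h6 := h3.self_of_nhds.mul (h4.mul h5)
    have h7 : Φ = g * ((fun y => (fderiv ℂ G y) (0, 1)) * fun y => (G y)⁻¹) := by
      funext y
      simp only [hΦ, div_eq_mul_inv, Pi.mul_apply]
    rw [h7]
    exact h6
  have hsph : ∀ θ : ℝ, circleMap z₀ r θ ∈ sphere z₀ r := fun θ => circleMap_mem_sphere z₀ hr.le θ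
  have hder : ∀ u ∈ W, ∀ z ∈ sphere z₀ r,
      deriv (fun ζ => G (u, ζ)) z = fderiv ℂ G (u, z) (0, 1) := by
    intro u hu z hz
    have h1 : HasFDerivAt G (fderiv ℂ G (u, z)) (u, z) := (hG u hu z hz).self_of_nhds.hasFDerivAt
    have h2 : HasDerivAt (fun ζ : ℂ => (u, ζ)) ((0 : E), (1 : ℂ)) z :=
      (hasDerivAt_const z u).prodMk (hasDerivAt_id z)
    exact (h1.comp_hasDerivAt z h2).deriv
  have hI : DifferentiableOn ℂ (fun u => ∫ θ in (0 : ℝ)..(2 * Real.pi),
      deriv (circleMap z₀ r) θ • Φ (u, circleMap z₀ r θ)) W := by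
    apply OkaP.differentiableOn_integral hW
    · rintro ⟨u, θ⟩ ⟨hu, -⟩
      apply ContinuousAt.continuousWithinAt
      have h1 : ContinuousAt Φ (u, circleMap z₀ r θ) :=
        (hΦd _ (hG u hu _ (hsph θ)) (h0 u hu _ (hsph θ)) (hg u hu _ (hsph θ))).continuousAt
      have h2 : Continuous (fun q : E × ℝ => (q.1, circleMap z₀ r q.2)) :=
        continuous_fst.prodMk ((continuous_circleMap z₀ r).comp continuous_snd)
      have h3 : ContinuousAt (fun q : E × ℝ => Φ (q.1, circleMap z₀ r q.2)) (u, θ) :=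
        ContinuousAt.comp (g := Φ) (f := fun q : E × ℝ => (q.1, circleMap z₀ r q.2)) h1
          h2.continuousAt
      have h4 : Continuous (fun q : E × ℝ => deriv (circleMap z₀ r) q.2) := by
        simp only [deriv_circleMap]
        exact ((continuous_circleMap 0 r).comp continuous_snd).mul continuous_const
      exact h4.continuousAt.smul h3
    · intro θ _ u hu
      apply DifferentiableAt.differentiableWithinAt
      have h1 := hΦd _ (hG u hu _ (hsph θ)) (h0 u hu _ (hsph θ)) (hg u hu _ (hsph θ))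
      have h2 : DifferentiableAt ℂ (fun u : E => (u, circleMap z₀ r θ)) u := by fun_prop
      have h3 : DifferentiableAt ℂ (fun u : E => Φ (u, circleMap z₀ r θ)) u :=
        DifferentiableAt.comp (g := Φ) (f := fun u : E => (u, circleMap z₀ r θ)) u h1 h2
      exact h3.fun_const_smul _
  refine hI.congr fun u hu => ?_
  simp only [circleIntegral]
  refine intervalIntegral.integral_congr fun θ _ => ?_
  simp only [hΦ]
  rw [hder u hu _ (hsph θ)]

theorem zeros_param (G : E × ℂ → ℂ) (u₀ : E) (z₀ : ℂ) (r : ℝ) (hr : 0 < r)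
    (hG : ∀ z ∈ closedBall z₀ r, HolAt G (u₀, z)) (hs : ∀ z ∈ sphere z₀ r, G (u₀, z) ≠ 0) :
    ∃ (k : ℕ) (α : E → Fin k → ℂ),
      (∀ᶠ u in 𝓝 u₀, (∀ i, α u i ∈ ball z₀ r) ∧
        (∀ z ∈ closedBall z₀ r, HolAt G (u, z)) ∧ (∀ z ∈ sphere z₀ r, G (u, z) ≠ 0) ∧
        (∀ z ∈ closedBall z₀ r, analyticOrderNatAt (fun ζ => G (u, ζ)) z =
          Nat.card {i // α u i = z}) ∧
        (∀ z ∈ closedBall z₀ r, G (u, z) = 0 ↔ ∃ i, α u i = z)) ∧
      ∀ g : E × ℂ → ℂ, (∀ z ∈ closedBall z₀ r, HolAt g (u₀, z)) →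
        HolAt (fun u => ∑ i, g (u, α u i)) u₀ := by
  have tube : ∀ (O : Set (E × ℂ)) (K : Set ℂ), IsOpen O → IsCompact K →
      (∀ z ∈ K, (u₀, z) ∈ O) → ∃ δ : ℝ, 0 < δ ∧ ∀ u ∈ ball u₀ δ, ∀ z ∈ K, (u, z) ∈ O := by
    intro O K hO hK hOK
    obtain ⟨A, B, hA, hB, huA, hKB, hAB⟩ := generalized_tube_lemma
      (isCompact_singleton (x := u₀)) hK hO (by
        rintro ⟨u, z⟩ ⟨hu, hz⟩
        rw [mem_singleton_iff] at hu
        subst hu
        exact hOK z hz)
    obtain ⟨δ, hδ, hb⟩ := Metric.isOpen_iff.1 hA u₀ (huA rfl)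
    exact ⟨δ, hδ, fun u hu z hz => hAB ⟨hb hu, hKB hz⟩⟩
  obtain ⟨δ₁, hδ₁, h1⟩ := tube _ _ (zeros_open G) (isCompact_closedBall z₀ r) hG
  obtain ⟨δ₂, hδ₂, h2⟩ := tube _ _ (zeros_open2 G) (isCompact_sphere z₀ r)
    (fun z hz => ⟨hG z (sphere_subset_closedBall hz), hs z hz⟩)
  set δ := min δ₁ δ₂ with hδdef
  have hδ : 0 < δ := lt_min hδ₁ hδ₂
  have hW1 : ∀ u ∈ ball u₀ δ, ∀ z ∈ closedBall z₀ r, HolAt G (u, z) := fun u hu z hz =>
    h1 u (ball_subset_ball (min_le_left _ _) hu) z hz
  have hW2 : ∀ u ∈ ball u₀ δ, ∀ z ∈ sphere z₀ r, G (u, z) ≠ 0 := fun u hu z hz =>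
    (h2 u (ball_subset_ball (min_le_right _ _) hu) z hz).2
  have hsingle : ∀ u ∈ ball u₀ δ, ∃ (k : ℕ) (a : Fin k → ℂ), (∀ i, a i ∈ ball z₀ r) ∧
      (∀ z ∈ closedBall z₀ r, analyticOrderNatAt (fun ζ => G (u, ζ)) z =
        Nat.card {i // a i = z}) ∧
      (∀ z ∈ closedBall z₀ r, G (u, z) = 0 ↔ ∃ i, a i = z) ∧
      ∀ g : ℂ → ℂ, AnalyticOnNhd ℂ g (closedBall z₀ r) →
        (∮ z in C(z₀, r), g z * (deriv (fun ζ => G (u, ζ)) z / G (u, z))) =
          2 * Real.pi * I * ∑ i, g (a i) := fun u hu =>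
    zeros_single hr (fun z hz => zeros_an (hW1 u hu z hz)) (hW2 u hu)
  classical
  let kk : E → ℕ := fun u => if hu : u ∈ ball u₀ δ then (hsingle u hu).choose else 0
  have hkk : ∀ u (hu : u ∈ ball u₀ δ), kk u = (hsingle u hu).choose := fun u hu => by
    simp only [kk, hu, dif_pos]
  have hpi : (2 * Real.pi * I : ℂ) ≠ 0 := by
    simp [Real.pi_ne_zero]
  have hkI : ∀ u ∈ ball u₀ δ, (∮ z in C(z₀, r), (fun _ : E × ℂ => (1 : ℂ)) (u, z) *
      (deriv (fun ζ => G (u, ζ)) z / G (u, z))) = 2 * Real.pi * I * (kk u : ℂ) := by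
    intro u hu
    obtain ⟨a, -, -, -, h4⟩ := (hsingle u hu).choose_spec
    have h5 := h4 (fun _ => 1) (fun _ _ => analyticAt_const)
    rw [hkk u hu]
    simpa using h5
  have hdiff := zeros_int (G := G) (g := fun _ : E × ℂ => (1 : ℂ)) hr (isOpen_ball (x := u₀) (ε := δ))
    (fun u hu z hz => hW1 u hu z (sphere_subset_closedBall hz)) hW2
    (fun u _ z _ => Eventually.of_forall fun _ => differentiableAt_const _)
  have hcont : ContinuousOn (fun u => (kk u : ℝ)) (ball u₀ δ) := by
    have h3 : ContinuousOn (fun u => ((∮ z in C(z₀, r), (fun _ : E × ℂ => (1 : ℂ)) (u, z) *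
      (deriv (fun ζ => G (u, ζ)) z / G (u, z))) / (2 * Real.pi * I)).re) (ball u₀ δ) :=
      Complex.continuous_re.comp_continuousOn (hdiff.continuousOn.div_const _)
    refine h3.congr fun u hu => ?_
    simp only
    rw [hkI u hu, mul_div_cancel_left₀ _ hpi]
    simp
  have hcontN : ContinuousOn kk (ball u₀ δ) := by
    rw [Nat.isClosedEmbedding_coe_real.isInducing.continuousOn_iff]
    exact hcont
  have hconst : ∀ u ∈ ball u₀ δ, kk u = kk u₀ := fun u hu =>
    (convex_ball u₀ δ).isPreconnected.constant hcontN hu (mem_ball_self hδ)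
  have hα : ∀ u ∈ ball u₀ δ, ∃ a : Fin (kk u₀) → ℂ, (∀ i, a i ∈ ball z₀ r) ∧
      (∀ z ∈ closedBall z₀ r, analyticOrderNatAt (fun ζ => G (u, ζ)) z =
        Nat.card {i // a i = z}) ∧
      (∀ z ∈ closedBall z₀ r, G (u, z) = 0 ↔ ∃ i, a i = z) ∧
      ∀ g : ℂ → ℂ, AnalyticOnNhd ℂ g (closedBall z₀ r) →
        (∮ z in C(z₀, r), g z * (deriv (fun ζ => G (u, ζ)) z / G (u, z))) =
          2 * Real.pi * I * ∑ i, g (a i) := by
    intro u hu
    have h3 := (hsingle u hu).choose_spec
    rw [← hkk u hu, hconst u hu] at h3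
    exact h3
  let α : E → Fin (kk u₀) → ℂ := fun u => if hu : u ∈ ball u₀ δ then (hα u hu).choose else 0
  have hα' : ∀ u (hu : u ∈ ball u₀ δ), α u = (hα u hu).choose := fun u hu => by
    simp only [α, hu, dif_pos]
  have hspec : ∀ u ∈ ball u₀ δ, (∀ i, α u i ∈ ball z₀ r) ∧
      (∀ z ∈ closedBall z₀ r, analyticOrderNatAt (fun ζ => G (u, ζ)) z =
        Nat.card {i // α u i = z}) ∧
      (∀ z ∈ closedBall z₀ r, G (u, z) = 0 ↔ ∃ i, α u i = z) ∧
      ∀ g : ℂ → ℂ, AnalyticOnNhd ℂ g (closedBall z₀ r) →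
        (∮ z in C(z₀, r), g z * (deriv (fun ζ => G (u, ζ)) z / G (u, z))) =
          2 * Real.pi * I * ∑ i, g (α u i) := by
    intro u hu
    rw [hα' u hu]
    exact (hα u hu).choose_spec
  refine ⟨kk u₀, α, ?_, ?_⟩
  · filter_upwards [ball_mem_nhds u₀ hδ] with u hu
    obtain ⟨h3, h4, h5, -⟩ := hspec u hu
    exact ⟨h3, hW1 u hu, hW2 u hu, h4, h5⟩
  · intro g hg
    obtain ⟨δ₃, hδ₃, h3⟩ := tube _ _ (zeros_open g) (isCompact_closedBall z₀ r) hg
    set η := min δ δ₃ with hη
    have hη0 : 0 < η := lt_min hδ hδ₃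
    have hs1 : ball u₀ η ⊆ ball u₀ δ := ball_subset_ball (min_le_left _ _)
    have hs3 : ball u₀ η ⊆ ball u₀ δ₃ := ball_subset_ball (min_le_right _ _)
    have hd := zeros_int (G := G) (g := g) hr (isOpen_ball (x := u₀) (ε := η))
      (fun u hu z hz => hW1 u (hs1 hu) z (sphere_subset_closedBall hz))
      (fun u hu => hW2 u (hs1 hu))
      (fun u hu z hz => h3 u (hs3 hu) z (sphere_subset_closedBall hz))
    have hd2 : DifferentiableOn ℂ (fun u => ∑ i, g (u, α u i)) (ball u₀ η) := by
      refine (hd.const_mul ((2 * Real.pi * I : ℂ)⁻¹)).congr fun u hu => ?_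
      obtain ⟨-, -, -, h4⟩ := hspec u (hs1 hu)
      have h5 := h4 (fun z => g (u, z)) (fun z hz => zeros_an (h3 u (hs3 hu) z hz))
      rw [h5, inv_mul_cancel_left₀ hpi]
    filter_upwards [ball_mem_nhds u₀ hη0] with u hu
    exact (hd2 u hu).differentiableAt (isOpen_ball.mem_nhds hu)

end Pool.Agent.Moi
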